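import Pool.Agent.Run7.h241.Bu3

/-!
# The chain criterion, prime powers, and the order of `B_{2,3}`
-/

set_option autoImplicit false

namespace Run7.h241.Bu

open Subgroup
open scoped commutatorElement

universe u

/-- The subgroup of `B_{m+1,n}` generated by the first `m` generators. -/
def fst (m n : ℕ) : Subgroup (B (m + 1) n) :=
  closure (Set.range fun i : Fin m => gn (m + 1) n i.castSucc)

/-- The last generator of `B_{m+1,n}`. -/
def lst (m n : ℕ) : B (m + 1) n := gn (m + 1) n (Fin.last m)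

/-- The chain `1 = C_0 ≤ C_1 ≤ …` of fully invariant subgroups of `B_{m+1,n}`: `C_{i+1}` is generated by
the images under endomorphisms of the elements `c ∈ ⟨x_1, …, x_m⟩` for which
`[c, x_{m+1} c x_{m+1}⁻¹]` is in `C_i`. -/
def chain (m n : ℕ) : ℕ → Subgroup (B (m + 1) n)
  | 0 => ⊥
  | i + 1 => closure {y | ∃ (α : B (m + 1) n →* B (m + 1) n) (c : B (m + 1) n),
      c ∈ fst m n ∧ ⁅c, lst m n * c * (lst m n)⁻¹⁆ ∈ chain m n i ∧ y = α c}

theorem map_chain_le {m n : ℕ} {G : Type u} [Group G] (hG : ∀ x : G, x ^ n = 1) (i : ℕ)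
    (φ : B (m + 1) n →* G) : chain m n i ≤ (ser G i).comap φ := by
  induction i generalizing φ with
  | zero =>
    intro y hy
    have : y = 1 := hy
    rw [this]
    exact one_mem _
  | succ i ih =>
    rw [chain, closure_le]
    rintro _ ⟨α, c, hc, hci, rfl⟩
    change φ (α c) ∈ nx (ser G i)
    refine subset_closure fun g => ?_
    -- the homomorphism agreeing with `φ ∘ α` on the first generators
    let ψ : B (m + 1) n →* G := lf hG (Fin.snoc (fun j : Fin m => φ (α (gn (m + 1) n j.castSucc))) g)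
    have h1 : ∀ z ∈ fst m n, ψ z = φ (α z) := by
      intro z hz
      have h2 : fst m n ≤ MonoidHom.eqLocus ψ (φ.comp α) := by
        rw [fst, closure_le]
        rintro _ ⟨j, rfl⟩
        change ψ (gn (m + 1) n j.castSucc) = φ (α (gn (m + 1) n j.castSucc))
        rw [lf_gn, Fin.snoc_castSucc]
      exact h2 hz
    have h2 : ψ (lst m n) = g := by
      rw [lst, lf_gn, Fin.snoc_last]
    have h3 : ψ ⁅c, lst m n * c * (lst m n)⁻¹⁆ ∈ ser G i := ih ψ hci
    rw [map_commutatorElement, map_mul, map_mul, map_inv, h1 c hc, h2] at h3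
    exact h3

/-- **The chain criterion.** -/
theorem inL_of_chain {d m n i : ℕ} (hd : InL.{u} d) (hn : 1 ≤ n)
    (h : gen (m + 1) n 0 ^ d ∈ chain m n i) : InL.{u} n := by
  intro G _ hG S hS
  have hT : Monoid.IsTorsion G := fun x => isOfFinOrder_iff_pow_eq_one.2 ⟨n, hn, hG x⟩
  refine finite_of_pow (n := n) hd (ser_normal i) (lfin_ser hT i) (fun g => ?_) S hS
  have h1 := map_chain_le hG i (lf (m := m + 1) hG fun _ => g) h
  change lf (m := m + 1) hG (fun _ => g) (gn (m + 1) n ⟨0, _⟩ ^ d) ∈ ser G i at h1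
  rwa [map_pow, lf_gn] at h1

theorem wd_mem_fst {m n : ℕ} {x : ℕ → B (m + 1) n} (h : ∀ i < m, x i ∈ fst m n) (r : ℕ)
    (hr : r < m) : wd x r ∈ fst m n := by
  induction r with
  | zero => exact h 0 hr
  | succ r ih =>
    have h1 := ih (by omega)
    have h2 := h (r + 1) hr
    rw [wd, commutatorElement_def]
    exact mul_mem (mul_mem (mul_mem h1 (mul_mem (mul_mem h2 h1) (inv_mem h2))) (inv_mem h1))
      (inv_mem (mul_mem (mul_mem h2 h1) (inv_mem h2)))

theorem gen_mem_fst (m n : ℕ) (i : ℕ) (hi : i < m) : gen (m + 1) n i ∈ fst m n := by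
  rw [gen, dif_pos (by omega)]
  exact subset_closure ⟨⟨i, hi⟩, rfl⟩

theorem pw_mem_fst (d m n : ℕ) (i : ℕ) (hi : i < m) : pw d (gen (m + 1) n) i ∈ fst m n := by
  by_cases h0 : i = 0
  · subst h0
    exact pow_mem (gen_mem_fst m n 0 hi) d
  · rw [pw, if_neg h0]
    exact gen_mem_fst m n i hi

/-- The criterion `u_r = 1` is a case of the chain criterion. -/
theorem chain_of_U {d r n : ℕ} (h : U d r n = 1) : gen (r + 1) n 0 ^ d ∈ chain r n r := by
  have key : ∀ i ≤ r, ∀ x : ℕ → B (r + 1) n, wd (pw d x) (r - i) ∈ chain r n i := by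
    intro i
    induction i with
    | zero =>
      intro _ x
      rw [Nat.sub_zero, law_of_U h b_pow x]
      exact one_mem _
    | succ i ih =>
      intro hi x
      refine subset_closure ⟨lf b_pow fun j : Fin (r + 1) => x j,
        wd (pw d (gen (r + 1) n)) (r - (i + 1)),
        wd_mem_fst (pw_mem_fst d r n) _ (by omega), ?_, ?_⟩
      · have h1 := ih (by omega)
          (Function.update (gen (r + 1) n) (r - (i + 1) + 1) (lst r n))
        have h2 : r - i = (r - (i + 1)) + 1 := by omega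
        rw [h2] at h1
        simp only [wd] at h1
        have h4 : pw d (Function.update (gen (r + 1) n) (r - (i + 1) + 1) (lst r n))
            (r - (i + 1) + 1) = lst r n := by
          rw [pw, if_neg (by omega), Function.update_self]
        rw [h4] at h1
        have h3 : wd (pw d (Function.update (gen (r + 1) n) (r - (i + 1) + 1) (lst r n)))
            (r - (i + 1)) = wd (pw d (gen (r + 1) n)) (r - (i + 1)) :=
          wd_congr (pw_congr fun j hj => Function.update_of_ne (by omega) _ _)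
        rwa [h3] at h1
      · rw [map_wd, map_pw]
        refine wd_congr (pw_congr fun j hj => ?_)
        rw [gen, dif_pos (show j < r + 1 by omega), lf_gn]
  have h1 := key r le_rfl (gen (r + 1) n)
  rwa [Nat.sub_self] at h1

/-! ### prime powers -/

theorem b_nilpotent {m p k : ℕ} (hp : p.Prime) [Finite (B m (p ^ k))] :
    Group.IsNilpotent (B m (p ^ k)) := by
  haveI := Fact.mk hp
  exact IsPGroup.isNilpotent (p := p) fun x => ⟨k, b_pow x⟩

theorem class_ge {d r p k : ℕ} (hp : p.Prime) (hf : Finite (B (r + 1) (p ^ k)))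
    (h : U d r (p ^ k) ≠ 1) : 2 ^ (r + 1) - 1 ≤ Group.nilpotencyClass (B (r + 1) (p ^ k)) := by
  haveI := b_nilpotent (m := r + 1) (k := k) hp
  by_contra hlt
  apply h
  apply U_of_class
  rw [lcs, Subgroup.lowerCentralSeries_eq_bot_iff_nilpotencyClass_le]
  omega

/-- the normal closure of the first generator is not soluble of derived length `≤ r` -/
theorem derived_ne {d r n : ℕ} (h : U d r n ≠ 1) :
    derivedSeries (normalClosure {gen (r + 1) n 0 ^ d}) r ≠ ⊥ := fun h1 => h (U_of_derived h1)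

/-! ### the order of `B_{2,3}` -/

/-- The Heisenberg group over `ZMod 3`. -/
@[ext] structure Hei where
  a : ZMod 3
  b : ZMod 3
  c : ZMod 3
deriving DecidableEq

instance : Mul Hei := ⟨fun x y => ⟨x.a + y.a, x.b + y.b, x.c + y.c + x.a * y.b⟩⟩
instance : One Hei := ⟨⟨0, 0, 0⟩⟩
instance : Inv Hei := ⟨fun x => ⟨-x.a, -x.b, -x.c + x.a * x.b⟩⟩

theorem Hei.mul_def (x y : Hei) : x * y = ⟨x.a + y.a, x.b + y.b, x.c + y.c + x.a * y.b⟩ := rfl
theorem Hei.one_def : (1 : Hei) = ⟨0, 0, 0⟩ := rfl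
theorem Hei.inv_def (x : Hei) : x⁻¹ = ⟨-x.a, -x.b, -x.c + x.a * x.b⟩ := rfl

instance : Group Hei where
  mul_assoc x y z := by
    simp only [Hei.mul_def]
    ext <;> simp only [] <;> ring
  one_mul x := by
    simp only [Hei.mul_def, Hei.one_def]
    ext <;> simp only [] <;> ring
  mul_one x := by
    simp only [Hei.mul_def, Hei.one_def]
    ext <;> simp only [] <;> ring
  inv_mul_cancel x := by
    simp only [Hei.mul_def, Hei.one_def, Hei.inv_def]
    ext <;> simp only [] <;> ring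

theorem hei_cube (x : Hei) : x ^ 3 = 1 := by
  have h : x ^ 3 = x * x * x := by rw [pow_succ, pow_succ, pow_one]
  rw [h, Hei.mul_def, Hei.mul_def, Hei.one_def]
  have h3 : (3 : ZMod 3) = 0 := by decide
  ext
  · change x.a + x.a + x.a = 0
    linear_combination x.a * h3
  · change x.b + x.b + x.b = 0
    linear_combination x.b * h3
  · change x.c + x.c + x.a * x.b + x.c + (x.a + x.a) * x.b = 0
    linear_combination (x.c + x.a * x.b) * h3

def heiEquiv : Hei ≃ ZMod 3 × ZMod 3 × ZMod 3 where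
  toFun x := (x.a, x.b, x.c)
  invFun x := ⟨x.1, x.2.1, x.2.2⟩
  left_inv _ := rfl
  right_inv _ := rfl

theorem card_hei : Nat.card Hei = 27 := by
  rw [Nat.card_congr heiEquiv, Nat.card_prod, Nat.card_prod, Nat.card_zmod]

theorem hei_top : closure (Set.range ![(⟨1, 0, 0⟩ : Hei), ⟨0, 1, 0⟩]) = ⊤ := by
  rw [eq_top_iff]
  intro g _
  set P := closure (Set.range ![(⟨1, 0, 0⟩ : Hei), ⟨0, 1, 0⟩])
  have hx : (⟨1, 0, 0⟩ : Hei) ∈ P := subset_closure ⟨0, rfl⟩
  have hy : (⟨0, 1, 0⟩ : Hei) ∈ P := subset_closure ⟨1, rfl⟩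
  have hpow : ∀ (u v w : ZMod 3) (j : ℕ), (v = 0 ∨ u = 0) →
      (⟨u, v, w⟩ : Hei) ^ j = ⟨j * u, j * v, j * w⟩ := by
    intro u v w j huv
    induction j with
    | zero => simp [Hei.one_def]
    | succ j ih =>
      rw [pow_succ, ih, Hei.mul_def]
      rcases huv with rfl | rfl
      · ext <;> push_cast <;> ring
      · ext <;> push_cast <;> ring
  have hz : (⟨0, 0, 1⟩ : Hei) ∈ P := by
    have h1 : (⟨1, 0, 0⟩ : Hei) * ⟨0, 1, 0⟩ * (⟨1, 0, 0⟩ : Hei)⁻¹ * (⟨0, 1, 0⟩ : Hei)⁻¹ = ⟨0, 0, 1⟩ := by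
      simp only [Hei.mul_def, Hei.inv_def]
      decide
    rw [← h1]
    exact mul_mem (mul_mem (mul_mem hx hy) (inv_mem hx)) (inv_mem hy)
  have h1 : g = (⟨0, 1, 0⟩ : Hei) ^ g.b.val * (⟨1, 0, 0⟩ : Hei) ^ g.a.val *
      (⟨0, 0, 1⟩ : Hei) ^ g.c.val := by
    rw [hpow _ _ _ _ (Or.inr rfl), hpow _ _ _ _ (Or.inl rfl), hpow _ _ _ _ (Or.inl rfl)]
    simp only [Hei.mul_def, ZMod.natCast_zmod_val]
    ext <;> simp
  rw [h1]
  exact mul_mem (mul_mem (pow_mem hy _) (pow_mem hx _)) (pow_mem hz _)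

theorem card_b23 (h : Finite (B 2 3)) : 27 ≤ Nat.card (B 2 3) := by
  have h1 : Function.Surjective (lf hei_cube ![(⟨1, 0, 0⟩ : Hei), ⟨0, 1, 0⟩]) := by
    rw [← MonoidHom.range_eq_top, range_lf, hei_top]
  have h2 := Nat.card_le_card_of_surjective _ h1
  rwa [card_hei] at h2

end Run7.h241.Bu
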