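import Mathlib
import Pool.Agent.Y705.EP.Pig

set_option autoImplicit false

/-! Fields with small norm groups, `p` odd: roots of unity and differences of `p`-th powers are
units up to few exceptional classes; small units. -/

namespace Run7.h241.EQ

open Finset
open Pool.Agent.Y920.EP Pool.Agent.Y705.EP

section

variable {F : Type} [Field F] {A : Type} [CommGroup A] {φ : Fˣ →* A} {M : ℕ}

/-- elements are comparable with `1` -/
lemma cmp (h : φ (-1) = 1) (hL : HL φ M) {r : Fˣ} (hr : φ r ≠ 1) (hen : En φ M r) (e : Fˣ) :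
    Le φ (3 * M) 1 e ∨ Le φ (3 * M) 1 e⁻¹ := by
  obtain ⟨c1, -, -⟩ := t_CALC F A φ M h hL
  have key : Le φ (3 * M) e 1 ∨ Le φ (3 * M) 1 e := by
    by_cases he : φ e = 1
    · have h1 : φ (e * r) ≠ 1 := by rw [map_mul, he, one_mul]; exact hr
      have h2 : Le φ M e (e * r) := by
        have := le_mul e hen.1
        rwa [mul_one] at this
      have h3 : Le φ M (e * r) e := by
        have := le_mul e hen.2
        rwa [mul_one] at this
      rcases c1 _ h1 with h4 | h4
      · right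
        exact le_mono (by omega) (le_tr h4 h3)
      · left
        exact le_mono (by omega) (le_tr h2 h4)
    · rcases c1 _ he with h4 | h4
      · exact Or.inr (le_mono (by omega) h4)
      · exact Or.inl (le_mono (by omega) h4)
  rcases key with h1 | h1
  · right
    have := le_mul e⁻¹ h1
    rwa [inv_mul_cancel, mul_one] at this
  · exact Or.inl h1

/-- roots of unity are units, with a bound which does not depend on the order -/
theorem root_unit (h : φ (-1) = 1) (hL : HL φ M) {r : Fˣ} (hr : φ r ≠ 1) (hen : En φ M r)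
    (n : ℕ) (hn : 1 ≤ n) (e : Fˣ) (he : e ^ n = 1) : En φ (6 * M) e := by
  classical
  have : NeZero n := ⟨by omega⟩
  have hfin : {g : Fˣ | g ^ n = 1}.Finite := by
    have h0 : Finite (rootsOfUnity n F) := inferInstance
    exact (Set.toFinite ((rootsOfUnity n F : Subgroup Fˣ) : Set Fˣ)).subset
      (fun g hg => by simpa [mem_rootsOfUnity] using hg)
  set G : Finset Fˣ := hfin.toFinset with hG
  have hmem : ∀ g : Fˣ, g ∈ G ↔ g ^ n = 1 := fun g => by
    rw [hG, Set.Finite.mem_toFinset]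
    rfl
  set P : Finset Fˣ := G.filter fun g => Le φ (3 * M) 1 g with hP
  have hP1 : (1 : Fˣ) ∈ P := by
    rw [hP, mem_filter, hmem, one_pow]
    exact ⟨rfl, le_refl' _ _⟩
  have hPG : P ⊆ G := filter_subset _ _
  have hcov : G ⊆ P ∪ P.image (fun g => g⁻¹) := by
    intro g hg
    rw [mem_union, mem_image]
    rcases cmp h hL hr hen g with h1 | h1
    · left
      rw [hP, mem_filter]
      exact ⟨hg, h1⟩
    · right
      refine ⟨g⁻¹, ?_, inv_inv g⟩
      rw [hP, mem_filter, hmem, inv_pow, (hmem g).1 hg, inv_one]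
      exact ⟨rfl, h1⟩
  have hcard : G.card < P.card + P.card := by
    have h1 := card_union_add_card_inter P (P.image (fun g => g⁻¹))
    have h2 : (P.image (fun g => g⁻¹)).card = P.card :=
      card_image_of_injective _ inv_injective
    have h3 : 0 < (P ∩ P.image (fun g => g⁻¹)).card := by
      rw [card_pos]
      refine ⟨1, mem_inter.2 ⟨hP1, mem_image.2 ⟨1, hP1, inv_one⟩⟩⟩
    have h4 := card_le_card hcov
    omega
  have key : ∀ g : Fˣ, g ^ n = 1 → Le φ (6 * M) 1 g := by
    intro g hg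
    have hsub : P.image (fun b => g * b⁻¹) ⊆ G := by
      intro x hx
      obtain ⟨b, hb, rfl⟩ := mem_image.1 hx
      rw [hmem, mul_pow, hg, inv_pow, (hmem b).1 (hPG hb), inv_one, mul_one]
    have h2 : (P.image (fun b => g * b⁻¹)).card = P.card :=
      card_image_of_injective _ (fun a b hab => by simpa using hab)
    obtain ⟨a, ha⟩ := inter_nonempty_of_card_lt_card_add_card hPG hsub (by rw [h2]; exact hcard)
    obtain ⟨ha1, ha2⟩ := mem_inter.1 ha
    obtain ⟨b, hb, hab⟩ := mem_image.1 ha2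
    have e1 : g = a * b := by rw [← hab, inv_mul_cancel_right]
    have h5 : Le φ (3 * M) 1 a := (mem_filter.1 ha1).2
    have h6 : Le φ (3 * M) 1 b := (mem_filter.1 hb).2
    have h7 := le_mul a h6
    rw [mul_one] at h7
    rw [e1]
    exact le_mono (by omega) (le_tr h5 h7)
  refine ⟨key e he, ?_⟩
  have h1 := le_mul e (key e⁻¹ (by rw [inv_pow, he, inv_one]))
  rwa [mul_inv_cancel, mul_one] at h1

/-- differences of `p`-th powers of units are units -/
theorem diff_unit {p : ℕ} (hp : p.Prime) {ζ : Fˣ} (hζ : IsPrimitiveRoot ζ p)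
    (h : φ (-1) = 1) (hL : HL φ M) {y z : Fˣ} (hy : φ y ≠ 1) (hyE : En φ M y) (hzE : En φ M z)
    (hyz : ∀ i : ℕ, φ y ≠ φ (ζ ^ i * z)) :
    ∃ d : Fˣ, (d : F) = (y : F) ^ p - (z : F) ^ p ∧ En φ (p * (10 * M)) d := by
  classical
  obtain ⟨-, c2, -⟩ := t_CALC F A φ M h hL
  have hp0 : 0 < p := hp.pos
  have _ : NeZero p := ⟨hp0.ne'⟩
  have hζF : IsPrimitiveRoot (ζ : F) p := by
    rwa [IsPrimitiveRoot.coe_units_iff]
  have step : ∀ η : F, η ∈ Polynomial.nthRootsFinset p (1 : F) →
      ∃ v : Fˣ, (v : F) = y - η * z ∧ En φ (10 * M) v := by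
    intro η hη
    rw [Polynomial.mem_nthRootsFinset hp0] at hη
    obtain ⟨i, -, hi⟩ := hζF.eq_pow_of_pow_eq_one hη
    have he : (-(ζ ^ i)) ^ (2 * p) = 1 := by
      rw [pow_mul, neg_sq, ← pow_mul, ← pow_mul, show i * (2 * p) = p * (i * 2) by ring, pow_mul,
        hζ.pow_eq_one, one_pow]
    have hE := root_unit h hL hy hyE (2 * p) (by omega) (-(ζ ^ i)) he
    have hu : φ (-(ζ ^ i) * z / y) ≠ 1 := by
      rw [map_div, neg_mul, phi_neg h]
      intro e
      exact hyz i (div_eq_one.1 e).symm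
    obtain ⟨v, hv⟩ := exists_one_add h hu
    have hEu : En φ (6 * M + M + M) (-(ζ ^ i) * z / y) := en_div (en_mul hE hzE) hyE
    have hEv := en_mul hyE (c2 _ _ _ hu hEu hv)
    refine ⟨y * v, ?_, en_mono (le_of_eq (by ring)) hEv⟩
    rw [Units.val_mul, hv, ← hi, Units.val_div_eq_div_val, Units.val_mul, Units.val_neg,
      Units.val_pow_eq_pow_val]
    field_simp
    ring
  choose! v hv hvE using step
  refine ⟨∏ η ∈ Polynomial.nthRootsFinset p (1 : F), v η, ?_, ?_⟩
  · rw [Units.coe_prod, hζF.pow_sub_pow_eq_prod_sub_mul _ _ hp0]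
    exact Finset.prod_congr rfl fun η hη => hv η hη
  · have h1 := en_prod (Polynomial.nthRootsFinset p (1 : F)) (k := 10 * M) (f := v) hvE
    rwa [hζF.card_nthRootsFinset] at h1

/-- the classes of the units `w ≪ 1` -/
def SS (φ : Fˣ →* A) (k : ℕ) : Set A := {g | ∃ w : Fˣ, φ w = g ∧ En φ k w ∧ Ml φ w 1}

lemma ss_fin (φ : Fˣ →* A) (k : ℕ) : ∃ S : Finset A, (∀ g, g ∈ S ↔ g ∈ SS φ k) ∧
    S.card ≤ 2 * k + 1 := by
  have key : ∀ G : Finset A, (G : Set A) ⊆ SS φ k → G.card ≤ 2 * k + 1 := fun G hG =>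
    t_SU F A φ k G fun g hg => hG hg
  have hfin : (SS φ k).Finite := by
    by_contra hinf
    obtain ⟨X, hX, hc⟩ := Set.Infinite.exists_subset_card_eq hinf (2 * k + 2)
    have := key X hX
    omega
  refine ⟨hfin.toFinset, fun g => by rw [Set.Finite.mem_toFinset], key _ (by simp)⟩

/-- many small units: a linear bound -/
theorem many_small {k : ℕ} (hM : 1 ≤ M) (X S S' : Finset A)
    (hX : ∀ a ∈ X, ∃ t : Fˣ, φ t = a ∧ En φ M t)
    (hS : ∀ g, g ∈ S ↔ g ∈ SS φ k) (hS' : ∀ g, g ∈ S' ↔ g ∈ SS φ (k + M))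
    (hbig : 2 * M ≤ S.card) : X.card ≤ 2 * S'.card := by
  classical
  have h1 : ∀ a ∈ X, S.card ≤ (S.filter fun s => a * s ∈ S').card + M := by
    intro a ha
    obtain ⟨t, rfl, ht⟩ := hX a ha
    obtain ⟨B, hB, hB'⟩ : Le φ M 1 t⁻¹ := (en_inv ht).1
    have hsub : S ⊆ (S.filter fun s => φ t * s ∈ S') ∪ B := by
      intro s hs
      rw [mem_union, mem_filter]
      by_cases hsB : s ∈ B
      · exact Or.inr hsB
      left
      refine ⟨hs, ?_⟩
      obtain ⟨w, rfl, hw, hw1⟩ := (hS s).1 hs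
      rw [hS']
      refine ⟨t * w, map_mul _ _ _, ?_, ?_⟩
      · rw [add_comm k M]
        exact en_mul ht hw
      · have h2 := (ml_mul t w t⁻¹).2 (hB' w hsB hw1)
        rwa [mul_inv_cancel] at h2
    have h2 := card_le_card hsub
    have h3 := card_union_le (S.filter fun s => φ t * s ∈ S') B
    omega
  have h2 : X.card * S.card ≤ (∑ a ∈ X, (S.filter fun s => a * s ∈ S').card) + X.card * M := by
    rw [← smul_eq_mul, ← smul_eq_mul, ← sum_const, ← sum_const, ← sum_add_distrib]
    exact sum_le_sum h1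
  have h3 : ∑ a ∈ X, (S.filter fun s => a * s ∈ S').card ≤ S.card * S'.card := by
    rw [← card_sigma, ← card_product]
    refine card_le_card_of_injOn (fun x => (x.2, x.1 * x.2)) ?_ ?_
    · rintro ⟨a, s⟩ hx
      rw [mem_coe, mem_sigma] at hx
      have hx2 := mem_filter.1 hx.2
      rw [mem_coe, mem_product]
      exact hx2
    · rintro ⟨a, s⟩ - ⟨a', s'⟩ - hxy
      simp only [Prod.mk.injEq] at hxy
      obtain ⟨rfl, h5⟩ := hxy
      rw [mul_right_cancel h5]
  have h4 : 0 < S.card := by omega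
  by_contra hcon
  push Not at hcon
  have h5 : X.card * (2 * M) ≤ X.card * S.card := Nat.mul_le_mul_left _ hbig
  have h6 : S.card * (2 * S'.card) < S.card * X.card := Nat.mul_lt_mul_of_pos_left hcon h4
  nlinarith

end

end Run7.h241.EQ
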