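import Mathlib

set_option autoImplicit false

/-! Walks of length two in a graph, and equal entries in the rows of symmetric matrices. -/

namespace Run7.h241.EQ

open Finset

/-- In a finite graph (with loops) at least as many ordered pairs of vertices are joined by walks of
length two as by edges. -/
theorem walks {ι : Type*} [Fintype ι] [DecidableEq ι] (R : ι → ι → Prop) [DecidableRel R]
    (hs : ∀ i j, R i j → R j i) :
    (univ.filter fun t : ι × ι => R t.1 t.2).card ≤
      (univ.filter fun t : ι × ι => ∃ l, R t.1 l ∧ R l t.2).card := by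
  classical
  set d : ι → ℕ := fun i => (univ.filter fun j => R i j).card with hd
  set m : ι → ℕ := fun i => (univ.filter fun j => ∃ l, R i l ∧ R l j).card with hm
  have h1 : (univ.filter fun t : ι × ι => R t.1 t.2).card = ∑ i, d i := by
    rw [card_filter, Fintype.sum_prod_type]
    exact sum_congr rfl fun i _ => (card_filter _ _).symm
  have h2 : (univ.filter fun t : ι × ι => ∃ l, R t.1 l ∧ R l t.2).card = ∑ i, m i := by
    rw [card_filter, Fintype.sum_prod_type]
    exact sum_congr rfl fun i _ => (card_filter _ _).symm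
  rw [h1, h2]
  have h3 : ∀ i l, R i l → d l ≤ m i := by
    intro i l hil
    refine card_le_card fun j hj => ?_
    rw [mem_filter] at hj ⊢
    exact ⟨mem_univ _, l, hil, hj.2⟩
  have h4 : ∀ i l, R i l → 0 < d i := by
    intro i l hil
    rw [hd, card_pos]
    exact ⟨l, mem_filter.2 ⟨mem_univ _, hil⟩⟩
  set f : ι → ι → ℚ := fun i l => if R i l then (d l : ℚ) / d i else 0 with hf
  have h5 : ∀ i, ∑ l, f i l ≤ (m i : ℚ) := by
    intro i
    have h6 : ∀ l, f i l ≤ if R i l then (m i : ℚ) / d i else 0 := by
      intro l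
      rw [hf]
      dsimp only
      split_ifs with hil
      · have : (d l : ℚ) ≤ m i := by exact_mod_cast h3 i l hil
        gcongr
      · exact le_refl _
    refine (sum_le_sum fun l _ => h6 l).trans ?_
    rw [← sum_filter, sum_const, nsmul_eq_mul]
    change (d i : ℚ) * _ ≤ _
    rcases Nat.eq_zero_or_pos (d i) with h0 | h0
    · rw [h0]
      simp
    · have : (d i : ℚ) ≠ 0 := by exact_mod_cast h0.ne'
      rw [mul_div_cancel₀ _ this]
  have h7 : ∑ i, ∑ l, f i l = ∑ i, ∑ l, f l i := sum_comm
  have h8 : ∀ i l, (if R i l then (2 : ℚ) else 0) ≤ f i l + f l i := by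
    intro i l
    rw [hf]
    dsimp only
    by_cases hil : R i l
    · rw [if_pos hil, if_pos hil, if_pos (hs _ _ hil)]
      have e1 : (0 : ℚ) < d i := by exact_mod_cast h4 i l hil
      have e2 : (0 : ℚ) < d l := by exact_mod_cast h4 l i (hs _ _ hil)
      rw [div_add_div _ _ e1.ne' e2.ne', le_div_iff₀ (by positivity)]
      nlinarith [sq_nonneg ((d i : ℚ) - d l)]
    · rw [if_neg hil, if_neg hil, if_neg (fun h => hil (hs _ _ h))]
      norm_num
  have h9 : ∑ i, ∑ l, (if R i l then (2 : ℚ) else 0) = 2 * ∑ i, (d i : ℚ) := by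
    rw [mul_sum]
    refine sum_congr rfl fun i _ => ?_
    rw [← sum_filter, sum_const, nsmul_eq_mul, mul_comm]
  have h10 : ∑ i, ∑ l, (if R i l then (2 : ℚ) else 0) ≤ ∑ i, ∑ l, (f i l + f l i) :=
    sum_le_sum fun i _ => sum_le_sum fun l _ => h8 i l
  have h11 : ∑ i, ∑ l, (f i l + f l i) = 2 * ∑ i, ∑ l, f i l := by
    simp only [sum_add_distrib]
    rw [two_mul, ← h7]
  have h12 : ∑ i, ∑ l, f i l ≤ ∑ i, (m i : ℚ) := sum_le_sum fun i _ => h5 i
  have h13 : (∑ i, (d i : ℚ)) ≤ ∑ i, (m i : ℚ) := by
    rw [h9, h11] at h10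
    linarith
  exact_mod_cast h13

/-- Let `c` be a symmetric matrix with `T` rows and at most `N` different entries. On average over
the ordered pairs of different rows there is at least (almost) one entry `n` such that both rows have
the entry `n` at the same place. -/
theorem rows {T N : ℕ} {β : Type*} [DecidableEq β] (c : Fin T → Fin T → β)
    (hs : ∀ l i, c l i = c i l) (K : Finset β) (hK : K.card ≤ N) (hc : ∀ l i, c l i ∈ K) :
    T * T ≤ (∑ n ∈ K, ((univ : Finset (Fin T × Fin T)).filter fun t => t.1 ≠ t.2 ∧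
      ∃ l, c l t.1 = n ∧ c l t.2 = n).card) + T * N := by
  classical
  have h1 : ∀ n ∈ K, ((univ : Finset (Fin T × Fin T)).filter fun t => c t.1 t.2 = n).card ≤
      ((univ : Finset (Fin T × Fin T)).filter fun t => t.1 ≠ t.2 ∧
        ∃ l, c l t.1 = n ∧ c l t.2 = n).card + T := by
    intro n _
    have h0 := walks (fun i j => c i j = n) (fun i j h => by rw [hs]; exact h)
    have h2 : (univ.filter fun t : Fin T × Fin T => ∃ l, c t.1 l = n ∧ c l t.2 = n) ⊆
        ((univ : Finset (Fin T × Fin T)).filter fun t => t.1 ≠ t.2 ∧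
          ∃ l, c l t.1 = n ∧ c l t.2 = n) ∪ (univ : Finset (Fin T)).image fun i => (i, i) := by
      rintro ⟨i, j⟩ hij
      rw [mem_filter] at hij
      obtain ⟨-, l, h3, h4⟩ := hij
      rw [mem_union, mem_filter, mem_image]
      by_cases h5 : i = j
      · right
        exact ⟨i, mem_univ _, by rw [h5]⟩
      · left
        exact ⟨mem_univ _, h5, l, by rw [hs]; exact h3, h4⟩
    have h3 := (card_le_card h2).trans (card_union_le _ _)
    have h4 : ((univ : Finset (Fin T)).image fun i => (i, i)).card ≤ T := by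
      refine card_image_le.trans ?_
      rw [card_univ, Fintype.card_fin]
    refine h0.trans (le_trans (le_of_eq ?_) (h3.trans (Nat.add_le_add_left h4 _)))
    congr
  have h2 : T * T = ∑ n ∈ K, ((univ : Finset (Fin T × Fin T)).filter fun t =>
      c t.1 t.2 = n).card := by
    rw [← card_eq_sum_card_fiberwise (f := fun t : Fin T × Fin T => c t.1 t.2) (s := univ) (t := K)
      (fun t _ => hc _ _), card_univ, Fintype.card_prod, Fintype.card_fin]
  rw [h2]
  refine (sum_le_sum h1).trans ?_
  rw [sum_add_distrib, sum_const, smul_eq_mul]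
  refine Nat.add_le_add_left ?_ _
  rw [mul_comm]
  exact Nat.mul_le_mul_left _ hK

end Run7.h241.EQ
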