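import Mathlib
import Pool.Agent.Run7.h241.EQ1
import Pool.Agent.Run7.h241.EQ2
import Pool.Agent.Y79.EP.Fib

set_option autoImplicit false

/-! Fields with small norm groups, `p` odd: a cubic bound for the number of the classes that are not
rigid. -/

namespace Run7.h241.EQ

open Finset
open Pool.Agent.Y920.EP Pool.Agent.Y705.EP

section

variable {F : Type} [Field F] {A : Type} [CommGroup A] {φ : Fˣ →* A} {M : ℕ}

/-- equal classes of sums give small units -/
lemma small_of {k : ℕ} {Y r d x x' : Fˣ} (hx : (x : F) = x' + d * (Y * r)) (he : φ x = φ x')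
    (hE : En φ k (d * (Y * r) / x')) : φ d * (φ Y * φ r) / φ x' ∈ SS φ k := by
  refine ⟨d * (Y * r) / x', by rw [map_div, map_mul, map_mul], hE, x / x', ?_, ?_⟩
  · rw [Units.val_div_eq_div_val, Units.val_div_eq_div_val, hx, Units.val_one, Units.val_mul,
      Units.val_mul, add_div, div_self x'.ne_zero]
  · rw [map_div, he, div_self', map_one]

/-- `1 + y` of the class of `y` gives a small unit -/
lemma small_inv {k : ℕ} {y x : Fˣ} (hx : (x : F) = 1 + y) (he : φ x = φ y)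
    (hE : En φ k y) : (φ y)⁻¹ ∈ SS φ k := by
  refine ⟨y⁻¹, map_inv _ _, en_inv hE, x / y, ?_, ?_⟩
  · rw [Units.val_div_eq_div_val, hx, Units.val_one, Units.val_inv_eq_inv_val]
    field_simp
    ring
  · rw [map_div, he, div_self', map_one]

end

/-- the arithmetic of the two cases -/
lemma arith1 {N X S : ℕ} (hN : 2 ≤ N)
    (h : X * (N ^ 2 * N ^ 2) ≤ (N ^ 2 * N ^ 2 - N ^ 2) * ((N + 1) * S) + X * (N ^ 2 * N))
    (hS : S ≤ 2 * N ^ 2) : X ≤ 2 * N * (N + 1) ^ 2 := by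
  obtain ⟨n, rfl⟩ : ∃ n, N = n + 2 := ⟨N - 2, by omega⟩
  have h1 : (n + 2) ^ 2 * (n + 2) ^ 2 - (n + 2) ^ 2 = (n + 2) ^ 2 * ((n + 1) * (n + 3)) := by
    have : (n + 2) ^ 2 * (n + 2) ^ 2 = (n + 2) ^ 2 * ((n + 1) * (n + 3)) + (n + 2) ^ 2 := by ring
    omega
  rw [h1] at h
  have h2 : X * ((n + 2) ^ 2 * (n + 2) ^ 2) =
      (n + 2) ^ 2 * (n + 1) * (X * (n + 2)) + X * ((n + 2) ^ 2 * (n + 2)) := by ring
  rw [h2] at h
  have h3 : (n + 2) ^ 2 * (n + 1) * (X * (n + 2)) ≤ (n + 2) ^ 2 * (n + 1) * ((n + 3) ^ 2 * S) := by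
    have : (n + 2) ^ 2 * ((n + 1) * (n + 3)) * ((n + 2 + 1) * S) =
        (n + 2) ^ 2 * (n + 1) * ((n + 3) ^ 2 * S) := by ring
    omega
  have h4 : X * (n + 2) ≤ (n + 3) ^ 2 * S := le_of_mul_le_mul_left h3 (by positivity)
  have h5 : (n + 3) ^ 2 * S ≤ (n + 3) ^ 2 * (2 * (n + 2) ^ 2) := Nat.mul_le_mul_left _ hS
  have h6 : (n + 3) ^ 2 * (2 * (n + 2) ^ 2) = 2 * (n + 2) * (n + 2 + 1) ^ 2 * (n + 2) := by ring
  rw [h6] at h5
  exact le_of_mul_le_mul_right (h4.trans h5) (by positivity)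

theorem card_nr {F : Type} [Field F] {A : Type} [CommGroup A] {φ : Fˣ →* A} {Nn : A → Subgroup A}
    {N p : ℕ} (hp : p.Prime) (hp2 : p ≠ 2) {ζ : Fˣ} (hζ : IsPrimitiveRoot ζ p)
    (hs : Sys φ Nn N) (hpow : ∀ x : Fˣ, φ x ^ p = 1) (X : Finset A) (hX : ∀ a ∈ X, a ∈ NR φ) :
    X.card ≤ 2 * N * (N + 1) ^ 2 + 58 * p * N ^ 2 := by
  classical
  have hM : HL φ (N ^ 2) := t_L1 F A φ Nn N hs
  have p3 : 3 ≤ p := by
    have := hp.two_le
    omega
  rcases X.eq_empty_or_nonempty with rfl | ⟨a0, ha0⟩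
  · simp
  have ha0' := hX a0 ha0
  have hN2 : 2 ≤ N := by
    have h1 := hs.fin a0 ha0'.1
    have h2 : ({1, a0} : Set A) ⊆ (Nn a0 : Set A) := by
      intro x hx
      rcases hx with rfl | hx
      · exact one_mem (Nn a0)
      · rw [Set.mem_singleton_iff.1 hx]
        exact self_mem hs a0
    have h3 := Set.ncard_le_ncard h2 h1.1
    rw [Set.ncard_pair (Ne.symm ha0'.1)] at h3
    exact h3.trans h1.2
  by_cases hpN : X.card ≤ p * N ^ 2
  · refine hpN.trans ?_
    have : p * N ^ 2 ≤ 58 * p * N ^ 2 := by nlinarith [Nat.zero_le (p * N ^ 2)]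
    omega
  rw [not_le] at hpN
  have hrep : ∀ a : A, ∃ r : Fˣ, a ∈ NR φ → φ r = a ∧ En φ (N ^ 2) r := by
    intro a
    by_cases ha : a ∈ NR φ
    · obtain ⟨ha1, r, s, hr, hrs, hs1, hs2⟩ := ha
      refine ⟨r, fun _ => ⟨hr, ?_⟩⟩
      exact (t_CALC F A φ (N ^ 2) hs.neg hM).2.2 r s hrs (by rw [hr]; exact ha1) hs1
        (by rw [hr]; exact hs2)
    · exact ⟨1, fun h => absurd h ha⟩
  choose r hr using hrep
  obtain ⟨f, hf, hfne⟩ := Pool.Agent.Y79.EP.t_PICK A (φ ζ) p (N ^ 2) hp.one_le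
    (by rw [← map_pow, hζ.pow_eq_one, map_one]) X hpN
  have hy : ∀ i, φ (r (f i)) = f i ∧ En φ (N ^ 2) (r (f i)) := fun i =>
    hr _ (hX _ (hf i))
  set y : Fin (N ^ 2) → Fˣ := fun i => r (f i) with hydef
  have hd : ∀ i j : Fin (N ^ 2), ∃ d : Fˣ, i ≠ j →
      ((d : F) = (y i : F) ^ p - (y j : F) ^ p ∧ En φ (p * (10 * N ^ 2)) d) := by
    intro i j
    by_cases hij : i = j
    · exact ⟨1, fun h => absurd hij h⟩
    · obtain ⟨d, hd1, hd2⟩ := diff_unit hp hζ hs.neg hM (y := y i) (z := y j)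
        (by rw [(hy i).1]; exact (hX _ (hf i)).1) (hy i).2 (hy j).2 (by
          intro k
          rw [map_mul, map_pow, (hy i).1, (hy j).1]
          exact hfne i j hij k)
      exact ⟨d, fun _ => ⟨hd1, hd2⟩⟩
  choose d hd using hd
  have hY : ∀ i, φ (y i ^ p) = 1 := fun i => by rw [map_pow, hpow]
  have hYE : ∀ i, En φ (p * N ^ 2) (y i ^ p) := fun i => en_pow (hy i).2 p
  have hYr : ∀ (a : A) (l i : Fin (N ^ 2)), a ∈ X → φ (y l ^ p * (y i ^ p * r a)) = a := by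
    intro a l i ha
    rw [map_mul, map_mul, hY, hY, one_mul, one_mul]
    exact (hr a (hX a ha)).1
  have hYrE : ∀ (a : A) (l i : Fin (N ^ 2)), a ∈ X →
      En φ (p * N ^ 2 + (p * N ^ 2 + N ^ 2)) (y l ^ p * (y i ^ p * r a)) := by
    intro a l i ha
    exact en_mul (hYE l) (en_mul (hYE i) (hr a (hX a ha)).2)
  have hx : ∀ (a : A) (l i : Fin (N ^ 2)), ∃ x : Fˣ, a ∈ X →
      (x : F) = 1 + ((y l ^ p * (y i ^ p * r a) : Fˣ) : F) := by
    intro a l i
    by_cases ha : a ∈ X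
    · obtain ⟨x, hx⟩ := exists_one_add hs.neg (y := y l ^ p * (y i ^ p * r a))
        (by rw [hYr a l i ha]; exact (hX a ha).1)
      exact ⟨x, fun _ => hx⟩
    · exact ⟨1, fun h => absurd h ha⟩
  choose x hx using hx
  obtain ⟨-, c2, -⟩ := t_CALC F A φ (N ^ 2) hs.neg hM
  have hxE : ∀ (a : A) (l i : Fin (N ^ 2)), a ∈ X →
      En φ (p * N ^ 2 + (p * N ^ 2 + N ^ 2) + N ^ 2) (x a l i) := fun a l i ha =>
    c2 _ _ _ (by rw [hYr a l i ha]; exact (hX a ha).1) (hYrE a l i ha) (hx a l i ha)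
  set c : A → Fin (N ^ 2) → Fin (N ^ 2) → A := fun a l i => φ (x a l i) with hc
  have hcs : ∀ a ∈ X, ∀ l i, c a l i = c a i l := by
    intro a ha l i
    have : x a l i = x a i l := by
      ext
      rw [hx a l i ha, hx a i l ha]
      simp only [Units.val_mul, Units.val_pow_eq_pow_val]
      ring
    rw [hc]
    simp only [this]
  obtain ⟨NF, hNF1, hNF2⟩ := exists_NF hs
  have hcN : ∀ a ∈ X, ∀ l i, c a l i ∈ Nn a := by
    intro a ha l i
    have := hs.sum _ _ (hx a l i ha)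
    rwa [hYr a l i ha] at this
  have hcK : ∀ a ∈ X, ∀ l i, c a l i ∈ NF a := fun a ha l i =>
    (hNF2 _ _ (hX a ha).1).2 (hcN a ha l i)
  obtain ⟨S, hS, hSc⟩ := ss_fin φ (14 * p * N ^ 2)
  obtain ⟨S', hS', hSc'⟩ := ss_fin φ (14 * p * N ^ 2 + N ^ 2)
  have hXu : ∀ a ∈ X, ∃ t : Fˣ, φ t = a ∧ En φ (N ^ 2) t := fun a ha => ⟨_, hr a (hX a ha)⟩
  have hMpos : 1 ≤ N ^ 2 := Nat.one_le_pow _ _ (by omega)
  have hpM : 3 * N ^ 2 ≤ p * N ^ 2 := Nat.mul_le_mul_right _ p3
  by_cases hbig : 2 * N ^ 2 ≤ S.card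
  · have h1 := many_small hMpos X S S' hXu hS hS' hbig
    have e1 : 14 * p * N ^ 2 = 14 * (p * N ^ 2) := by ring
    have e2 : 58 * p * N ^ 2 = 58 * (p * N ^ 2) := by ring
    rw [e1] at hSc'
    rw [e2]
    omega
  -- few small units
  have hB : ∀ t ∈ (univ : Finset (Fin (N ^ 2) × Fin (N ^ 2))).filter (fun t => t.1 ≠ t.2),
      ((X.sigma NF).filter fun z => ∃ l, c z.1 l t.1 = z.2 ∧ c z.1 l t.2 = z.2).card ≤
        (N + 1) * S.card := by
    rintro ⟨i, j⟩ hij
    have hij : i ≠ j := (mem_filter.1 hij).2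
    set B := (X.sigma NF).filter fun z => ∃ l, c z.1 l i = z.2 ∧ c z.1 l j = z.2 with hBdef
    have hBmem : ∀ z ∈ B, z.1 ∈ X ∧ z.2 ∈ Nn z.1 ∧ ∃ l, c z.1 l i = z.2 ∧ c z.1 l j = z.2 := by
      intro z hz
      rw [hBdef, mem_filter, mem_sigma] at hz
      exact ⟨hz.1.1, (hNF2 _ _ (hX _ hz.1.1).1).1 hz.1.2, hz.2⟩
    have h1 : (B.filter fun z => z.1 = z.2).card ≤ S.card := by
      refine card_le_card_of_injOn (fun z => z.1⁻¹) ?_ ?_
      · intro z hz
        obtain ⟨hz1, hz2⟩ := mem_filter.1 (mem_coe.1 hz)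
        obtain ⟨ha, -, l, -, h3⟩ := hBmem z hz1
        rw [mem_coe, hS]
        have h4 := small_inv (φ := φ) (k := 14 * p * N ^ 2) (hx z.1 l j ha) (by
          rw [hYr z.1 l j ha]
          exact h3.trans hz2.symm) (en_mono (by nlinarith) (hYrE z.1 l j ha))
        rwa [hYr z.1 l j ha] at h4
      · intro z hz z' hz' h
        have e1 := (mem_filter.1 (mem_coe.1 hz)).2
        have e2 := (mem_filter.1 (mem_coe.1 hz')).2
        have h' : z.1 = z'.1 := inv_injective h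
        refine Sigma.ext h' ?_
        rw [heq_iff_eq, ← e1, ← e2, h']
    have h2 : (B.filter fun z => z.1 ≠ z.2).card ≤ N * S.card := by
      have h3 := card_le_mul_card_image (f := fun z : (_ : A) × A => φ (d i j) * z.1 / z.2)
        (B.filter fun z => z.1 ≠ z.2) N (by
        intro s _
        set u := s / φ (d i j) with hu
        by_cases hne : ((B.filter fun z => z.1 ≠ z.2).filter
          fun z => φ (d i j) * z.1 / z.2 = s).Nonempty
        · have hzu : ∀ z ∈ ((B.filter fun z => z.1 ≠ z.2).filter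
              fun z => φ (d i j) * z.1 / z.2 = s), z.1 / z.2 = u ∧ u ≠ 1 ∧ z.1 ∈ Nn u := by
            intro z hz
            obtain ⟨hz1, hz2⟩ := mem_filter.1 hz
            obtain ⟨hz1, hz3⟩ := mem_filter.1 hz1
            obtain ⟨ha, hn, -⟩ := hBmem z hz1
            have e1 : z.1 / z.2 = u := by
              rw [hu, ← hz2, mul_div_assoc, mul_div_cancel_left]
            refine ⟨e1, ?_, ?_⟩
            · rw [← e1]
              exact fun e => hz3 (div_eq_one.1 e)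
            · rw [← e1]
              exact hs.symm _ _ (div_mem (self_mem hs _) hn)
          obtain ⟨z0, hz0⟩ := hne
          have hu1 := (hzu z0 hz0).2.1
          refine (card_le_card_of_injOn (fun z => z.1) ?_ ?_).trans (hNF1 u)
          · intro z hz
            exact (hNF2 _ _ hu1).2 (hzu z hz).2.2
          · intro z hz z' hz' h
            have e1 := (hzu z hz).1
            have e2 := (hzu z' hz').1
            have h' : z.1 = z'.1 := h
            refine Sigma.ext h' ?_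
            rw [heq_iff_eq]
            rw [← e2, h'] at e1
            exact div_right_injective e1
        · rw [not_nonempty_iff_eq_empty] at hne
          rw [hne, card_empty]
          exact Nat.zero_le _)
      refine h3.trans (Nat.mul_le_mul_left _ (card_le_card ?_))
      intro s hs'
      obtain ⟨z, hz, rfl⟩ := mem_image.1 hs'
      obtain ⟨hz1, -⟩ := mem_filter.1 hz
      obtain ⟨ha, -, l, h4, h5⟩ := hBmem z hz1
      obtain ⟨hd1, hd2⟩ := hd i j hij
      rw [hS]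
      have h6 := small_of (φ := φ) (k := 14 * p * N ^ 2) (Y := y l ^ p) (r := r z.1) (d := d i j)
        (x := x z.1 l i) (x' := x z.1 l j) (by
          rw [hx z.1 l i ha, hx z.1 l j ha, hd1]
          simp only [Units.val_mul, Units.val_pow_eq_pow_val]
          ring) (h4.trans h5.symm) (by
          refine en_mono ?_ (en_div (en_mul hd2 (en_mul (hYE l) (hr _ (hX _ ha)).2))
            (hxE z.1 l j ha))
          nlinarith)
      rw [hY, one_mul, (hr _ (hX _ ha)).1] at h6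
      have h7 : φ (x z.1 l j) = z.2 := h5
      rwa [h7] at h6
    have h3 := card_filter_add_card_filter_not (s := B) (fun z : (_ : A) × A => z.1 = z.2)
    have h4 : (N + 1) * S.card = N * S.card + S.card := by ring
    rw [h4]
    have h5 : (B.filter fun z => ¬ z.1 = z.2).card ≤ N * S.card := h2
    omega
  have hrows : ∀ a ∈ X, N ^ 2 * N ^ 2 ≤
      (∑ n ∈ NF a, ((univ : Finset (Fin (N ^ 2) × Fin (N ^ 2))).filter fun t => t.1 ≠ t.2 ∧
        ∃ l, c a l t.1 = n ∧ c a l t.2 = n).card) + N ^ 2 * N := fun a ha =>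
    rows (c a) (hcs a ha) (NF a) (hNF1 a) (hcK a ha)
  have hsum : X.card * (N ^ 2 * N ^ 2) ≤
      (∑ a ∈ X, ∑ n ∈ NF a, ((univ : Finset (Fin (N ^ 2) × Fin (N ^ 2))).filter fun t =>
        t.1 ≠ t.2 ∧ ∃ l, c a l t.1 = n ∧ c a l t.2 = n).card) + X.card * (N ^ 2 * N) := by
    rw [← smul_eq_mul, ← smul_eq_mul (a := X.card) (b := N ^ 2 * N), ← sum_const, ← sum_const,
      ← sum_add_distrib]
    exact sum_le_sum hrows
  have hswap : ∑ a ∈ X, ∑ n ∈ NF a, ((univ : Finset (Fin (N ^ 2) × Fin (N ^ 2))).filter fun t =>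
        t.1 ≠ t.2 ∧ ∃ l, c a l t.1 = n ∧ c a l t.2 = n).card =
      ∑ t ∈ (univ : Finset (Fin (N ^ 2) × Fin (N ^ 2))).filter (fun t => t.1 ≠ t.2),
        ((X.sigma NF).filter fun z => ∃ l, c z.1 l t.1 = z.2 ∧ c z.1 l t.2 = z.2).card := by
    rw [sum_sigma']
    have h1 := sum_card_bipartiteAbove_eq_sum_card_bipartiteBelow
      (s := X.sigma NF) (t := (univ : Finset (Fin (N ^ 2) × Fin (N ^ 2))).filter
        (fun t => t.1 ≠ t.2)) (fun z t => ∃ l, c z.1 l t.1 = z.2 ∧ c z.1 l t.2 = z.2)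
    refine (sum_congr rfl fun z _ => ?_).trans (h1.trans (sum_congr rfl fun t _ => rfl))
    rw [bipartiteAbove, filter_filter]
  rw [hswap] at hsum
  have hoff : ((univ : Finset (Fin (N ^ 2) × Fin (N ^ 2))).filter (fun t => t.1 ≠ t.2)).card =
      N ^ 2 * N ^ 2 - N ^ 2 := by
    have h1 := offDiag_card (univ : Finset (Fin (N ^ 2)))
    rw [card_univ, Fintype.card_fin] at h1
    rw [← h1]
    congr 1
    ext t
    simp [mem_offDiag]
  have h1 := sum_le_card_nsmul _ _ _ hB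
  rw [hoff, smul_eq_mul] at h1
  have h2 := arith1 hN2 (hsum.trans (Nat.add_le_add_right h1 _)) (by omega)
  omega

theorem nr_card {F : Type} [Field F] {A : Type} [CommGroup A] {φ : Fˣ →* A} {Nn : A → Subgroup A}
    {N p : ℕ} (hp : p.Prime) (hp2 : p ≠ 2) {ζ : Fˣ} (hζ : IsPrimitiveRoot ζ p)
    (hs : Sys φ Nn N) (hpow : ∀ x : Fˣ, φ x ^ p = 1) :
    (NR φ).Finite ∧ (NR φ).ncard ≤ 2 * N * (N + 1) ^ 2 + 58 * p * N ^ 2 := by
  have hfin : (NR φ).Finite := by
    by_contra hinf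
    obtain ⟨X, hX, hc⟩ := Set.Infinite.exists_subset_card_eq hinf
      (2 * N * (N + 1) ^ 2 + 58 * p * N ^ 2 + 1)
    have := card_nr hp hp2 hζ hs hpow X (fun a ha => hX ha)
    omega
  refine ⟨hfin, ?_⟩
  rw [Set.ncard_eq_toFinset_card _ hfin]
  exact card_nr hp hp2 hζ hs hpow _ fun a ha => (Set.Finite.mem_toFinset hfin).1 ha

end Run7.h241.EQ
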