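import Mathlib
import Pool.Agent.Run7.h241.EQ3
import Pool.Agent.Y564.EP.Grp
import Pool.Agent.Y920.EP.FieldP
import Pool.Agent.Y98.EP.PCD
import Pool.Agent.Y447.EP.WB
import Pool.Agent.Y232.EP.Coarse
import Pool.Agent.Y349.EP.Symm
import Pool.Agent.Y349.EP.NG

set_option autoImplicit false

/-! Fields with small norm groups, `p` odd: the group generated by the classes that are not rigid, and
the valuation ring, with a cubic bound. -/

namespace Run7.h241.EQ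

open Finset
open Pool.Agent.Y920.EP Pool.Agent.Y705.EP

lemma cube_le (x i q : ℕ) (hx : x = i * (q - 1)) (hi : 3 ≤ i) (hq : 3 ≤ q) :
    x ^ 3 ≤ 27 * q ^ i := by
  obtain ⟨m, rfl⟩ : ∃ m, q = m + 1 := ⟨q - 1, by omega⟩
  rw [Nat.add_sub_cancel] at hx
  subst hx
  induction i, hi using Nat.le_induction with
  | base =>
    have : (3 * m) ^ 3 = 27 * m ^ 3 := by ring
    rw [this]
    exact Nat.mul_le_mul_left _ (Nat.pow_le_pow_left (Nat.le_succ m) 3)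
  | succ i hi ih =>
    rw [pow_succ (m + 1) i]
    have h1 : ((i + 1) * m) ^ 3 ≤ 3 * (i * m) ^ 3 := by
      have h2 : (i + 1) ^ 3 ≤ 3 * i ^ 3 := by nlinarith [sq_nonneg (i - 1 : ℤ)]
      calc ((i + 1) * m) ^ 3 = (i + 1) ^ 3 * m ^ 3 := by ring
        _ ≤ 3 * i ^ 3 * m ^ 3 := Nat.mul_le_mul_right _ h2
        _ = 3 * (i * m) ^ 3 := by ring
    calc ((i + 1) * m) ^ 3 ≤ 3 * (i * m) ^ 3 := h1
      _ ≤ 3 * (27 * (m + 1) ^ i) := Nat.mul_le_mul_left _ ih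
      _ ≤ (m + 1) * (27 * (m + 1) ^ i) := Nat.mul_le_mul_right _ hq
      _ = 27 * ((m + 1) ^ i * (m + 1)) := by ring

lemma arith2 (p N i c : ℕ) (hp : 3 ≤ p) (hN : 1 ≤ N)
    (hc : c ≤ 2 * N * (N + 1) ^ 2 + 58 * p * N ^ 2)
    (h : p ^ i ≤ c + 3 + 4 * (i * (p - 1) * N ^ 2)) : p ^ i ≤ 64 * N ^ 2 * (N + 2 * p) := by
  set x := i * (p - 1) with hx
  have h0 : c + 3 ≤ 2 * N ^ 3 + 61 * (p * N ^ 2) := by
    have e1 : 2 * N * (N + 1) ^ 2 = 2 * N ^ 3 + 4 * N ^ 2 + 2 * N := by ring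
    have e2 : N ≤ N ^ 2 := by nlinarith
    have e3 : 1 ≤ N ^ 2 := Nat.one_le_pow _ _ hN
    have e4 : 3 * N ^ 2 ≤ p * N ^ 2 := Nat.mul_le_mul_right _ hp
    have e5 : 58 * p * N ^ 2 = 58 * (p * N ^ 2) := by ring
    omega
  have e6 : 64 * N ^ 2 * (N + 2 * p) = 64 * N ^ 3 + 128 * (p * N ^ 2) := by ring
  rw [e6]
  rcases Nat.lt_or_ge i 3 with hi | hi
  · have h1 : x ≤ 2 * p := by
      rw [hx]
      calc i * (p - 1) ≤ 2 * (p - 1) := Nat.mul_le_mul_right _ (by omega)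
        _ ≤ 2 * p := by omega
    have h2 : x * N ^ 2 ≤ 2 * (p * N ^ 2) := by
      calc x * N ^ 2 ≤ 2 * p * N ^ 2 := Nat.mul_le_mul_right _ h1
        _ = 2 * (p * N ^ 2) := by ring
    omega
  rcases Nat.lt_or_ge (15 * N) x with hxN | hxN
  · have h1 := cube_le x i p hx hi hp
    have h2 : (15 * N) ^ 2 * x ≤ x ^ 3 := by
      have : (15 * N) ^ 2 ≤ x ^ 2 := Nat.pow_le_pow_left hxN.le 2
      calc (15 * N) ^ 2 * x ≤ x ^ 2 * x := Nat.mul_le_mul_right _ this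
        _ = x ^ 3 := by ring
    have h3 : 225 * (x * N ^ 2) ≤ 27 * p ^ i := by
      have : (15 * N) ^ 2 * x = 225 * (x * N ^ 2) := by ring
      omega
    omega
  · have h1 : x * N ^ 2 ≤ 15 * N ^ 3 := by
      calc x * N ^ 2 ≤ 15 * N * N ^ 2 := Nat.mul_le_mul_right _ hxN
        _ = 15 * N ^ 3 := by ring
    omega

theorem group_card {F : Type} [Field F] {p : ℕ} (hp : p.Prime) (hp2 : p ≠ 2)
    {A : Type} [CommGroup A] {φ : Fˣ →* A} {N : ℕ} (hN : 1 ≤ N)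
    (ha : ∀ a : A, a ^ p = 1) (hfin : (NR φ).Finite)
    (hcard : (NR φ).ncard ≤ 2 * N * (N + 1) ^ 2 + 58 * p * N ^ 2)
    (hNR : ∀ a ∈ NR φ, ∃ r : Fˣ, φ r = a ∧ En φ (N ^ 2) r)
    (hR : ∀ x : Fˣ, φ x ∉ NR φ → φ x ≠ 1 → Ml φ x 1 ∨ Ml φ x⁻¹ 1) :
    Nat.card (Subgroup.closure (NR φ)) ≠ 0 ∧
      Nat.card (Subgroup.closure (NR φ)) ≤ 64 * N ^ 2 * (N + 2 * p) := by
  classical
  have hp3 : 3 ≤ p := by
    have := hp.two_le
    omega
  obtain ⟨i, hi, hr⟩ := Pool.Agent.Y564.EP.step1 (φ := φ) p hp (N ^ 2) ha hfin.toFinset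
    (fun a h => hNR a (by simpa using h))
  rw [Set.Finite.coe_toFinset] at hi hr
  set K := Subgroup.closure (NR φ) with hK
  have hKf : Finite K := by
    apply Nat.finite_of_card_ne_zero
    rw [hi]
    exact (pow_pos hp.pos i).ne'
  have hKfin : (K : Set A).Finite := Set.toFinite _
  set m := i * (p - 1) * N ^ 2 with hm
  obtain ⟨G, hG, hGc⟩ := ss_fin φ m
  have hsub : hKfin.toFinset ⊆ ({1} ∪ hfin.toFinset) ∪ (G ∪ G.image fun g => g⁻¹) := by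
    intro h hh
    have hhK : h ∈ K := by simpa using hh
    obtain ⟨e, he1, he2⟩ := hr h hhK
    simp only [Finset.mem_union, Finset.mem_singleton, Set.Finite.mem_toFinset]
    by_cases h1 : h = 1
    · exact Or.inl (Or.inl h1)
    by_cases h2 : h ∈ NR φ
    · exact Or.inl (Or.inr h2)
    right
    rcases hR e (by rwa [he1]) (by rwa [he1]) with h3 | h3
    · left
      rw [hG]
      exact ⟨e, he1, he2, h3⟩
    · right
      rw [Finset.mem_image]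
      refine ⟨h⁻¹, ?_, inv_inv h⟩
      rw [hG]
      exact ⟨e⁻¹, by rw [map_inv, he1], en_inv he2, h3⟩
  have hcardK : hKfin.toFinset.card = p ^ i := by
    rw [← hi, ← Set.ncard_eq_toFinset_card (K : Set A) hKfin]
    exact (Nat.card_coe_set_eq (K : Set A)).symm
  have hle : p ^ i ≤ (NR φ).ncard + 3 + 4 * m := by
    rw [← hcardK]
    refine (Finset.card_le_card hsub).trans ?_
    refine (Finset.card_union_le _ _).trans ?_
    have h1 : ({1} ∪ hfin.toFinset : Finset A).card ≤ 1 + (NR φ).ncard := by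
      refine (Finset.card_union_le _ _).trans ?_
      rw [Finset.card_singleton, ← Set.ncard_eq_toFinset_card (NR φ) hfin]
    have h2 : (G ∪ G.image fun g => g⁻¹).card ≤ (2 * m + 1) + (2 * m + 1) :=
      (Finset.card_union_le _ _).trans (Nat.add_le_add hGc (Finset.card_image_le.trans hGc))
    omega
  refine ⟨?_, ?_⟩
  · rw [hi]
    exact (pow_pos hp.pos i).ne'
  · rw [hi]
    exact arith2 p N i _ hp3 hN hcard (by rw [← hm]; exact hle)

/-- few classes are not rigid, and a valuation ring -/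
theorem exists_ring (p : ℕ) (hp : p.Prime) (hp2 : p ≠ 2) (F : Type) [Field F]
    (hζ : ∃ ζ : F, IsPrimitiveRoot ζ p) (N : ℕ) (hN1 : 1 ≤ N)
    (hN : ∀ a : Fˣ, a ∉ pwG F p →
      (pwG F p).relIndex (nmG p a) ≠ 0 ∧ (pwG F p).relIndex (nmG p a) ≤ N) :
    (∃ (A : Type) (_ : CommGroup A) (φ : Fˣ →* A), Function.Surjective φ ∧ φ.ker = pwG F p ∧
      (NR φ).Finite ∧ (NR φ).ncard ≤ 2 * N * (N + 1) ^ 2 + 58 * p * N ^ 2) ∧
    ∃ (H : Subgroup Fˣ) (O : ValuationSubring F), pwG F p ≤ H ∧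
      (pwG F p).relIndex H ≠ 0 ∧ (pwG F p).relIndex H ≤ 64 * N ^ 2 * (N + 2 * p) ∧
      O.unitGroup ≤ H ∧ Pw p O := by
  obtain ⟨A, _, φ, hφ, hk⟩ := exists_quot F (pwG F p)
  have hS := sys hφ hk Pool.Agent.Y349.EP.t_NG Pool.Agent.Y349.EP.t_SYMM hp hp2 hζ N hN
  have hodd : Odd p := hp.odd_of_ne_two hp2
  obtain ⟨ζ, hζ⟩ := hζ
  have hζ0 : ζ ≠ 0 := hζ.ne_zero hp.ne_zero
  have hζ' : IsPrimitiveRoot (Units.mk0 ζ hζ0) p := by
    rw [← IsPrimitiveRoot.coe_units_iff]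
    exact hζ
  have hpF : (p : F) ≠ 0 := by
    have : NeZero p := ⟨hp.ne_zero⟩
    exact hζ.neZero'.ne
  have hexp : ∀ a : A, a ^ p = 1 := exp_p hφ hk
  obtain ⟨hf, hc⟩ := nr_card hp hp2 hζ' hS (fun x => hexp _)
  refine ⟨⟨A, _, φ, hφ, hk, hf, hc⟩, ?_⟩
  have hHL := t_L1 F A φ _ N hS
  obtain ⟨hg1, hg2⟩ := group_card hp hp2 hN1 hexp hf hc (by
    rintro a ⟨ha1, r, s, hr, hrs, hs1, hs2⟩
    refine ⟨r, hr, ?_⟩
    exact (t_CALC F A φ _ hS.neg hHL).2.2 r s hrs (by rw [hr]; exact ha1) hs1 (by rw [hr]; exact hs2))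
    (fun x hx h1 => ml_of hS.neg hx h1)
  set K := Subgroup.closure (NR φ) with hKdef
  have hRP : RP φ.ker (K.comap φ) := rp_of hS.neg K Subgroup.subset_closure
  have hsq : ∀ x : Fˣ, x * x ∈ K.comap φ → x ∈ K.comap φ := by
    intro x hx
    rw [Subgroup.mem_comap] at hx ⊢
    obtain ⟨m, hm⟩ := hodd
    have : φ x = φ (x * x) ^ (m + 1) := by
      rw [map_mul, ← pow_two, ← pow_mul, show 2 * (m + 1) = p + 1 by omega, pow_succ, hexp,
        one_mul]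
    rw [this]
    exact pow_mem hx _
  have hP := Pool.Agent.Y98.EP.t_PCD F φ.ker (K.comap φ) hRP hsq
  obtain ⟨O, hO⟩ := Pool.Agent.Y447.EP.t_WB' F φ.ker (K.comap φ) hRP hP
  obtain ⟨O', -, hpO, hO'⟩ := Pool.Agent.Y232.EP.t_COARSE' F p hp hpF φ.ker (K.comap φ)
    (fun x => by rw [MonoidHom.mem_ker, phi_one hk]) hRP.le O hO
  refine ⟨K.comap φ, O', ?_, ?_, ?_, ?_, hpO, hpF, ?_⟩
  · rw [← hk]; exact hRP.le
  · rw [← hk, Subgroup.relIndex_ker, Subgroup.map_comap_eq_self_of_surjective hφ]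
    exact hg1
  · rw [← hk, Subgroup.relIndex_ker, Subgroup.map_comap_eq_self_of_surjective hφ]
    exact hg2
  · intro u hu
    refine hO'.units u ?_ ?_
    · rw [← ValuationSubring.valuation_le_one_iff]
      exact le_of_eq hu
    · rw [← ValuationSubring.valuation_le_one_iff]
      exact le_of_eq (inv_mem hu : u⁻¹ ∈ O'.unitGroup)
  · intro x hx hx'
    obtain ⟨t, ht, e⟩ := hO'.one x hx hx'
    rw [MonoidHom.mem_ker, phi_one hk] at ht
    obtain ⟨b, rfl⟩ := ht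
    exact ⟨b, by rw [← e, Units.val_pow_eq_pow_val]⟩

end Run7.h241.EQ
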