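import Pool.Agent.Run7.h241.EF2
import Pool.Agent.N908.FR.Fld

/-! Symbols which are trivial on a subgroup `I` of `F*`, and valuation rings. -/

set_option autoImplicit false

open Module Submodule Function

namespace Run7.h241.EF

open Pool.Agent.N908.FR
open Pool.Agent.Results.MP_600e55_nt.SymbolPartitions

section

variable {p : ℕ} [Fact p.Prime] {F : Type} [Field F]
variable {V : Type} [AddCommGroup V] [Module (ZMod p) V] [FiniteDimensional (ZMod p) V]

/-- the subspace which belongs to a subgroup of `F*` -/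
def sp {q : Fˣ → V} (hq : ∀ a b, q (a * b) = q a + q b) (I : Subgroup Fˣ) :
    Submodule (ZMod p) V :=
  AddSubgroup.toZModSubmodule p
    { carrier := {v | ∃ a ∈ I, q a = v}
      add_mem' := by
        rintro _ _ ⟨a, ha, rfl⟩ ⟨b, hb, rfl⟩
        exact ⟨a * b, mul_mem ha hb, hq a b⟩
      zero_mem' := by
        have := hq 1 1
        rw [one_mul] at this
        exact ⟨1, one_mem _, by simpa using this⟩
      neg_mem' := by
        rintro _ ⟨a, ha, rfl⟩
        have h1 := hq 1 1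
        rw [one_mul] at h1
        have h1' : q 1 = 0 := by simpa using h1
        have h2 := hq a a⁻¹
        rw [mul_inv_cancel, h1'] at h2
        exact ⟨a⁻¹, inv_mem ha, (neg_eq_of_add_eq_zero_right h2.symm).symm⟩ }

lemma mem_sp {q : Fˣ → V} (hq : ∀ a b, q (a * b) = q a + q b) {I : Subgroup Fˣ} {v : V} :
    v ∈ sp (p := p) hq I ↔ ∃ a ∈ I, q a = v := Iff.rfl

lemma q_mem_sp {q : Fˣ → V} (hq : ∀ a b, q (a * b) = q a + q b)
    (hk : ∀ a, q a = 0 ↔ a ∈ powers F p) {I : Subgroup Fˣ} (hI : powers F p ≤ I) {a : Fˣ} :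
    q a ∈ sp (p := p) hq I ↔ a ∈ I := by
  rw [mem_sp]
  refine ⟨?_, fun h => ⟨a, h, rfl⟩⟩
  rintro ⟨b, hb, h⟩
  have hq1 : q 1 = 0 := (hk 1).2 (one_mem _)
  have h2 := hq b b⁻¹
  rw [mul_inv_cancel, hq1] at h2
  have h3 : q b⁻¹ = - q b := (neg_eq_of_add_eq_zero_right h2.symm).symm
  have h4 : a * b⁻¹ ∈ I := hI ((hk _).1 (by rw [hq, h3, h, add_neg_cancel]))
  have h5 := mul_mem h4 hb
  rwa [inv_mul_cancel_right] at h5

lemma sg_sp {q : Fˣ → V} (hq : ∀ a b, q (a * b) = q a + q b)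
    (hk : ∀ a, q a = 0 ↔ a ∈ powers F p) {I : Subgroup Fˣ} (hI : powers F p ≤ I) :
    sg hq (sp (p := p) hq I) = I := by
  ext a
  rw [mem_sg]
  exact q_mem_sp hq hk hI

lemma sp_sg {q : Fˣ → V} (hq : ∀ a b, q (a * b) = q a + q b) (hs : Surjective q)
    (J : Submodule (ZMod p) V) : sp (p := p) hq (sg hq J) = J := by
  ext v
  rw [mem_sp]
  constructor
  · rintro ⟨a, ha, rfl⟩
    exact ha
  · intro hv
    obtain ⟨a, rfl⟩ := hs v
    exact ⟨a, hv, rfl⟩

/-- the symbols which are trivial on `I × I` are the forms which vanish on it -/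
theorem card_symbols' (hp2 : p ≠ 2) {q : Fˣ → V} (hq : ∀ a b, q (a * b) = q a + q b)
    (hs : Surjective q) (hk : ∀ a, q a = 0 ↔ a ∈ powers F p) {I : Subgroup Fˣ} :
    Nat.card {c : Fˣ → Fˣ → ZMod p // IsSymbol p F c ∧ ∀ a ∈ I, ∀ b ∈ I, c a b = 0} =
      p ^ finrank (ZMod p) (Forms (ZMod p) (fun x y => Est q x y ∨ Sq (sp (p := p) hq I) x y)) := by
  set E' : V → V → Prop := fun x y => Est q x y ∨ Sq (sp (p := p) hq I) x y with hE'
  have h1 : Nat.card (Forms (ZMod p) E') = p ^ finrank (ZMod p) (Forms (ZMod p) E') := by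
    let _ : AddCommGroup (Forms (ZMod p) E') := Module.addCommMonoidToAddCommGroup (ZMod p)
    have h0 := Module.natCard_eq_pow_finrank (K := ZMod p) (V := Forms (ZMod p) E')
    rwa [Nat.card_zmod] at h0
  rw [← h1]
  choose f hf hf' using fun c : {c : Fˣ → Fˣ → ZMod p // IsSymbol p F c ∧
    ∀ a ∈ I, ∀ b ∈ I, c a b = 0} => exists_form hp2 hq hs hk c.2.1
  have hmem : ∀ c, f c ∈ Forms (ZMod p) E' := by
    intro c
    refine mem_Forms.2 ⟨(mem_Forms.1 (hf c)).1, ?_⟩
    rintro x y (h | ⟨hx, hy⟩)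
    · exact (mem_Forms.1 (hf c)).2 x y h
    · obtain ⟨a, ha, rfl⟩ := (mem_sp hq).1 hx
      obtain ⟨b, hb, rfl⟩ := (mem_sp hq).1 hy
      rw [hf']
      exact c.2.2 a ha b hb
  refine Nat.card_congr (Equiv.ofBijective (fun c => (⟨f c, hmem c⟩ : Forms (ZMod p) E')) ⟨?_, ?_⟩)
  · intro c c' h
    have h2 : f c = f c' := congrArg Subtype.val h
    apply Subtype.ext
    funext a b
    rw [← hf', ← hf', h2]
  · rintro ⟨β, hβ⟩
    have hβ' := mem_Forms.1 hβ
    have hm1 : q (-1) = 0 := (hk _).2 (neg_one_mem hp2)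
    have hc : IsSymbol p F (fun a b => β (q a) (q b)) := by
      refine ⟨fun a b x => ?_, fun x a b => ?_, fun x y hxy => ?_⟩
      · simp only [hq, map_add, LinearMap.add_apply]
      · simp only [hq, map_add]
      · have h2 : q (-x) = q x := by
          rw [show -x = (-1) * x by simp, hq, hm1, zero_add]
        have h3 := hβ'.2 (q (-x)) (q y) (Or.inl ⟨-x, y, by
          rw [Units.val_neg, ← hxy]; ring, rfl, rfl⟩)
        rwa [h2] at h3
    refine ⟨⟨_, hc, fun a ha b hb => hβ'.2 _ _ (Or.inr ⟨⟨a, ha, rfl⟩, ⟨b, hb, rfl⟩⟩)⟩, ?_⟩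
    apply Subtype.ext
    refine LinearMap.ext fun x => LinearMap.ext fun y => ?_
    obtain ⟨a, rfl⟩ := hs x
    obtain ⟨b, rfl⟩ := hs y
    exact hf' _ a b

/-- the valuation ring -/
theorem main' (hp2 : p ≠ 2) (hζ : ∃ ζ : F, IsPrimitiveRoot ζ p) (hfin : (powers F p).index ≠ 0)
    {q : Fˣ → V} (hq : ∀ a b, q (a * b) = q a + q b)
    (hs : Surjective q) (hk : ∀ a, q a = 0 ↔ a ∈ powers F p) (J : Submodule (ZMod p) V)
    (hJ : J ≠ ⊥)
    (hr : finrank (ZMod p) J + finrank (ZMod p) (Rel (k := ZMod p) (Est q) ⊤ ⊔ W J :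
      Submodule (ZMod p) (Dual (ZMod p) V →ₗ[ZMod p] V)) <
      finrank (ZMod p) V + finrank (ZMod p) (W J)) :
    (∃ O : ValuationSubring F, IsCompatible p O ∧
      (powers F p).relIndex (O.unitGroup ⊔ powers F p) * p ^ finrank (ZMod p) (W J) ≤
        p ^ (finrank (ZMod p) J + finrank (ZMod p) (Rel (k := ZMod p) (Est q) ⊤ ⊔ W J :
          Submodule (ZMod p) (Dual (ZMod p) V →ₗ[ZMod p] V)))) ∧
    ∀ K : IntermediateField F (AlgebraicClosure F), IsMaximalPExtension p K →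
      IsDecompositionGroup (⊤ : Subgroup (↥K ≃ₐ[F] ↥K)) ∧ ConclusionOfQ1 p K := by
  have hp := (Fact.out : p.Prime)
  obtain ⟨P, hP1, hP2, hP3, hP4, hP5⟩ := exists_part' (Est q) J hJ hr
  have hle : ∀ K : Submodule (ZMod p) V, powers F p ≤ sg hq K := fun K a ha => by
    rw [mem_sg, (hk a).2 ha]
    exact zero_mem _
  have hpart : IsPartition F p (sg hq '' P) := by
    refine ⟨?_, ?_, ?_, ?_⟩
    · rintro _ ⟨K, -, rfl⟩
      exact hle K
    · rintro _ ⟨K, hK, rfl⟩ h0
      refine hP1 K hK (eq_top_iff.2 fun x _ => ?_)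
      obtain ⟨a, rfl⟩ := hs x
      rw [← mem_sg hq, h0]
      exact Subgroup.mem_top _
    · intro a
      obtain ⟨K, hK, h⟩ := hP2 (q a)
      exact ⟨_, ⟨K, hK, rfl⟩, h⟩
    · rintro _ ⟨K, hK, rfl⟩ _ ⟨K', hK', rfl⟩ hne
      have h1 := hP3 K hK K' hK' (fun h => hne (by rw [h]))
      refine le_antisymm ?_ (le_inf (hle K) (hle K'))
      rintro a ⟨h2, h3⟩
      rw [← hk, ← mem_bot (ZMod p), ← h1]
      exact ⟨h2, h3⟩
  have hresp : RespectsSums p (sg hq '' P) := by
    rintro x v hx hv _ ⟨K, hK, rfl⟩ hxK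
    exact hP4 K hK (q x) (q v) ⟨x, v, hv, rfl, rfl⟩ (fun h0 => hx ((hk x).1 h0)) hxK
  obtain ⟨⟨K', ⟨K, hK, rfl⟩, O, hO, hc⟩, h2⟩ :=
    (result p hp2 F hζ hfin).1 (sg hq '' P) hpart hresp
  refine ⟨⟨O, hc, ?_⟩, h2⟩
  have h3 : O.unitGroup ⊔ powers F p ≤ sg hq K := sup_le hO (hle K)
  have h4 := Subgroup.relIndex_mul_relIndex (powers F p) (O.unitGroup ⊔ powers F p) (sg hq K)
    le_sup_right h3
  rw [relIndex_sg hq hs hk] at h4
  have h5 : (powers F p).relIndex (O.unitGroup ⊔ powers F p) ≤ p ^ finrank (ZMod p) K :=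
    Nat.le_of_dvd (pow_pos hp.pos _) (Dvd.intro _ h4)
  calc (powers F p).relIndex (O.unitGroup ⊔ powers F p) * p ^ finrank (ZMod p) (W J)
      ≤ p ^ finrank (ZMod p) K * p ^ finrank (ZMod p) (W J) := Nat.mul_le_mul_right _ h5
    _ = p ^ (finrank (ZMod p) K + finrank (ZMod p) (W J)) := (pow_add _ _ _).symm
    _ ≤ _ := Nat.pow_le_pow_right hp.pos (hP5 K hK)

/-- the bimultiplicative functions `c` with `c(a,a) = 0` -/
structure IsAlt (p : ℕ) (F : Type) [Field F] (c : Fˣ → Fˣ → ZMod p) : Prop where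
  mul_left : ∀ a b x : Fˣ, c (a * b) x = c a x + c b x
  mul_right : ∀ x a b : Fˣ, c x (a * b) = c x a + c x b
  self : ∀ a : Fˣ, c a a = 0

lemma IsAlt.one_left {c : Fˣ → Fˣ → ZMod p} (h : IsAlt p F c) (x : Fˣ) : c 1 x = 0 := by
  have := h.mul_left 1 1 x
  rw [one_mul] at this
  simpa using this

lemma IsAlt.one_right {c : Fˣ → Fˣ → ZMod p} (h : IsAlt p F c) (x : Fˣ) : c x 1 = 0 := by
  have := h.mul_right x 1 1
  rw [one_mul] at this
  simpa using this

lemma IsAlt.of_mem_left {c : Fˣ → Fˣ → ZMod p} (h : IsAlt p F c) {a : Fˣ}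
    (ha : a ∈ powers F p) (x : Fˣ) : c a x = 0 := by
  obtain ⟨t, rfl⟩ := ha
  have h1 : ∀ n : ℕ, c (t ^ n) x = n * c t x := by
    intro n
    induction n with
    | zero => simp [h.one_left]
    | succ n ih => rw [pow_succ, h.mul_left, ih]; push_cast; ring
  change c (t ^ p) x = 0
  rw [h1]
  simp

lemma IsAlt.of_mem_right {c : Fˣ → Fˣ → ZMod p} (h : IsAlt p F c) {a : Fˣ}
    (ha : a ∈ powers F p) (x : Fˣ) : c x a = 0 := by
  obtain ⟨t, rfl⟩ := ha
  have h1 : ∀ n : ℕ, c x (t ^ n) = n * c x t := by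
    intro n
    induction n with
    | zero => simp [h.one_right]
    | succ n ih => rw [pow_succ, h.mul_right, ih]; push_cast; ring
  change c x (t ^ p) = 0
  rw [h1]
  simp

lemma mem_unit {O : ValuationSubring F} {a : Fˣ} (ha : (a : F) ∈ O) (ha' : (a : F)⁻¹ ∈ O) :
    a ∈ O.unitGroup := by
  rw [ValuationSubring.mem_unitGroup_iff]
  refine le_antisymm ((ValuationSubring.valuation_le_one_iff _ _).2 ha) ?_
  have h9 := (ValuationSubring.valuation_le_one_iff O _).2 ha'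
  rw [map_inv₀] at h9
  have h10 : O.valuation (a : F) ≠ 0 := by
    rw [Valuation.ne_zero_iff]
    exact Units.ne_zero _
  exact (inv_le_one₀ (zero_lt_iff.2 h10)).1 h9

/-- alternating functions which are trivial on the units of a compatible valuation ring are
symbols -/
theorem alt_of_ring (hp2 : p ≠ 2) (O : ValuationSubring F) (hO : IsCompatible p O)
    {c : Fˣ → Fˣ → ZMod p} (hc : IsAlt p F c)
    (hU : ∀ a ∈ O.unitGroup, ∀ b ∈ O.unitGroup, c a b = 0) (x b : Fˣ) (hxb : (x : F) + b = 1) :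
    c x b = 0 := by
  have hm1 : (-1 : Fˣ) ∈ powers F p := neg_one_mem hp2
  set a : Fˣ := -x with hadef
  have hxa : c x b = c a b := by
    rw [hadef, ← neg_one_mul, hc.mul_left, hc.of_mem_left hm1, zero_add]
  rw [hxa]
  have hab : (b : F) = 1 + a := by
    rw [hadef, Units.val_neg, ← hxb]
    ring
  by_cases ha : (a : F) ∈ O
  · by_cases ha' : (a : F)⁻¹ ∈ O
    · have hb : (b : F) ∈ O := by
        rw [hab]
        exact add_mem (one_mem _) ha
      by_cases hb' : (b : F)⁻¹ ∈ O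
      · exact hU a (mem_unit ha ha') b (mem_unit hb hb')
      · obtain ⟨y, hy⟩ := hO.one_add (-(b : F)) (neg_mem hb) (by
          rw [inv_neg]
          intro h
          exact hb' (by simpa using neg_mem h))
        have hy' : y ^ p = (x : F) := by
          rw [hy, ← hxb]
          ring
        have hy0 : y ≠ 0 := by
          intro h0
          rw [h0, zero_pow (Fact.out : p.Prime).ne_zero] at hy'
          exact x.ne_zero hy'.symm
        have h1 : x ∈ powers F p := ⟨Units.mk0 y hy0, Units.ext hy'⟩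
        rw [← hxa]
        exact hc.of_mem_left h1 b
    · obtain ⟨y, hy⟩ := hO.one_add (a : F) ha ha'
      have hy0 : y ≠ 0 := by
        intro h0
        rw [h0, zero_pow (Fact.out : p.Prime).ne_zero, ← hab] at hy
        exact b.ne_zero hy.symm
      have h1 : b ∈ powers F p := ⟨Units.mk0 y hy0, Units.ext (by
        rw [hab, ← hy]; rfl)⟩
      exact hc.of_mem_right h1 a
  · have ha1 : (a : F)⁻¹ ∈ O := (O.mem_or_inv_mem _).resolve_left ha
    obtain ⟨y, hy⟩ := hO.one_add (a : F)⁻¹ ha1 (by rwa [inv_inv])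
    have ha0 : (a : F) ≠ 0 := a.ne_zero
    have hy1 : (b : F) = a * y ^ p := by
      rw [hy, hab]
      field_simp
      ring
    have hy0 : y ≠ 0 := by
      intro h0
      rw [h0, zero_pow (Fact.out : p.Prime).ne_zero, mul_zero] at hy1
      exact b.ne_zero hy1
    have h1 : b = a * (Units.mk0 y hy0) ^ p := Units.ext hy1
    have h2 : (Units.mk0 y hy0 ^ p : Fˣ) ∈ powers F p := ⟨_, rfl⟩
    rw [h1, hc.mul_right, hc.self, hc.of_mem_right h2, zero_add]

end

end Run7.h241.EF
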