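import Mathlib
import Pool.Agent.Helper30_Alex.AE

set_option autoImplicit false

namespace Run7.h241

open Filter Topology H30

theorem ae_of_retract {E : Type} [NormedAddCommGroup E] [NormedSpace ℝ E]
    [FiniteDimensional ℝ E] {S : Set E} (r : E → E) (hr : Continuous r) (hr1 : ∀ x, r x ∈ S)
    (hr2 : ∀ x ∈ S, r x = x) : AE S := by
  intro Z _ B hB f hf hm
  have : TietzeExtension.{0, 0} E := TietzeExtension.of_tvs ℝ
  obtain ⟨G, hG⟩ := ContinuousMap.exists_restrict_eq hB (⟨fun z : B => f z, hf.domRestrict⟩ : C(B, E))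
  refine ⟨fun z => r (G z), hr.comp G.continuous, fun z => hr1 _, ?_⟩
  intro z hz
  have h1 : G z = f z := congrArg (fun g : C(B, E) => g ⟨z, hz⟩) hG
  show r (G z) = f z
  rw [h1, hr2 _ (hm hz)]

theorem ae_transport {Y Y' : Type} [TopologicalSpace Y] [TopologicalSpace Y'] {C : Set Y}
    {C' : Set Y'} (h : AE C) (e : Y → Y') (r : Y' → Y) (he : ContinuousOn e C)
    (hr : ContinuousOn r C') (hm : Set.MapsTo e C C') (hm' : Set.MapsTo r C' C)
    (her : ∀ y ∈ C', e (r y) = y) : AE C' := by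
  intro Z _ B hB f hf hfm
  obtain ⟨F, hF, hF1, hF2⟩ := h Z B hB (fun z => r (f z)) (hr.comp hf hfm)
    (fun z hz => hm' (hfm hz))
  refine ⟨fun z => e (F z), ?_, fun z => hm (hF1 z), ?_⟩
  · exact continuousOn_univ.mp (he.comp hF.continuousOn (fun z _ => hF1 z))
  · intro z hz
    show e (F z) = f z
    rw [hF2 hz]
    exact her _ (hfm hz)

theorem ae_prod {Y Y' : Type} [TopologicalSpace Y] [TopologicalSpace Y'] {C : Set Y}
    {C' : Set Y'} (h : AE C) (h' : AE C') : AE (C ×ˢ C') := by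
  intro Z _ B hB f hf hfm
  obtain ⟨F, hF, hF1, hF2⟩ := h Z B hB (fun z => (f z).1) (continuous_fst.comp_continuousOn hf)
    (fun z hz => (hfm hz).1)
  obtain ⟨G, hG, hG1, hG2⟩ := h' Z B hB (fun z => (f z).2) (continuous_snd.comp_continuousOn hf)
    (fun z hz => (hfm hz).2)
  refine ⟨fun z => (F z, G z), hF.prodMk hG, fun z => ⟨hF1 z, hG1 z⟩, ?_⟩
  intro z hz
  exact Prod.ext (hF2 hz) (hG2 hz)

theorem ae_push {E : Type} [TopologicalSpace E] {S : Set E} (hS : AE S) {p : E → ℝ}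
    {H : E × ℝ → E} (hc : Continuous H) (hH : ∀ z, H z ∈ S) (hid : ∀ x ∈ S, H (x, 0) = x)
    (hpos : ∀ x, ∀ t > 0, 0 < p (H (x, t))) : AE {x | x ∈ S ∧ 0 < p x} := by
  intro Z _ B hB f hf hm
  obtain ⟨F, hF, hF1, hF2⟩ := hS Z B hB f hf (fun z hz => (hm hz).1)
  rcases B.eq_empty_or_nonempty with hB0 | hB0
  · refine ⟨fun z => H (F z, 1), hc.comp (hF.prodMk continuous_const), fun z => ⟨hH _, hpos _ _ one_pos⟩,
      ?_⟩
    rw [hB0]
    exact Set.eqOn_empty _ _
  · refine ⟨fun z => H (F z, Metric.infDist z B),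
      hc.comp (hF.prodMk (Metric.continuous_infDist_pt B)), ?_, ?_⟩
    · intro z
      refine ⟨hH _, ?_⟩
      by_cases hz : z ∈ B
      · show 0 < p (H (F z, Metric.infDist z B))
        rw [(hB.mem_iff_infDist_zero hB0).mp hz, hid _ (hF1 z), hF2 hz]
        exact (hm hz).2
      · apply hpos
        exact (hB.notMem_iff_infDist_pos hB0).mp hz
    · intro z hz
      show H (F z, Metric.infDist z B) = f z
      rw [(hB.mem_iff_infDist_zero hB0).mp hz, hid _ (hF1 z), hF2 hz]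

/-- an increasing union of absolute extensors -/
theorem ae_union {X : Type} [TopologicalSpace X] (k : X → ℝ) (hk : Continuous k)
    (h : ∀ n : ℕ, AE {x | k x ≤ n}) : AE (Set.univ : Set X) := by
  intro Z _ B hB f hf _
  have : TietzeExtension.{0, 0} ℝ := TietzeExtension.of_tvs ℝ
  obtain ⟨K, hK⟩ := ContinuousMap.exists_restrict_eq hB
    (⟨fun z : B => k (f z), (hk.comp_continuousOn hf).domRestrict⟩ : C(B, ℝ))
  have hK' : ∀ z ∈ B, K z = k (f z) := fun z hz => congrArg (fun g : C(B, ℝ) => g ⟨z, hz⟩) hK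
  let M : ℕ → Set Z := fun n => {z | K z ≤ n}
  have hMc : ∀ n, IsClosed (M n) := fun n => isClosed_le K.continuous continuous_const
  classical
  -- one step
  have step : ∀ (n : ℕ) (F : {F : Z → X // Continuous F ∧ (∀ z, k (F z) ≤ n) ∧
      ∀ z ∈ B, K z ≤ n → F z = f z}), ∃ F' : {F : Z → X // Continuous F ∧
      (∀ z, k (F z) ≤ (n + 1 : ℕ)) ∧ ∀ z ∈ B, K z ≤ (n + 1 : ℕ) → F z = f z},
      ∀ z ∈ M n, F'.1 z = F.1 z := by
    rintro n ⟨F, hF, hF1, hF2⟩
    let g : Z → X := fun z => if z ∈ M n then F z else f z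
    have g1 : ∀ z ∈ M n, g z = F z := fun z hz => if_pos hz
    have g2 : ∀ z ∈ B, g z = f z := by
      intro z hz
      by_cases h1 : z ∈ M n
      · rw [g1 z h1]; exact hF2 z hz h1
      · exact if_neg h1
    have hBc : IsClosed (B ∩ M (n + 1)) := hB.inter (hMc _)
    have gc : ContinuousOn g (M n ∪ (B ∩ M (n + 1))) := by
      apply ContinuousOn.union_of_isClosed _ _ (hMc n) hBc
      · exact hF.continuousOn.congr g1
      · exact (hf.mono Set.inter_subset_left).congr (fun z hz => g2 z hz.1)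
    obtain ⟨F', hF', hF'1, hF'2⟩ := h (n + 1) Z (M n ∪ (B ∩ M (n + 1))) ((hMc n).union hBc) g gc (by
      rintro z (hz | hz)
      · show k (g z) ≤ ((n + 1 : ℕ) : ℝ)
        rw [g1 z hz]
        refine (hF1 z).trans ?_
        push_cast; linarith
      · show k (g z) ≤ ((n + 1 : ℕ) : ℝ)
        rw [g2 z hz.1, ← hK' z hz.1]
        exact hz.2)
    refine ⟨⟨F', hF', hF'1, ?_⟩, ?_⟩
    · intro z hz hz1
      rw [hF'2 (Or.inr ⟨hz, hz1⟩), g2 z hz]
    · intro z hz
      show F' z = F z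
      rw [hF'2 (Or.inl hz), g1 z hz]
  choose nxt hnxt using step
  obtain ⟨F0, hF0, hF01, hF02⟩ := h 0 Z (B ∩ M 0) (hB.inter (hMc 0)) f
    (hf.mono Set.inter_subset_left) (by
      intro z hz
      show k (f z) ≤ ((0 : ℕ) : ℝ)
      rw [← hK' z hz.1]; exact hz.2)
  let seq : ∀ n : ℕ, {F : Z → X // Continuous F ∧ (∀ z, k (F z) ≤ n) ∧
      ∀ z ∈ B, K z ≤ n → F z = f z} := fun n =>
    Nat.rec ⟨F0, hF0, hF01, fun z hz hz1 => hF02 ⟨hz, hz1⟩⟩ (fun n F => nxt n F) n
  have hseq : ∀ n, ∀ z ∈ M n, (seq (n + 1)).1 z = (seq n).1 z := fun n => hnxt n (seq n)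
  have hmono : ∀ m n, m ≤ n → ∀ z ∈ M m, (seq n).1 z = (seq m).1 z := by
    intro m n hmn
    induction hmn with
    | refl => intro z _; rfl
    | @step n hmn' ih =>
      intro z hz
      have h1 : z ∈ M n := le_trans (show K z ≤ m from hz) (by exact_mod_cast hmn')
      rw [hseq n z h1, ih z hz]
  refine ⟨fun z => (seq ⌈K z⌉₊).1 z, ?_, fun z => Set.mem_univ _, ?_⟩
  · rw [continuous_iff_continuousAt]
    intro z
    obtain ⟨n, hn⟩ := exists_nat_gt (K z)
    have hev : (seq n).1 =ᶠ[𝓝 z] (fun z => (seq ⌈K z⌉₊).1 z) := by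
      have h1 : ∀ᶠ z' in 𝓝 z, K z' < n := K.continuous.continuousAt.eventually_lt_const hn
      filter_upwards [h1] with z' hz'
      have h2 : ⌈K z'⌉₊ ≤ n := Nat.ceil_le.mpr hz'.le
      exact hmono _ _ h2 z' (show K z' ≤ _ from Nat.le_ceil _)
    exact (seq n).2.1.continuousAt.congr hev
  · intro z hz
    exact (seq ⌈K z⌉₊).2.2.2 z hz (Nat.le_ceil _)

end Run7.h241
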