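import Mathlib

set_option autoImplicit false

namespace Run7.h241

open Filter Topology

/-- clamp to the unit interval -/
noncomputable def cl (x : ℝ) : ℝ := max 0 (min 1 x)

theorem cl_cont : Continuous cl := by unfold cl; fun_prop

theorem cl_nonneg (x : ℝ) : 0 ≤ cl x := le_max_left _ _

theorem cl_le_one (x : ℝ) : cl x ≤ 1 := max_le zero_le_one (min_le_left _ _)

theorem cl_eq {x : ℝ} (h0 : 0 ≤ x) (h1 : x ≤ 1) : cl x = x := by
  unfold cl; rw [min_eq_right h1, max_eq_right h0]

theorem cl_of_nonpos {x : ℝ} (h : x ≤ 0) : cl x = 0 := by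
  unfold cl
  rw [max_eq_left]
  exact (min_le_right _ _).trans h

theorem cl_of_one_le {x : ℝ} (h : 1 ≤ x) : cl x = 1 := by
  unfold cl
  rw [min_eq_left h, max_eq_right zero_le_one]

theorem cl_mono : Monotone cl := by
  intro x y h
  exact max_le_max le_rfl (min_le_min le_rfl h)

theorem cl_pos_iff {x : ℝ} : 0 < cl x ↔ 0 < x := by
  constructor
  · intro h
    by_contra hx
    rw [cl_of_nonpos (not_lt.mp hx)] at h
    exact lt_irrefl _ h
  · intro h
    unfold cl
    exact lt_max_of_lt_right (lt_min one_pos h)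

theorem cl_lt_one_iff {x : ℝ} : cl x < 1 ↔ x < 1 := by
  constructor
  · intro h
    by_contra hx
    rw [cl_of_one_le (not_lt.mp hx)] at h
    exact lt_irrefl _ h
  · intro h
    unfold cl
    exact max_lt one_pos ((min_le_right _ _).trans_lt h)

theorem hasSum_telescope (b : ℕ → ℝ) (hb : Antitone b) (hb0 : Tendsto b atTop (𝓝 0)) (k : ℕ) :
    HasSum (fun j => b (j + k) - b (j + k + 1)) (b k) := by
  rw [hasSum_iff_tendsto_nat_of_nonneg (fun j => sub_nonneg.mpr (hb (Nat.le_succ _)))]
  have h1 : ∀ n, ∑ i ∈ Finset.range n, (b (i + k) - b (i + k + 1)) = b k - b (n + k) := by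
    intro n
    have := Finset.sum_range_sub' (fun i => b (i + k)) n
    simp only [zero_add] at this
    rw [← this]
    apply Finset.sum_congr rfl
    intro i _
    rw [show i + k + 1 = i + 1 + k by ring]
  simp_rw [h1]
  have h2 : Tendsto (fun n => b (n + k)) atTop (𝓝 0) := hb0.comp (tendsto_add_atTop_nat k)
  simpa using (tendsto_const_nhds (x := b k)).sub h2

/-- A continuous monotone function with prescribed behaviour at the points of two sequences which
decrease to zero. -/
theorem exists_interp (a b : ℕ → ℝ) (ha : StrictAnti a) (ha0 : ∀ k, 0 < a k) (hb : Antitone b)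
    (hb0 : Tendsto b atTop (𝓝 0)) :
    ∃ f : ℝ → ℝ, Continuous f ∧ Monotone f ∧ (∀ t, t ≤ 0 → f t = 0) ∧
      (∀ t, a 0 ≤ t → f t = b 0) ∧ (∀ k t, a k ≤ t → b k ≤ f t) ∧
      (∀ k t, t ≤ a k → f t ≤ b k) := by
  have hbn : ∀ k, 0 ≤ b k := fun k => hb.le_of_tendsto hb0 k
  let c : ℕ → ℝ := fun k => b k - b (k + 1)
  have hc : ∀ k, 0 ≤ c k := fun k => sub_nonneg.mpr (hb (Nat.le_succ _))
  have hcs : Summable c := by
    have := (hasSum_telescope b hb hb0 0).summable
    simpa using this
  let u : ℕ → ℝ → ℝ := fun k t => c k * cl ((t - a (k + 1)) / (a k - a (k + 1)))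
  have hu0 : ∀ k t, 0 ≤ u k t := fun k t => mul_nonneg (hc k) (cl_nonneg _)
  have hu1 : ∀ k t, u k t ≤ c k := fun k t =>
    (mul_le_mul_of_nonneg_left (cl_le_one _) (hc k)).trans_eq (mul_one _)
  have hus : ∀ t, Summable (fun k => u k t) := fun t =>
    Summable.of_nonneg_of_le (fun k => hu0 k t) (fun k => hu1 k t) hcs
  have hd : ∀ k, 0 < a k - a (k + 1) := fun k => sub_pos.mpr (ha (Nat.lt_succ_self _))
  refine ⟨fun t => ∑' k, u k t, ?_, ?_, ?_, ?_, ?_, ?_⟩
  · refine continuous_tsum (u := c) (fun k => ?_) hcs (fun k t => ?_)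
    · exact continuous_const.mul (cl_cont.comp (by fun_prop))
    · rw [Real.norm_of_nonneg (hu0 k t)]
      exact hu1 k t
  · intro s t hst
    apply Summable.tsum_le_tsum _ (hus s) (hus t)
    intro k
    apply mul_le_mul_of_nonneg_left _ (hc k)
    apply cl_mono
    exact div_le_div_of_nonneg_right (by linarith) (hd k).le
  · intro t ht
    have : ∀ k, u k t = 0 := by
      intro k
      have : (t - a (k + 1)) / (a k - a (k + 1)) ≤ 0 :=
        div_nonpos_of_nonpos_of_nonneg (by linarith [ha0 (k + 1)]) (hd k).le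
      show c k * cl _ = 0
      rw [cl_of_nonpos this, mul_zero]
    simp [this]
  · intro t ht
    have : ∀ k, u k t = c k := by
      intro k
      have h1 : a k ≤ t := (ha.antitone (Nat.zero_le k)).trans ht
      have : 1 ≤ (t - a (k + 1)) / (a k - a (k + 1)) := by
        rw [one_le_div (hd k)]; linarith
      show c k * cl _ = c k
      rw [cl_of_one_le this, mul_one]
    simp only [this]
    have := (hasSum_telescope b hb hb0 0).tsum_eq
    simpa using this
  · intro k t ht
    rw [← (hasSum_telescope b hb hb0 k).tsum_eq]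
    have h1 : ∀ j, b (j + k) - b (j + k + 1) = u (j + k) t := by
      intro j
      have h1 : a (j + k) ≤ t := (ha.antitone (Nat.le_add_left k j)).trans ht
      have : 1 ≤ (t - a (j + k + 1)) / (a (j + k) - a (j + k + 1)) := by
        rw [one_le_div (hd _)]; linarith
      show _ = c (j + k) * cl _
      rw [cl_of_one_le this, mul_one]
    simp_rw [h1]
    rw [← (hus t).sum_add_tsum_nat_add k]
    have : 0 ≤ ∑ i ∈ Finset.range k, u i t := Finset.sum_nonneg (fun i _ => hu0 i t)
    linarith
  · intro k t ht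
    rw [← (hasSum_telescope b hb hb0 k).tsum_eq]
    show ∑' j, u j t ≤ _
    rw [← (hus t).sum_add_tsum_nat_add k]
    have h0 : ∑ i ∈ Finset.range k, u i t = 0 := by
      apply Finset.sum_eq_zero
      intro i hi
      have hik : i + 1 ≤ k := Finset.mem_range.mp hi
      have h1 : t ≤ a (i + 1) := ht.trans (ha.antitone hik)
      have : (t - a (i + 1)) / (a i - a (i + 1)) ≤ 0 :=
        div_nonpos_of_nonpos_of_nonneg (by linarith) (hd i).le
      show c i * cl _ = 0
      rw [cl_of_nonpos this, mul_zero]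
    rw [h0, zero_add]
    apply Summable.tsum_le_tsum
    · intro j; exact hu1 (j + k) t
    · exact (summable_nat_add_iff k).mpr (hus t)
    · exact (hasSum_telescope b hb hb0 k).summable

end Run7.h241
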