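import Mathlib
import Pool.Agent.Run7.h241.Interp

set_option autoImplicit false

namespace Run7.h241

open Filter Topology

/-! ### step sequences -/

/-- sequences of the form `1, ..., 1, s, 0, 0, ...` -/
structure IsStep (a : ℕ → ℝ) : Prop where
  nn : ∀ n, 0 ≤ a n
  le : ∀ n, a n ≤ 1
  zero : a 0 = 1
  step : ∀ n, a (n + 1) = 0 ∨ a n = 1

theorem IsStep.one_of_ne {a : ℕ → ℝ} (h : IsStep a) {j : ℕ} (hj : a j ≠ 0) :
    ∀ i, i < j → a i = 1 := by
  induction j with
  | zero => intro i hi; omega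
  | succ j ih =>
    intro i hi
    have h1 : a j = 1 := (h.step j).resolve_left hj
    rcases Nat.lt_succ_iff_lt_or_eq.mp hi with h2 | h2
    · exact ih (by rw [h1]; norm_num) i h2
    · rw [h2]; exact h1

theorem IsStep.zero_of_ne {a : ℕ → ℝ} (h : IsStep a) {j : ℕ} (hj : a j ≠ 1) :
    ∀ i, j < i → a i = 0 := by
  intro i hi
  by_contra h1
  exact hj (h.one_of_ne h1 j hi)

theorem IsStep.cmp {a b : ℕ → ℝ} (ha : IsStep a) (hb : IsStep b) :
    (∀ n, a n ≤ b n) ∨ (∀ n, b n ≤ a n) := by
  by_contra hcon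
  push Not at hcon
  obtain ⟨⟨j, hj⟩, ⟨i, hi⟩⟩ := hcon
  have h1 : a j ≠ 0 := by have := hb.nn j; intro h; rw [h] at hj; linarith
  have h2 : b j ≠ 1 := by have := ha.le j; intro h; rw [h] at hj; linarith
  rcases lt_trichotomy i j with h | h | h
  · have := ha.one_of_ne h1 i h
    have := hb.le i
    linarith
  · subst h; linarith
  · have := hb.zero_of_ne h2 i h
    have := ha.nn i
    linarith

/-- harmonic numbers -/
noncomputable def hm (k : ℕ) : ℝ := 1 / ((k : ℝ) + 1)

theorem hm_pos (k : ℕ) : 0 < hm k := by unfold hm; positivity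

theorem hm_anti : StrictAnti hm := by
  intro m n hmn
  apply one_div_lt_one_div_of_lt (by positivity)
  have : (m : ℝ) < n := by exact_mod_cast hmn
  linarith

theorem hm_tendsto : Tendsto hm atTop (𝓝 0) := tendsto_one_div_add_atTop_nhds_zero_nat

theorem hm_zero : hm 0 = 1 := by simp [hm]

theorem one_div_hm (k : ℕ) : 1 / hm k = k + 1 := by simp [hm]

/-- weights -/
noncomputable def wt (k : ℕ) : ℝ := hm k - hm (k + 1)

theorem wt_pos (k : ℕ) : 0 < wt k := sub_pos.mpr (hm_anti (Nat.lt_succ_self _))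

theorem hasSum_wt (k : ℕ) : HasSum (fun j => wt (j + k)) (hm k) :=
  hasSum_telescope hm hm_anti.antitone hm_tendsto k

theorem wt_summable : Summable wt := by simpa using (hasSum_wt 0).summable

/-- level of a step sequence -/
noncomputable def Qs (a : ℕ → ℝ) : ℝ := ∑' k, (1 - a (k + 1)) * wt k

theorem Qs_summable {a : ℕ → ℝ} (h0 : ∀ n, 0 ≤ a n) (h1 : ∀ n, a n ≤ 1) :
    Summable (fun k => (1 - a (k + 1)) * wt k) := by
  refine Summable.of_nonneg_of_le (fun k => ?_) (fun k => ?_) wt_summable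
  · exact mul_nonneg (by linarith [h1 (k + 1)]) (wt_pos k).le
  · calc (1 - a (k + 1)) * wt k ≤ 1 * wt k :=
        mul_le_mul_of_nonneg_right (by linarith [h0 (k + 1)]) (wt_pos k).le
      _ = wt k := one_mul _

theorem Qs_nonneg {a : ℕ → ℝ} (h1 : ∀ n, a n ≤ 1) : 0 ≤ Qs a :=
  tsum_nonneg (fun k => mul_nonneg (by linarith [h1 (k + 1)]) (wt_pos k).le)

theorem Qs_le_one {a : ℕ → ℝ} (h0 : ∀ n, 0 ≤ a n) (h1 : ∀ n, a n ≤ 1) : Qs a ≤ 1 := by
  have h2 := (hasSum_wt 0).tsum_eq
  rw [hm_zero] at h2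
  rw [← h2]
  apply Summable.tsum_le_tsum _ (Qs_summable h0 h1) (hasSum_wt 0).summable
  intro k
  calc (1 - a (k + 1)) * wt k ≤ 1 * wt k :=
        mul_le_mul_of_nonneg_right (by linarith [h0 (k + 1)]) (wt_pos k).le
      _ = wt (k + 0) := by rw [one_mul, add_zero]

theorem Qs_anti {a b : ℕ → ℝ} (ha0 : ∀ n, 0 ≤ a n) (hb1 : ∀ n, b n ≤ 1)
    (hab : ∀ n, a n ≤ b n) : Qs b ≤ Qs a := by
  apply Summable.tsum_le_tsum _ (Qs_summable (fun n => (ha0 n).trans (hab n)) hb1)
    (Qs_summable ha0 (fun n => (hab n).trans (hb1 n)))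
  intro k
  exact mul_le_mul_of_nonneg_right (by linarith [hab (k + 1)]) (wt_pos k).le

theorem Qs_eq_of {a b : ℕ → ℝ} (ha : IsStep a) (hb : IsStep b) (h : Qs a = Qs b) :
    ∀ n, a n = b n := by
  have key : ∀ {a b : ℕ → ℝ}, IsStep a → IsStep b → Qs a = Qs b → (∀ n, a n ≤ b n) →
      ∀ n, a n = b n := by
    intro a b ha hb h hab n
    have s1 := Qs_summable ha.nn ha.le
    have s2 := Qs_summable hb.nn hb.le
    have h1 : ∑' k, ((1 - a (k + 1)) * wt k - (1 - b (k + 1)) * wt k) = 0 := by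
      rw [s1.tsum_sub s2]
      exact sub_eq_zero.mpr h
    have h2 : ∀ k, 0 ≤ (1 - a (k + 1)) * wt k - (1 - b (k + 1)) * wt k := by
      intro k
      have : (1 - a (k + 1)) * wt k - (1 - b (k + 1)) * wt k = (b (k + 1) - a (k + 1)) * wt k := by
        ring
      rw [this]
      exact mul_nonneg (by linarith [hab (k + 1)]) (wt_pos k).le
    have h3 := ((s1.sub s2).hasSum_iff.mpr h1)
    have h4 := (hasSum_zero_iff_of_nonneg h2).mp h3
    cases n with
    | zero => rw [ha.zero, hb.zero]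
    | succ n =>
      have h5 := congrFun h4 n
      have h6 : (b (n + 1) - a (n + 1)) * wt n = 0 := by
        have : (1 - a (n + 1)) * wt n - (1 - b (n + 1)) * wt n =
          (b (n + 1) - a (n + 1)) * wt n := by ring
        rw [← this]; exact h5
      rcases mul_eq_zero.mp h6 with h7 | h7
      · linarith
      · exact absurd h7 (wt_pos n).ne'
  rcases ha.cmp hb with hab | hab
  · exact key ha hb h hab
  · intro n
    exact (key hb ha h.symm hab n).symm

theorem Qs_ge {a : ℕ → ℝ} (ha : IsStep a) {n : ℕ} (h : a (n + 1) = 0) : hm n ≤ Qs a := by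
  have s1 := Qs_summable ha.nn ha.le
  rw [← (hasSum_wt n).tsum_eq]
  unfold Qs
  rw [← s1.sum_add_tsum_nat_add n]
  have h1 : 0 ≤ ∑ i ∈ Finset.range n, (1 - a (i + 1)) * wt i :=
    Finset.sum_nonneg (fun i _ => mul_nonneg (by linarith [ha.le (i + 1)]) (wt_pos i).le)
  have h2 : ∀ i, (1 - a (i + n + 1)) * wt (i + n) = wt (i + n) := by
    intro i
    have : a (i + n + 1) = 0 := by
      rcases Nat.eq_zero_or_pos i with h3 | h3
      · subst h3; rw [zero_add]; exact h
      · exact ha.zero_of_ne (j := n + 1) (by rw [h]; norm_num) _ (by omega)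
    rw [this]; ring
  simp_rw [h2]
  linarith

theorem Qs_le {a : ℕ → ℝ} (ha : IsStep a) {n : ℕ} (h : a n = 1) : Qs a ≤ hm n := by
  have s1 := Qs_summable ha.nn ha.le
  rw [← (hasSum_wt n).tsum_eq]
  unfold Qs
  rw [← s1.sum_add_tsum_nat_add n]
  have h1 : ∑ i ∈ Finset.range n, (1 - a (i + 1)) * wt i = 0 := by
    apply Finset.sum_eq_zero
    intro i hi
    have h2 : i + 1 ≤ n := Finset.mem_range.mp hi
    have h3 : a (i + 1) = 1 := by
      rcases Nat.lt_or_ge (i + 1) n with h4 | h4
      · exact ha.one_of_ne (j := n) (by rw [h]; norm_num) _ h4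
      · rw [show i + 1 = n by omega]; exact h
    rw [h3]; ring
  rw [h1, zero_add]
  apply Summable.tsum_le_tsum
  · intro i
    calc (1 - a (i + n + 1)) * wt (i + n) ≤ 1 * wt (i + n) :=
        mul_le_mul_of_nonneg_right (by linarith [ha.nn (i + n + 1)]) (wt_pos _).le
      _ = wt (i + n) := one_mul _
  · exact (summable_nat_add_iff n).mpr s1
  · exact (hasSum_wt n).summable

theorem Qs_lt {a : ℕ → ℝ} (ha : IsStep a) {n : ℕ} (h : a (n + 1) ≠ 0) : Qs a < hm n := by
  have h1 : a n = 1 := (ha.step n).resolve_left h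
  have h2 : 0 < a (n + 1) := lt_of_le_of_ne (ha.nn _) (Ne.symm h)
  have s1 := Qs_summable ha.nn ha.le
  rw [← (hasSum_wt n).tsum_eq]
  unfold Qs
  rw [← s1.sum_add_tsum_nat_add n]
  have h3 : ∑ i ∈ Finset.range n, (1 - a (i + 1)) * wt i = 0 := by
    apply Finset.sum_eq_zero
    intro i hi
    have h2 : i + 1 ≤ n := Finset.mem_range.mp hi
    have h3 : a (i + 1) = 1 := by
      rcases Nat.lt_or_ge (i + 1) n with h4 | h4
      · exact ha.one_of_ne (j := n) (by rw [h1]; norm_num) _ h4
      · rw [show i + 1 = n by omega]; exact h1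
    rw [h3]; ring
  rw [h3, zero_add]
  apply Summable.tsum_lt_tsum (i := 0)
  · intro i
    calc (1 - a (i + n + 1)) * wt (i + n) ≤ 1 * wt (i + n) :=
        mul_le_mul_of_nonneg_right (by linarith [ha.nn (i + n + 1)]) (wt_pos _).le
      _ = wt (i + n) := one_mul _
  · simp only [zero_add]
    have := wt_pos n
    nlinarith
  · exact (summable_nat_add_iff n).mpr s1
  · exact (hasSum_wt n).summable

/-! ### the cut sequences -/

/-- cut off at level `t` -/
noncomputable def cut (n : ℕ) (t : ℝ) : ℝ :=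
  match n with
  | 0 => 1
  | k + 1 => cl ((hm k - t) / wt k)

theorem cut_cont (n : ℕ) : Continuous (cut n) := by
  cases n with
  | zero => exact continuous_const
  | succ k => exact cl_cont.comp (by fun_prop)

theorem cut_nonneg (n : ℕ) (t : ℝ) : 0 ≤ cut n t := by
  cases n with
  | zero => exact zero_le_one
  | succ k => exact cl_nonneg _

theorem cut_le_one (n : ℕ) (t : ℝ) : cut n t ≤ 1 := by
  cases n with
  | zero => exact le_rfl
  | succ k => exact cl_le_one _

theorem cut_of_le {n : ℕ} {t : ℝ} (h : t ≤ hm n) : cut n t = 1 := by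
  cases n with
  | zero => rfl
  | succ k =>
    apply cl_of_one_le
    rw [one_le_div (wt_pos k)]
    unfold wt
    linarith

theorem cut_of_ge {n : ℕ} {t : ℝ} (h : hm n ≤ t) : cut (n + 1) t = 0 := by
  apply cl_of_nonpos
  exact div_nonpos_of_nonpos_of_nonneg (by linarith) (wt_pos n).le

theorem cut_isStep (t : ℝ) : IsStep (fun n => cut n t) where
  nn n := cut_nonneg n t
  le n := cut_le_one n t
  zero := rfl
  step n := by
    rcases le_total t (hm n) with h | h
    · exact Or.inr (cut_of_le h)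
    · exact Or.inl (cut_of_ge h)

theorem cut_of_nonpos (n : ℕ) {t : ℝ} (h : t ≤ 0) : cut n t = 1 :=
  cut_of_le (h.trans (hm_pos n).le)

theorem cut_of_one_le (n : ℕ) {t : ℝ} (h : 1 ≤ t) : cut (n + 1) t = 0 :=
  cut_of_ge (((hm_anti.antitone (Nat.zero_le n)).trans_eq hm_zero).trans h)

theorem Qs_cut {t : ℝ} (h0 : 0 ≤ t) (h1 : t ≤ 1) : Qs (fun n => cut n t) = t := by
  rcases eq_or_lt_of_le h0 with h2 | h2
  · subst h2
    unfold Qs
    have : ∀ k, (1 - cut (k + 1) (0 : ℝ)) * wt k = 0 := by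
      intro k
      rw [cut_of_nonpos _ le_rfl]; ring
    simp_rw [this]
    exact tsum_zero
  · -- find the interval
    have hex : ∃ n, hm (n + 1) ≤ t := by
      have := ((tendsto_order.1 hm_tendsto).2 t h2)
      rw [eventually_atTop] at this
      obtain ⟨N, hN⟩ := this
      exact ⟨N, (hN (N + 1) (by omega)).le⟩
    classical
    set n := Nat.find hex with hn
    have hn1 : hm (n + 1) ≤ t := Nat.find_spec hex
    have hn2 : t ≤ hm n := by
      rcases Nat.eq_zero_or_pos n with h3 | h3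
      · rw [h3, hm_zero]; exact h1
      · have h4 := Nat.find_min hex (m := n - 1) (by omega)
        rw [show n - 1 + 1 = n by omega] at h4
        exact (not_le.mp h4).le
    have s1 := Qs_summable (cut_isStep t).nn (cut_isStep t).le
    unfold Qs
    rw [← s1.sum_add_tsum_nat_add (n + 1), Finset.sum_range_succ]
    have h3 : ∑ i ∈ Finset.range n, (1 - cut (i + 1) t) * wt i = 0 := by
      apply Finset.sum_eq_zero
      intro i hi
      have h4 : i + 1 ≤ n := Finset.mem_range.mp hi
      rw [cut_of_le (hn2.trans (hm_anti.antitone h4))]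
      ring
    have h4 : ∀ i, (1 - cut (i + (n + 1) + 1) t) * wt (i + (n + 1)) = wt (i + (n + 1)) := by
      intro i
      rw [cut_of_ge ((hm_anti.antitone (by omega : n + 1 ≤ i + (n + 1))).trans hn1)]
      ring
    have h5 : cut (n + 1) t = (hm n - t) / wt n := by
      apply cl_eq
      · exact div_nonneg (by linarith) (wt_pos n).le
      · rw [div_le_one (wt_pos n)]; unfold wt; linarith
    rw [h3, zero_add, h5]
    simp_rw [h4]
    rw [(hasSum_wt (n + 1)).tsum_eq]
    have := (wt_pos n).ne'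
    field_simp
    unfold wt
    ring

end Run7.h241
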