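import Mathlib
import Pool.Agent.Run7.h241.TreeA
import Pool.Agent.Run7.h241.AEx

set_option autoImplicit false

namespace Run7.h241

open Filter Topology H30

theorem exists_decr (η : ℕ → ℝ) (hη : ∀ n, 0 < η n) : ∃ δ : ℕ → ℝ, StrictAnti δ ∧
    (∀ n, 0 < δ n) ∧ (∀ n, δ n ≤ η n) ∧ Tendsto δ atTop (𝓝 0) := by
  let δ : ℕ → ℝ := fun n => Nat.rec (η 0) (fun k d => min (η (k + 1)) (d / 2)) n
  have h0 : ∀ n, 0 < δ n := by
    intro n
    induction n with
    | zero => exact hη 0
    | succ n ih => exact lt_min (hη _) (half_pos ih)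
  have h2 : ∀ n, δ (n + 1) ≤ δ n / 2 := fun n => min_le_right _ _
  refine ⟨δ, strictAnti_nat_of_succ_lt (fun n => ?_), h0, ?_, ?_⟩
  · have h1 := h2 n
    have := h0 n
    linarith
  · intro n
    cases n with
    | zero => exact le_rfl
    | succ n => exact min_le_left _ _
  · have h3 : ∀ k, δ k ≤ η 0 * (1 / 2) ^ k := by
      intro k
      induction k with
      | zero => simp [δ]
      | succ k ih =>
        rw [pow_succ]
        have := h2 k
        linarith
    have h4 : Tendsto (fun n : ℕ => η 0 * (1 / 2 : ℝ) ^ n) atTop (𝓝 (η 0 * 0)) :=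
      (tendsto_pow_atTop_nhds_zero_of_lt_one (by norm_num) (by norm_num)).const_mul _
    rw [mul_zero] at h4
    exact squeeze_zero (fun k => (h0 k).le) h3 h4

/-- A compact set with an instant homotopy into an absolute extensor is a retract. -/
theorem retract_of_push {F : Type} [NormedAddCommGroup F] [NormedSpace ℝ F]
    [FiniteDimensional ℝ F] {Xh X1 : Set F} (hc : IsCompact Xh) (hne : Xh.Nonempty)
    (hsub : X1 ⊆ Xh) (hAE : AE X1)
    (Φ : Xh × unitInterval → F) (hΦ : Continuous Φ) (h0 : ∀ x, Φ (x, 0) = x)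
    (h1 : ∀ x r, 0 < r → Φ (x, r) ∈ X1) :
    ∃ r : F → F, Continuous r ∧ (∀ x, r x ∈ Xh) ∧ ∀ x ∈ Xh, r x = x := by
  classical
  let I := Set.Ioc (0 : ℝ) 1
  let toI : I → unitInterval := fun s => ⟨s.1, s.2.1.le, s.2.2⟩
  have toIc : Continuous toI := Continuous.subtype_mk continuous_subtype_val _
  let M := F × I
  let B : Set M := {z | z.1 ∈ Xh}
  have hB : IsClosed B := hc.isClosed.preimage continuous_fst
  obtain ⟨w0, hw0⟩ := hne
  let pr : F → Xh := fun z => if h : z ∈ Xh then ⟨z, h⟩ else ⟨w0, hw0⟩
  have pr1 : ∀ z ∈ Xh, (pr z : F) = z := fun z hz => by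
    show ((if h : z ∈ Xh then (⟨z, h⟩ : Xh) else ⟨w0, hw0⟩ : Xh) : F) = z
    rw [dif_pos hz]
  have prc : ContinuousOn pr Xh := by
    rw [Topology.IsInducing.subtypeVal.continuousOn_iff]
    exact continuousOn_id.congr pr1
  let f : M → F := fun z => Φ (pr z.1, toI z.2)
  have hf : ContinuousOn f B := by
    apply hΦ.comp_continuousOn
    apply ContinuousOn.prodMk
    · exact prc.comp continuous_fst.continuousOn (fun z hz => hz)
    · exact (toIc.comp continuous_snd).continuousOn
  have hfm : Set.MapsTo f B X1 := fun z _ => h1 _ _ z.2.2.1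
  obtain ⟨G, hG, hG1, hG2⟩ := hAE M B hB f hf hfm
  -- moduli
  let K : ℕ → Set M := fun n => Xh ×ˢ {s : I | hm (n + 1) ≤ s.1}
  have hI : ∀ n, IsCompact {s : I | hm (n + 1) ≤ s.1} := by
    intro n
    have : {s : I | hm (n + 1) ≤ s.1} = ((↑) : I → ℝ) ⁻¹' Set.Icc (hm (n + 1)) 1 := by
      ext s
      exact ⟨fun h => ⟨h, s.2.2⟩, fun h => h.1⟩
    rw [this]
    apply Topology.IsInducing.subtypeVal.isCompact_preimage_iff _ |>.mpr isCompact_Icc
    intro x hx
    exact ⟨⟨x, (hm_pos _).trans_le hx.1, hx.2⟩, rfl⟩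
  have hK : ∀ n, IsCompact (K n) := fun n => hc.prod (hI n)
  have hmod : ∀ n, ∃ η > 0, ∀ z ∈ K n, ∀ z' : M, dist z z' < η → dist (G z) (G z') < hm n := by
    intro n
    have := (hK n).uniformContinuousAt_of_continuousAt G (fun a _ => hG.continuousAt)
      (Metric.dist_mem_uniformity (hm_pos n))
    obtain ⟨η, hη, h⟩ := Metric.mem_uniformity_dist.mp this
    exact ⟨η, hη, fun z hz z' hd => h hd hz⟩
  choose η hη hmod using hmod
  obtain ⟨δ, hδa, hδ0, hδη, hδt⟩ := exists_decr η hη
  obtain ⟨lam, lc, -, l0, l1, ll, lu⟩ := exists_interp δ hm hδa hδ0 hm_anti.antitone hm_tendsto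
  let d : F → ℝ := fun z => Metric.infDist z Xh
  have hdc : Continuous d := Metric.continuous_infDist_pt Xh
  have hd0 : ∀ z, z ∉ Xh → 0 < d z := fun z hz =>
    (hc.isClosed.notMem_iff_infDist_pos ⟨w0, hw0⟩).mp hz
  have hlam1 : ∀ x, lam x ≤ 1 := by
    intro x
    rcases le_total x (δ 0) with h | h
    · exact (lu 0 x h).trans_eq hm_zero
    · exact (l1 x h).le.trans_eq hm_zero
  have hlam0 : ∀ x, 0 < x → 0 < lam x := by
    intro x hx
    obtain ⟨n, hn⟩ := ((tendsto_order.1 hδt).2 x hx).exists
    exact (hm_pos n).trans_le (ll n x hn.le)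
  -- the time parameter, as a point of the interval
  let sI : F → I := fun z => if h : 0 < lam (d z) then ⟨lam (d z), h, hlam1 _⟩ else ⟨1, one_pos, le_rfl⟩
  have sI1 : ∀ z, z ∉ Xh → (sI z : ℝ) = lam (d z) := fun z hz => by
    show ((if h : 0 < lam (d z) then (⟨lam (d z), h, hlam1 _⟩ : I) else ⟨1, one_pos, le_rfl⟩ : I) : ℝ)
      = lam (d z)
    rw [dif_pos (hlam0 _ (hd0 z hz))]
  have sIc : ContinuousOn sI Xhᶜ := by
    rw [Topology.IsInducing.subtypeVal.continuousOn_iff]
    exact (lc.comp hdc).continuousOn.congr (fun z hz => sI1 z hz)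
  let r : F → F := fun z => if z ∈ Xh then z else G (z, sI z)
  have r1 : ∀ z ∈ Xh, r z = z := fun z hz => if_pos hz
  have r2 : ∀ z, z ∉ Xh → r z = G (z, sI z) := fun z hz => if_neg hz
  refine ⟨r, ?_, ?_, r1⟩
  · rw [continuous_iff_continuousAt]
    intro z0
    by_cases hz0 : z0 ∈ Xh
    · -- at points of the compact set
      rw [Metric.continuousAt_iff]
      intro ε hε
      -- the homotopy is near the identity for small time
      obtain ⟨θ, hθ, hθ'⟩ : ∃ θ > 0, ∀ (x : Xh) (s : unitInterval), (s : ℝ) < θ →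
          dist (Φ (x, s)) (x : F) < ε / 4 := by
        have : CompactSpace Xh := isCompact_iff_compactSpace.mp hc
        have hu := CompactSpace.uniformContinuous_of_continuous hΦ
        rw [Metric.uniformContinuous_iff] at hu
        obtain ⟨θ, hθ, h⟩ := hu (ε / 4) (by positivity)
        refine ⟨θ, hθ, fun x s hs => ?_⟩
        have := h (a := (x, s)) (b := (x, 0)) (by
          rw [Prod.dist_eq, dist_self]
          apply max_lt hθ
          rw [Subtype.dist_eq, Real.dist_eq]
          simp only [Set.Icc.coe_zero, sub_zero]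
          rw [abs_of_nonneg s.2.1]
          exact hs)
        rwa [h0] at this
      obtain ⟨N, hN⟩ := ((tendsto_order.1 hm_tendsto).2 (min θ (ε / 4)) (by positivity)).exists
      have hN1 : hm N < θ := hN.trans_le (min_le_left _ _)
      have hN2 : hm N < ε / 4 := hN.trans_le (min_le_right _ _)
      refine ⟨min (δ N) (ε / 8), lt_min (hδ0 N) (by positivity), ?_⟩
      intro z hz
      have hz1 : dist z z0 < δ N := hz.trans_le (min_le_left _ _)
      have hz2 : dist z z0 < ε / 8 := hz.trans_le (min_le_right _ _)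
      rw [r1 z0 hz0]
      by_cases hzX : z ∈ Xh
      · rw [r1 z hzX]; linarith
      · rw [r2 z hzX]
        have hd1 : d z ≤ dist z z0 := Metric.infDist_le_dist_of_mem hz0
        have hdz := hd0 z hzX
        obtain ⟨x, hx, hx'⟩ := hc.exists_infDist_eq_dist ⟨w0, hw0⟩ z
        have hx'' : d z = dist z x := hx'
        -- find the index
        have hex : ∃ n, δ (n + 1) ≤ d z := by
          obtain ⟨n, hn⟩ := ((tendsto_order.1 hδt).2 (d z) hdz).exists
          exact ⟨n, ((hδa.antitone (Nat.le_succ n)).trans hn.le)⟩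
        set n := Nat.find hex with hn
        have hn1 : δ (n + 1) ≤ d z := Nat.find_spec hex
        have hNn : N ≤ n := by
          by_contra hcon
          have h3 : δ N ≤ δ (n + 1) := hδa.antitone (by omega)
          linarith
        have hn2 : d z < δ n := by
          rcases Nat.eq_zero_or_pos n with h3 | h3
          · have : N = 0 := by omega
            rw [h3, ← this]; linarith
          · have h4 := Nat.find_min hex (m := n - 1) (by omega)
            rw [show n - 1 + 1 = n by omega] at h4
            exact not_le.mp h4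
        have hs1 : hm (n + 1) ≤ (sI z : ℝ) := by rw [sI1 z hzX]; exact ll _ _ hn1
        have hs2 : (sI z : ℝ) ≤ hm n := by rw [sI1 z hzX]; exact lu _ _ hn2.le
        have e1 := hmod n (x, sI z) ⟨hx, hs1⟩ (z, sI z) (by
          rw [Prod.dist_eq, dist_self]
          apply max_lt _ (hη n)
          show dist x z < η n
          rw [dist_comm, ← hx'']
          exact hn2.trans_le (hδη n))
        have e2 : G (x, sI z) = Φ (⟨x, hx⟩, toI (sI z)) := by
          have h3 := hG2 (show ((x, sI z) : M) ∈ B from hx)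
          rw [h3]
          show Φ (pr x, toI (sI z)) = _
          congr 2
          exact Subtype.ext (pr1 x hx)
        have e3 := hθ' ⟨x, hx⟩ (toI (sI z)) (by
          show (sI z : ℝ) < θ
          exact (hs2.trans (hm_anti.antitone hNn)).trans_lt hN1)
        rw [← e2] at e3
        have e4 : hm n ≤ hm N := hm_anti.antitone hNn
        calc dist (G (z, sI z)) z0 ≤ dist (G (z, sI z)) (G (x, sI z)) + dist (G (x, sI z)) z0 :=
              dist_triangle _ _ _
          _ ≤ dist (G (z, sI z)) (G (x, sI z)) + (dist (G (x, sI z)) x + dist x z0) := by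
              gcongr
              exact dist_triangle _ _ _
          _ ≤ dist (G (z, sI z)) (G (x, sI z)) + (dist (G (x, sI z)) x + (dist x z + dist z z0)) := by
              gcongr
              exact dist_triangle _ _ _
          _ < ε := by
            rw [dist_comm (G (z, sI z))]
            have : dist x z = d z := by rw [hx'', dist_comm]
            linarith
    · have hopen : IsOpen Xhᶜ := hc.isClosed.isOpen_compl
      have hco : ContinuousOn (fun z => G (z, sI z)) Xhᶜ :=
        hG.comp_continuousOn (continuousOn_id.prodMk sIc)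
      exact ((hco.congr (fun z hz => r2 z hz)).continuousAt (hopen.mem_nhds hz0))
  · intro z
    by_cases hz : z ∈ Xh
    · rw [r1 z hz]; exact hz
    · rw [r2 z hz]; exact hsub (hG1 _)

end Run7.h241
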