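import Mathlib
import Pool.Agent.Run7.h241.Interp

set_option autoImplicit false

namespace Run7.h241

open Filter Topology

theorem exists_pos_lower {α : Type*} [TopologicalSpace α] {K : Set α} (hK : IsCompact K)
    {f : α → ℝ} (hf : ContinuousOn f K) (hpos : ∀ x ∈ K, 0 < f x) :
    ∃ δ > 0, ∀ x ∈ K, δ ≤ f x := by
  rcases K.eq_empty_or_nonempty with h | h
  · exact ⟨1, one_pos, by rw [h]; simp⟩
  · obtain ⟨x, hx, hx'⟩ := hK.exists_isMinOn h hf
    exact ⟨f x, hpos x hx, fun y hy => hx' hy⟩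

/-- Data of a compact set with a boundary (the zero set of `p`) and an instant homotopy. -/
structure Push {E : Type*} [MetricSpace E] (S : Set E) (p : E → ℝ) (H : E × ℝ → E) (x0 : E) :
    Prop where
  cpt : IsCompact S
  pcont : Continuous p
  p0 : ∀ x, 0 ≤ p x
  p1 : ∀ x, p x ≤ 1
  hcont : Continuous H
  mem : ∀ z, H z ∈ S
  id : ∀ x ∈ S, ∀ t ≤ 0, H (x, t) = x
  pos : ∀ x, ∀ t > 0, 0 < p (H (x, t))
  const : ∀ x, ∀ t, 1 ≤ t → H (x, t) = x0

/-- Relations with controlled behaviour. -/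
structure Ctl {E : Type*} [MetricSpace E] (p : E → ℝ) (R : ℕ → E → E → Prop) : Prop where
  mono : ∀ m n, m ≤ n → ∀ x y, R m x y → R n x y
  symm : ∀ n x y, R n x y → R n y x
  prop : ∀ n, ∀ δ > 0, ∃ δ' > 0, ∀ x y, R n x y → δ ≤ p x → δ' ≤ p y
  small : ∀ n, ∀ ε > 0, ∃ δ > 0, ∀ x y, R n x y → p x < δ → dist x y < ε

section

variable {E : Type*} [MetricSpace E] {S : Set E} {p : E → ℝ} {H : E × ℝ → E} {x0 : E}
  {R : ℕ → E → E → Prop}

/-- one step of the construction -/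
structure Good (S : Set E) (p : E → ℝ) (H : E × ℝ → E) (R : ℕ → E → E → Prop) (k : ℕ)
    (δ u δ' u' : ℝ) : Prop where
  d0 : 0 < δ'
  d1 : δ' ≤ δ / 2
  u0 : 0 < u'
  u1 : u' ≤ u / 2
  a : ∀ x ∈ S, δ ≤ p x → ∀ t, 0 ≤ t → δ' ≤ p (H (x, t))
  b : ∀ x ∈ S, ∀ t, u ≤ t → δ' ≤ p (H (x, t))
  c : ∀ x y, R (k * k) x y → δ ≤ p x → δ' ≤ p y
  d : ∀ x y, R (k * k) x y → 1 / ((k * k : ℕ) + 1 : ℝ) ≤ dist x y → δ' ≤ p x
  e : ∀ x ∈ S, ∀ t, 0 ≤ t → t ≤ u' → |p (H (x, t)) - p x| < δ / 2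

theorem exists_good (hP : Push S p H x0) (hR : Ctl p R) (k : ℕ) {δ u : ℝ} (hδ : 0 < δ)
    (hu : 0 < u) (hu1 : u ≤ 1) : ∃ δ' u', Good S p H R k δ u δ' u' := by
  have hco : Continuous (fun z : E × ℝ => p (H z)) := hP.pcont.comp hP.hcont
  -- (a)
  have hKa : IsCompact ((S ∩ {x | δ ≤ p x}) ×ˢ Set.Icc (0 : ℝ) 1) :=
    (hP.cpt.inter_right (isClosed_le continuous_const hP.pcont)).prod isCompact_Icc
  obtain ⟨δa, hδa, ha⟩ := exists_pos_lower hKa hco.continuousOn (by
    rintro ⟨x, t⟩ ⟨⟨hx, hx'⟩, ht⟩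
    rcases eq_or_lt_of_le ht.1 with h | h
    · simp only at h
      subst h
      show 0 < p (H (x, 0))
      rw [hP.id x hx 0 le_rfl]
      exact hδ.trans_le hx'
    · exact hP.pos x t h)
  -- (b)
  have hKb : IsCompact (S ×ˢ Set.Icc u 1) := hP.cpt.prod isCompact_Icc
  obtain ⟨δb, hδb, hb⟩ := exists_pos_lower hKb hco.continuousOn (by
    rintro ⟨x, t⟩ ⟨hx, ht⟩
    exact hP.pos x t (hu.trans_le ht.1))
  obtain ⟨δc, hδc, hc⟩ := hR.prop (k * k) δ hδ
  obtain ⟨δd, hδd, hd⟩ := hR.small (k * k) (1 / ((k * k : ℕ) + 1 : ℝ)) (by positivity)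
  -- (e)
  have hKe : IsCompact (S ×ˢ Set.Icc (0 : ℝ) 1) := hP.cpt.prod isCompact_Icc
  have hue := hKe.uniformContinuousOn_of_continuous hco.continuousOn
  rw [Metric.uniformContinuousOn_iff] at hue
  obtain ⟨η, hη, he⟩ := hue (δ / 2) (by positivity)
  refine ⟨min (δ / 2) (min (min δa δb) (min δc δd)), min (u / 2) (η / 2), ?_, ?_, ?_, ?_, ?_, ?_,
    ?_, ?_, ?_⟩
  · positivity
  · exact min_le_left _ _
  · positivity
  · exact min_le_left _ _
  · intro x hx hxd t ht
    have h1 : min (δ / 2) (min (min δa δb) (min δc δd)) ≤ δa :=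
      (min_le_right _ _).trans ((min_le_left _ _).trans (min_le_left _ _))
    refine h1.trans ?_
    rcases le_total t 1 with h | h
    · exact ha (x, t) ⟨⟨hx, hxd⟩, ht, h⟩
    · have := ha (x, 1) ⟨⟨hx, hxd⟩, zero_le_one, le_rfl⟩
      rw [hP.const x t h]
      rw [hP.const x 1 le_rfl] at this
      exact this
  · intro x hx t ht
    have h1 : min (δ / 2) (min (min δa δb) (min δc δd)) ≤ δb :=
      (min_le_right _ _).trans ((min_le_left _ _).trans (min_le_right _ _))
    refine h1.trans ?_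
    rcases le_total t 1 with h | h
    · exact hb (x, t) ⟨hx, ht, h⟩
    · have := hb (x, 1) ⟨hx, hu1, le_rfl⟩
      rw [hP.const x t h]
      rw [hP.const x 1 le_rfl] at this
      exact this
  · intro x y hxy hx
    have h1 : min (δ / 2) (min (min δa δb) (min δc δd)) ≤ δc :=
      (min_le_right _ _).trans ((min_le_right _ _).trans (min_le_left _ _))
    exact h1.trans (hc x y hxy hx)
  · intro x y hxy hx
    have h1 : min (δ / 2) (min (min δa δb) (min δc δd)) ≤ δd :=
      (min_le_right _ _).trans ((min_le_right _ _).trans (min_le_right _ _))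
    refine h1.trans ?_
    by_contra hcon
    exact absurd hx (not_le.mpr (hd x y hxy (not_le.mp hcon)))
  · intro x hx t ht ht'
    have h1 : t ≤ u / 2 := ht'.trans (min_le_left _ _)
    have h2 : t ≤ η / 2 := ht'.trans (min_le_right _ _)
    have := he (x, t) ⟨hx, ht, by linarith⟩ (x, 0) ⟨hx, le_rfl, zero_le_one⟩ (by
      rw [Prod.dist_eq, dist_self, Real.dist_eq, sub_zero, abs_of_nonneg ht]
      exact max_lt hη (by linarith))
    rw [Real.dist_eq] at this
    simp only [hP.id x hx 0 le_rfl] at this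
    exact this

theorem exists_seq (hP : Push S p H x0) (hR : Ctl p R) :
    ∃ δ u : ℕ → ℝ, δ 0 = 1 ∧ u 0 = 1 ∧ (∀ k, 0 < δ k) ∧ (∀ k, 0 < u k) ∧
      ∀ k, Good S p H R k (δ k) (u k) (δ (k + 1)) (u (k + 1)) := by
  classical
  let St := {q : ℝ × ℝ // 0 < q.1 ∧ 0 < q.2 ∧ q.2 ≤ 1}
  have hex : ∀ (k : ℕ) (q : St), ∃ q' : St, Good S p H R k q.1.1 q.1.2 q'.1.1 q'.1.2 := by
    intro k q
    obtain ⟨δ', u', h⟩ := exists_good hP hR k q.2.1 q.2.2.1 q.2.2.2
    exact ⟨⟨(δ', u'), h.d0, h.u0, by have := h.u1; have := q.2.2.2; simp only; linarith⟩, h⟩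
  choose nxt hnxt using hex
  let s : ℕ → St := fun n => Nat.rec ⟨(1, 1), one_pos, one_pos, le_rfl⟩ (fun k q => nxt k q) n
  refine ⟨fun k => (s k).1.1, fun k => (s k).1.2, rfl, rfl, fun k => (s k).2.1,
    fun k => (s k).2.2.1, fun k => hnxt k (s k)⟩

/-- The conclusion: a level function and a homotopy adapted to it. -/
structure Lev (S : Set E) (p : E → ℝ) (R : ℕ → E → E → Prop) (x0 : E) (P : E → ℝ)
    (τ : E × ℝ → E) : Prop where
  pcont : Continuous P
  p0 : ∀ x, 0 ≤ P x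
  p1 : ∀ x, P x ≤ 1
  pos_iff : ∀ x, 0 < P x ↔ 0 < p x
  tcont : Continuous τ
  mem : ∀ z, τ z ∈ S
  id : ∀ x ∈ S, ∀ t ≤ 0, τ (x, t) = x
  const : ∀ x, ∀ t, 1 ≤ t → τ (x, t) = x0
  tpos : ∀ x, ∀ t > 0, 0 < P (τ (x, t))
  est : ∀ x ∈ S, ∀ t, 0 < t → t ≤ 1 → |1 / P (τ (x, t)) - 1 / max (P x) t| ≤ 3
  r1 : ∀ n x y, R n x y → 0 < p x → 1 / P y ≤ max (1 / P x) (Real.sqrt n) + 3
  r2 : ∀ n x y, R n x y → 1 / ((n : ℝ) + 1) ≤ dist x y → 1 / P x ≤ Real.sqrt n + 3

theorem exists_level (hP : Push S p H x0) (hR : Ctl p R) :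
    ∃ P τ, Lev S p R x0 P τ := by
  obtain ⟨δ, u, δ00, u00, hδ, hu, hg⟩ := exists_seq hP hR
  have hδa : StrictAnti δ := strictAnti_nat_of_succ_lt (fun k => by
    have := (hg k).d1; have := hδ k; linarith)
  have hua : StrictAnti u := strictAnti_nat_of_succ_lt (fun k => by
    have := (hg k).u1; have := hu k; linarith)
  have hpow : ∀ (v : ℕ → ℝ), v 0 = 1 → (∀ k, v (k + 1) ≤ v k / 2) → (∀ k, 0 < v k) →
      Tendsto v atTop (𝓝 0) := by
    intro v h0 h1 h2
    have h3 : ∀ k, v k ≤ (1 / 2) ^ k := by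
      intro k
      induction k with
      | zero => simp [h0]
      | succ k ih =>
        rw [pow_succ]
        have := h1 k
        linarith
    exact squeeze_zero (fun k => (h2 k).le) h3
      (tendsto_pow_atTop_nhds_zero_of_lt_one (by norm_num) (by norm_num))
  have hδ0 : Tendsto δ atTop (𝓝 0) := hpow δ δ00 (fun k => (hg k).d1) hδ
  have hu0 : Tendsto u atTop (𝓝 0) := hpow u u00 (fun k => (hg k).u1) hu
  let h : ℕ → ℝ := fun k => 1 / ((k : ℝ) + 1)
  have hh : StrictAnti h := by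
    intro m n hmn
    apply one_div_lt_one_div_of_lt (by positivity)
    have : (m : ℝ) < n := by exact_mod_cast hmn
    linarith
  have hhp : ∀ k, 0 < h k := fun k => by positivity
  have hh0 : Tendsto h atTop (𝓝 0) := tendsto_one_div_add_atTop_nhds_zero_nat
  obtain ⟨ψ, ψc, ψm, ψ0, ψ1, ψl, ψu⟩ := exists_interp δ h hδa hδ hh.antitone hh0
  obtain ⟨θ, θc, θm, θ0, θ1, θl, θu⟩ := exists_interp h u hh hhp hua.antitone hu0
  have h00 : h 0 = 1 := by simp [h]
  have ψle : ∀ t, ψ t ≤ 1 := by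
    intro t
    rcases le_total t (δ 0) with h1 | h1
    · have := ψu 0 t h1; rwa [h00] at this
    · have := ψ1 t h1; rw [h00] at this; exact this.le
  have ψnn : ∀ t, 0 ≤ ψ t := by
    intro t
    rcases le_total t 0 with h1 | h1
    · rw [ψ0 t h1]
    · calc (0 : ℝ) = ψ 0 := (ψ0 0 le_rfl).symm
        _ ≤ ψ t := ψm h1
  have θpos : ∀ t, 0 < t → 0 < θ t := by
    intro t ht
    obtain ⟨k, hk⟩ := ((tendsto_order.1 hh0).2 t ht).exists
    exact (hu k).trans_le (θl k t hk.le)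
  have θnn : ∀ t, 0 ≤ θ t := by
    intro t
    rcases le_or_gt t 0 with h1 | h1
    · rw [θ0 t h1]
    · exact (θpos t h1).le
  have ψpos : ∀ t, 0 < ψ t ↔ 0 < t := by
    intro t
    constructor
    · intro h1
      by_contra h2
      rw [ψ0 t (not_lt.mp h2)] at h1
      exact lt_irrefl _ h1
    · intro ht
      obtain ⟨k, hk⟩ := ((tendsto_order.1 hδ0).2 t ht).exists
      exact (hhp k).trans_le (ψl k t hk.le)
  -- the index of a level
  have hidx : ∀ m : ℝ, 0 < m → m ≤ 1 → ∃ j : ℕ, (j : ℝ) + 1 ≤ 1 / m ∧ 1 / m < j + 2 := by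
    intro m hm hm1
    have h1 : 1 ≤ 1 / m := by rw [le_div_iff₀ hm]; linarith
    have h2 : 1 ≤ ⌊1 / m⌋₊ := Nat.one_le_iff_ne_zero.mpr (by
      intro h3
      rw [Nat.floor_eq_zero] at h3
      linarith)
    refine ⟨⌊1 / m⌋₊ - 1, ?_, ?_⟩
    · rw [Nat.cast_sub h2]
      have := Nat.floor_le (zero_le_one.trans h1)
      push_cast
      linarith
    · rw [Nat.cast_sub h2]
      have := Nat.lt_floor_add_one (1 / m)
      push_cast
      linarith
  have hinv : ∀ {m : ℝ} {j : ℕ}, 0 < m → 1 / m < j + 2 → h (j + 1) < m := by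
    intro m j hm hj
    show 1 / (((j + 1 : ℕ) : ℝ) + 1) < m
    rw [div_lt_iff₀ (by positivity)]
    rw [div_lt_iff₀ hm] at hj
    push_cast
    linarith
  have hinv' : ∀ {m : ℝ} {j : ℕ}, 0 < m → (j : ℝ) + 1 ≤ 1 / m → m ≤ h j := by
    intro m j hm hj
    show m ≤ 1 / ((j : ℝ) + 1)
    rw [le_div_iff₀ (by positivity)]
    rw [le_div_iff₀ hm] at hj
    linarith
  have hPinv : ∀ {x : ℝ} {k : ℕ}, δ k ≤ x → 1 / ψ x ≤ k + 1 := by
    intro x k hk
    have h1 := ψl k x hk
    have h2 : 0 < ψ x := (hhp k).trans_le h1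
    rw [div_le_iff₀ h2]
    have h3 : (1 : ℝ) = (k + 1) * h k := by
      show (1 : ℝ) = (k + 1) * (1 / ((k : ℝ) + 1))
      rw [mul_one_div_cancel]; positivity
    calc (1 : ℝ) = (k + 1) * h k := h3
      _ ≤ (k + 1) * ψ x := mul_le_mul_of_nonneg_left h1 (by positivity)
  have hPinv' : ∀ {x : ℝ} {k : ℕ}, 0 < x → x ≤ δ k → (k : ℝ) + 1 ≤ 1 / ψ x := by
    intro x k hx hk
    have h1 := ψu k x hk
    have h2 : 0 < ψ x := (ψpos x).mpr hx
    rw [le_div_iff₀ h2]
    have h3 : (1 : ℝ) = (k + 1) * h k := by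
      show (1 : ℝ) = (k + 1) * (1 / ((k : ℝ) + 1))
      rw [mul_one_div_cancel]; positivity
    calc (k + 1) * ψ x ≤ (k + 1) * h k := mul_le_mul_of_nonneg_left h1 (by positivity)
      _ = 1 := h3.symm
  refine ⟨fun x => ψ (p x), fun z => H (z.1, θ z.2), ?_, ?_, ?_, ?_, ?_, ?_, ?_, ?_, ?_, ?_, ?_, ?_⟩
  · exact ψc.comp hP.pcont
  · exact fun x => ψnn _
  · exact fun x => ψle _
  · exact fun x => ψpos _
  · exact hP.hcont.comp (continuous_fst.prodMk (θc.comp continuous_snd))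
  · exact fun z => hP.mem _
  · intro x hx t ht
    show H (x, θ t) = x
    rw [θ0 t ht]
    exact hP.id x hx 0 le_rfl
  · intro x t ht
    show H (x, θ t) = x0
    have := θ1 t (by rw [h00]; exact ht)
    rw [this, u00]
    exact hP.const x 1 le_rfl
  · intro x t ht
    exact (ψpos _).mpr (hP.pos x _ (θpos t ht))
  · intro x hx t ht0 ht1
    show |1 / ψ (p (H (x, θ t))) - 1 / max (ψ (p x)) t| ≤ 3
    set m := max (ψ (p x)) t with hm
    have hm0 : 0 < m := lt_max_of_lt_right ht0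
    have hm1 : m ≤ 1 := max_le (ψle _) ht1
    obtain ⟨j, hj1, hj2⟩ := hidx m hm0 hm1
    have hθt : 0 < θ t := θpos t ht0
    have hpos : 0 < p (H (x, θ t)) := hP.pos x _ hθt
    have hup : 1 / ψ (p (H (x, θ t))) ≤ 1 / m + 2 := by
      have h1 : δ (j + 2) ≤ p (H (x, θ t)) := by
        rcases max_cases (ψ (p x)) t with ⟨h2, _⟩ | ⟨h2, _⟩
        · -- level given by x
          have h3 : h (j + 1) < ψ (p x) := by rw [← h2]; exact hinv hm0 hj2
          have h4 : δ (j + 1) ≤ p x := by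
            by_contra h5
            exact absurd (ψu (j + 1) (p x) (not_le.mp h5).le) (not_le.mpr h3)
          exact (hg (j + 1)).a x hx h4 _ hθt.le
        · have h3 : h (j + 1) < t := by rw [← h2]; exact hinv hm0 hj2
          exact (hg (j + 1)).b x hx _ (θl (j + 1) t h3.le)
      have h2 := hPinv h1
      push_cast at h2
      linarith
    have hlo : 1 / m - 3 ≤ 1 / ψ (p (H (x, θ t))) := by
      rcases Nat.lt_or_ge j 2 with hj | hj
      · have h1 : (j : ℝ) ≤ 1 := by exact_mod_cast Nat.lt_succ_iff.mp hj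
        have h2 : 0 < 1 / ψ (p (H (x, θ t))) := one_div_pos.mpr ((ψpos _).mpr hpos)
        linarith
      · obtain ⟨k, rfl⟩ : ∃ k, j = k + 2 := ⟨j - 2, by omega⟩
        have h1 : p x ≤ δ (k + 1) := by
          by_contra h2
          have h3 := ψl (k + 1) (p x) (not_le.mp h2).le
          have h4 : m ≤ h (k + 2) := hinv' hm0 hj1
          have h5 : h (k + 2) < h (k + 1) := hh (Nat.lt_succ_self _)
          have h6 : ψ (p x) ≤ m := le_max_left _ _
          linarith
        have h2 : θ t ≤ u (k + 1) := by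
          have h3 : t ≤ h (k + 2) := (le_max_right _ _).trans (hinv' hm0 hj1)
          exact (θu (k + 2) t h3).trans (hua.antitone (Nat.le_succ _))
        have h3 := (hg k).e x hx (θ t) hθt.le h2
        have h4 : p (H (x, θ t)) ≤ δ k := by
          have h5 := (abs_lt.mp h3).2
          have h6 := (hg k).d1
          linarith
        have h5 := hPinv' hpos h4
        push_cast at hj2
        linarith
    rw [abs_le]
    constructor <;> linarith
  · intro n x y hxy hx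
    show 1 / ψ (p y) ≤ max (1 / ψ (p x)) (Real.sqrt n) + 3
    have hψ : 0 < ψ (p x) := (ψpos _).mpr hx
    obtain ⟨j, hj1, hj2⟩ := hidx _ hψ (ψle _)
    have h3 : h (j + 1) < ψ (p x) := hinv hψ hj2
    have h4 : δ (j + 1) ≤ p x := by
      by_contra h5
      exact absurd (ψu (j + 1) (p x) (not_le.mp h5).le) (not_le.mpr h3)
    set k := max (j + 1) ⌈Real.sqrt n⌉₊ with hk
    have hkn : n ≤ k * k := by
      have h5 : Real.sqrt n ≤ k := (Nat.le_ceil _).trans (by exact_mod_cast le_max_right _ _)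
      have h6 : (n : ℝ) ≤ k * k := by
        have := Real.sqrt_le_left (x := (n : ℝ)) (y := (k : ℝ)) (by positivity)
        have h7 := this.mp h5
        rw [sq] at h7
        exact h7
      exact_mod_cast h6
    have h5 := (hg k).c x y (hR.mono _ _ hkn _ _ hxy)
      ((hδa.antitone (le_max_left _ _)).trans h4)
    have h6 := hPinv h5
    have h7 : (k : ℝ) ≤ max (1 / ψ (p x)) (Real.sqrt n) + 1 := by
      rw [hk]
      push_cast
      apply max_le
      · have := le_max_left (1 / ψ (p x)) (Real.sqrt n)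
        linarith
      · have := (Nat.ceil_lt_add_one (Real.sqrt_nonneg (n : ℝ))).le
        have := le_max_right (1 / ψ (p x)) (Real.sqrt n)
        linarith
    push_cast at h6
    linarith
  · intro n x y hxy hd
    show 1 / ψ (p x) ≤ Real.sqrt n + 3
    set k := ⌈Real.sqrt n⌉₊ with hk
    have hkn : n ≤ k * k := by
      have h5 : Real.sqrt n ≤ k := Nat.le_ceil _
      have h6 : (n : ℝ) ≤ k * k := by
        have := Real.sqrt_le_left (x := (n : ℝ)) (y := (k : ℝ)) (by positivity)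
        have h7 := this.mp h5
        rw [sq] at h7
        exact h7
      exact_mod_cast h6
    have h5 := (hg k).d x y (hR.mono _ _ hkn _ _ hxy) (by
      refine le_trans ?_ hd
      apply one_div_le_one_div_of_le (by positivity)
      have : (n : ℝ) ≤ (k * k : ℕ) := by exact_mod_cast hkn
      linarith)
    have h6 := hPinv h5
    have := (Nat.ceil_lt_add_one (Real.sqrt_nonneg (n : ℝ))).le
    push_cast at h6
    rw [← hk] at this
    linarith

end

end Run7.h241
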