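import Mathlib
import Pool.Agent.Run7.h241.TreeA

set_option autoImplicit false

namespace Run7.h241

open Filter Topology

/-- A rooted tree with finite levels, given by its parent function. -/
structure RTree (V : Type) where
  root : V
  par : V → V
  dep : V → ℕ
  dep_root : dep root = 0
  par_root : par root = root
  dep_par : ∀ v, v ≠ root → dep (par v) + 1 = dep v
  lev_fin : ∀ n, {v | dep v = n}.Finite

namespace RTree

variable {V : Type} (t : RTree V)

theorem dep_eq_zero {v : V} : t.dep v = 0 ↔ v = t.root := by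
  constructor
  · intro h
    by_contra h1
    have := t.dep_par v h1
    omega
  · rintro rfl; exact t.dep_root

theorem dep_par' (v : V) : t.dep (t.par v) = t.dep v - 1 := by
  by_cases h : v = t.root
  · subst h; rw [t.par_root, t.dep_root]
  · have := t.dep_par v h; omega

/-- the vertices of a level -/
noncomputable def lv (n : ℕ) : Finset V := (t.lev_fin n).toFinset

theorem mem_lv {n : ℕ} {v : V} : v ∈ t.lv n ↔ t.dep v = n := by
  unfold lv; rw [Set.Finite.mem_toFinset]; rfl

/-- The compactified tree, as a set of functions. -/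
def That : Set (V → ℝ) :=
  {c | (∀ v, 0 ≤ c v ∧ c v ≤ 1) ∧ c t.root = 1 ∧ (∀ v, v ≠ t.root → c v = 0 ∨ c (t.par v) = 1) ∧
    ∀ u v, t.dep u = t.dep v → u ≠ v → c u = 0 ∨ c v = 0}

theorem That_compact : IsCompact t.That := by
  have h1 : IsCompact (Set.univ.pi (fun _ : V => Set.Icc (0 : ℝ) 1)) :=
    isCompact_univ_pi (fun _ => isCompact_Icc)
  apply h1.of_isClosed_subset
  · have e : t.That = {c | ∀ v, 0 ≤ c v ∧ c v ≤ 1} ∩ ({c | c t.root = 1} ∩
        ((⋂ v, {c | v ≠ t.root → c v = 0 ∨ c (t.par v) = 1}) ∩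
        (⋂ u, ⋂ v, {c | t.dep u = t.dep v → u ≠ v → c u = 0 ∨ c v = 0}))) := by
      ext c
      simp only [That, Set.mem_ofPred_eq, Set.mem_inter_iff, Set.mem_iInter]
    rw [e]
    refine IsClosed.inter ?_ (IsClosed.inter ?_ (IsClosed.inter ?_ ?_))
    · have : {c : V → ℝ | ∀ v, 0 ≤ c v ∧ c v ≤ 1} = ⋂ v, {c | 0 ≤ c v ∧ c v ≤ 1} := by
        ext c; simp
      rw [this]
      refine isClosed_iInter (fun v => ?_)
      exact (isClosed_le continuous_const (continuous_apply v)).inter
        (isClosed_le (continuous_apply v) continuous_const)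
    · exact isClosed_eq (continuous_apply _) continuous_const
    · refine isClosed_iInter (fun v => ?_)
      by_cases hv : v = t.root
      · have : {c : V → ℝ | v ≠ t.root → c v = 0 ∨ c (t.par v) = 1} = Set.univ := by
          ext c; simp [hv]
        rw [this]; exact isClosed_univ
      · have : {c : V → ℝ | v ≠ t.root → c v = 0 ∨ c (t.par v) = 1} =
            {c | c v = 0} ∪ {c | c (t.par v) = 1} := by
          ext c; simp [hv]
        rw [this]
        exact (isClosed_eq (continuous_apply _) continuous_const).union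
          (isClosed_eq (continuous_apply _) continuous_const)
    · refine isClosed_iInter (fun u => isClosed_iInter (fun v => ?_))
      by_cases hv : t.dep u = t.dep v ∧ u ≠ v
      · have : {c : V → ℝ | t.dep u = t.dep v → u ≠ v → c u = 0 ∨ c v = 0} =
            {c | c u = 0} ∪ {c | c v = 0} := by
          ext c; simp [hv.1, hv.2]
        rw [this]
        exact (isClosed_eq (continuous_apply _) continuous_const).union
          (isClosed_eq (continuous_apply _) continuous_const)
      · have : {c : V → ℝ | t.dep u = t.dep v → u ≠ v → c u = 0 ∨ c v = 0} = Set.univ := by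
          ext c
          simp only [Set.mem_ofPred_eq, Set.mem_univ, iff_true]
          intro h1 h2
          exact absurd ⟨h1, h2⟩ hv
        rw [this]; exact isClosed_univ
  · intro c hc v _
    exact hc.1 v

/-- level sums -/
noncomputable def s (n : ℕ) (c : V → ℝ) : ℝ := cl (∑ v ∈ t.lv n, c v)

theorem s_cont (n : ℕ) : Continuous (t.s n) := by
  refine cl_cont.comp ?_
  exact continuous_finsetSum _ (fun v _ => continuous_apply v)

variable {t}

theorem s_eq {c : V → ℝ} (hc : c ∈ t.That) {v : V} (hv : c v ≠ 0) : t.s (t.dep v) c = c v := by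
  have h1 : ∑ u ∈ t.lv (t.dep v), c u = c v := by
    apply Finset.sum_eq_single_of_mem v (t.mem_lv.mpr rfl)
    intro u hu huv
    exact (hc.2.2.2 u v (t.mem_lv.mp hu) huv).resolve_right hv
  unfold s
  rw [h1]
  exact cl_eq (hc.1 v).1 (hc.1 v).2

theorem s_zero {c : V → ℝ} {n : ℕ} (h : ∀ v, t.dep v = n → c v = 0) : t.s n c = 0 := by
  unfold s
  rw [Finset.sum_eq_zero (fun v hv => h v (t.mem_lv.mp hv))]
  exact cl_of_nonpos le_rfl

theorem s_ne_zero {c : V → ℝ} (hc : c ∈ t.That) {n : ℕ} (h : t.s n c ≠ 0) :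
    ∃ v, t.dep v = n ∧ c v ≠ 0 ∧ t.s n c = c v := by
  by_contra hcon
  push Not at hcon
  apply h
  apply s_zero
  intro v hv
  by_contra h1
  have := s_eq hc h1
  rw [hv] at this
  exact hcon v hv h1 this

theorem s_isStep {c : V → ℝ} (hc : c ∈ t.That) : IsStep (fun n => t.s n c) where
  nn n := cl_nonneg _
  le n := cl_le_one _
  zero := by
    have := s_eq hc (v := t.root) (by rw [hc.2.1]; norm_num)
    rw [t.dep_root, hc.2.1] at this
    exact this
  step n := by
    by_cases h : t.s (n + 1) c = 0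
    · exact Or.inl h
    · right
      obtain ⟨v, hv, hv1, -⟩ := s_ne_zero hc h
      have hne : v ≠ t.root := by
        rintro rfl
        rw [t.dep_root] at hv; omega
      have h1 : c (t.par v) = 1 := (hc.2.2.1 v hne).resolve_left hv1
      have h2 := s_eq hc (v := t.par v) (by rw [h1]; norm_num)
      have h3 : t.dep (t.par v) = n := by have := t.dep_par v hne; omega
      rw [h3, h1] at h2
      exact h2

variable (t)

/-- the level function on the compactified tree -/
noncomputable def Q (c : V → ℝ) : ℝ := Qs (fun n => t.s n c)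

theorem Q_cont : Continuous t.Q := by
  unfold Q Qs
  refine continuous_tsum (u := wt) (fun k => ?_) wt_summable (fun k c => ?_)
  · exact (continuous_const.sub (t.s_cont (k + 1))).mul continuous_const
  · have h0 : 0 ≤ t.s (k + 1) c := cl_nonneg _
    have h1 : t.s (k + 1) c ≤ 1 := cl_le_one _
    rw [Real.norm_of_nonneg (mul_nonneg (by linarith) (wt_pos k).le)]
    calc (1 - t.s (k + 1) c) * wt k ≤ 1 * wt k :=
        mul_le_mul_of_nonneg_right (by linarith) (wt_pos k).le
      _ = wt k := one_mul _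

theorem Q_nonneg (c : V → ℝ) : 0 ≤ t.Q c := Qs_nonneg (fun _ => cl_le_one _)

theorem Q_le_one (c : V → ℝ) : t.Q c ≤ 1 := Qs_le_one (fun _ => cl_nonneg _) (fun _ => cl_le_one _)

/-- truncation -/
noncomputable def tr (z : (V → ℝ) × ℝ) : V → ℝ := fun v => min (z.1 v) (cut (t.dep v) z.2)

theorem tr_cont : Continuous t.tr := by
  refine continuous_pi (fun v => ?_)
  exact ((continuous_apply v).comp continuous_fst).min ((cut_cont _).comp continuous_snd)

variable {t}

theorem tr_mem {c : V → ℝ} (hc : c ∈ t.That) (r : ℝ) : t.tr (c, r) ∈ t.That := by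
  refine ⟨fun v => ⟨le_min (hc.1 v).1 (cut_nonneg _ _), (min_le_left _ _).trans (hc.1 v).2⟩,
    ?_, ?_, ?_⟩
  · show min (c t.root) (cut (t.dep t.root) r) = 1
    rw [hc.2.1, t.dep_root]
    exact min_self _
  · intro v hv
    show min (c v) (cut (t.dep v) r) = 0 ∨ min (c (t.par v)) (cut (t.dep (t.par v)) r) = 1
    have h1 := t.dep_par v hv
    rcases hc.2.2.1 v hv with h | h
    · left; rw [h]; exact min_eq_left (cut_nonneg _ _)
    · rcases (cut_isStep r).step (t.dep (t.par v)) with h2 | h2
      · left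
        rw [h1] at h2
        rw [h2]
        exact min_eq_right (hc.1 v).1
      · right
        rw [h, h2, min_self]
  · intro u v huv hne
    show min (c u) (cut (t.dep u) r) = 0 ∨ min (c v) (cut (t.dep v) r) = 0
    rcases hc.2.2.2 u v huv hne with h | h
    · left; rw [h]; exact min_eq_left (cut_nonneg _ _)
    · right; rw [h]; exact min_eq_left (cut_nonneg _ _)

theorem s_tr {c : V → ℝ} (hc : c ∈ t.That) (r : ℝ) (n : ℕ) :
    t.s n (t.tr (c, r)) = min (t.s n c) (cut n r) := by
  by_cases h : t.s n c = 0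
  · rw [h, min_eq_left (cut_nonneg _ _)]
    apply s_zero
    intro v hv
    show min (c v) (cut (t.dep v) r) = 0
    have : c v = 0 := by
      by_contra h1
      have := s_eq hc h1
      rw [hv, h] at this
      exact h1 this.symm
    rw [this]; exact min_eq_left (cut_nonneg _ _)
  · obtain ⟨v, hv, hv1, hv2⟩ := s_ne_zero hc h
    rw [hv2]
    have h3 : ∑ u ∈ t.lv n, t.tr (c, r) u = min (c v) (cut n r) := by
      rw [Finset.sum_eq_single_of_mem v (t.mem_lv.mpr hv)]
      · show min (c v) (cut (t.dep v) r) = _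
        rw [hv]
      · intro u hu huv
        show min (c u) (cut (t.dep u) r) = 0
        have : c u = 0 := (hc.2.2.2 u v (by rw [t.mem_lv.mp hu, hv]) huv).resolve_right hv1
        rw [this]; exact min_eq_left (cut_nonneg _ _)
    unfold s
    rw [h3]
    exact cl_eq (le_min (hc.1 v).1 (cut_nonneg _ _)) ((min_le_left _ _).trans (hc.1 v).2)

theorem Q_tr {c : V → ℝ} (hc : c ∈ t.That) {r : ℝ} (h0 : 0 ≤ r) (h1 : r ≤ 1) :
    t.Q (t.tr (c, r)) = max (t.Q c) r := by
  have e : (fun n => t.s n (t.tr (c, r))) = fun n => min (t.s n c) (cut n r) :=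
    funext (fun n => s_tr hc r n)
  have hs := s_isStep hc
  have hk := cut_isStep r
  unfold Q
  rw [e]
  rcases hs.cmp hk with h | h
  · have e2 : (fun n => min (t.s n c) (cut n r)) = fun n => t.s n c :=
      funext (fun n => min_eq_left (h n))
    rw [e2]
    have := Qs_anti hs.nn hk.le h
    rw [Qs_cut h0 h1] at this
    rw [max_eq_left this]
  · have e2 : (fun n => min (t.s n c) (cut n r)) = fun n => cut n r :=
      funext (fun n => min_eq_right (h n))
    rw [e2]
    have := Qs_anti hk.nn hs.le h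
    rw [Qs_cut h0 h1] at this
    rw [Qs_cut h0 h1, max_eq_right this]

theorem tr_id {c : V → ℝ} (hc : c ∈ t.That) {r : ℝ} (h : r ≤ 0) : t.tr (c, r) = c := by
  funext v
  show min (c v) (cut (t.dep v) r) = c v
  rw [cut_of_nonpos _ h]
  exact min_eq_left (hc.1 v).2

variable (t) in
/-- the point of the root -/
noncomputable def rpt : V → ℝ := fun v => if t.dep v = 0 then 1 else 0

theorem tr_const {c : V → ℝ} (hc : c ∈ t.That) {r : ℝ} (h : 1 ≤ r) : t.tr (c, r) = t.rpt := by
  funext v
  show min (c v) (cut (t.dep v) r) = if t.dep v = 0 then 1 else 0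
  split_ifs with h1
  · rw [h1]
    rw [t.dep_eq_zero] at h1
    rw [h1, hc.2.1]
    exact min_self _
  · obtain ⟨k, hk⟩ := Nat.exists_eq_succ_of_ne_zero h1
    rw [hk, Nat.succ_eq_add_one, cut_of_one_le k h]
    exact min_eq_right (hc.1 v).1

/-! ### vertices and cells -/

variable (t) in
/-- closed cells -/
def cell (v : V) : Set (V → ℝ) :=
  {c | c ∈ t.That ∧ c (t.par v) = 1 ∧ ∀ u, t.dep v ≤ t.dep u → u ≠ v → c u = 0}

theorem anc_one {c : V → ℝ} (hc : c ∈ t.That) {v : V} (hv : c v = 1) (k : ℕ) :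
    c (t.par^[k] v) = 1 := by
  induction k with
  | zero => exact hv
  | succ k ih =>
    rw [Function.iterate_succ_apply']
    by_cases h : t.par^[k] v = t.root
    · rw [h, t.par_root]; exact hc.2.1
    · exact (hc.2.2.1 _ h).resolve_left (by rw [ih]; norm_num)

theorem dep_anc (v : V) (k : ℕ) : t.dep (t.par^[k] v) = t.dep v - k := by
  induction k with
  | zero => rfl
  | succ k ih => rw [Function.iterate_succ_apply', t.dep_par', ih]; omega

variable (t) in
open Classical in
/-- the point of a vertex -/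
noncomputable def vt (v : V) : V → ℝ := fun u => if ∃ k, t.par^[k] v = u then 1 else 0

theorem vt_self (v : V) : t.vt v v = 1 := if_pos ⟨0, rfl⟩

theorem vt_anc (v : V) (k : ℕ) : t.vt v (t.par^[k] v) = 1 := if_pos ⟨k, rfl⟩

theorem vt_root' (v : V) : t.vt v t.root = 1 := by
  have : t.par^[t.dep v] v = t.root := by
    rw [← t.dep_eq_zero, dep_anc]; omega
  exact if_pos ⟨_, this⟩

theorem vt_deep {v u : V} (h : t.dep v < t.dep u) : t.vt v u = 0 := by
  apply if_neg
  rintro ⟨k, rfl⟩
  rw [dep_anc] at h; omega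

theorem vt_ne {v u : V} (h : t.dep v = t.dep u) (hne : u ≠ v) : t.vt v u = 0 := by
  apply if_neg
  rintro ⟨k, rfl⟩
  rw [dep_anc] at h
  rcases Nat.eq_zero_or_pos k with hk | hk
  · subst hk; exact hne rfl
  · have h0 : t.dep v = 0 := by omega
    have h1 : t.dep (t.par^[k] v) = 0 := by rw [dep_anc]; omega
    rw [t.dep_eq_zero] at h0 h1
    rw [h0] at h1 hne
    exact hne h1

theorem anc_eq {v u : V} (hle : t.dep u ≤ t.dep v) (h : ∃ k, t.par^[k] v = u) :
    t.par^[t.dep v - t.dep u] v = u := by
  obtain ⟨k, rfl⟩ := h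
  rw [dep_anc]
  rcases Nat.lt_or_ge (t.dep v) k with h1 | h1
  · have e1 : t.dep v - k = 0 := by omega
    rw [e1, Nat.sub_zero]
    have h2 : t.par^[t.dep v] v = t.root := by
      rw [← t.dep_eq_zero, dep_anc]; omega
    have h3 : t.par^[k] v = t.root := by
      rw [← t.dep_eq_zero, dep_anc]; omega
    rw [h2, h3]
  · rw [show t.dep v - (t.dep v - k) = k by omega]

theorem vt_mem (v : V) : t.vt v ∈ t.That := by
  classical
  refine ⟨?_, vt_root' v, ?_, ?_⟩
  · intro u
    unfold vt
    split_ifs <;> norm_num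
  · intro u _
    by_cases h : ∃ k, t.par^[k] v = u
    · right
      obtain ⟨k, rfl⟩ := h
      rw [← Function.iterate_succ_apply' (f := t.par)]
      exact vt_anc v (k + 1)
    · left; exact if_neg h
  · intro u w huw hne
    by_contra hcon
    push Not at hcon
    obtain ⟨h1, h2⟩ := hcon
    have hu : ∃ k, t.par^[k] v = u := by
      by_contra h; exact h1 (if_neg h)
    have hw : ∃ k, t.par^[k] v = w := by
      by_contra h; exact h2 (if_neg h)
    have du : t.dep u ≤ t.dep v := by obtain ⟨k, rfl⟩ := hu; rw [dep_anc]; omega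
    have dw : t.dep w ≤ t.dep v := by obtain ⟨k, rfl⟩ := hw; rw [dep_anc]; omega
    have e1 := anc_eq du hu
    have e2 := anc_eq dw hw
    rw [huw] at e1
    exact hne (e1.symm.trans e2)

/-- a point with coordinate one at `v` agrees with the point of `v` up to the depth of `v` -/
theorem eq_vt {c : V → ℝ} (hc : c ∈ t.That) {v : V} (hv : c v = 1) {u : V}
    (hu : t.dep u ≤ t.dep v) : c u = t.vt v u := by
  by_cases h : ∃ k, t.par^[k] v = u
  · obtain ⟨k, rfl⟩ := h
    rw [anc_one hc hv, vt_anc]
  · have h1 : t.vt v u = 0 := if_neg h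
    rw [h1]
    have h2 : c (t.par^[t.dep v - t.dep u] v) = 1 := anc_one hc hv _
    rcases hc.2.2.2 u (t.par^[t.dep v - t.dep u] v) (by rw [dep_anc]; omega) (by
      intro h3; exact h ⟨_, h3.symm⟩) with h3 | h3
    · exact h3
    · rw [h2] at h3; norm_num at h3

theorem vt_par_lt {v u : V} (h : t.dep u < t.dep v) : t.vt (t.par v) u = t.vt v u := by
  have h1 : t.vt v (t.par v) = 1 := vt_anc v 1
  have := eq_vt (vt_mem v) h1 (u := u) (by rw [t.dep_par']; omega)
  exact this.symm

theorem cell_apply {c : V → ℝ} {v : V} (hc : c ∈ t.cell v) {u : V} (hu : u ≠ v) :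
    c u = t.vt (t.par v) u := by
  rcases Nat.lt_or_ge (t.dep u) (t.dep v) with h | h
  · exact eq_vt hc.1 hc.2.1 (by rw [t.dep_par']; omega)
  · rw [hc.2.2 u h hu]
    by_cases hv : v = t.root
    · subst hv
      rw [t.par_root]
      rcases Nat.eq_zero_or_pos (t.dep u) with h0 | h0
      · exact absurd (t.dep_eq_zero.mp h0) hu
      · exact (vt_deep (by rw [t.dep_root]; exact h0)).symm
    · exact (vt_deep (by have := t.dep_par v hv; omega)).symm

theorem vt_mem_cell (v : V) : t.vt v ∈ t.cell v := by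
  refine ⟨vt_mem v, vt_anc v 1, fun u hu hne => ?_⟩
  rcases eq_or_lt_of_le hu with h | h
  · exact vt_ne h hne
  · exact vt_deep h

theorem vt_par_mem_cell (v : V) : t.vt (t.par v) ∈ t.cell v := by
  by_cases hv : v = t.root
  · subst hv; rw [t.par_root]; exact vt_mem_cell _
  · refine ⟨vt_mem _, vt_self _, fun u hu hne => vt_deep ?_⟩
    have := t.dep_par v hv; omega

theorem cell_eq_vt_par {c : V → ℝ} {v : V} (hv : v ≠ t.root) (hc : c ∈ t.cell v)
    (h0 : c v = 0) : c = t.vt (t.par v) := by
  funext u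
  by_cases hu : u = v
  · subst hu
    rw [h0]
    exact (vt_deep (by have := t.dep_par u hv; omega)).symm
  · exact cell_apply hc hu

theorem cell_eq_vt {c : V → ℝ} {v : V} (hc : c ∈ t.cell v) (h1 : c v = 1) : c = t.vt v := by
  funext u
  by_cases hu : u = v
  · subst hu; rw [h1, vt_self]
  · rcases Nat.lt_or_ge (t.dep u) (t.dep v) with h | h
    · rw [cell_apply hc hu, vt_par_lt h]
    · rw [hc.2.2 u h hu]
      rcases eq_or_lt_of_le h with h2 | h2
      · exact (vt_ne h2 hu).symm
      · exact (vt_deep h2).symm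

theorem cell_root {c : V → ℝ} (hc : c ∈ t.cell t.root) : c = t.vt t.root :=
  cell_eq_vt hc hc.1.2.1

theorem rpt_eq : t.rpt = t.vt t.root := by
  funext v
  unfold rpt
  split_ifs with h
  · rw [t.dep_eq_zero.mp h, vt_self]
  · exact (vt_deep (by rw [t.dep_root]; omega)).symm

/-- the points of finite height lie in cells -/
theorem exists_cell {c : V → ℝ} (hc : c ∈ t.That) (hQ : 0 < t.Q c) : ∃ v, c ∈ t.cell v := by
  classical
  have hs := s_isStep hc
  have hex : ∃ n, t.s (n + 1) c ≠ 1 := by
    by_contra hcon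
    push Not at hcon
    have : t.Q c = 0 := by
      unfold Q Qs
      simp_rw [hcon]
      simp
    rw [this] at hQ
    exact lt_irrefl _ hQ
  set n := Nat.find hex with hn
  have h1 : t.s (n + 1) c ≠ 1 := Nat.find_spec hex
  have h2 : t.s n c = 1 := by
    rcases Nat.eq_zero_or_pos n with h | h
    · rw [h]; exact hs.zero
    · have := Nat.find_min hex (m := n - 1) (by omega)
      rw [show n - 1 + 1 = n by omega] at this
      exact not_not.mp this
  have hdeep : ∀ u, n + 1 < t.dep u → c u = 0 := by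
    intro u hu
    by_contra h
    have h3 := s_eq hc h
    have h4 := hs.zero_of_ne h1 _ hu
    rw [h4] at h3
    exact h h3.symm
  obtain ⟨v, hv, -, hv2⟩ := s_ne_zero hc (n := n) (by rw [h2]; norm_num)
  have hv1 : c v = 1 := by rw [← hv2]; exact h2
  by_cases h3 : t.s (n + 1) c = 0
  · refine ⟨v, hc, ?_, ?_⟩
    · exact anc_one hc hv1 1
    · intro u hu hne
      rcases Nat.lt_or_ge (n + 1) (t.dep u) with h | h
      · exact hdeep u h
      · rcases Nat.lt_or_ge n (t.dep u) with h4 | h4
        · by_contra h5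
          have h6 := s_eq hc h5
          rw [show t.dep u = n + 1 by omega, h3] at h6
          exact h5 h6.symm
        · exact (hc.2.2.2 u v (by omega) hne).resolve_right (by rw [hv1]; norm_num)
  · obtain ⟨w, hw, hw1, -⟩ := s_ne_zero hc h3
    have hwr : w ≠ t.root := by
      rintro rfl
      rw [t.dep_root] at hw; omega
    have h4 : c (t.par w) = 1 := (hc.2.2.1 w hwr).resolve_left hw1
    refine ⟨w, hc, h4, ?_⟩
    intro u hu hne
    rcases Nat.lt_or_ge (n + 1) (t.dep u) with h | h
    · exact hdeep u h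
    · exact (hc.2.2.2 u w (by omega) hne).resolve_right hw1

theorem cell_Q_ge {c : V → ℝ} {v : V} (hc : c ∈ t.cell v) : hm (t.dep v) ≤ t.Q c := by
  apply Qs_ge (s_isStep hc.1)
  apply s_zero
  intro u hu
  exact hc.2.2 u (by omega) (by rintro rfl; omega)

theorem cell_Q_le {c : V → ℝ} {v : V} (hc : c ∈ t.cell v) : t.Q c ≤ hm (t.dep (t.par v)) := by
  apply Qs_le (s_isStep hc.1)
  have := s_eq hc.1 (v := t.par v) (by rw [hc.2.1]; norm_num)
  rw [this, hc.2.1]

theorem cell_Q_pos {c : V → ℝ} {v : V} (hc : c ∈ t.cell v) : 0 < t.Q c :=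
  (hm_pos _).trans_le (cell_Q_ge hc)

theorem cell_inv_le {c : V → ℝ} {v : V} (hc : c ∈ t.cell v) : 1 / t.Q c ≤ t.dep v + 1 := by
  rw [← one_div_hm]
  exact one_div_le_one_div_of_le (hm_pos _) (cell_Q_ge hc)

theorem cell_inv_ge {c : V → ℝ} {v : V} (hc : c ∈ t.cell v) : (t.dep v : ℝ) ≤ 1 / t.Q c := by
  have h1 : 1 / hm (t.dep (t.par v)) ≤ 1 / t.Q c :=
    one_div_le_one_div_of_le (cell_Q_pos hc) (cell_Q_le hc)
  rw [one_div_hm, t.dep_par'] at h1
  have : (t.dep v : ℝ) ≤ ((t.dep v - 1 : ℕ) : ℝ) + 1 := by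
    have : t.dep v ≤ (t.dep v - 1) + 1 := by omega
    exact_mod_cast this
  linarith

/-! ### walks -/

variable (t) in
/-- walks in the tree, where steps may be trivial -/
inductive Wk : ℕ → V → V → Prop
  | refl (v : V) : Wk 0 v v
  | step {n : ℕ} {u v w : V} : (u = v ∨ t.par v = u ∨ t.par u = v) → Wk n v w → Wk (n + 1) u w

theorem Wk.mono {m n : ℕ} {u v : V} (h : t.Wk m u v) (hmn : m ≤ n) : t.Wk n u v := by
  induction hmn with
  | refl => exact h
  | step _ ih => exact Wk.step (Or.inl rfl) ih

theorem Wk.trans {m n : ℕ} {u v w : V} (h : t.Wk m u v) (h' : t.Wk n v w) :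
    t.Wk (m + n) u w := by
  induction h with
  | refl => simpa using h'
  | step h1 _ ih =>
    have := Wk.step h1 (ih h')
    rwa [show ∀ k, k + n + 1 = k + 1 + n by intro k; omega] at this

theorem Wk.symm {m : ℕ} {u v : V} (h : t.Wk m u v) : t.Wk m v u := by
  induction h with
  | refl => exact Wk.refl _
  | step h1 _ ih =>
    refine ih.trans (n := 1) (Wk.step ?_ (Wk.refl _))
    rcases h1 with h | h | h
    · exact Or.inl h.symm
    · exact Or.inr (Or.inr h)
    · exact Or.inr (Or.inl h)

theorem Wk.dep_le {m : ℕ} {u v : V} (h : t.Wk m u v) : t.dep v ≤ t.dep u + m := by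
  induction h with
  | refl => omega
  | step h1 _ ih =>
    rcases h1 with h | h | h
    · subst h; omega
    · rename_i a b _ _
      have := t.dep_par' b
      rw [h] at this
      omega
    · rename_i a b _ _
      have := t.dep_par' a
      rw [h] at this
      omega

theorem Wk.vt_eq {m : ℕ} {u v : V} (h : t.Wk m u v) : ∀ x, t.dep x + m < t.dep u →
    t.vt u x = t.vt v x ∧ t.dep x < t.dep v := by
  induction h with
  | refl => intro x hx; exact ⟨rfl, by omega⟩
  | @step n a b w h1 _ ih =>
    intro x hx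
    rcases h1 with h | h | h
    · subst h; exact ih x (by omega)
    · -- par b = a
      have h2 := t.dep_par' b
      rw [h] at h2
      obtain ⟨h3, h4⟩ := ih x (by omega)
      refine ⟨?_, h4⟩
      rw [← h3, ← h]
      exact vt_par_lt (by omega)
    · have h2 := t.dep_par' a
      rw [h] at h2
      obtain ⟨h3, h4⟩ := ih x (by omega)
      refine ⟨?_, h4⟩
      rw [← h3, ← h]
      exact (vt_par_lt (by omega)).symm

variable (t) in
/-- closeness of points of the tree -/
def Near (m : ℕ) (y y' : V → ℝ) : Prop := ∃ v v', y ∈ t.cell v ∧ y' ∈ t.cell v' ∧ t.Wk m v v'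

theorem Near.symm {m : ℕ} {y y' : V → ℝ} (h : t.Near m y y') : t.Near m y' y := by
  obtain ⟨v, v', h1, h2, h3⟩ := h
  exact ⟨v', v, h2, h1, h3.symm⟩

theorem Near.mono {m n : ℕ} {y y' : V → ℝ} (h : t.Near m y y') (hmn : m ≤ n) :
    t.Near n y y' := by
  obtain ⟨v, v', h1, h2, h3⟩ := h
  exact ⟨v, v', h1, h2, h3.mono hmn⟩

theorem Near.inv_le {m : ℕ} {y y' : V → ℝ} (h : t.Near m y y') :
    1 / t.Q y' ≤ 1 / t.Q y + (m + 1) := by
  obtain ⟨v, v', h1, h2, h3⟩ := h
  have e1 := cell_inv_le h2
  have e2 := cell_inv_ge h1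
  have e3 : (t.dep v' : ℝ) ≤ t.dep v + m := by exact_mod_cast h3.dep_le
  linarith

theorem Near.agree {m : ℕ} {y y' : V → ℝ} (h : t.Near m y y') {x : V}
    (hx : (t.dep x : ℝ) + m + 1 < 1 / t.Q y) : y x = y' x := by
  obtain ⟨v, v', h1, h2, h3⟩ := h
  have e1 := cell_inv_le h1
  have e2 : t.dep x + m < t.dep v := by
    have : (t.dep x : ℝ) + m < t.dep v := by linarith
    exact_mod_cast this
  obtain ⟨h4, h5⟩ := h3.vt_eq x e2
  have hx1 : x ≠ v := by rintro rfl; omega
  have hx2 : x ≠ v' := by rintro rfl; omega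
  rw [cell_apply h1 hx1, cell_apply h2 hx2, vt_par_lt (by omega), vt_par_lt h5, h4]

end RTree

end Run7.h241
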