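import Mathlib
import Pool.Agent.Run7.h241.TreeB

set_option autoImplicit false

namespace Run7.h241

open Filter Topology

namespace RTree

variable {V : Type} (t : RTree V)

include t in
theorem countable : Countable V := by
  have h : (Set.univ : Set V) = ⋃ n, {v | t.dep v = n} := by
    ext v; simp
  rw [← Set.countable_univ_iff, h]
  exact Set.countable_iUnion (fun n => (t.lev_fin n).countable)

/-- auxiliary recursion -/
def nuAux (e : V → ℕ) : ℕ → V → ℕ
  | 0, _ => 0
  | n + 1, v => Nat.pair (nuAux e n (t.par v)) (e v) + 1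

theorem exists_nu : ∃ ν : V → ℕ, Function.Injective ν ∧
    ∀ v, v ≠ t.root → ν (t.par v) < ν v := by
  obtain ⟨e, he⟩ := (countable_iff_exists_injective V).mp t.countable
  refine ⟨fun v => t.nuAux e (t.dep v) v, ?_, ?_⟩
  · intro u v huv
    simp only at huv
    rcases hu : t.dep u with _ | m
    · rcases hv : t.dep v with _ | n
      · rw [t.dep_eq_zero] at hu hv
        rw [hu, hv]
      · rw [hu, hv] at huv
        simp [nuAux] at huv
    · rcases hv : t.dep v with _ | n
      · rw [hu, hv] at huv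
        simp [nuAux] at huv
      · rw [hu, hv] at huv
        simp only [nuAux, Nat.add_right_cancel_iff] at huv
        exact he (Nat.pair_eq_pair.mp huv).2
  · intro v hv
    have h1 := t.dep_par v hv
    show t.nuAux e (t.dep (t.par v)) (t.par v) < t.nuAux e (t.dep v) v
    rw [← h1]
    simp only [nuAux]
    have := Nat.left_le_pair (t.nuAux e (t.dep (t.par v)) (t.par v)) (e v)
    omega

noncomputable def nu : V → ℕ := t.exists_nu.choose

theorem nu_inj : Function.Injective t.nu := t.exists_nu.choose_spec.1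

theorem nu_par {v : V} (hv : v ≠ t.root) : t.nu (t.par v) < t.nu v := t.exists_nu.choose_spec.2 v hv

theorem dep_le_nu (v : V) : t.dep v ≤ t.nu v := by
  have : ∀ n v, t.dep v = n → n ≤ t.nu v := by
    intro n
    induction n with
    | zero => intro v _; omega
    | succ n ih =>
      intro v hv
      have hne : v ≠ t.root := by rintro rfl; rw [t.dep_root] at hv; omega
      have h1 := t.dep_par v hne
      have h2 := ih (t.par v) (by omega)
      have h3 := t.nu_par hne
      omega
  exact this _ v rfl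

/-- the weight of a vertex -/
noncomputable def wv (v : V) : ℝ := (1 / 3 : ℝ) ^ (t.nu v)

theorem wv_pos (v : V) : 0 < t.wv v := by unfold wv; positivity

theorem geom_summable : Summable (fun n : ℕ => (1 / 3 : ℝ) ^ n) :=
  summable_geometric_of_lt_one (by norm_num) (by norm_num)

theorem wv_summable : Summable t.wv := geom_summable.comp_injective t.nu_inj

theorem tail_bound {f : V → ℝ} {σ : ℝ} {k : ℕ} (hσ : 0 ≤ σ) (h1 : ∀ u, |f u| ≤ σ * t.wv u)
    (h2 : ∀ u, t.nu u < k → f u = 0) : |∑' u, f u| ≤ σ * ((3 / 2) * (1 / 3) ^ k) := by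
  have hs : Summable (fun u => |f u|) :=
    Summable.of_nonneg_of_le (fun u => abs_nonneg _) h1 (t.wv_summable.mul_left σ)
  let g : ℕ → ℝ := fun m => if m < k then 0 else σ * (1 / 3) ^ m
  have hg : Summable g := by
    refine Summable.of_nonneg_of_le (fun m => ?_) (fun m => ?_) (geom_summable.mul_left σ)
    · show 0 ≤ (if m < k then 0 else σ * (1 / 3 : ℝ) ^ m)
      split_ifs
      · exact le_rfl
      · positivity
    · show (if m < k then 0 else σ * (1 / 3 : ℝ) ^ m) ≤ _
      split_ifs
      · positivity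
      · exact le_rfl
  have hg0 : ∀ m, 0 ≤ g m := by
    intro m
    show 0 ≤ (if m < k then 0 else σ * (1 / 3 : ℝ) ^ m)
    split_ifs
    · exact le_rfl
    · positivity
  have hfg : ∀ u, |f u| ≤ g (t.nu u) := by
    intro u
    show |f u| ≤ (if t.nu u < k then 0 else σ * (1 / 3 : ℝ) ^ (t.nu u))
    split_ifs with h
    · rw [h2 u h, abs_zero]
    · exact h1 u
  have hsf : Summable f := hs.of_abs
  calc |∑' u, f u| = ‖∑' u, f u‖ := rfl
    _ ≤ ∑' u, ‖f u‖ := norm_tsum_le_tsum_norm hs
    _ = ∑' u, |f u| := rfl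
    _ ≤ ∑' u, g (t.nu u) := Summable.tsum_le_tsum hfg hs (hg.comp_injective t.nu_inj)
    _ ≤ ∑' m, g m := tsum_comp_le_tsum_of_inj hg hg0 t.nu_inj
    _ = σ * ((3 / 2) * (1 / 3) ^ k) := by
      rw [← hg.sum_add_tsum_nat_add k]
      have e1 : ∑ i ∈ Finset.range k, g i = 0 :=
        Finset.sum_eq_zero (fun i hi => if_pos (Finset.mem_range.mp hi))
      have e2 : ∀ i, g (i + k) = (σ * (1 / 3) ^ k) * (1 / 3) ^ i := by
        intro i
        show (if i + k < k then 0 else σ * (1 / 3 : ℝ) ^ (i + k)) = _
        rw [if_neg (by omega), pow_add]; ring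
      rw [e1, zero_add]
      simp_rw [e2]
      rw [tsum_mul_left, tsum_geometric_of_lt_one (by norm_num) (by norm_num)]
      ring

/-- the second coordinate -/
noncomputable def kap (c : V → ℝ) : ℝ := ∑' v, cl (c v) * t.wv v

theorem kap_cont : Continuous t.kap := by
  unfold kap
  refine continuous_tsum (u := t.wv) (fun v => ?_) t.wv_summable (fun v c => ?_)
  · exact (cl_cont.comp (continuous_apply v)).mul continuous_const
  · rw [Real.norm_of_nonneg (mul_nonneg (cl_nonneg _) (t.wv_pos v).le)]
    exact (mul_le_mul_of_nonneg_right (cl_le_one _) (t.wv_pos v).le).trans_eq (one_mul _)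

theorem kap_summable (c : V → ℝ) : Summable (fun v => cl (c v) * t.wv v) := by
  refine Summable.of_nonneg_of_le (fun v => mul_nonneg (cl_nonneg _) (t.wv_pos v).le)
    (fun v => ?_) t.wv_summable
  exact (mul_le_mul_of_nonneg_right (cl_le_one _) (t.wv_pos v).le).trans_eq (one_mul _)

theorem kap_sub (c c' : V → ℝ) :
    t.kap c - t.kap c' = ∑' v, (cl (c v) - cl (c' v)) * t.wv v := by
  unfold kap
  rw [← (t.kap_summable c).tsum_sub (t.kap_summable c')]
  congr 1
  funext v
  ring

theorem abs_cl_sub_le (x y : ℝ) : |cl x - cl y| ≤ 1 := by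
  rw [abs_le]
  constructor <;> linarith [cl_nonneg x, cl_nonneg y, cl_le_one x, cl_le_one y]

variable {t}

theorem kap_close {c c' : V → ℝ} {m : ℕ} (h : ∀ u, t.dep u < m → c u = c' u) :
    |t.kap c - t.kap c'| ≤ (3 / 2) * (1 / 3) ^ m := by
  rw [kap_sub]
  have := t.tail_bound (f := fun v => (cl (c v) - cl (c' v)) * t.wv v) (σ := 1) (k := m)
    zero_le_one (fun u => by
      rw [abs_mul, abs_of_pos (t.wv_pos u)]
      exact mul_le_mul_of_nonneg_right (abs_cl_sub_le _ _) (t.wv_pos u).le) (fun u hu => by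
      have : t.dep u < m := lt_of_le_of_lt (t.dep_le_nu u) hu
      rw [h u this, sub_self, zero_mul])
  rwa [one_mul] at this

variable (t) in
/-- the two coordinates of the tree in the plane -/
noncomputable def ze (c : V → ℝ) : ℝ × ℝ := (t.Q c, t.kap c)

theorem ze_cont : Continuous t.ze := t.Q_cont.prodMk t.kap_cont

theorem ze_inj {c c' : V → ℝ} (hc : c ∈ t.That) (hc' : c' ∈ t.That) (h : t.ze c = t.ze c') :
    c = c' := by
  classical
  have hQ : t.Q c = t.Q c' := congrArg Prod.fst h
  have hk : t.kap c = t.kap c' := congrArg Prod.snd h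
  have hs : ∀ n, t.s n c = t.s n c' := Qs_eq_of (s_isStep hc) (s_isStep hc') hQ
  by_contra hne
  have hex : ∃ n, ∃ v, t.nu v = n ∧ c v ≠ c' v := by
    by_contra hcon
    push Not at hcon
    exact hne (funext (fun v => hcon _ v rfl))
  obtain ⟨v, hvn, hv⟩ := Nat.find_spec hex
  have hmin : ∀ u, t.nu u < t.nu v → c u = c' u := by
    intro u hu
    by_contra h1
    exact Nat.find_min hex (m := t.nu u) (by rw [← hvn]; exact hu) ⟨u, rfl, h1⟩
  -- reduce to the case where `c v` is not zero
  have key : ∀ c c' : V → ℝ, c ∈ t.That → c' ∈ t.That → (∀ n, t.s n c = t.s n c') →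
      t.kap c = t.kap c' → c v ≠ c' v → (∀ u, t.nu u < t.nu v → c u = c' u) → c v ≠ 0 →
      False := by
    intro c c' hc hc' hs hk hv hmin hcv
    set n := t.dep v with hn
    have h1 : t.s n c = c v := s_eq hc hcv
    have h2 : c' v = 0 := by
      by_contra h3
      have h4 := s_eq hc' h3
      rw [← hn, ← hs, h1] at h4
      exact hv h4
    have h3 : t.s n c' = c v := by rw [← hs, h1]
    set σ := c v with hσ
    have hσ0 : 0 < σ := lt_of_le_of_ne (hc.1 v).1 (Ne.symm hcv)
    have hvr : v ≠ t.root := by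
      rintro rfl
      rw [hc'.2.1] at h2; norm_num at h2
    have hp : c (t.par v) = 1 := (hc.2.2.1 v hvr).resolve_left hcv
    have hp' : c' (t.par v) = 1 := by rw [← hmin _ (t.nu_par hvr), hp]
    have hlow : ∀ u, t.dep u < n → c u = c' u := by
      intro u hu
      have hd := t.dep_par v hvr
      rw [eq_vt hc hp (u := u) (by omega), eq_vt hc' hp' (u := u) (by omega)]
    have hb : ∀ u, |cl (c u) - cl (c' u)| ≤ σ := by
      intro u
      rw [cl_eq (hc.1 u).1 (hc.1 u).2, cl_eq (hc'.1 u).1 (hc'.1 u).2]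
      have hu0 : ∀ d : V → ℝ, d ∈ t.That → t.s n d = σ → n ≤ t.dep u → d u ≤ σ := by
        intro d hd hdn hnu
        by_cases hdu : d u = 0
        · rw [hdu]; exact hσ0.le
        · have h5 := s_eq hd hdu
          rcases eq_or_lt_of_le hnu with h6 | h6
          · rw [← h6, hdn] at h5; exact h5.symm.le
          · by_cases hσ1 : σ = 1
            · rw [hσ1]; exact (hd.1 u).2
            · have h7 := (s_isStep hd).zero_of_ne (j := n) (by rw [hdn]; exact hσ1) _ h6
              rw [h7] at h5
              exact absurd h5.symm hdu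
      rcases Nat.lt_or_ge (t.dep u) n with hu | hu
      · rw [hlow u hu, sub_self, abs_zero]; exact hσ0.le
      · have e1 := hu0 c hc h1 hu
        have e2 := hu0 c' hc' h3 hu
        rw [abs_le]
        constructor <;> linarith [(hc.1 u).1, (hc'.1 u).1]
    have hsub := t.kap_sub c c'
    rw [hk, sub_self] at hsub
    have hsum : Summable (fun u => (cl (c u) - cl (c' u)) * t.wv u) := by
      have := (t.kap_summable c).sub (t.kap_summable c')
      refine this.congr (fun u => by ring)
    rw [hsum.tsum_eq_add_tsum_ite v] at hsub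
    have hrest := t.tail_bound (f := fun u => if u = v then 0 else (cl (c u) - cl (c' u)) * t.wv u)
      (σ := σ) (k := t.nu v + 1) hσ0.le (fun u => by
        split_ifs with h
        · rw [abs_zero]; exact mul_nonneg hσ0.le (t.wv_pos u).le
        · rw [abs_mul, abs_of_pos (t.wv_pos u)]
          exact mul_le_mul_of_nonneg_right (hb u) (t.wv_pos u).le) (fun u hu => by
        split_ifs with h
        · rfl
        · have h8 : t.nu u < t.nu v := by
            have : t.nu u ≠ t.nu v := fun h9 => h (t.nu_inj h9)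
            omega
          rw [hmin u h8, sub_self, zero_mul])
    have h9 : (cl (c v) - cl (c' v)) * t.wv v = σ * (1 / 3) ^ (t.nu v) := by
      rw [h2, cl_of_nonpos le_rfl, cl_eq (hc.1 v).1 (hc.1 v).2, sub_zero]
      rfl
    rw [h9] at hsub
    have h10 : (0 : ℝ) < σ * (1 / 3) ^ (t.nu v) := by positivity
    have h11 := (abs_le.mp hrest).1
    have h12 : σ * (3 / 2 * (1 / 3) ^ (t.nu v + 1)) = (1 / 2) * (σ * (1 / 3) ^ (t.nu v)) := by
      rw [pow_succ]; ring
    rw [h12] at h11
    linarith
  by_cases hcv : c v = 0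
  · exact key c' c hc' hc (fun n => (hs n).symm) hk.symm (Ne.symm hv)
      (fun u hu => (hmin u hu).symm) (fun h1 => hv (by rw [hcv, h1]))
  · exact key c c' hc hc' hs hk hv hmin hcv

/-- near points of small level have near coordinates -/
theorem near_close (m : ℕ) {ε : ℝ} (hε : 0 < ε) : ∃ δ > 0, ∀ y y' : V → ℝ, t.Near m y y' →
    t.Q y < δ → dist (t.ze y) (t.ze y') < ε := by
  obtain ⟨N, hN⟩ : ∃ N : ℕ, (3 / 2 : ℝ) * (1 / 3) ^ N < ε := by
    have h1 : Tendsto (fun n : ℕ => (3 / 2 : ℝ) * (1 / 3) ^ n) atTop (𝓝 ((3 / 2) * 0)) :=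
      (tendsto_pow_atTop_nhds_zero_of_lt_one (by norm_num) (by norm_num)).const_mul _
    rw [mul_zero] at h1
    exact ((tendsto_order.1 h1).2 ε hε).exists
  -- a bound for the inverse
  let B : ℝ := N + m + 2 + (m + 2) + 1 / ε + 1 / ε
  have hB : 0 < B := by positivity
  refine ⟨1 / B, by positivity, ?_⟩
  intro y y' hn hQ
  have hy : 0 < t.Q y := by
    obtain ⟨v, v', h1, h2, h3⟩ := hn
    exact cell_Q_pos h1
  have hy' : 0 < t.Q y' := by
    obtain ⟨v, v', h1, h2, h3⟩ := hn
    exact cell_Q_pos h2
  have h1 : B < 1 / t.Q y := by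
    rw [lt_div_iff₀ hy]
    rw [lt_div_iff₀ hB] at hQ
    linarith
  have hε' : 0 < 1 / ε := by positivity
  have h2 : 1 / ε < 1 / t.Q y := by
    have : 1 / ε ≤ B := by
      show 1 / ε ≤ N + m + 2 + (m + 2) + 1 / ε + 1 / ε
      have : (0 : ℝ) ≤ N := by positivity
      have : (0 : ℝ) ≤ m := by positivity
      linarith
    linarith
  have h3 : 1 / ε < 1 / t.Q y' := by
    have := hn.symm.inv_le
    have : B - (m + 1) ≤ 1 / t.Q y' := by linarith
    have h4 : 1 / ε + (m + 1) < B := by
      show 1 / ε + (m + 1) < N + m + 2 + (m + 2) + 1 / ε + 1 / ε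
      have : (0 : ℝ) ≤ N := by positivity
      have : (0 : ℝ) ≤ m := by positivity
      linarith
    linarith
  have h4 : t.Q y < ε := by
    rw [one_div_lt_one_div hε hy] at h2
    exact h2
  have h5 : t.Q y' < ε := by
    rw [one_div_lt_one_div hε hy'] at h3
    exact h3
  have h6 : |t.kap y - t.kap y'| < ε := by
    refine lt_of_le_of_lt (kap_close (m := N) ?_) hN
    intro u hu
    apply hn.agree
    have : (t.dep u : ℝ) < N := by exact_mod_cast hu
    have : (N : ℝ) + m + 1 ≤ B := by
      show (N : ℝ) + m + 1 ≤ N + m + 2 + (m + 2) + 1 / ε + 1 / ε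
      have : (0 : ℝ) ≤ m := by positivity
      linarith
    linarith
  rw [Prod.dist_eq]
  apply max_lt
  · show dist (t.Q y) (t.Q y') < ε
    rw [Real.dist_eq, abs_lt]
    constructor <;> linarith
  · show dist (t.kap y) (t.kap y') < ε
    rw [Real.dist_eq]
    exact h6

end RTree

end Run7.h241
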