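import Mathlib
import Pool.Agent.Run7.h241.Level
import Pool.Agent.Run7.h241.TreeC

set_option autoImplicit false

namespace Run7.h241

open Filter Topology

noncomputable def aa (P Q : ℝ) : ℝ := Q / (P + Q)

noncomputable def kk (P Q : ℝ) : ℝ := P * Q / (P + Q)

section real

variable {P Q : ℝ}

theorem aa_pos (hP : 0 < P) (hQ : 0 < Q) : 0 < aa P Q := by unfold aa; positivity

theorem aa_lt (hP : 0 < P) (hQ : 0 < Q) : aa P Q < 1 := by
  unfold aa; rw [div_lt_one (by positivity)]; linarith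

theorem aa_mul (hP : 0 < P) (hQ : 0 < Q) : aa P Q * P = kk P Q := by
  unfold aa kk; ring

theorem one_sub_aa_mul (hP : 0 < P) (hQ : 0 < Q) : (1 - aa P Q) * Q = kk P Q := by
  unfold aa kk
  have : P + Q ≠ 0 := by positivity
  field_simp
  ring

theorem kk_pos (hP : 0 < P) (hQ : 0 < Q) : 0 < kk P Q := by unfold kk; positivity

theorem kk_inv (hP : 0 < P) (hQ : 0 < Q) : 1 / kk P Q = 1 / P + 1 / Q := by
  unfold kk; field_simp; ring

theorem kk_eq (hP : 0 < P) (hQ : 0 < Q) : kk P Q = 1 / (1 / P + 1 / Q) := by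
  rw [← kk_inv hP hQ, one_div_one_div]

theorem aa_eq (hP : 0 < P) (hQ : 0 < Q) : aa P Q = (1 / P) / (1 / P + 1 / Q) := by
  unfold aa; field_simp; ring

theorem one_sub_aa (hP : 0 < P) (hQ : 0 < Q) : 1 - aa P Q = (1 / Q) / (1 / P + 1 / Q) := by
  unfold aa; field_simp; ring

/-- uniqueness of the parameter -/
theorem aa_unique {a : ℝ} (hP : 0 < P) (hQ : 0 < Q) (h : a * P = (1 - a) * Q) : a = aa P Q := by
  unfold aa
  rw [eq_div_iff (by positivity)]
  linarith

theorem frac_diff {L M L' M' D : ℝ} (hL : 0 < L) (hM : 0 < M) (hL' : 0 < L') (hM' : 0 < M')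
    (hD : |L - L'| + |M - M'| ≤ D) : |L / (L + M) - L' / (L' + M')| ≤ D / (L' + M') := by
  have e : L / (L + M) - L' / (L' + M') =
      (L * (M' - M) + M * (L - L')) / ((L + M) * (L' + M')) := by
    field_simp; ring
  rw [e, abs_div, abs_of_pos (by positivity : 0 < (L + M) * (L' + M')),
    div_le_div_iff₀ (by positivity) (by positivity)]
  have h1 : |L * (M' - M) + M * (L - L')| ≤ (L + M) * D := by
    calc |L * (M' - M) + M * (L - L')| ≤ |L * (M' - M)| + |M * (L - L')| := abs_add_le _ _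
      _ = L * |M - M'| + M * |L - L'| := by
        rw [abs_mul, abs_mul, abs_of_pos hL, abs_of_pos hM, abs_sub_comm M' M]
      _ ≤ L * D + M * D := by
        have := abs_nonneg (L - L')
        have := abs_nonneg (M - M')
        gcongr <;> linarith
      _ = (L + M) * D := by ring
  calc |L * (M' - M) + M * (L - L')| * (L' + M') ≤ ((L + M) * D) * (L' + M') :=
        mul_le_mul_of_nonneg_right h1 (by positivity)
    _ = D * ((L + M) * (L' + M')) := by ring

theorem sqrt_le_lin {η z : ℝ} (hη : 0 < η) (hz : 0 ≤ z) : Real.sqrt z ≤ η * z + 1 / (4 * η) := by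
  have h1 : 0 ≤ (Real.sqrt z * η - 1 / 2) ^ 2 := sq_nonneg _
  have h2 : Real.sqrt z ^ 2 = z := Real.sq_sqrt hz
  have h3 : Real.sqrt z * η ≤ z * η ^ 2 + 1 / 4 := by nlinarith
  have h4 : η * z + 1 / (4 * η) = (z * η ^ 2 + 1 / 4) / η := by field_simp
  rw [h4, le_div_iff₀ hη]
  exact h3

end real

section

variable {E : Type} [NormedAddCommGroup E] [NormedSpace ℝ E] {V : Type} (t : RTree V)

/-- the coordinates of the compactification -/
noncomputable def Psi (a : ℝ) (x : E) (y : V → ℝ) : ℝ × E × (ℝ × ℝ) := (a, a • x, (1 - a) • t.ze y)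

theorem Psi_cont : Continuous (fun w : ℝ × E × (V → ℝ) => Psi t w.1 w.2.1 w.2.2) := by
  unfold Psi
  refine continuous_fst.prodMk (Continuous.prodMk ?_ ?_)
  · exact continuous_fst.smul (continuous_fst.comp continuous_snd)
  · exact (continuous_const.sub continuous_fst).smul
      (t.ze_cont.comp (continuous_snd.comp continuous_snd))

theorem Psi_dist {a a' : ℝ} {x x' : E} {y y' : V → ℝ} {B ε : ℝ} (hε : 0 < ε) (ha : 0 ≤ a)
    (ha1 : a ≤ 1) (hx : ‖x'‖ ≤ B) (hy : ‖t.ze y'‖ ≤ B) (hB : 1 ≤ B)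
    (h1 : |a - a'| * B < ε / 2) (h2 : a * ‖x - x'‖ < ε / 2)
    (h3 : (1 - a) * ‖t.ze y - t.ze y'‖ < ε / 2) :
    dist (Psi t a x y) (Psi t a' x' y') < ε := by
  have h0 : |a - a'| < ε := by
    have := abs_nonneg (a - a')
    nlinarith
  rw [Prod.dist_eq]
  apply max_lt
  · rw [Real.dist_eq]; exact h0
  · rw [Prod.dist_eq]
    apply max_lt
    · show dist (a • x) (a' • x') < ε
      rw [dist_eq_norm]
      have e : a • x - a' • x' = (a - a') • x' + a • (x - x') := by
        rw [sub_smul, smul_sub]; abel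
      rw [e]
      calc ‖(a - a') • x' + a • (x - x')‖ ≤ ‖(a - a') • x'‖ + ‖a • (x - x')‖ := norm_add_le _ _
        _ = |a - a'| * ‖x'‖ + a * ‖x - x'‖ := by
          rw [norm_smul, norm_smul, Real.norm_eq_abs, Real.norm_of_nonneg ha]
        _ ≤ |a - a'| * B + a * ‖x - x'‖ := by
          gcongr
        _ < ε := by linarith
    · show dist ((1 - a) • t.ze y) ((1 - a') • t.ze y') < ε
      rw [dist_eq_norm]
      have e : (1 - a) • t.ze y - (1 - a') • t.ze y' =
          (a' - a) • t.ze y' + (1 - a) • (t.ze y - t.ze y') := by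
        module
      rw [e]
      calc ‖(a' - a) • t.ze y' + (1 - a) • (t.ze y - t.ze y')‖
          ≤ ‖(a' - a) • t.ze y'‖ + ‖(1 - a) • (t.ze y - t.ze y')‖ := norm_add_le _ _
        _ = |a - a'| * ‖t.ze y'‖ + (1 - a) * ‖t.ze y - t.ze y'‖ := by
          rw [norm_smul, norm_smul, Real.norm_eq_abs, Real.norm_of_nonneg (by linarith),
            abs_sub_comm]
        _ ≤ |a - a'| * B + (1 - a) * ‖t.ze y - t.ze y'‖ := by
          gcongr
        _ < ε := by linarith

theorem exists_bound {S : Set E} (hS : IsCompact S) : ∃ B : ℝ, 1 ≤ B ∧ (∀ x ∈ S, ‖x‖ ≤ B) ∧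
    ∀ y ∈ t.That, ‖t.ze y‖ ≤ B := by
  obtain ⟨B1, hB1⟩ := hS.isBounded.exists_norm_le
  obtain ⟨B2, hB2⟩ := (t.That_compact.image t.ze_cont).isBounded.exists_norm_le
  refine ⟨max 1 (max B1 B2), le_max_left _ _, fun x hx => ?_, fun y hy => ?_⟩
  · exact (hB1 x hx).trans ((le_max_left _ _).trans (le_max_right _ _))
  · exact (hB2 _ ⟨y, hy, rfl⟩).trans ((le_max_right _ _).trans (le_max_right _ _))

end

section

variable {E : Type} [NormedAddCommGroup E] [NormedSpace ℝ E] {V : Type} {t : RTree V}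
  {S : Set E} {p : E → ℝ} {R : ℕ → E → E → Prop} {x0 : E} {P : E → ℝ} {τ : E × ℝ → E}

theorem P_small (hL : Lev S p R x0 P τ) (hS : IsCompact S) (hp : Continuous p) {δ : ℝ}
    (hδ : 0 < δ) : ∃ δ1 > 0, ∀ x ∈ S, P x < δ1 → p x < δ := by
  obtain ⟨δ1, h1, h2⟩ := exists_pos_lower (hS.inter_right (isClosed_le continuous_const hp))
    (f := P) hL.pcont.continuousOn (fun x hx => (hL.pos_iff x).mpr (hδ.trans_le hx.2))
  refine ⟨δ1, h1, fun x hx hx1 => ?_⟩
  by_contra h
  exact absurd hx1 (not_lt.mpr (h2 x ⟨hx, not_lt.mp h⟩))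

/-- related points of small level are close -/
theorem rel_est (hL : Lev S p R x0 P τ) (hS : IsCompact S) (hp : Continuous p)
    (hR : Ctl p R) (m : ℕ) {ε : ℝ} (hε : 0 < ε) :
    ∃ δ > 0, ∀ x ∈ S, ∀ x' ∈ S, ∀ y y' : V → ℝ, 0 < P x → 0 < P x' → t.Near m y y' →
      R ⌊1 / t.Q y + m⌋₊ x x' → kk (P x) (t.Q y) < δ →
      dist (Psi t (aa (P x) (t.Q y)) x y) (Psi t (aa (P x') (t.Q y')) x' y') < ε ∧
      kk (P x') (t.Q y') < ε := by
  obtain ⟨B, hB1, hBx, hBy⟩ := exists_bound t hS
  have hB0 : 0 < B := by linarith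
  -- constants
  set η : ℝ := min (1 / 8) (ε / (32 * B)) with hη
  have hη0 : 0 < η := lt_min (by norm_num) (by positivity)
  have hη1 : η ≤ 1 / 8 := min_le_left _ _
  have hη2 : η * B ≤ ε / 32 := by
    calc η * B ≤ (ε / (32 * B)) * B := mul_le_mul_of_nonneg_right (min_le_right _ _) hB0.le
      _ = ε / 32 := by field_simp
  set C : ℝ := η * m + 1 / (4 * η) + m + 4 with hC
  have hm0 : (0 : ℝ) ≤ m := Nat.cast_nonneg m
  have hC0 : 0 < C := by positivity
  set M0 : ℝ := 4 / ε + C / η + 1 with hM0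
  have hM00 : 0 < M0 := by positivity
  obtain ⟨δn, hδn, hnear⟩ := t.near_close m (show (0 : ℝ) < ε / 2 by positivity)
  set M1 : ℝ := 1 / δn + 1 with hM1
  have hM10 : 0 < M1 := by positivity
  obtain ⟨δ0, hδ0, hsm⟩ := hR.small ⌊M0 + m⌋₊ (ε / 2) (by positivity)
  obtain ⟨δ1, hδ1, hP1⟩ := P_small hL hS hp hδ0
  set N0 : ℝ := C / η + 4 * B * M1 / ε + (M0 + 1 / δ1) + 2 / ε + 1 with hN0
  have hN00 : 0 < N0 := by positivity
  refine ⟨1 / N0, by positivity, ?_⟩
  intro x hx x' hx' y y' hPx hPx' hn hRn hκ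
  have hQy : 0 < t.Q y := by
    obtain ⟨v, v', h1, h2, h3⟩ := hn
    exact RTree.cell_Q_pos h1
  have hQy' : 0 < t.Q y' := by
    obtain ⟨v, v', h1, h2, h3⟩ := hn
    exact RTree.cell_Q_pos h2
  have hymem : y ∈ t.That := by obtain ⟨v, v', h1, h2, h3⟩ := hn; exact h1.1
  have hymem' : y' ∈ t.That := by obtain ⟨v, v', h1, h2, h3⟩ := hn; exact h2.1
  set L := 1 / P x with hLdef
  set M := 1 / t.Q y with hMdef
  set L' := 1 / P x' with hLdef'
  set M' := 1 / t.Q y' with hMdef'
  have hL0 : 0 < L := by positivity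
  have hM0' : 0 < M := by positivity
  have hL0' : 0 < L' := by positivity
  have hM0'' : 0 < M' := by positivity
  set N := L + M with hNdef
  have hNN : N0 < N := by
    have h1 := kk_inv hPx hQy
    have h2 : 0 < kk (P x) (t.Q y) := kk_pos hPx hQy
    rw [lt_div_iff₀ hN00] at hκ
    have : N0 < 1 / kk (P x) (t.Q y) := by
      rw [lt_div_iff₀ h2]; linarith
    rw [h1] at this
    exact this
  set n := ⌊M + m⌋₊ with hndef
  have hnle : (n : ℝ) ≤ M + m := Nat.floor_le (by positivity)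
  have hnlt : M + m < n + 1 := Nat.lt_floor_add_one _
  have hM'1 : |M - M'| ≤ m + 1 := by
    have h1 := hn.inv_le
    have h2 := hn.symm.inv_le
    rw [abs_le]; constructor <;> linarith
  have hp : 0 < p x := (hL.pos_iff x).mp hPx
  have hp' : 0 < p x' := (hL.pos_iff x').mp hPx'
  have hL'1 : |L - L'| ≤ Real.sqrt n + 3 := by
    have h1 := hL.r1 n x x' hRn hp
    have h2 := hL.r1 n x' x (hR.symm _ _ _ hRn) hp'
    have h3 := Real.sqrt_nonneg (n : ℝ)
    rw [abs_le]
    constructor
    · rcases max_cases (1 / P x) (Real.sqrt n) with ⟨h4, _⟩ | ⟨h4, _⟩ <;> rw [h4] at h1 <;> linarith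
    · rcases max_cases (1 / P x') (Real.sqrt n) with ⟨h4, _⟩ | ⟨h4, _⟩ <;> rw [h4] at h2 <;> linarith
  have hsq : Real.sqrt n ≤ η * (M + m) + 1 / (4 * η) := by
    calc Real.sqrt n ≤ η * n + 1 / (4 * η) := sqrt_le_lin hη0 (Nat.cast_nonneg n)
      _ ≤ η * (M + m) + 1 / (4 * η) := by gcongr
  have hCN : C ≤ η * N := by
    have h1 : C / η ≤ N := by
      have : 0 ≤ 4 * B * M1 / ε := by positivity
      have : 0 ≤ 1 / δ1 := by positivity
      have : 0 ≤ 2 / ε := by positivity
      linarith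
    rw [div_le_iff₀ hη0] at h1
    linarith
  have hD : |L - L'| + |M - M'| ≤ 2 * η * N := by
    have : η * M ≤ η * N := by
      apply mul_le_mul_of_nonneg_left _ hη0.le
      linarith
    have h5 : |L - L'| + |M - M'| ≤ η * M + C := by
      rw [hC]; linarith
    linarith
  have hN' : N / 2 ≤ L' + M' := by
    have h1 := (abs_le.mp (le_refl |L - L'|)).2
    have h2 := (abs_le.mp (le_refl |M - M'|)).2
    have h3 : 2 * η * N ≤ N / 2 := by nlinarith
    linarith
  have hN'0 : 0 < L' + M' := by positivity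
  have hNpos : 0 < N := by positivity
  have haa : |aa (P x) (t.Q y) - aa (P x') (t.Q y')| ≤ 4 * η := by
    rw [aa_eq hPx hQy, aa_eq hPx' hQy']
    refine (frac_diff hL0 hM0' hL0' hM0'' hD).trans ?_
    rw [div_le_iff₀ hN'0]
    nlinarith
  have ha0 := aa_pos hPx hQy
  have ha1 := aa_lt hPx hQy
  refine ⟨Psi_dist t hε ha0.le ha1.le (hBx x' hx') (hBy y' hymem') hB1 ?_ ?_ ?_, ?_⟩
  · calc |aa (P x) (t.Q y) - aa (P x') (t.Q y')| * B ≤ 4 * η * B :=
        mul_le_mul_of_nonneg_right haa hB0.le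
      _ = 4 * (η * B) := by ring
      _ ≤ 4 * (ε / 32) := by linarith
      _ < ε / 2 := by linarith
  · rcases le_or_gt M0 M with hMM | hMM
    · rcases lt_or_ge (dist x x') (1 / ((n : ℝ) + 1)) with hd | hd
      · have h1 : ‖x - x'‖ < ε / 4 := by
          rw [← dist_eq_norm]
          refine hd.trans_le ?_
          rw [div_le_iff₀ (by positivity)]
          have : 4 / ε ≤ (n : ℝ) + 1 := by
            have : 0 ≤ C / η := by positivity
            linarith
          rw [div_le_iff₀ hε] at this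
          linarith
        calc aa (P x) (t.Q y) * ‖x - x'‖ ≤ 1 * ‖x - x'‖ :=
              mul_le_mul_of_nonneg_right ha1.le (norm_nonneg _)
          _ < ε / 2 := by linarith
      · have h1 := hL.r2 n x x' hRn hd
        have h2 : aa (P x) (t.Q y) ≤ 2 * η := by
          rw [aa_eq hPx hQy, div_le_iff₀ (by positivity)]
          have h3 : C ≤ η * M := by
            have : C / η ≤ M := by
              have : 0 ≤ 4 / ε := by positivity
              linarith
            rw [div_le_iff₀ hη0] at this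
            linarith
          have h4 : 1 / P x ≤ η * (M + m) + 1 / (4 * η) + 3 := by linarith
          have h5 : η * (M + m) + 1 / (4 * η) + 3 ≤ 2 * η * M := by
            rw [hC] at h3; linarith
          have h6 : 0 ≤ 2 * η * (1 / P x) := by positivity
          have h7 : 2 * η * (1 / P x + 1 / t.Q y) = 2 * η * (1 / P x) + 2 * η * M := by
            rw [hMdef]; ring
          rw [h7]
          linarith
        have h3 : ‖x - x'‖ ≤ 2 * B := by
          calc ‖x - x'‖ ≤ ‖x‖ + ‖x'‖ := norm_sub_le _ _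
            _ ≤ 2 * B := by linarith [hBx x hx, hBx x' hx']
        calc aa (P x) (t.Q y) * ‖x - x'‖ ≤ (2 * η) * (2 * B) :=
              mul_le_mul h2 h3 (norm_nonneg _) (by positivity)
          _ = 4 * (η * B) := by ring
          _ ≤ 4 * (ε / 32) := by linarith
          _ < ε / 2 := by linarith
    · have h1 : n ≤ ⌊M0 + m⌋₊ := Nat.floor_le_floor (by linarith)
      have h2 := hR.mono _ _ h1 _ _ hRn
      have h3 : P x < δ1 := by
        have h4 : M0 + 1 / δ1 < N := by
          have : 0 ≤ C / η := by positivity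
          have : 0 ≤ 4 * B * M1 / ε := by positivity
          have : 0 ≤ 2 / ε := by positivity
          linarith
        have h5 : 1 / δ1 < 1 / P x := by
          have : N = L + M := rfl
          linarith
        rw [one_div_lt_one_div hδ1 hPx] at h5
        exact h5
      have h4 := hsm x x' h2 (hP1 x hx h3)
      rw [dist_eq_norm] at h4
      calc aa (P x) (t.Q y) * ‖x - x'‖ ≤ 1 * ‖x - x'‖ :=
            mul_le_mul_of_nonneg_right ha1.le (norm_nonneg _)
        _ < ε / 2 := by linarith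
  · rcases le_or_gt M1 M with hMM | hMM
    · have h1 : t.Q y < δn := by
        have : 1 / δn < 1 / t.Q y := by linarith
        rwa [one_div_lt_one_div hδn hQy] at this
      have h2 := hnear y y' hn h1
      rw [dist_eq_norm] at h2
      calc (1 - aa (P x) (t.Q y)) * ‖t.ze y - t.ze y'‖ ≤ 1 * ‖t.ze y - t.ze y'‖ :=
            mul_le_mul_of_nonneg_right (by linarith) (norm_nonneg _)
        _ < ε / 2 := by linarith
    · have h3 : ‖t.ze y - t.ze y'‖ ≤ 2 * B := by
        calc ‖t.ze y - t.ze y'‖ ≤ ‖t.ze y‖ + ‖t.ze y'‖ := norm_sub_le _ _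
          _ ≤ 2 * B := by linarith [hBy y hymem, hBy y' hymem']
      have h4 : 1 - aa (P x) (t.Q y) ≤ M1 / N := by
        rw [one_sub_aa hPx hQy]
        exact div_le_div_of_nonneg_right hMM.le hNpos.le
      have h5 : M1 / N * (2 * B) < ε / 2 := by
        have h6 : 4 * B * M1 / ε < N := by
          have : 0 ≤ C / η := by positivity
          have : 0 ≤ 1 / δ1 := by positivity
          have : 0 ≤ 2 / ε := by positivity
          linarith
        rw [div_lt_iff₀ hε] at h6
        rw [div_mul_eq_mul_div, div_lt_iff₀ hNpos]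
        linarith
      calc (1 - aa (P x) (t.Q y)) * ‖t.ze y - t.ze y'‖ ≤ (M1 / N) * (2 * B) :=
            mul_le_mul h4 h3 (norm_nonneg _) (by positivity)
        _ < ε / 2 := h5
  · rw [kk_eq hPx' hQy']
    have h1 : 2 / ε < N := by
      have : 0 ≤ C / η := by positivity
      have : 0 ≤ 4 * B * M1 / ε := by positivity
      have : 0 ≤ 1 / δ1 := by positivity
      linarith
    rw [div_lt_iff₀ hε] at h1
    rw [div_lt_iff₀ hN'0]
    nlinarith

end

end Run7.h241
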