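import Mathlib
import Pool.Agent.Run7.h241.Est

set_option autoImplicit false

namespace Run7.h241

open Filter Topology

theorem lev_gen {P c a r : ℝ} {f : ℝ → ℝ} (hP0 : 0 ≤ P) (hP1 : P ≤ 1) (hc : 0 ≤ c)
    (hf : ∀ s, 0 < s → s ≤ 1 → |1 / f s - 1 / max P s| ≤ c) (hf0 : f 0 = P) (ha : 0 ≤ a)
    (hr : 0 ≤ r) (h : 0 < r ∨ 0 < a * P) : |1 / f (r / max a r) - a / max (a * P) r| ≤ c + 1 := by
  rcases eq_or_lt_of_le hr with hr0 | hr0
  · subst hr0
    have h1 : 0 < a * P := h.resolve_left (lt_irrefl _)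
    have ha0 : 0 < a := by
      rcases eq_or_lt_of_le ha with h2 | h2
      · rw [← h2, zero_mul] at h1; exact absurd h1 (lt_irrefl _)
      · exact h2
    have hPp : 0 < P := by
      rcases eq_or_lt_of_le hP0 with h2 | h2
      · rw [← h2, mul_zero] at h1; exact absurd h1 (lt_irrefl _)
      · exact h2
    rw [zero_div, hf0, max_eq_left h1.le]
    have : 1 / P - a / (a * P) = 0 := by field_simp; ring
    rw [this, abs_zero]; linarith
  · rcases le_or_gt r a with hra | hra
    · have ha0 : 0 < a := hr0.trans_le hra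
      rw [max_eq_left hra]
      have h1 : 0 < r / a := div_pos hr0 ha0
      have h2 : r / a ≤ 1 := by rw [div_le_one ha0]; exact hra
      have h3 : 1 / max P (r / a) = a / max (a * P) r := by
        have : max (a * P) r = a * max P (r / a) := by
          rw [mul_max_of_nonneg _ _ ha0.le]
          congr 1
          field_simp
        rw [this]
        have h4 : 0 < max P (r / a) := lt_max_of_lt_right h1
        field_simp
      have h5 := hf _ h1 h2
      rw [h3] at h5
      linarith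
    · rw [max_eq_right hra.le, div_self hr0.ne']
      have h5 := hf 1 one_pos le_rfl
      rw [max_eq_right hP1] at h5
      have h6 : 0 < max (a * P) r := lt_max_of_lt_right hr0
      have h7 : a / max (a * P) r ≤ 1 := by
        rw [div_le_one h6]
        exact hra.le.trans (le_max_right _ _)
      have h8 : 0 ≤ a / max (a * P) r := div_nonneg ha h6.le
      have h9 := abs_le.mp h5
      rw [abs_le]
      constructor <;> linarith [h9.1, h9.2]

namespace RTree

variable {V : Type} {t : RTree V}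

theorem Q_tr_inv {y : V → ℝ} (hy : y ∈ t.That) {s : ℝ} (h0 : 0 < s) (h1 : s ≤ 1) :
    |1 / t.Q (t.tr (y, s)) - 1 / max (t.Q y) s| ≤ 0 := by
  rw [Q_tr hy h0.le h1, sub_self, abs_zero]

theorem ze_tr_close {ε : ℝ} (hε : 0 < ε) : ∃ η > 0, ∀ y ∈ t.That, ∀ s, 0 ≤ s → s < η →
    dist (t.ze (t.tr (y, s))) (t.ze y) < ε := by
  obtain ⟨N, hN⟩ : ∃ N : ℕ, (3 / 2 : ℝ) * (1 / 3) ^ N < ε := by
    have h1 : Tendsto (fun n : ℕ => (3 / 2 : ℝ) * (1 / 3) ^ n) atTop (𝓝 ((3 / 2) * 0)) :=
      (tendsto_pow_atTop_nhds_zero_of_lt_one (by norm_num) (by norm_num)).const_mul _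
    rw [mul_zero] at h1
    exact ((tendsto_order.1 h1).2 ε hε).exists
  refine ⟨min ε (hm N), lt_min hε (hm_pos N), ?_⟩
  intro y hy s hs0 hs
  have hs1 : s < ε := hs.trans_le (min_le_left _ _)
  have hs2 : s ≤ hm N := hs.le.trans (min_le_right _ _)
  have hs3 : s ≤ 1 := hs2.trans ((hm_anti.antitone (Nat.zero_le N)).trans_eq hm_zero)
  rw [Prod.dist_eq]
  apply max_lt
  · show dist (t.Q (t.tr (y, s))) (t.Q y) < ε
    rw [Q_tr hy hs0 hs3, Real.dist_eq, abs_of_nonneg (sub_nonneg.mpr (le_max_left _ _))]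
    rcases max_cases (t.Q y) s with ⟨h, _⟩ | ⟨h, _⟩
    · rw [h, sub_self]; exact hε
    · rw [h]; linarith [t.Q_nonneg y]
  · show dist (t.kap (t.tr (y, s))) (t.kap y) < ε
    rw [Real.dist_eq]
    refine lt_of_le_of_lt (kap_close (m := N) ?_) hN
    intro u hu
    show min (y u) (cut (t.dep u) s) = y u
    rw [cut_of_le (hs2.trans (hm_anti.antitone hu.le))]
    exact min_eq_left (hy.1 u).2

end RTree

section

variable {E : Type} [NormedAddCommGroup E] [NormedSpace ℝ E] {V : Type} {t : RTree V}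
  {S : Set E} {p : E → ℝ} {R : ℕ → E → E → Prop} {x0 : E} {P : E → ℝ} {τ : E × ℝ → E}

theorem tau_close (hL : Lev S p R x0 P τ) (hS : IsCompact S) {ε : ℝ} (hε : 0 < ε) :
    ∃ η > 0, ∀ x ∈ S, ∀ s, 0 ≤ s → s < η → dist (τ (x, s)) x < ε := by
  have hK : IsCompact (S ×ˢ Set.Icc (0 : ℝ) 1) := hS.prod isCompact_Icc
  have hu := hK.uniformContinuousOn_of_continuous hL.tcont.continuousOn
  rw [Metric.uniformContinuousOn_iff] at hu
  obtain ⟨η, hη, h⟩ := hu ε hε
  refine ⟨min η 1, lt_min hη one_pos, fun x hx s hs hs' => ?_⟩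
  have h1 : s < η := hs'.trans_le (min_le_left _ _)
  have h2 : s ≤ 1 := hs'.le.trans (min_le_right _ _)
  have := h (x, s) ⟨hx, hs, h2⟩ (x, 0) ⟨hx, le_rfl, zero_le_one⟩ (by
    rw [Prod.dist_eq, dist_self, Real.dist_eq, sub_zero, abs_of_nonneg hs]
    exact max_lt hη h1)
  rwa [hL.id x hx 0 le_rfl] at this

/-- the pushed point has positive level -/
theorem push_pos (hL : Lev S p R x0 P τ) {a r : ℝ} {x : E} {y : V → ℝ} (hx : x ∈ S)
    (hy : y ∈ t.That) (ha : 0 ≤ a) (ha1 : a ≤ 1) (he : a * P x = (1 - a) * t.Q y) (hr : 0 ≤ r)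
    (h : 0 < r ∨ 0 < a * P x) :
    0 < P (τ (x, r / max a r)) ∧ 0 < t.Q (t.tr (y, r / max (1 - a) r)) ∧
      t.tr (y, r / max (1 - a) r) ∈ t.That := by
  refine ⟨?_, ?_, RTree.tr_mem hy _⟩
  · rcases eq_or_lt_of_le hr with hr0 | hr0
    · rw [← hr0, zero_div, hL.id x hx 0 le_rfl]
      have h1 : 0 < a * P x := h.resolve_left (by rw [← hr0]; exact lt_irrefl _)
      rcases eq_or_lt_of_le (hL.p0 x) with h2 | h2
      · rw [← h2, mul_zero] at h1; exact absurd h1 (lt_irrefl _)
      · exact h2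
    · apply hL.tpos
      exact div_pos hr0 (lt_max_of_lt_right hr0)
  · rcases eq_or_lt_of_le hr with hr0 | hr0
    · rw [← hr0, zero_div, RTree.tr_id hy le_rfl]
      have h1 : 0 < (1 - a) * t.Q y := by
        rw [← he]; exact h.resolve_left (by rw [← hr0]; exact lt_irrefl _)
      rcases eq_or_lt_of_le (t.Q_nonneg y) with h2 | h2
      · rw [← h2, mul_zero] at h1; exact absurd h1 (lt_irrefl _)
      · exact h2
    · have h1 : 0 < max (1 - a) r := lt_max_of_lt_right hr0
      have h2 : 0 < r / max (1 - a) r := div_pos hr0 h1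
      rw [RTree.Q_tr hy h2.le (by rw [div_le_one h1]; exact le_max_right _ _)]
      exact lt_max_of_lt_right h2

theorem push_est (hL : Lev S p R x0 P τ) (hS : IsCompact S) {ε : ℝ} (hε : 0 < ε) :
    ∃ δ > 0, ∀ (a : ℝ) (x : E) (y : V → ℝ) (r : ℝ), x ∈ S → y ∈ t.That → 0 ≤ a → a ≤ 1 →
      a * P x = (1 - a) * t.Q y → 0 ≤ r → r < δ → a * P x < δ → (0 < r ∨ 0 < a * P x) →
      dist (Psi t a x y) (Psi t (aa (P (τ (x, r / max a r))) (t.Q (t.tr (y, r / max (1 - a) r))))
        (τ (x, r / max a r)) (t.tr (y, r / max (1 - a) r))) < ε ∧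
      kk (P (τ (x, r / max a r))) (t.Q (t.tr (y, r / max (1 - a) r))) < ε := by
  obtain ⟨B, hB1, hBx, hBy⟩ := exists_bound t hS
  have hB0 : 0 < B := by linarith
  obtain ⟨η1, hη1, hτ⟩ := tau_close hL hS (show (0 : ℝ) < ε / 2 by positivity)
  obtain ⟨η2, hη2, hz⟩ := t.ze_tr_close (show (0 : ℝ) < ε / 2 by positivity)
  set e : ℝ := ε / (8 * B) with he
  have he0 : 0 < e := by positivity
  have heB : e * B = ε / 8 := by rw [he]; field_simp
  set N0 : ℝ := 5 + 5 / e + 1 / ε + 1 / (e * η1) + 1 / (e * η2) + 1 with hN0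
  have hN00 : 0 < N0 := by positivity
  refine ⟨1 / N0, by positivity, ?_⟩
  intro a x y r hx hy ha ha1 hae hr hrδ hκδ hpos
  obtain ⟨hP', hQ', hy'⟩ := push_pos hL hx hy ha ha1 hae hr hpos
  set x' := τ (x, r / max a r) with hx'
  set y' := t.tr (y, r / max (1 - a) r) with hy'def
  have hx'S : x' ∈ S := hL.mem _
  set κ := a * P x with hκ
  have hm0 : 0 < max κ r := by
    rcases hpos with h | h
    · exact lt_max_of_lt_right h
    · exact lt_max_of_lt_left h
  set N := 1 / max κ r with hN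
  have hNN : N0 < N := by
    rw [hN, lt_div_iff₀ hm0]
    rcases max_cases κ r with ⟨h1, _⟩ | ⟨h1, _⟩
    · rw [h1]; rw [lt_div_iff₀ hN00] at hκδ; linarith
    · rw [h1]; rw [lt_div_iff₀ hN00] at hrδ; linarith
  have e1 : |1 / P x' - a * N| ≤ 4 := by
    have := lev_gen (f := fun s => P (τ (x, s))) (c := 3) (hL.p0 x) (hL.p1 x) (by norm_num)
      (fun s h0 h1 => hL.est x hx s h0 h1) (by
        show P (τ (x, 0)) = P x
        rw [hL.id x hx 0 le_rfl]) ha hr hpos
    rw [hN, mul_one_div]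
    linarith
  have e2 : |1 / t.Q y' - (1 - a) * N| ≤ 1 := by
    have := lev_gen (f := fun s => t.Q (t.tr (y, s))) (c := 0) (t.Q_nonneg y) (t.Q_le_one y)
      le_rfl (fun s h0 h1 => RTree.Q_tr_inv hy h0 h1) (by
        show t.Q (t.tr (y, 0)) = t.Q y
        rw [RTree.tr_id hy le_rfl]) (a := 1 - a) (by linarith) hr (by rw [← hae]; exact hpos)
    rw [← hae] at this
    rw [hN, mul_one_div]
    linarith
  set L' := 1 / P x' with hL'
  set M' := 1 / t.Q y' with hM'
  have hL'0 : 0 < L' := by positivity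
  have hM'0 : 0 < M' := by positivity
  have f1 := abs_le.mp e1
  have f2 := abs_le.mp e2
  have hsum : N - 5 ≤ L' + M' := by linarith [f1.1, f2.1]
  have hbig : 5 / e + 1 / ε < L' + M' := by
    have : 0 < 1 / (e * η1) := by positivity
    have : 0 < 1 / (e * η2) := by positivity
    linarith
  have haa : |a - aa (P x') (t.Q y')| ≤ e := by
    rw [aa_eq hP' hQ']
    have h1 : a - L' / (L' + M') = (a * (M' - (1 - a) * N) - (1 - a) * (L' - a * N)) / (L' + M') := by
      field_simp; ring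
    rw [h1, abs_div, abs_of_pos (by positivity : 0 < L' + M'), div_le_iff₀ (by positivity)]
    have h2 : |a * (M' - (1 - a) * N) - (1 - a) * (L' - a * N)| ≤ 5 := by
      calc |a * (M' - (1 - a) * N) - (1 - a) * (L' - a * N)|
          ≤ |a * (M' - (1 - a) * N)| + |(1 - a) * (L' - a * N)| := abs_sub _ _
        _ = a * |M' - (1 - a) * N| + (1 - a) * |L' - a * N| := by
          rw [abs_mul, abs_mul, abs_of_nonneg ha, abs_of_nonneg (by linarith : 0 ≤ 1 - a)]
        _ ≤ 1 * 1 + 1 * 4 := by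
          gcongr
          · linarith
        _ = 5 := by norm_num
    have h3 : 5 ≤ e * (L' + M') := by
      have : 5 / e ≤ L' + M' := by
        have : 0 < 1 / ε := by positivity
        linarith
      rw [div_le_iff₀ he0] at this
      linarith
    linarith
  -- small time
  have htime : ∀ b η, 0 < η → e < b → 1 / (e * η) < N → r / max b r < η := by
    intro b η hη hb hNη
    have hb0 : 0 < b := he0.trans hb
    have h1 : r < e * η := by
      have h2 : 1 / (e * η) < 1 / max κ r := hNη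
      rw [one_div_lt_one_div (by positivity) hm0] at h2
      exact (le_max_right _ _).trans_lt h2
    rw [div_lt_iff₀ (lt_max_of_lt_left hb0)]
    calc r < e * η := h1
      _ ≤ η * max b r := by
        rw [mul_comm]
        exact mul_le_mul_of_nonneg_left (hb.le.trans (le_max_left _ _)) hη.le
  have hrn : ∀ b, 0 ≤ r / max b r := fun b => div_nonneg hr (hr.trans (le_max_right _ _))
  refine ⟨Psi_dist t hε ha ha1 (hBx x' hx'S) (hBy y' hy') hB1 ?_ ?_ ?_, ?_⟩
  · calc |a - aa (P x') (t.Q y')| * B ≤ e * B := mul_le_mul_of_nonneg_right haa hB0.le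
      _ = ε / 8 := heB
      _ < ε / 2 := by linarith
  · rcases le_or_gt a e with h | h
    · calc a * ‖x - x'‖ ≤ e * (2 * B) := by
            apply mul_le_mul h _ (norm_nonneg _) he0.le
            calc ‖x - x'‖ ≤ ‖x‖ + ‖x'‖ := norm_sub_le _ _
              _ ≤ 2 * B := by linarith [hBx x hx, hBx x' hx'S]
        _ = 2 * (e * B) := by ring
        _ = ε / 4 := by rw [heB]; ring
        _ < ε / 2 := by linarith
    · have h1 := htime a η1 hη1 h (by
        have : 0 < 1 / ε := by positivity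
        have : 0 < 5 / e := by positivity
        have : 0 < 1 / (e * η2) := by positivity
        linarith)
      have h2 := hτ x hx _ (hrn a) h1
      rw [dist_comm, dist_eq_norm] at h2
      calc a * ‖x - x'‖ ≤ 1 * ‖x - x'‖ := mul_le_mul_of_nonneg_right ha1 (norm_nonneg _)
        _ < ε / 2 := by rw [one_mul]; exact h2
  · rcases le_or_gt (1 - a) e with h | h
    · calc (1 - a) * ‖t.ze y - t.ze y'‖ ≤ e * (2 * B) := by
            apply mul_le_mul h _ (norm_nonneg _) he0.le
            calc ‖t.ze y - t.ze y'‖ ≤ ‖t.ze y‖ + ‖t.ze y'‖ := norm_sub_le _ _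
              _ ≤ 2 * B := by linarith [hBy y hy, hBy y' hy']
        _ = 2 * (e * B) := by ring
        _ = ε / 4 := by rw [heB]; ring
        _ < ε / 2 := by linarith
    · have h1 := htime (1 - a) η2 hη2 h (by
        have : 0 < 1 / ε := by positivity
        have : 0 < 5 / e := by positivity
        have : 0 < 1 / (e * η1) := by positivity
        linarith)
      have h2 := hz y hy _ (hrn (1 - a)) h1
      rw [dist_comm, dist_eq_norm] at h2
      calc (1 - a) * ‖t.ze y - t.ze y'‖ ≤ 1 * ‖t.ze y - t.ze y'‖ :=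
            mul_le_mul_of_nonneg_right (by linarith) (norm_nonneg _)
        _ < ε / 2 := by rw [one_mul]; exact h2
  · rw [kk_eq hP' hQ']
    have h1 : 1 / ε < L' + M' := by
      have : 0 < 5 / e := by positivity
      linarith
    rw [div_lt_iff₀ hε] at h1
    rw [div_lt_iff₀ (by positivity)]
    linarith

end

end Run7.h241
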