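import Mathlib
import Pool.Agent.Run7.h241.TreeC
import Pool.Agent.Run7.h241.AEx

set_option autoImplicit false

namespace Run7.h241

open Filter Topology H30

namespace RTree

variable {V : Type} {t : RTree V}

variable (t) in
/-- finite subtrees -/
def TS (S : Finset V) : Set (V → ℝ) := {c | c ∈ t.That ∧ ∀ v, v ∉ S → c v = 0}

theorem anc_mem {S : Finset V} (hS : ∀ v ∈ S, t.par v ∈ S) {v : V} (hv : v ∈ S) (k : ℕ) :
    t.par^[k] v ∈ S := by
  induction k with
  | zero => exact hv
  | succ k ih => rw [Function.iterate_succ_apply']; exact hS _ ih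

theorem cell_sub [DecidableEq V] {S : Finset V} (hS : ∀ v ∈ S, t.par v ∈ S) {v : V}
    (hp : t.par v ∈ S) : t.cell v ⊆ t.TS (insert v S) := by
  intro c hc
  refine ⟨hc.1, fun u hu => ?_⟩
  rw [Finset.mem_insert, not_or] at hu
  rw [cell_apply hc hu.1]
  apply if_neg
  rintro ⟨k, hk⟩
  exact hu.2 (hk ▸ anc_mem hS hp k)

theorem TS_insert [DecidableEq V] {S : Finset V} (hS : ∀ v ∈ S, t.par v ∈ S) {v : V} (hv : v ∉ S)
    (hvr : v ≠ t.root) (hp : t.par v ∈ S) : t.TS (insert v S) = t.TS S ∪ t.cell v := by
  apply Set.Subset.antisymm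
  · rintro c ⟨hc, hc1⟩
    by_cases h0 : c v = 0
    · left
      refine ⟨hc, fun u hu => ?_⟩
      by_cases huv : u = v
      · rw [huv]; exact h0
      · exact hc1 u (by rw [Finset.mem_insert, not_or]; exact ⟨huv, hu⟩)
    · right
      refine ⟨hc, (hc.2.2.1 v hvr).resolve_left h0, fun u hu huv => ?_⟩
      by_contra hcu
      have huS : u ∈ S := by
        by_contra h1
        exact hcu (hc1 u (by rw [Finset.mem_insert, not_or]; exact ⟨huv, h1⟩))
      rcases eq_or_lt_of_le hu with h1 | h1
      · rcases hc.2.2.2 u v h1.symm huv with h2 | h2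
        · exact hcu h2
        · exact h0 h2
      · have hur : u ≠ t.root := by rintro rfl; rw [t.dep_root] at h1; omega
        have h2 : c (t.par u) = 1 := (hc.2.2.1 u hur).resolve_left hcu
        have h3 := anc_one hc h2 (t.dep (t.par u) - t.dep v)
        have h4 : t.dep (t.par^[t.dep (t.par u) - t.dep v] (t.par u)) = t.dep v := by
          rw [dep_anc]
          have := t.dep_par u hur
          omega
        have h5 : t.par^[t.dep (t.par u) - t.dep v] (t.par u) = v := by
          by_contra h6
          rcases hc.2.2.2 _ v h4 h6 with h7 | h7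
          · rw [h3] at h7; norm_num at h7
          · exact h0 h7
        apply hv
        rw [← h5]
        exact anc_mem hS (hS u huS) _
  · rintro c (hc | hc)
    · refine ⟨hc.1, fun u hu => hc.2 u ?_⟩
      rw [Finset.mem_insert, not_or] at hu
      exact hu.2
    · exact cell_sub hS hp hc

theorem TS_inter {S : Finset V} (hS : ∀ v ∈ S, t.par v ∈ S) {v : V} (hv : v ∉ S)
    (hvr : v ≠ t.root) (hp : t.par v ∈ S) : t.TS S ∩ t.cell v = {t.vt (t.par v)} := by
  apply Set.Subset.antisymm
  · rintro c ⟨hc, hc1⟩
    exact cell_eq_vt_par hvr hc1 (hc.2 v hv)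
  · rintro c rfl
    refine ⟨⟨vt_mem _, fun u hu => ?_⟩, vt_par_mem_cell v⟩
    apply if_neg
    rintro ⟨k, hk⟩
    exact hu (hk ▸ anc_mem hS hp k)

theorem TS_closed (S : Finset V) : IsClosed (t.TS S) := by
  have : t.TS S = t.That ∩ ⋂ v, {c | v ∉ S → c v = 0} := by
    ext c
    constructor
    · rintro ⟨h1, h2⟩
      exact ⟨h1, Set.mem_iInter.mpr h2⟩
    · rintro ⟨h1, h2⟩
      exact ⟨h1, Set.mem_iInter.mp h2⟩
  rw [this]
  refine t.That_compact.isClosed.inter (isClosed_iInter (fun v => ?_))
  by_cases hv : v ∈ S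
  · have : {c : V → ℝ | v ∉ S → c v = 0} = Set.univ := by ext c; simp [hv]
    rw [this]; exact isClosed_univ
  · have : {c : V → ℝ | v ∉ S → c v = 0} = {c | c v = 0} := by ext c; simp [hv]
    rw [this]; exact isClosed_eq (continuous_apply _) continuous_const

theorem cell_closed (v : V) : IsClosed (t.cell v) := by
  have : t.cell v = t.That ∩ ({c | c (t.par v) = 1} ∩
      ⋂ u, {c | t.dep v ≤ t.dep u → u ≠ v → c u = 0}) := by
    ext c
    simp only [cell, Set.mem_inter_iff, Set.mem_iInter]
    exact Iff.rfl
  rw [this]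
  refine t.That_compact.isClosed.inter ((isClosed_eq (continuous_apply _) continuous_const).inter
    (isClosed_iInter (fun u => ?_)))
  by_cases hu : t.dep v ≤ t.dep u ∧ u ≠ v
  · have : {c : V → ℝ | t.dep v ≤ t.dep u → u ≠ v → c u = 0} = {c | c u = 0} := by
      ext c
      constructor
      · intro h; exact h hu.1 hu.2
      · intro h _ _; exact h
    rw [this]; exact isClosed_eq (continuous_apply _) continuous_const
  · have : {c : V → ℝ | t.dep v ≤ t.dep u → u ≠ v → c u = 0} = Set.univ := by
      ext c
      refine ⟨fun _ => trivial, fun _ h1 h2 => absurd ⟨h1, h2⟩ hu⟩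
    rw [this]; exact isClosed_univ

theorem TS_root [DecidableEq V] : t.TS {t.root} = {t.vt t.root} := by
  apply Set.Subset.antisymm
  · rintro c ⟨hc, hc1⟩
    apply cell_eq_vt (v := t.root) _ hc.2.1
    exact ⟨hc, by rw [t.par_root]; exact hc.2.1, fun u _ hu => hc1 u (by simpa using hu)⟩
  · rintro c rfl
    refine ⟨vt_mem _, fun u hu => ?_⟩
    apply vt_deep
    rw [t.dep_root]
    rcases Nat.eq_zero_or_pos (t.dep u) with h | h
    · exact absurd (t.dep_eq_zero.mp h) (by simpa using hu)
    · exact h

/-- absolute extensors over finite subtrees -/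
theorem ae_TS [DecidableEq V] {X : Type} [TopologicalSpace X] {π : X → V → ℝ}
    (hπ : Continuous π) (h1 : ∀ v, AE (π ⁻¹' {t.vt v}))
    (h2 : ∀ v, v ≠ t.root → AE (π ⁻¹' t.cell v)) :
    ∀ (n : ℕ) (S : Finset V), S.card = n → t.root ∈ S → (∀ v ∈ S, t.par v ∈ S) →
      AE (π ⁻¹' t.TS S) := by
  intro n
  induction n with
  | zero =>
    intro S hS hr
    rw [Finset.card_eq_zero] at hS
    rw [hS] at hr
    exact absurd hr (Finset.notMem_empty _)
  | succ n ih =>
    intro S hS hr hp
    by_cases hS1 : S = {t.root}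
    · rw [hS1, TS_root]
      exact h1 _
    · obtain ⟨v, hv, hmax⟩ := S.exists_max_image t.dep ⟨_, hr⟩
      have hvr : v ≠ t.root := by
        rintro rfl
        apply hS1
        ext u
        rw [Finset.mem_singleton]
        constructor
        · intro hu
          have := hmax u hu
          rw [t.dep_root] at this
          exact t.dep_eq_zero.mp (by omega)
        · rintro rfl; exact hr
      have hpv : t.par v ≠ v := by
        intro h
        have := t.dep_par v hvr
        rw [h] at this; omega
      have e1 : insert v (S.erase v) = S := Finset.insert_erase hv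
      have hp' : ∀ u ∈ S.erase v, t.par u ∈ S.erase v := by
        intro u hu
        rw [Finset.mem_erase] at hu ⊢
        refine ⟨?_, hp u hu.2⟩
        intro h
        by_cases hur : u = t.root
        · rw [hur, t.par_root] at h
          exact hvr h.symm
        · have h3 := t.dep_par u hur
          rw [h] at h3
          have := hmax u hu.2
          omega
      have hpm : t.par v ∈ S.erase v := Finset.mem_erase.mpr ⟨hpv, hp v hv⟩
      have hve : v ∉ S.erase v := Finset.notMem_erase v S
      rw [← e1, TS_insert hp' hve hvr hpm, Set.preimage_union]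
      apply AE.union ((TS_closed _).preimage hπ) ((cell_closed v).preimage hπ)
      · exact ih _ (by rw [Finset.card_erase_of_mem hv, hS]; rfl)
          (Finset.mem_erase.mpr ⟨hvr.symm, hr⟩) hp'
      · exact h2 v hvr
      · rw [← Set.preimage_inter, TS_inter hp' hve hvr hpm]
        exact h1 _

/-- the sublevels of the level function -/
theorem sublevel {c : V → ℝ} (hc : c ∈ t.That) (hQ : 0 < t.Q c) (n : ℕ) :
    1 / t.Q c - 1 ≤ n ↔ ∀ v, n < t.dep v → c v = 0 := by
  have h0 : 1 / t.Q c - 1 ≤ n ↔ hm n ≤ t.Q c := by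
    rw [sub_le_iff_le_add, ← one_div_hm, one_div_le_one_div hQ (hm_pos n)]
  rw [h0]
  constructor
  · intro h
    have h1 : t.s (n + 1) c = 0 := by
      by_contra h2
      exact absurd (Qs_lt (s_isStep hc) h2) (not_lt.mpr h)
    intro v hv
    by_contra h2
    have h3 := s_eq hc h2
    rcases eq_or_lt_of_le (Nat.succ_le_of_lt hv) with h4 | h4
    · rw [← h4, Nat.succ_eq_add_one, h1] at h3
      exact h2 h3.symm
    · have h5 := (s_isStep hc).zero_of_ne (j := n + 1) (by rw [h1]; norm_num) _ h4
      rw [h5] at h3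
      exact h2 h3.symm
  · intro h
    apply Qs_ge (s_isStep hc)
    apply s_zero
    intro v hv
    exact h v (by omega)

/-- the main result on absolute extensors over the tree -/
theorem ae_univ {X : Type} [TopologicalSpace X] {π : X → V → ℝ}
    (hπ : Continuous π) (hm : ∀ x, π x ∈ t.That) (hQ : ∀ x, 0 < t.Q (π x))
    (h1 : ∀ v, AE (π ⁻¹' {t.vt v})) (h2 : ∀ v, v ≠ t.root → AE (π ⁻¹' t.cell v)) :
    AE (Set.univ : Set X) := by
  classical
  have hc : Continuous (fun x => 1 / t.Q (π x) - 1) := by
    apply Continuous.sub _ continuous_const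
    exact Continuous.div continuous_const (t.Q_cont.comp hπ) (fun x => (hQ x).ne')
  apply ae_union _ hc
  intro n
  let S : Finset V := (Finset.range (n + 1)).biUnion t.lv
  have hS : ∀ v, v ∈ S ↔ t.dep v ≤ n := by
    intro v
    simp only [S, Finset.mem_biUnion, Finset.mem_range, t.mem_lv]
    constructor
    · rintro ⟨k, h3, h4⟩; omega
    · intro h; exact ⟨_, by omega, rfl⟩
  have e : {x | 1 / t.Q (π x) - 1 ≤ n} = π ⁻¹' t.TS S := by
    ext x
    show 1 / t.Q (π x) - 1 ≤ n ↔ π x ∈ t.TS S
    rw [sublevel (hm x) (hQ x)]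
    constructor
    · intro h
      exact ⟨hm x, fun v hv => h v (by rw [hS] at hv; omega)⟩
    · intro h v hv
      exact h.2 v (by rw [hS]; omega)
  rw [e]
  apply ae_TS hπ h1 h2 _ S rfl
  · rw [hS, t.dep_root]; omega
  · intro v hv
    rw [hS] at hv ⊢
    rw [t.dep_par']; omega

/-! ### the tree itself -/

theorem update_mem [DecidableEq V] {v : V} (hv : v ≠ t.root) {r : ℝ} (h0 : 0 ≤ r) (h1 : r ≤ 1) :
    Function.update (t.vt (t.par v)) v r ∈ t.cell v := by
  have hpv : t.par v ≠ v := by
    intro h
    have := t.dep_par v hv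
    rw [h] at this; omega
  have hdv := t.dep_par v hv
  have hm := vt_mem (t := t) (t.par v)
  have hz : ∀ u, t.dep v ≤ t.dep u → t.vt (t.par v) u = 0 := fun u hu => vt_deep (by omega)
  refine ⟨⟨?_, ?_, ?_, ?_⟩, ?_, ?_⟩
  · intro u
    by_cases hu : u = v
    · subst hu; rw [Function.update_self]; exact ⟨h0, h1⟩
    · rw [Function.update_of_ne hu]; exact hm.1 u
  · rw [Function.update_of_ne hv.symm]; exact hm.2.1
  · intro u hur
    by_cases hu : u = v
    · right
      subst hu
      rw [Function.update_of_ne hpv, vt_self]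
    · rw [Function.update_of_ne hu]
      by_cases hpu : t.par u = v
      · left
        apply hz
        have := t.dep_par u hur
        rw [hpu] at this; omega
      · rw [Function.update_of_ne hpu]
        exact hm.2.2.1 u hur
  · intro u w huw hne
    by_cases hu : u = v
    · right
      subst hu
      rw [Function.update_of_ne hne.symm]
      exact hz w huw.le
    · by_cases hw : w = v
      · left
        subst hw
        rw [Function.update_of_ne hu]
        exact hz u huw.symm.le
      · rw [Function.update_of_ne hu, Function.update_of_ne hw]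
        exact hm.2.2.2 u w huw hne
  · rw [Function.update_of_ne hpv, vt_self]
  · intro u hu hne
    rw [Function.update_of_ne hne]
    exact hz u hu

theorem update_eq [DecidableEq V] {v : V} {c : V → ℝ} (hc : c ∈ t.cell v) :
    Function.update (t.vt (t.par v)) v (c v) = c := by
  funext u
  by_cases hu : u = v
  · subst hu; rw [Function.update_self]
  · rw [Function.update_of_ne hu, cell_apply hc hu]

theorem ae_Icc : AE (Set.Icc (0 : ℝ) 1) :=
  AE.convex isCompact_Icc (convex_Icc 0 1) ⟨0, by simp⟩

theorem ae_cell {v : V} (hv : v ≠ t.root) : AE (t.cell v) := by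
  classical
  refine ae_transport ae_Icc (fun r => Function.update (t.vt (t.par v)) v r) (fun c => c v)
    ?_ ?_ ?_ ?_ ?_
  · have : Continuous (fun r : ℝ => Function.update (t.vt (t.par v)) v r) :=
      Continuous.update continuous_const v continuous_id
    exact this.continuousOn
  · exact (continuous_apply v).continuousOn
  · intro r hr; exact update_mem hv hr.1 hr.2
  · intro c hc; exact hc.1.1 v
  · intro c hc; exact update_eq hc

theorem ae_singleton {Y : Type} [TopologicalSpace Y] (y : Y) : AE ({y} : Set Y) := by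
  intro Z _ B _ f _ hm
  exact ⟨fun _ => y, continuous_const, fun _ => rfl, fun z hz => (hm hz).symm⟩

variable (t) in
/-- the tree (points of finite height) -/
def T : Set (V → ℝ) := {c | c ∈ t.That ∧ 0 < t.Q c}

theorem ae_subtype {Y : Type} [TopologicalSpace Y] {P : Set Y} {C : Set Y} (hCP : C ⊆ P)
    (h : AE C) : AE ((↑) ⁻¹' C : Set P) := by
  classical
  rcases P.eq_empty_or_nonempty with hP | ⟨p0, hp0⟩
  · subst hP
    intro Z _ B hB f hf hm
    obtain ⟨F, hF, hF1, hF2⟩ := h Z B hB (fun z => (f z : Y))
      (continuous_subtype_val.comp_continuousOn hf) (fun z hz => hm hz)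
    exact ⟨f, by
      rw [continuous_iff_continuousAt]
      intro z
      exact absurd (hCP (hF1 z)) (Set.notMem_empty _), fun z => absurd (hCP (hF1 z)) (Set.notMem_empty _),
      fun z _ => rfl⟩
  · intro Z _ B hB f hf hm
    obtain ⟨F, hF, hF1, hF2⟩ := h Z B hB (fun z => (f z : Y))
      (continuous_subtype_val.comp_continuousOn hf) (fun z hz => hm hz)
    refine ⟨fun z => ⟨F z, hCP (hF1 z)⟩, hF.subtype_mk _, fun z => hF1 z, fun z hz => ?_⟩
    exact Subtype.ext (hF2 hz)

theorem ae_of_subtype {Y : Type} [TopologicalSpace Y] {P : Set Y} (hP : P.Nonempty)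
    (h : AE (Set.univ : Set P)) : AE P := by
  classical
  intro Z _ B hB f hf hm
  obtain ⟨p, hp⟩ := hP
  rcases B.eq_empty_or_nonempty with hB0 | ⟨z0, hz0⟩
  · exact ⟨fun _ => p, continuous_const, fun _ => hp, by rw [hB0]; exact Set.eqOn_empty _ _⟩
  · let p0 : P := ⟨f z0, hm hz0⟩
    let f' : Z → P := fun z => if h : f z ∈ P then ⟨f z, h⟩ else p0
    have e : ∀ z ∈ B, (f' z : Y) = f z := fun z hz => by
      show ((if h : f z ∈ P then (⟨f z, h⟩ : P) else p0 : P) : Y) = f z
      rw [dif_pos (hm hz)]
    have hf' : ContinuousOn f' B := by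
      rw [Topology.IsInducing.subtypeVal.continuousOn_iff]
      exact hf.congr e
    obtain ⟨F, hF, -, hF2⟩ := h Z B hB f' hf' (fun _ _ => trivial)
    refine ⟨fun z => (F z : Y), continuous_subtype_val.comp hF, fun z => (F z).2, fun z hz => ?_⟩
    show (F z : Y) = f z
    rw [hF2 hz, e z hz]

theorem ae_T : AE t.T := by
  refine ae_of_subtype ⟨t.vt t.root, vt_mem _, cell_Q_pos (vt_mem_cell _)⟩ ?_
  refine ae_univ (t := t) (π := fun x : t.T => (x : V → ℝ)) continuous_subtype_val
    (fun x => x.2.1) (fun x => x.2.2) ?_ ?_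
  · intro v
    refine ae_subtype ?_ (ae_singleton _)
    rintro c rfl
    exact ⟨vt_mem _, cell_Q_pos (vt_mem_cell _)⟩
  · intro v hv
    exact ae_subtype (fun c hc => ⟨hc.1, cell_Q_pos hc⟩) (ae_cell hv)

end RTree

end Run7.h241
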