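import Mathlib
import Pool.Agent.Run7.h241.Push
import Pool.Agent.Run7.h241.ER
import Pool.Agent.Run7.h241.TreeD

set_option autoImplicit false

namespace Run7.h241

open Filter Topology H30

/-- a proper injective map is inducing -/
theorem inducing_of_proper {X Y : Type} [TopologicalSpace X] [TopologicalSpace Y] [T2Space Y]
    {f : X → Y} (hf : Continuous f) (hinj : Function.Injective f) {k : Y → ℝ}
    (hk : Continuous k) (hpos : ∀ x, 0 < k (f x)) (hc : ∀ δ > 0, IsCompact {x | δ ≤ k (f x)}) :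
    IsInducing f := by
  rw [isInducing_iff_nhds]
  intro x
  apply le_antisymm
  · exact hf.continuousAt.tendsto.le_comap
  · intro U hU
    obtain ⟨W, hWU, hW, hxW⟩ := mem_nhds_iff.mp hU
    set c := k (f x) with hcdef
    have hc0 : 0 < c := hpos x
    have hC := hc (c / 2) (by positivity)
    have hD : IsCompact ({x | c / 2 ≤ k (f x)} \ W) := hC.diff hW
    have hcl : IsClosed (f '' ({x | c / 2 ≤ k (f x)} \ W)) := (hD.image hf).isClosed
    refine mem_comap.mpr ⟨(f '' ({x | c / 2 ≤ k (f x)} \ W))ᶜ ∩ k ⁻¹' Set.Ioi (c / 2), ?_, ?_⟩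
    · apply (hcl.isOpen_compl.inter (isOpen_Ioi.preimage hk)).mem_nhds
      refine ⟨?_, ?_⟩
      · rintro ⟨z, ⟨_, hz⟩, hzx⟩
        exact hz (by rw [hinj hzx]; exact hxW)
      · show c / 2 < k (f x)
        linarith
    · rintro z ⟨hz1, hz2⟩
      apply hWU
      by_contra hzW
      exact hz1 ⟨z, ⟨le_of_lt (show c / 2 < k (f z) from hz2), hzW⟩, rfl⟩

variable {E : Type} [NormedAddCommGroup E] [NormedSpace ℝ E] [FiniteDimensional ℝ E]
  {E' : Type} [NormedAddCommGroup E'] [NormedSpace ℝ E'] [FiniteDimensional ℝ E']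
  {V : Type} {t : RTree V} {S : Set E} {p : E → ℝ} {R : ℕ → E → E → Prop}

/-- The data from which the compactification is built. -/
structure Model (t : RTree V) (S : Set E) (p : E → ℝ) (R : ℕ → E → E → Prop) {X : Type}
    [TopologicalSpace X] (h : X → E) (π : X → V → ℝ) (e : X → E') (g : E × (V → ℝ) → X)
    (J : X × ℝ → X) (m : ℕ) : Prop where
  hcont : Continuous h
  πcont : Continuous π
  econt : Continuous e
  hS : ∀ ξ, h ξ ∈ S
  hp : ∀ ξ, 0 < p (h ξ)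
  πT : ∀ ξ, π ξ ∈ t.T
  e1 : ∀ ξ, ‖e ξ‖ ≤ 1
  inj : ∀ ξ ξ', h ξ = h ξ' → π ξ = π ξ' → e ξ = e ξ' → ξ = ξ'
  prop : ∀ δ > 0, IsCompact {ξ | δ ≤ p (h ξ) ∧ δ ≤ t.Q (π ξ)}
  gcont : ContinuousOn g {z | z.1 ∈ S ∧ 0 < p z.1 ∧ z.2 ∈ t.T}
  Jcont : Continuous J
  J0 : ∀ ξ r, r ≤ 0 → J (ξ, r) = ξ
  J1 : ∀ ξ r, 1 ≤ r → J (ξ, r) = g (h ξ, π ξ)
  gR : ∀ x ∈ S, 0 < p x → ∀ y ∈ t.T, R ⌊1 / t.Q y + m⌋₊ x (h (g (x, y)))
  gN : ∀ x ∈ S, 0 < p x → ∀ y ∈ t.T, t.Near m y (π (g (x, y)))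
  JR : ∀ ξ r, R ⌊1 / t.Q (π ξ) + m⌋₊ (h ξ) (h (J (ξ, r)))
  JN : ∀ ξ r, t.Near m (π ξ) (π (J (ξ, r)))
  ae : AE (Set.univ : Set X)

section

variable {X : Type} [TopologicalSpace X] {h : X → E} {π : X → V → ℝ} {e : X → E'}
  {g : E × (V → ℝ) → X} {J : X × ℝ → X} {m : ℕ} {x0 : E} {P : E → ℝ} {τ : E × ℝ → E}

/-- the ambient space -/
abbrev Amb (E E' : Type) [NormedAddCommGroup E] [NormedAddCommGroup E'] : Type :=
  (ℝ × E × (ℝ × ℝ)) × ℝ × E'

variable (t P) in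
/-- the coordinates -/
noncomputable def Ps (w : ℝ × E × (V → ℝ) × E') : Amb E E' :=
  (Psi t w.1 w.2.1 w.2.2.1, w.1 * P w.2.1, (w.1 * P w.2.1) • w.2.2.2)

theorem Ps_cont (hP : Continuous P) : Continuous (Ps t P (E := E) (E' := E')) := by
  unfold Ps
  have h1 : Continuous (fun w : ℝ × E × (V → ℝ) × E' => w.1 * P w.2.1) :=
    continuous_fst.mul (hP.comp (continuous_fst.comp continuous_snd))
  refine Continuous.prodMk ?_ (Continuous.prodMk h1 ?_)
  · exact (Psi_cont t).comp (continuous_fst.prodMk ((continuous_fst.comp continuous_snd).prodMk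
      (continuous_fst.comp (continuous_snd.comp continuous_snd))))
  · exact h1.smul (continuous_snd.comp (continuous_snd.comp continuous_snd))

variable (t) in
/-- the parameter space -/
def WW (S : Set E) (P : E → ℝ) (h : X → E) (π : X → V → ℝ) (e : X → E') :
    Set (ℝ × E × (V → ℝ) × E') :=
  {w | 0 ≤ w.1 ∧ w.1 ≤ 1 ∧ w.2.1 ∈ S ∧ w.2.2.1 ∈ t.That ∧ w.1 * P w.2.1 = (1 - w.1) * t.Q w.2.2.1 ∧
    ‖w.2.2.2‖ ≤ 1 ∧ (w.1 * P w.2.1 = 0 ∨ ∃ ξ, h ξ = w.2.1 ∧ π ξ = w.2.2.1 ∧ e ξ = w.2.2.2)}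

/-- the level -/
def kap' (P : E → ℝ) (w : ℝ × E × (V → ℝ) × E') : ℝ := w.1 * P w.2.1

theorem kap'_cont (hP : Continuous P) : Continuous (kap' P (V := V) (E' := E')) :=
  continuous_fst.mul (hP.comp (continuous_fst.comp continuous_snd))

variable (t) in
/-- the embedding -/
noncomputable def io (P : E → ℝ) (h : X → E) (π : X → V → ℝ) (e : X → E') (ξ : X) : Amb E E' :=
  Ps t P (aa (P (h ξ)) (t.Q (π ξ)), h ξ, π ξ, e ξ)

section

variable (hM : Model t S p R h π e g J m) (hL : Lev S p R x0 P τ) (hS : IsCompact S)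
  (hpc : Continuous p)

include hM hL

theorem Model.Ppos (ξ : X) : 0 < P (h ξ) := (hL.pos_iff _).mpr (hM.hp ξ)

omit hL in
theorem Model.Qpos (ξ : X) : 0 < t.Q (π ξ) := (hM.πT ξ).2

theorem Model.mem_WW (ξ : X) : (aa (P (h ξ)) (t.Q (π ξ)), h ξ, π ξ, e ξ) ∈ WW t S P h π e := by
  have h1 := hM.Ppos hL ξ
  have h2 := hM.Qpos ξ
  refine ⟨(aa_pos h1 h2).le, (aa_lt h1 h2).le, hM.hS ξ, (hM.πT ξ).1, ?_, hM.e1 ξ,
    Or.inr ⟨ξ, rfl, rfl, rfl⟩⟩
  show aa (P (h ξ)) (t.Q (π ξ)) * P (h ξ) = (1 - aa (P (h ξ)) (t.Q (π ξ))) * t.Q (π ξ)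
  rw [aa_mul h1 h2, one_sub_aa_mul h1 h2]

theorem Model.kap'_io (ξ : X) : kap' P (aa (P (h ξ)) (t.Q (π ξ)), h ξ, π ξ, e ξ) =
    kk (P (h ξ)) (t.Q (π ξ)) := aa_mul (hM.Ppos hL ξ) (hM.Qpos ξ)

include hS hpc in
theorem Model.prop' : ∀ δ > 0, IsCompact {ξ | δ ≤ min (P (h ξ)) (t.Q (π ξ))} := by
  intro δ hδ
  obtain ⟨δ', hδ', h1⟩ := exists_pos_lower (f := p) (hS.inter_right
    (isClosed_le continuous_const hL.pcont)) hpc.continuousOn (K := S ∩ {x | δ ≤ P x})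
    (fun x hx => (hL.pos_iff x).mp (hδ.trans_le hx.2))
  apply (hM.prop (min δ δ') (lt_min hδ hδ')).of_isClosed_subset
  · exact isClosed_le continuous_const ((hL.pcont.comp hM.hcont).min (t.Q_cont.comp hM.πcont))
  · intro ξ hξ
    have h2 : δ ≤ P (h ξ) := le_trans hξ (min_le_left _ _)
    have h3 : δ ≤ t.Q (π ξ) := le_trans hξ (min_le_right _ _)
    exact ⟨(min_le_right _ _).trans (h1 _ ⟨hM.hS ξ, h2⟩), (min_le_left _ _).trans h3⟩

omit hL in
theorem Model.inj' : Function.Injective (fun ξ => (h ξ, π ξ, e ξ)) := by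
  intro ξ ξ' h1
  simp only [Prod.mk.injEq] at h1
  exact hM.inj ξ ξ' h1.1 h1.2.1 h1.2.2

omit hL in
theorem Model.fcont : Continuous (fun ξ => (h ξ, π ξ, e ξ)) :=
  hM.hcont.prodMk (hM.πcont.prodMk hM.econt)

include hS hpc in
theorem Model.inducing : IsInducing (fun ξ => (h ξ, π ξ, e ξ)) := by
  refine inducing_of_proper hM.fcont hM.inj' (k := fun z => min (P z.1) (t.Q z.2.1)) ?_ ?_ ?_
  · exact (hL.pcont.comp continuous_fst).min (t.Q_cont.comp (continuous_fst.comp continuous_snd))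
  · exact fun ξ => lt_min (hM.Ppos hL ξ) (hM.Qpos ξ)
  · exact hM.prop' hL hS hpc

include hS hpc in
theorem Model.WW_compact : IsCompact (WW t S P h π e) := by
  have hbox : IsCompact ((Set.Icc (0 : ℝ) 1) ×ˢ S ×ˢ t.That ×ˢ (Metric.closedBall (0 : E') 1)) :=
    isCompact_Icc.prod (hS.prod (t.That_compact.prod (isCompact_closedBall _ _)))
  have hk := kap'_cont (V := V) (E' := E') hL.pcont
  -- the set without the last condition
  set W0 : Set (ℝ × E × (V → ℝ) × E') := ((Set.Icc (0 : ℝ) 1) ×ˢ S ×ˢ t.That ×ˢ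
    (Metric.closedBall (0 : E') 1)) ∩ {w | w.1 * P w.2.1 = (1 - w.1) * t.Q w.2.2.1} with hW0
  have hW0c : IsCompact W0 := by
    apply hbox.inter_right
    apply isClosed_eq hk
    exact (continuous_const.sub continuous_fst).mul
      (t.Q_cont.comp (continuous_fst.comp (continuous_snd.comp continuous_snd)))
  have hsub : WW t S P h π e ⊆ W0 := by
    rintro w ⟨h1, h2, h3, h4, h5, h6, _⟩
    exact ⟨⟨⟨h1, h2⟩, h3, h4, mem_closedBall_zero_iff.mpr h6⟩, h5⟩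
  apply hW0c.of_isClosed_subset _ hsub
  apply isClosed_of_closure_subset
  intro w hw
  have hw0 : w ∈ W0 := closure_minimal hsub hW0c.isClosed hw
  obtain ⟨⟨⟨h1, h2⟩, h3, h4, h6⟩, h5⟩ := hw0
  refine ⟨h1, h2, h3, h4, h5, mem_closedBall_zero_iff.mp h6, ?_⟩
  rcases eq_or_lt_of_le (mul_nonneg h1 (hL.p0 w.2.1)) with h7 | h7
  · exact Or.inl h7.symm
  · right
    set c := w.1 * P w.2.1 with hcdef
    have hK := hM.prop' hL hS hpc (c / 2) (by positivity)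
    have hKi : IsClosed ((fun z : ℝ × E × (V → ℝ) × E' => z.2) ⁻¹'
        ((fun ξ => (h ξ, π ξ, e ξ)) '' {ξ | c / 2 ≤ min (P (h ξ)) (t.Q (π ξ))})) :=
      (hK.image hM.fcont).isClosed.preimage continuous_snd
    have hw1 : w ∈ closure (WW t S P h π e ∩ {z | c / 2 < kap' P z}) := by
      have ho : IsOpen {z : ℝ × E × (V → ℝ) × E' | c / 2 < kap' P z} :=
        isOpen_lt continuous_const hk
      have hwo : w ∈ {z : ℝ × E × (V → ℝ) × E' | c / 2 < kap' P z} := by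
        show c / 2 < w.1 * P w.2.1
        linarith
      exact closure_inter_open_nonempty_aux hw hwo ho
    have hw2 := closure_minimal (t := (fun z : ℝ × E × (V → ℝ) × E' => z.2) ⁻¹'
        ((fun ξ => (h ξ, π ξ, e ξ)) '' {ξ | c / 2 ≤ min (P (h ξ)) (t.Q (π ξ))})) (by
      rintro z ⟨⟨z1, z2, z3, z4, z5, z6, z7⟩, hz⟩
      have hz' : c / 2 < z.1 * P z.2.1 := hz
      rcases z7 with z7 | ⟨ξ, e1, e2, e3⟩
      · rw [z7] at hz'; linarith
      · refine ⟨ξ, ?_, ?_⟩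
        · show c / 2 ≤ min (P (h ξ)) (t.Q (π ξ))
          rw [e1, e2]
          apply le_min
          · have := hL.p0 z.2.1
            nlinarith
          · rw [z5] at hz'
            have := t.Q_nonneg z.2.2.1
            nlinarith
        · show (h ξ, π ξ, e ξ) = z.2
          rw [e1, e2, e3]) hKi hw1
    obtain ⟨ξ, _, hξ⟩ := hw2
    have hξ' : (h ξ, π ξ, e ξ) = w.2 := hξ
    refine ⟨ξ, congrArg Prod.fst hξ', congrArg (fun z => z.2.1) hξ', congrArg (fun z => z.2.2) hξ'⟩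
where
  closure_inter_open_nonempty_aux {Y : Type} [TopologicalSpace Y] {A O : Set Y} {w : Y}
      (hw : w ∈ closure A) (hwo : w ∈ O) (ho : IsOpen O) : w ∈ closure (A ∩ O) := by
    rw [mem_closure_iff] at hw ⊢
    intro o ho' hwo'
    obtain ⟨z, hz⟩ := hw (o ∩ O) (ho'.inter ho) ⟨hwo', hwo⟩
    exact ⟨z, hz.1.1, hz.2, hz.1.2⟩

end

end

end Run7.h241
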