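import Mathlib
import Pool.Agent.Run7.h241.Model

set_option autoImplicit false

namespace Run7.h241

open Filter Topology H30

theorem kk_le_min {P Q : ℝ} (hP : 0 < P) (hQ : 0 < Q) : kk P Q ≤ min P Q := by
  unfold kk
  apply le_min
  · rw [div_le_iff₀ (by positivity)]; nlinarith
  · rw [div_le_iff₀ (by positivity)]; nlinarith

variable {E : Type} [NormedAddCommGroup E] [NormedSpace ℝ E] [FiniteDimensional ℝ E]
  {E' : Type} [NormedAddCommGroup E'] [NormedSpace ℝ E'] [FiniteDimensional ℝ E']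
  {V : Type} {t : RTree V} {S : Set E} {p : E → ℝ} {R : ℕ → E → E → Prop}

section

variable {X : Type} [TopologicalSpace X] {h : X → E} {π : X → V → ℝ} {e : X → E'}
  {g : E × (V → ℝ) → X} {J : X × ℝ → X} {m : ℕ} {x0 : E} {P : E → ℝ} {τ : E × ℝ → E}

/-- equality of coordinates -/
theorem Ps_eq {w w' : ℝ × E × (V → ℝ) × E'} (hw : w ∈ WW t S P h π e) (hw' : w' ∈ WW t S P h π e)
    (heq : Ps t P w = Ps t P w') : w.1 = w'.1 ∧ kap' P w = kap' P w' ∧
      (0 < w.1 → w.2.1 = w'.2.1) ∧ (w.1 < 1 → w.2.2.1 = w'.2.2.1) ∧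
      (0 < kap' P w → w.2.2.2 = w'.2.2.2) := by
  obtain ⟨a, x, y, u⟩ := w
  obtain ⟨a', x', y', u'⟩ := w'
  simp only [Ps, Psi, Prod.mk.injEq] at heq
  obtain ⟨⟨h1, h2, h3⟩, h4, h5⟩ := heq
  subst h1
  refine ⟨rfl, h4, ?_, ?_, ?_⟩
  · intro ha
    exact smul_right_injective _ (ne_of_gt ha) h2
  · intro ha
    have h6 : t.ze y = t.ze y' := smul_right_injective _ (ne_of_gt (sub_pos.mpr ha)) h3
    exact t.ze_inj hw.2.2.2.1 hw'.2.2.2.1 h6
  · intro hk
    have h6 : (a * P x) • u = (a * P x) • u' := by rw [h5, ← h4]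
    exact smul_right_injective _ (ne_of_gt hk) h6

section

variable (hM : Model t S p R h π e g J m) (hL : Lev S p R x0 P τ) (hS : IsCompact S)
  (hpc : Continuous p)

include hM hL

theorem Model.io_val (ξ : X) : (io t P h π e ξ).2.1 = kk (P (h ξ)) (t.Q (π ξ)) :=
  hM.kap'_io hL ξ

theorem Model.io_pos (ξ : X) : 0 < (io t P h π e ξ).2.1 := by
  rw [hM.io_val hL]; exact kk_pos (hM.Ppos hL ξ) (hM.Qpos ξ)

theorem Model.io_cont : Continuous (io t P h π e) := by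
  unfold io
  refine (Ps_cont hL.pcont).comp (Continuous.prodMk ?_ hM.fcont)
  unfold aa
  refine (t.Q_cont.comp hM.πcont).div ((hL.pcont.comp hM.hcont).add (t.Q_cont.comp hM.πcont)) ?_
  intro ξ
  have := hM.Ppos hL ξ
  have := hM.Qpos ξ
  positivity

theorem Model.io_inj : Function.Injective (io t P h π e) := by
  intro ξ ξ' heq
  obtain ⟨h1, h2, h3, h4, h5⟩ := Ps_eq (hM.mem_WW hL ξ) (hM.mem_WW hL ξ') heq
  have hP := hM.Ppos hL ξ
  have hQ := hM.Qpos ξ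
  refine hM.inj _ _ (h3 (aa_pos hP hQ)) (h4 (aa_lt hP hQ)) (h5 ?_)
  rw [hM.kap'_io hL]; exact kk_pos hP hQ

include hS hpc in
theorem Model.io_inducing : IsInducing (io t P h π e) := by
  refine inducing_of_proper (hM.io_cont hL) (hM.io_inj hL) (k := fun z => z.2.1)
    (continuous_fst.comp continuous_snd) (hM.io_pos hL) ?_
  intro δ hδ
  apply (hM.prop' hL hS hpc δ hδ).of_isClosed_subset
  · exact isClosed_le continuous_const (((continuous_fst.comp continuous_snd)).comp (hM.io_cont hL))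
  · intro ξ hξ
    have h1 : δ ≤ (io t P h π e ξ).2.1 := hξ
    rw [hM.io_val hL] at h1
    exact h1.trans (kk_le_min (hM.Ppos hL ξ) (hM.Qpos ξ))

omit hL in
theorem Model.exists_pt : ∃ pt : E × (V → ℝ) × E' → X, ∀ ξ, pt (h ξ, π ξ, e ξ) = ξ := by
  haveI : Nonempty X := ⟨g (0, 0)⟩
  exact hM.inj'.hasLeftInverse

variable {pt : E × (V → ℝ) × E' → X} (hpt : ∀ ξ, pt (h ξ, π ξ, e ξ) = ξ)

include hpt

omit hM hL in
omit [NormedSpace ℝ E] [FiniteDimensional ℝ E] [NormedSpace ℝ E'] [FiniteDimensional ℝ E']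
  [TopologicalSpace X] in
theorem pt_spec {w : ℝ × E × (V → ℝ) × E'} (hw : w ∈ WW t S P h π e) (hk : 0 < kap' P w) :
    h (pt w.2) = w.2.1 ∧ π (pt w.2) = w.2.2.1 ∧ e (pt w.2) = w.2.2.2 := by
  obtain ⟨h1, h2, h3, h4, h5, h6, h7⟩ := hw
  rcases h7 with h7 | ⟨ξ, e1, e2, e3⟩
  · exact absurd h7 (ne_of_gt hk)
  · have : w.2 = (h ξ, π ξ, e ξ) := by rw [e1, e2, e3]
    rw [this, hpt]
    exact ⟨rfl, rfl, rfl⟩

omit hM hpt in
theorem a_pos {w : ℝ × E × (V → ℝ) × E'} (hw : w ∈ WW t S P h π e) (hk : 0 < kap' P w) :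
    0 < w.1 ∧ w.1 < 1 ∧ 0 < P w.2.1 ∧ 0 < t.Q w.2.2.1 := by
  obtain ⟨h1, h2, h3, h4, h5, h6, h7⟩ := hw
  have hk' : 0 < w.1 * P w.2.1 := hk
  have hk'' : 0 < (1 - w.1) * t.Q w.2.2.1 := by rw [← h5]; exact hk'
  have hP0 := hL.p0 w.2.1
  have hQ0 := t.Q_nonneg w.2.2.1
  refine ⟨?_, ?_, ?_, ?_⟩
  · exact pos_of_mul_pos_of_pos_right hk' hP0
  · have := pos_of_mul_pos_of_pos_right hk'' hQ0
    linarith
  · exact pos_of_mul_pos_of_pos_left hk' h1
  · exact pos_of_mul_pos_of_pos_left hk'' (by linarith)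
where
  pos_of_mul_pos_of_pos_right {a b : ℝ} (h : 0 < a * b) (hb : 0 ≤ b) : 0 < a := by
    by_contra hh; push Not at hh; nlinarith
  pos_of_mul_pos_of_pos_left {a b : ℝ} (h : 0 < a * b) (ha : 0 ≤ a) : 0 < b := by
    by_contra hh; push Not at hh; nlinarith

end

end

end Run7.h241
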