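import Mathlib
import Pool.Agent.Run7.h241.ModelB

set_option autoImplicit false

namespace Run7.h241

open Filter Topology H30

variable {E : Type} [NormedAddCommGroup E] [NormedSpace ℝ E] [FiniteDimensional ℝ E]
  {E' : Type} [NormedAddCommGroup E'] [NormedSpace ℝ E'] [FiniteDimensional ℝ E']
  {V : Type} {t : RTree V} {S : Set E} {p : E → ℝ} {R : ℕ → E → E → Prop}

section

variable {X : Type} [TopologicalSpace X] {h : X → E} {π : X → V → ℝ} {e : X → E'}
  {g : E × (V → ℝ) → X} {J : X × ℝ → X} {m : ℕ} {x0 : E} {P : E → ℝ} {τ : E × ℝ → E}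
  {pt : E × (V → ℝ) × E' → X}

/-- the pushed coordinates -/
noncomputable def psh (t : RTree V) (P : E → ℝ) (τ : E × ℝ → E)
    (z : (ℝ × E × (V → ℝ) × E') × ℝ) : E × (V → ℝ) :=
  (τ (z.1.2.1, (z.2 / 2 - kap' P z.1) / max z.1.1 (z.2 / 2 - kap' P z.1)),
    t.tr (z.1.2.2.1, (z.2 / 2 - kap' P z.1) / max (1 - z.1.1) (z.2 / 2 - kap' P z.1)))

open Classical in
/-- the instant homotopy in parameters -/
noncomputable def phi (t : RTree V) (P : E → ℝ) (τ : E × ℝ → E) (g : E × (V → ℝ) → X)
    (J : X × ℝ → X) (pt : E × (V → ℝ) × E' → X) (z : (ℝ × E × (V → ℝ) × E') × ℝ) : X :=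
  if z.2 ≤ 2 * kap' P z.1 then J (pt z.1.2, 2 - 2 * kap' P z.1 / z.2) else g (psh t P τ z)

section

variable (hM : Model t S p R h π e g J m) (hL : Lev S p R x0 P τ) (hS : IsCompact S)
  (hpc : Continuous p) (hpt : ∀ ξ, pt (h ξ, π ξ, e ξ) = ξ)

include hM hL

omit hM in
theorem kap'_nonneg {w : ℝ × E × (V → ℝ) × E'} (hw : w ∈ WW t S P h π e) : 0 ≤ kap' P w :=
  mul_nonneg hw.1 (hL.p0 _)

omit hM in
theorem psh_mem {w : ℝ × E × (V → ℝ) × E'} (hw : w ∈ WW t S P h π e) {r : ℝ} (hr : 0 < r)
    (h2 : 2 * kap' P w ≤ r) : (psh t P τ (w, r)).1 ∈ S ∧ 0 < P (psh t P τ (w, r)).1 ∧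
      (psh t P τ (w, r)).2 ∈ t.T := by
  have h3 : 0 < r / 2 - kap' P w ∨ 0 < kap' P w := by
    by_cases h : 0 < kap' P w
    · exact Or.inr h
    · left; push Not at h; linarith
  obtain ⟨h4, h5, h6⟩ := push_pos hL hw.2.2.1 hw.2.2.2.1 hw.1 hw.2.1 hw.2.2.2.2.1
    (r := r / 2 - kap' P w) (by linarith) h3
  exact ⟨hL.mem _, h4, h6, h5⟩

include hS hpc hpt in
theorem pt_cont : ContinuousOn (fun z : (ℝ × E × (V → ℝ) × E') × ℝ => pt z.1.2)
    {z | z.1 ∈ WW t S P h π e ∧ 0 < kap' P z.1} := by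
  rw [(hM.inducing hL hS hpc).continuousOn_iff]
  have h1 : ContinuousOn (fun z : (ℝ × E × (V → ℝ) × E') × ℝ => z.1.2)
      {z | z.1 ∈ WW t S P h π e ∧ 0 < kap' P z.1} :=
    (continuous_snd.comp continuous_fst).continuousOn
  refine h1.congr ?_
  rintro z ⟨hz1, hz2⟩
  obtain ⟨e1, e2, e3⟩ := pt_spec hpt hz1 hz2
  show (h (pt z.1.2), π (pt z.1.2), e (pt z.1.2)) = z.1.2
  rw [e1, e2, e3]

include hS hpc hpt in
/-- the instant homotopy is continuous for positive times -/
theorem phi_cont : Continuous (fun z : {z : (ℝ × E × (V → ℝ) × E') × ℝ // z.1 ∈ WW t S P h π e ∧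
    0 < z.2} => phi t P τ g J pt z.1) := by
  classical
  have hk : Continuous (fun z : (ℝ × E × (V → ℝ) × E') × ℝ => kap' P z.1) :=
    (kap'_cont hL.pcont).comp continuous_fst
  have hkn : ∀ z : {z : (ℝ × E × (V → ℝ) × E') × ℝ // z.1 ∈ WW t S P h π e ∧ 0 < z.2},
      0 ≤ kap' P z.1.1 := fun z => kap'_nonneg hL z.2.1
  unfold phi
  refine continuous_if_le (continuous_snd.comp continuous_subtype_val)
    (continuous_const.mul (hk.comp continuous_subtype_val)) ?_ ?_ ?_
  · -- first piece
    apply hM.Jcont.comp_continuousOn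
    apply ContinuousOn.prodMk
    · apply (pt_cont hM hL hS hpc hpt).comp continuous_subtype_val.continuousOn
      intro z hz
      refine ⟨z.2.1, ?_⟩
      have h1 : z.1.2 ≤ 2 * kap' P z.1.1 := hz
      have := z.2.2
      linarith
    · apply ContinuousOn.sub continuousOn_const
      apply ContinuousOn.div
      · exact (continuous_const.mul (hk.comp continuous_subtype_val)).continuousOn
      · exact (continuous_snd.comp continuous_subtype_val).continuousOn
      · intro z _
        exact ne_of_gt z.2.2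
  · -- second piece
    have hs : Continuous (fun z : {z : (ℝ × E × (V → ℝ) × E') × ℝ // z.1 ∈ WW t S P h π e ∧
        0 < z.2} => z.1.2 / 2 - kap' P z.1.1) :=
      ((continuous_snd.comp continuous_subtype_val).div_const 2).sub
        (hk.comp continuous_subtype_val)
    have hpos : ∀ z : {z : (ℝ × E × (V → ℝ) × E') × ℝ // z.1 ∈ WW t S P h π e ∧ 0 < z.2},
        2 * kap' P z.1.1 ≤ z.1.2 → 0 < max z.1.1.1 (z.1.2 / 2 - kap' P z.1.1) ∧
          0 < max (1 - z.1.1.1) (z.1.2 / 2 - kap' P z.1.1) := by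
      intro z hz
      by_cases hk0 : 0 < kap' P z.1.1
      · obtain ⟨a1, a2, _, _⟩ := a_pos hL z.2.1 hk0
        exact ⟨lt_max_of_lt_left a1, lt_max_of_lt_left (sub_pos.mpr a2)⟩
      · have h1 : 0 < z.1.2 / 2 - kap' P z.1.1 := by
          push Not at hk0
          have := z.2.2
          linarith
        exact ⟨lt_max_of_lt_right h1, lt_max_of_lt_right h1⟩
    refine hM.gcont.comp (t := {z | z.1 ∈ S ∧ 0 < p z.1 ∧ z.2 ∈ t.T}) ?_ ?_
    · unfold psh
      apply ContinuousOn.prodMk
      · apply hL.tcont.comp_continuousOn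
        apply ContinuousOn.prodMk
        · exact (continuous_fst.comp (continuous_snd.comp (continuous_fst.comp
            continuous_subtype_val))).continuousOn
        · apply ContinuousOn.div hs.continuousOn
          · exact ((continuous_fst.comp (continuous_fst.comp continuous_subtype_val)).max
              hs).continuousOn
          · intro z hz
            exact ne_of_gt (hpos z hz).1
      · apply t.tr_cont.comp_continuousOn
        apply ContinuousOn.prodMk
        · exact (continuous_fst.comp (continuous_snd.comp (continuous_snd.comp (continuous_fst.comp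
            continuous_subtype_val)))).continuousOn
        · apply ContinuousOn.div hs.continuousOn
          · exact ((continuous_const.sub (continuous_fst.comp (continuous_fst.comp
              continuous_subtype_val))).max hs).continuousOn
          · intro z hz
            exact ne_of_gt (hpos z hz).2
    · intro z hz
      obtain ⟨h1, h2, h3⟩ := psh_mem (R := R) hL z.2.1 z.2.2 hz
      exact ⟨h1, (hL.pos_iff _).mp h2, h3⟩
  · -- agreement
    intro z hz
    have hz' : z.1.2 = 2 * kap' P z.1.1 := hz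
    have hr := z.2.2
    have hk0 : 0 < kap' P z.1.1 := by linarith
    have e0 : z.1.2 / 2 - kap' P z.1.1 = 0 := by rw [hz']; ring
    obtain ⟨e1, e2, e3⟩ := pt_spec hpt z.2.1 hk0
    have e4 : 2 - 2 * kap' P z.1.1 / z.1.2 = 1 := by
      rw [← hz', div_self (ne_of_gt hr)]; norm_num
    show J (pt z.1.1.2, 2 - 2 * kap' P z.1.1 / z.1.2) = g (psh t P τ z.1)
    rw [e4, hM.J1 _ _ le_rfl, e1, e2]
    unfold psh
    rw [e0, zero_div, zero_div, hL.id _ z.2.1.2.2.1 0 le_rfl, RTree.tr_id z.2.1.2.2.2.1 le_rfl]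

include hpt in
/-- the homotopy only depends on the image point -/
theorem phi_fib {w w' : ℝ × E × (V → ℝ) × E'} (hw : w ∈ WW t S P h π e)
    (hw' : w' ∈ WW t S P h π e) (heq : Ps t P w = Ps t P w') {r : ℝ} (hr : 0 < r) :
    phi t P τ g J pt (w, r) = phi t P τ g J pt (w', r) := by
  obtain ⟨h1, h2, h3, h4, h5⟩ := Ps_eq hw hw' heq
  unfold phi
  show (if r ≤ 2 * kap' P w then J (pt w.2, 2 - 2 * kap' P w / r) else g (psh t P τ (w, r))) =
    (if r ≤ 2 * kap' P w' then J (pt w'.2, 2 - 2 * kap' P w' / r) else g (psh t P τ (w', r)))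
  rw [← h2]
  split_ifs with hr2
  · have hk0 : 0 < kap' P w := by linarith
    obtain ⟨a1, a2, _, _⟩ := a_pos hL hw hk0
    have : w.2 = w'.2 := Prod.ext (h3 a1) (Prod.ext (h4 a2) (h5 hk0))
    rw [this]
  · push Not at hr2
    have hs : 0 < r / 2 - kap' P w := by linarith
    have : psh t P τ (w, r) = psh t P τ (w', r) := by
      unfold psh
      apply Prod.ext
      · show τ (w.2.1, (r / 2 - kap' P w) / max w.1 (r / 2 - kap' P w)) =
          τ (w'.2.1, (r / 2 - kap' P w') / max w'.1 (r / 2 - kap' P w'))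
        rw [← h1, ← h2]
        rcases eq_or_lt_of_le hw.1 with ha | ha
        · rw [← ha, max_eq_right hs.le, div_self (ne_of_gt hs), hL.const _ _ le_rfl,
            hL.const _ _ le_rfl]
        · rw [h3 ha]
      · show t.tr (w.2.2.1, (r / 2 - kap' P w) / max (1 - w.1) (r / 2 - kap' P w)) =
          t.tr (w'.2.2.1, (r / 2 - kap' P w') / max (1 - w'.1) (r / 2 - kap' P w'))
        rw [← h1, ← h2]
        rcases eq_or_lt_of_le hw.2.1 with ha | ha
        · rw [ha, sub_self, max_eq_right hs.le, div_self (ne_of_gt hs),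
            RTree.tr_const hw.2.2.2.1 le_rfl, RTree.tr_const hw'.2.2.2.1 le_rfl]
        · rw [h4 ha]
    rw [this]

end

end

end Run7.h241
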