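import Mathlib
import Pool.Agent.Run7.h241.ModelC

set_option autoImplicit false

namespace Run7.h241

open Filter Topology H30

variable {E : Type} [NormedAddCommGroup E] [NormedSpace ℝ E] [FiniteDimensional ℝ E]
  {E' : Type} [NormedAddCommGroup E'] [NormedSpace ℝ E'] [FiniteDimensional ℝ E']
  {V : Type} {t : RTree V} {S : Set E} {p : E → ℝ} {R : ℕ → E → E → Prop}

section

variable {X : Type} [TopologicalSpace X] {h : X → E} {π : X → V → ℝ} {e : X → E'}
  {g : E × (V → ℝ) → X} {J : X × ℝ → X} {m : ℕ} {x0 : E} {P : E → ℝ} {τ : E × ℝ → E}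
  {pt : E × (V → ℝ) × E' → X}

theorem Ps_dist {a a' : ℝ} {x x' : E} {y y' : V → ℝ} {u u' : E'} {ε : ℝ}
    (h1 : dist (Psi t a x y) (Psi t a' x' y') < ε) (h2 : 0 ≤ a * P x) (h3 : 0 ≤ a' * P x')
    (h4 : a * P x < ε / 2) (h5 : a' * P x' < ε / 2) (h6 : ‖u‖ ≤ 1) (h7 : ‖u'‖ ≤ 1) :
    dist (Ps t P (a, x, y, u)) (Ps t P (a', x', y', u')) < ε := by
  unfold Ps
  rw [Prod.dist_eq]
  apply max_lt h1
  rw [Prod.dist_eq]
  apply max_lt
  · show dist (a * P x) (a' * P x') < ε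
    rw [Real.dist_eq, abs_lt]
    constructor <;> linarith
  · show dist ((a * P x) • u) ((a' * P x') • u') < ε
    rw [dist_eq_norm]
    calc ‖(a * P x) • u - (a' * P x') • u'‖ ≤ ‖(a * P x) • u‖ + ‖(a' * P x') • u'‖ :=
          norm_sub_le _ _
      _ = (a * P x) * ‖u‖ + (a' * P x') * ‖u'‖ := by
          rw [norm_smul, norm_smul, Real.norm_of_nonneg h2, Real.norm_of_nonneg h3]
      _ ≤ a * P x + a' * P x' := by
          have := norm_nonneg u
          have := norm_nonneg u'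
          nlinarith
      _ < ε := by linarith

section

variable (hM : Model t S p R h π e g J m) (hL : Lev S p R x0 P τ) (hS : IsCompact S)
  (hpc : Continuous p) (hR : Ctl p R)

include hM hL

include hS hpc hR in
/-- related points near infinity are close -/
theorem Model.close {ε : ℝ} (hε : 0 < ε) (n : ℕ) : ∃ δ > 0, ∀ ξ ξ' : X,
    R ⌊1 / t.Q (π ξ) + n⌋₊ (h ξ) (h ξ') → t.Near n (π ξ) (π ξ') → (io t P h π e ξ).2.1 < δ →
    dist (io t P h π e ξ) (io t P h π e ξ') < ε := by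
  obtain ⟨δ, hδ, h1⟩ := rel_est (t := t) hL hS hpc hR n (show (0 : ℝ) < ε / 2 by positivity)
  refine ⟨min δ (ε / 2), lt_min hδ (by positivity), ?_⟩
  intro ξ ξ' hr hn hk
  rw [hM.io_val hL] at hk
  obtain ⟨h2, h3⟩ := h1 (h ξ) (hM.hS ξ) (h ξ') (hM.hS ξ') (π ξ) (π ξ') (hM.Ppos hL ξ)
    (hM.Ppos hL ξ') hn hr (hk.trans_le (min_le_left _ _))
  have e1 := aa_mul (hM.Ppos hL ξ) (hM.Qpos ξ)
  have e2 := aa_mul (hM.Ppos hL ξ') (hM.Qpos ξ')
  have e3 := kk_pos (hM.Ppos hL ξ) (hM.Qpos ξ)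
  have e4 := kk_pos (hM.Ppos hL ξ') (hM.Qpos ξ')
  apply Ps_dist (h2.trans_le (by linarith)) (by rw [e1]; exact e3.le) (by rw [e2]; exact e4.le)
    (by rw [e1]; exact hk.trans_le (min_le_right _ _)) (by rw [e2]; exact h3) (hM.e1 ξ) (hM.e1 ξ')

variable (hpt : ∀ ξ, pt (h ξ, π ξ, e ξ) = ξ)

include hS hpc hR hpt in
/-- the homotopy starts uniformly near the identity -/
theorem phi_small {ε : ℝ} (hε : 0 < ε) : ∃ δ > 0, ∀ w ∈ WW t S P h π e, ∀ r, 0 < r → r < δ →
    dist (io t P h π e (phi t P τ g J pt (w, r))) (Ps t P w) < ε := by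
  obtain ⟨δ1, hδ1, h1⟩ := rel_est (t := t) hL hS hpc hR m (show (0 : ℝ) < ε / 4 by positivity)
  obtain ⟨δ2, hδ2, h2⟩ := push_est (t := t) hL hS (show (0 : ℝ) < min (ε / 4) δ1 from
    lt_min (by positivity) hδ1)
  refine ⟨min (ε / 4) (min δ1 δ2), lt_min (by positivity) (lt_min hδ1 hδ2), ?_⟩
  intro w hw r hr hrδ
  have hr1 : r < ε / 4 := hrδ.trans_le (min_le_left _ _)
  have hr2 : r < δ1 := hrδ.trans_le ((min_le_right _ _).trans (min_le_left _ _))
  have hr3 : r < δ2 := hrδ.trans_le ((min_le_right _ _).trans (min_le_right _ _))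
  unfold phi
  show dist (io t P h π e (if r ≤ 2 * kap' P w then J (pt w.2, 2 - 2 * kap' P w / r) else
    g (psh t P τ (w, r)))) (Ps t P w) < ε
  have hk0 := kap'_nonneg hL hw
  split_ifs with hc
  · -- the first part
    have hkp : 0 < kap' P w := by linarith
    obtain ⟨e1, e2, e3⟩ := pt_spec hpt hw hkp
    obtain ⟨a1, a2, a3, a4⟩ := a_pos hL hw hkp
    set ξ := pt w.2 with hξ
    have ha : w.1 = aa (P w.2.1) (t.Q w.2.2.1) := aa_unique a3 a4 hw.2.2.2.2.1
    have hw2 : w = (aa (P (h ξ)) (t.Q (π ξ)), h ξ, π ξ, e ξ) := by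
      rw [e1, e2, e3, ← ha]
    by_cases hrk : r ≤ kap' P w
    · have h3 : 2 - 2 * kap' P w / r ≤ 0 := by
        have : 1 ≤ kap' P w / r := by rwa [le_div_iff₀ hr, one_mul]
        have e5 : 2 * kap' P w / r = 2 * (kap' P w / r) := by ring
        linarith
      rw [hM.J0 _ _ h3]
      have : io t P h π e ξ = Ps t P w := by
        rw [hw2]; rfl
      rw [this, dist_self]
      exact hε
    · push Not at hrk
      set ξ' := J (ξ, 2 - 2 * kap' P w / r) with hξ'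
      have hkk : kap' P w = kk (P (h ξ)) (t.Q (π ξ)) := by
        rw [hw2]; exact hM.kap'_io hL ξ
      obtain ⟨h2, h3⟩ := h1 (h ξ) (hM.hS ξ) (h ξ') (hM.hS ξ') (π ξ) (π ξ') (hM.Ppos hL ξ)
        (hM.Ppos hL ξ') (hM.JN _ _) (hM.JR _ _) (by rw [← hkk]; linarith)
      have e4 := aa_mul (hM.Ppos hL ξ) (hM.Qpos ξ)
      have e5 := aa_mul (hM.Ppos hL ξ') (hM.Qpos ξ')
      have e6 := kk_pos (hM.Ppos hL ξ) (hM.Qpos ξ)
      have e7 := kk_pos (hM.Ppos hL ξ') (hM.Qpos ξ')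
      rw [dist_comm]
      have : Ps t P w = Ps t P (aa (P (h ξ)) (t.Q (π ξ)), h ξ, π ξ, e ξ) := by rw [← hw2]
      rw [this]
      apply Ps_dist (h2.trans_le (by linarith)) (by rw [e4]; exact e6.le) (by rw [e5]; exact e7.le)
        (by rw [e4, ← hkk]; linarith) (by rw [e5]; linarith) (hM.e1 ξ) (hM.e1 ξ')
  · -- the second part
    push Not at hc
    obtain ⟨b1, b2, b3⟩ := psh_mem (R := R) hL hw hr hc.le
    obtain ⟨h3, h4⟩ := h2 w.1 w.2.1 w.2.2.1 (r / 2 - kap' P w) hw.2.2.1 hw.2.2.2.1 hw.1 hw.2.1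
      hw.2.2.2.2.1 (by linarith) (by linarith)
      (by show kap' P w < δ2; linarith) (Or.inl (by linarith))
    set z := psh t P τ (w, r) with hz
    have e0 : (τ (w.2.1, (r / 2 - kap' P w) / max w.1 (r / 2 - kap' P w)),
      t.tr (w.2.2.1, (r / 2 - kap' P w) / max (1 - w.1) (r / 2 - kap' P w))) = z := rfl
    have e01 : τ (w.2.1, (r / 2 - kap' P w) / max w.1 (r / 2 - kap' P w)) = z.1 := rfl
    have e02 : t.tr (w.2.2.1, (r / 2 - kap' P w) / max (1 - w.1) (r / 2 - kap' P w)) = z.2 := rfl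
    rw [e01, e02] at h3 h4
    have hp1 : 0 < p z.1 := (hL.pos_iff _).mp b2
    set ξ' := g z with hξ'
    obtain ⟨h5, h6⟩ := h1 z.1 b1 (h ξ') (hM.hS ξ') z.2 (π ξ') b2
        (hM.Ppos hL ξ') (hM.gN _ b1 hp1 _ b3) (hM.gR _ b1 hp1 _ b3)
        (h4.trans_le (min_le_right _ _))
    have e4 := aa_mul (hM.Ppos hL ξ') (hM.Qpos ξ')
    have e5 := kk_pos (hM.Ppos hL ξ') (hM.Qpos ξ')
    rw [dist_comm]
    have hw' : w = (w.1, w.2.1, w.2.2.1, w.2.2.2) := rfl
    rw [hw']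
    have h7 : dist (Psi t w.1 w.2.1 w.2.2.1) (Psi t (aa (P z.1) (t.Q z.2)) z.1 z.2) < ε / 4 :=
      h3.trans_le (min_le_left _ _)
    apply Ps_dist ((dist_triangle _ _ _).trans_lt ((add_lt_add h7 h5).trans_le (by linarith)))
      hk0 (by rw [e4]; exact e5.le) (by show kap' P w < ε / 2; linarith) (by rw [e4]; linarith)
      hw.2.2.2.2.2.1 (hM.e1 ξ')

open Classical in
/-- the homotopy on parameters -/
noncomputable def Th (t : RTree V) (P : E → ℝ) (τ : E × ℝ → E) (h : X → E) (π : X → V → ℝ)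
    (e : X → E') (g : E × (V → ℝ) → X)
    (J : X × ℝ → X) (pt : E × (V → ℝ) × E' → X) (z : (ℝ × E × (V → ℝ) × E') × ℝ) : Amb E E' :=
  if z.2 ≤ 0 then Ps t P z.1 else io t P h π e (phi t P τ g J pt z)

include hS hpc hR hpt in
theorem Th_cont : Continuous (fun z : {z : (ℝ × E × (V → ℝ) × E') × ℝ // z.1 ∈ WW t S P h π e ∧
    0 ≤ z.2} => Th t P τ h π e g J pt z.1) := by
  classical
  rw [continuous_iff_continuousAt]
  intro z
  by_cases hz : 0 < z.1.2
  · -- positive time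
    have hU : IsOpen {z : {z : (ℝ × E × (V → ℝ) × E') × ℝ // z.1 ∈ WW t S P h π e ∧ 0 ≤ z.2} |
        0 < z.1.2} := isOpen_lt continuous_const (continuous_snd.comp continuous_subtype_val)
    have h1 : ContinuousOn (fun z : {z : (ℝ × E × (V → ℝ) × E') × ℝ // z.1 ∈ WW t S P h π e ∧
        0 ≤ z.2} => Th t P τ h π e g J pt z.1) {z | 0 < z.1.2} := by
      rw [continuousOn_iff_continuous_domRestrict]
      have h2 : Continuous (fun y : {z : {z : (ℝ × E × (V → ℝ) × E') × ℝ //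
          z.1 ∈ WW t S P h π e ∧ 0 ≤ z.2} | 0 < z.1.2} =>
          (⟨y.1.1, y.1.2.1, y.2⟩ : {z : (ℝ × E × (V → ℝ) × E') × ℝ // z.1 ∈ WW t S P h π e ∧
            0 < z.2})) :=
        Continuous.subtype_mk (continuous_subtype_val.comp continuous_subtype_val) _
      have h3 := ((hM.io_cont hL).comp (phi_cont hM hL hS hpc hpt)).comp h2
      refine h3.congr ?_
      intro y
      show io t P h π e (phi t P τ g J pt y.1.1) = Th t P τ h π e g J pt y.1.1
      unfold Th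
      rw [if_neg (not_le.mpr y.2)]
    exact h1.continuousAt (hU.mem_nhds hz)
  · have hz0 : z.1.2 = 0 := le_antisymm (not_lt.mp hz) z.2.2
    apply Metric.tendsto_nhds.mpr
    intro ε hε
    obtain ⟨δ, hδ, h1⟩ := phi_small hM hL hS hpc hR hpt (half_pos hε)
    have hPc : ContinuousAt (fun z : {z : (ℝ × E × (V → ℝ) × E') × ℝ // z.1 ∈ WW t S P h π e ∧
        0 ≤ z.2} => Ps t P z.1.1) z :=
      ((Ps_cont hL.pcont).comp (continuous_fst.comp continuous_subtype_val)).continuousAt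
    have h2 := Metric.tendsto_nhds.mp hPc.tendsto (ε / 2) (half_pos hε)
    have h3 : ∀ᶠ z' : {z : (ℝ × E × (V → ℝ) × E') × ℝ // z.1 ∈ WW t S P h π e ∧
        0 ≤ z.2} in 𝓝 z, z'.1.2 < δ :=
      (continuous_snd.comp continuous_subtype_val).continuousAt.eventually_lt_const
        (show z.1.2 < δ by rw [hz0]; exact hδ)
    have e0 : Th t P τ h π e g J pt z.1 = Ps t P z.1.1 := by
      unfold Th; rw [if_pos hz0.le]
    filter_upwards [h2, h3] with z' hz1 hz2
    rw [e0]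
    by_cases hz3 : z'.1.2 ≤ 0
    · have e1 : Th t P τ h π e g J pt z'.1 = Ps t P z'.1.1 := by
        unfold Th; rw [if_pos hz3]
      rw [e1]
      linarith
    · have e1 : Th t P τ h π e g J pt z'.1 = io t P h π e (phi t P τ g J pt z'.1) := by
        unfold Th; rw [if_neg hz3]
      rw [e1]
      have h4 := h1 z'.1.1 z'.2.1 z'.1.2 (not_le.mp hz3) hz2
      have h5 : dist (io t P h π e (phi t P τ g J pt z'.1)) (Ps t P z'.1.1) < ε / 2 := h4
      calc _ ≤ dist (io t P h π e (phi t P τ g J pt z'.1)) (Ps t P z'.1.1) +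
            dist (Ps t P z'.1.1) (Ps t P z.1.1) := dist_triangle _ _ _
        _ < ε / 2 + ε / 2 := add_lt_add h5 hz1
        _ = ε := by ring

include hpt in
theorem Th_fib {w w' : ℝ × E × (V → ℝ) × E'} (hw : w ∈ WW t S P h π e)
    (hw' : w' ∈ WW t S P h π e) (heq : Ps t P w = Ps t P w') {r : ℝ} :
    Th t P τ h π e g J pt (w, r) = Th t P τ h π e g J pt (w', r) := by
  unfold Th
  show (if r ≤ 0 then Ps t P w else _) = (if r ≤ 0 then Ps t P w' else _)
  split_ifs with hr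
  · exact heq
  · rw [phi_fib hM hL hpt hw hw' heq (not_le.mp hr)]

include hS hpc in
theorem ae_range : AE (Set.range (io t P h π e)) := by
  have hne : Nonempty X := ⟨g (0, 0)⟩
  have hinv := Function.leftInverse_invFun (hM.io_inj hL)
  apply ae_transport hM.ae (io t P h π e) (Function.invFun (io t P h π e))
    (hM.io_cont hL).continuousOn
  · rw [(hM.io_inducing hL hS hpc).continuousOn_iff]
    refine continuousOn_id.congr ?_
    rintro _ ⟨ξ, rfl⟩
    show io t P h π e (Function.invFun (io t P h π e) (io t P h π e ξ)) = _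
    rw [hinv ξ]; rfl
  · exact fun ξ _ => ⟨ξ, rfl⟩
  · exact fun _ _ => Set.mem_univ _
  · rintro _ ⟨ξ, rfl⟩
    rw [hinv ξ]

end

end

/-- The compactification, as a subset of a normed space. -/
theorem model_main {X : Type} [TopologicalSpace X] {h : X → E} {π : X → V → ℝ} {e : X → E'}
    {g : E × (V → ℝ) → X} {J : X × ℝ → X} {m : ℕ} {x0 : E} {H : E × ℝ → E}
    (hM : Model t S p R h π e g J m) (hP : Push S p H x0) (hR : Ctl p R) :
    ∃ (Xh : Set (Amb E E')) (k : Amb E E' → ℝ) (ι : X → Amb E E')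
      (Φ : Xh × unitInterval → Xh), IsCompact Xh ∧ Continuous k ∧
      (∃ r : Amb E E' → Amb E E', Continuous r ∧ (∀ x, r x ∈ Xh) ∧ ∀ x ∈ Xh, r x = x) ∧
      Set.range ι = {x | x ∈ Xh ∧ k x ≠ 0} ∧ (∀ ξ, 0 < k (ι ξ)) ∧
      IsInducing ι ∧ Function.Injective ι ∧
      Continuous Φ ∧ (∀ x, Φ (x, 0) = x) ∧ (∀ x r, 0 < r → k (Φ (x, r) : Xh).1 ≠ 0) ∧
      ∀ ε > 0, ∀ n : ℕ, ∃ δ > 0, ∀ ξ ξ' : X, R ⌊1 / t.Q (π ξ) + n⌋₊ (h ξ) (h ξ') →
        t.Near n (π ξ) (π ξ') → k (ι ξ) < δ → dist (ι ξ) (ι ξ') < ε := by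
  obtain ⟨P, τ, hL⟩ := exists_level hP hR
  have hS := hP.cpt
  have hpc := hP.pcont
  obtain ⟨pt, hpt⟩ := hM.exists_pt
  set W := WW t S P h π e with hW
  set Xh : Set (Amb E E') := Ps t P '' W with hXh
  have hWc : IsCompact W := hM.WW_compact hL hS hpc
  have hXc : IsCompact Xh := hWc.image (Ps_cont hL.pcont)
  have hrange : Set.range (io t P h π e) = {x | x ∈ Xh ∧ x.2.1 ≠ 0} := by
    ext x
    constructor
    · rintro ⟨ξ, rfl⟩
      exact ⟨⟨_, hM.mem_WW hL ξ, rfl⟩, ne_of_gt (hM.io_pos hL ξ)⟩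
    · rintro ⟨⟨w, hw, rfl⟩, hx⟩
      have hk : 0 < kap' P w := lt_of_le_of_ne (kap'_nonneg hL hw) (Ne.symm hx)
      obtain ⟨e1, e2, e3⟩ := pt_spec hpt hw hk
      obtain ⟨a1, a2, a3, a4⟩ := a_pos hL hw hk
      refine ⟨pt w.2, ?_⟩
      unfold io
      rw [e1, e2, e3, ← aa_unique a3 a4 hw.2.2.2.2.1]
  haveI : CompactSpace W := isCompact_iff_compactSpace.mp hWc
  let q : W → Xh := fun w => ⟨Ps t P w.1, w.1, w.2, rfl⟩
  have hq : Continuous q := Continuous.subtype_mk ((Ps_cont hL.pcont).comp continuous_subtype_val) _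
  have hqs : Function.Surjective q := by
    rintro ⟨_, w, hw, rfl⟩
    exact ⟨⟨w, hw⟩, rfl⟩
  have hqp : IsProperMap q := hq.isProperMap
  have hqq : IsQuotientMap (Prod.map q (id : unitInterval → unitInterval)) :=
    (hqp.prodMap isProperMap_id).isClosedMap.isQuotientMap (hq.prodMap continuous_id)
      (hqs.prodMap Function.surjective_id)
  let sec : Xh → W := Function.surjInv hqs
  have hsec : ∀ x, q (sec x) = x := Function.surjInv_eq hqs
  let Φ0 : Xh × unitInterval → Amb E E' := fun z => Th t P τ h π e g J pt ((sec z.1).1, z.2.1)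
  have hΦq : ∀ (w : W) (r : unitInterval), Φ0 (q w, r) = Th t P τ h π e g J pt (w.1, r.1) := by
    intro w r
    apply Th_fib hM hL hpt (sec (q w)).2 w.2
    exact congrArg Subtype.val (hsec (q w))
  have hΦc : Continuous Φ0 := by
    rw [hqq.continuous_iff]
    have h1 : Continuous (fun z : W × unitInterval =>
        (⟨(z.1.1, z.2.1), z.1.2, z.2.2.1⟩ :
          {z : (ℝ × E × (V → ℝ) × E') × ℝ // z.1 ∈ WW t S P h π e ∧ 0 ≤ z.2})) :=
      Continuous.subtype_mk ((continuous_subtype_val.comp continuous_fst).prodMk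
        (continuous_subtype_val.comp continuous_snd)) _
    refine ((Th_cont hM hL hS hpc hR hpt).comp h1).congr ?_
    intro z
    exact (hΦq z.1 z.2).symm
  have hΦ0 : ∀ x, Φ0 (x, 0) = x := by
    intro x
    show Th t P τ h π e g J pt ((sec x).1, ((0 : unitInterval) : ℝ)) = x
    unfold Th
    rw [if_pos (show (((sec x).1, ((0 : unitInterval) : ℝ)) :
      (ℝ × E × (V → ℝ) × E') × ℝ).2 ≤ 0 from le_refl (0 : ℝ))]
    exact congrArg Subtype.val (hsec x)
  have hΦ1 : ∀ x r, 0 < r → Φ0 (x, r) ∈ Set.range (io t P h π e) := by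
    intro x r hr
    have hr' : ¬ ((r : unitInterval) : ℝ) ≤ 0 := not_le.mpr hr
    show Th t P τ h π e g J pt ((sec x).1, r.1) ∈ _
    unfold Th
    rw [if_neg hr']
    exact ⟨_, rfl⟩
  have hsub : Set.range (io t P h π e) ⊆ Xh := by
    rw [hrange]; exact fun x hx => hx.1
  have hmem : ∀ z, Φ0 z ∈ Xh := by
    rintro ⟨x, r⟩
    rcases eq_or_lt_of_le (show (0 : unitInterval) ≤ r from unitInterval.nonneg r) with h0 | h0
    · rw [← h0, hΦ0]; exact x.2
    · exact hsub (hΦ1 x r h0)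
  have hne : Xh.Nonempty := ⟨_, hsub ⟨g (0, 0), rfl⟩⟩
  refine ⟨Xh, fun x => x.2.1, io t P h π e, fun z => ⟨Φ0 z, hmem z⟩, hXc,
    continuous_fst.comp continuous_snd, ?_, hrange, hM.io_pos hL, hM.io_inducing hL hS hpc,
    hM.io_inj hL, hΦc.subtype_mk _, fun x => Subtype.ext (hΦ0 x), ?_, ?_⟩
  · exact retract_of_push hXc hne hsub (ae_range hM hL hS hpc) Φ0 hΦc hΦ0 hΦ1
  · intro x r hr
    have := hΦ1 x r hr
    rw [hrange] at this
    exact this.2
  · intro ε hε n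
    exact hM.close hL hS hpc hR hε n

end Run7.h241
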