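import Mathlib

set_option autoImplicit false

namespace Run7.h241

/-- `A` is a retract of `ℝⁿ`. -/
def IsRetract {n : ℕ} (A : Set (EuclideanSpace ℝ (Fin n))) : Prop :=
  ∃ r : EuclideanSpace ℝ (Fin n) → EuclideanSpace ℝ (Fin n),
    Continuous r ∧ (∀ x, r x ∈ A) ∧ ∀ x ∈ A, r x = x

/-- `Z` is a closed subset of `A` and there is a homotopy `H : A × [0,1] → A` with `H₀ = id` and
`H_t(A) ∩ Z = ∅` for every `t > 0`. -/
def IsZSet {n : ℕ} (A Z : Set (EuclideanSpace ℝ (Fin n))) : Prop :=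
  IsClosed Z ∧ Z ⊆ A ∧ ∃ H : A × unitInterval → A, Continuous H ∧ (∀ x, H (x, 0) = x) ∧
    ∀ (x : A) (s : unitInterval), 0 < s → (H (x, s) : EuclideanSpace ℝ (Fin n)) ∉ Z

/-- The group `G` acts on `A \ Z` by homeomorphisms, properly and cocompactly, and the null
condition holds. -/
structure ZAction (G : Type) [Group G] {n : ℕ} (A Z : Set (EuclideanSpace ℝ (Fin n)))
    [MulAction G ↥(A \ Z)] : Prop where
  cont : ∀ g : G, Continuous fun x : ↥(A \ Z) => g • x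
  proper : ∀ C : Set ↥(A \ Z), IsCompact C →
    {g : G | ((fun x => g • x) '' C ∩ C).Nonempty}.Finite
  cocompact : ∃ C : Set ↥(A \ Z), IsCompact C ∧ ∀ x : ↥(A \ Z), ∃ g : G, g • x ∈ C
  null : ∀ C : Set ↥(A \ Z), IsCompact C → ∀ ε : ℝ, 0 < ε →
    {g : G | ε ≤ Metric.diam ((fun x => g • x) '' C)}.Finite

/-- The group `G` admits a Z-structure. -/
def HasZStructure (G : Type) [Group G] : Prop :=
  ∃ (n : ℕ) (A Z : Set (EuclideanSpace ℝ (Fin n))), IsCompact A ∧ IsRetract A ∧ IsZSet A Z ∧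
    ∃ _ : MulAction G ↥(A \ Z), ZAction G A Z

end Run7.h241
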