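import Mathlib
import Pool.Agent.Run7.h241.ZDefs

set_option autoImplicit false

namespace Run7.h241

open Filter Topology

/-- Transport of a compactification into Euclidean space. -/
theorem toZ {Γ : Type} [Group Γ] {F : Type} [NormedAddCommGroup F] [NormedSpace ℝ F]
    [FiniteDimensional ℝ F] {X : Type} [TopologicalSpace X] [MulAction Γ X]
    (Xh : Set F) (k : F → ℝ) (ι : X → F) (Φ : Xh × unitInterval → Xh) (hXh : IsCompact Xh)
    (hk : Continuous k)
    (hr : ∃ r : F → F, Continuous r ∧ (∀ x, r x ∈ Xh) ∧ ∀ x ∈ Xh, r x = x)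
    (hι : Set.range ι = {x | x ∈ Xh ∧ k x ≠ 0}) (hind : IsInducing ι)
    (hinj : Function.Injective ι)
    (hΦ : Continuous Φ) (hΦ0 : ∀ x, Φ (x, 0) = x)
    (hΦ1 : ∀ x r, 0 < r → k (Φ (x, r) : Xh).1 ≠ 0)
    (hact : ∀ γ : Γ, Continuous fun x : X => γ • x)
    (hprop : ∀ C : Set X, IsCompact C → {γ : Γ | ((fun x => γ • x) '' C ∩ C).Nonempty}.Finite)
    (hco : ∃ C : Set X, IsCompact C ∧ ∀ x : X, ∃ γ : Γ, γ • x ∈ C)
    (hnull : ∀ C : Set X, IsCompact C → ∀ ε : ℝ, 0 < ε →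
      {γ : Γ | ε ≤ Metric.diam (ι '' ((fun x => γ • x) '' C))}.Finite) : HasZStructure Γ := by
  classical
  set n := Module.finrank ℝ F with hn
  let L : F ≃L[ℝ] EuclideanSpace ℝ (Fin n) :=
    ContinuousLinearEquiv.ofFinrankEq (by rw [finrank_euclideanSpace, Fintype.card_fin])
  let A : Set (EuclideanSpace ℝ (Fin n)) := L '' Xh
  let Z : Set (EuclideanSpace ℝ (Fin n)) := L '' {x | x ∈ Xh ∧ k x = 0}
  have hLinj : Function.Injective L := L.injective
  have hmemA : ∀ x, L x ∈ A ↔ x ∈ Xh := fun x => hLinj.mem_set_image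
  have hmemZ : ∀ x, L x ∈ Z ↔ x ∈ Xh ∧ k x = 0 := fun x => hLinj.mem_set_image
  have hAZ : ∀ ξ : X, L (ι ξ) ∈ A \ Z := by
    intro ξ
    have h1 : ι ξ ∈ {x | x ∈ Xh ∧ k x ≠ 0} := by rw [← hι]; exact ⟨ξ, rfl⟩
    exact ⟨(hmemA _).mpr h1.1, fun h => h1.2 ((hmemZ _).mp h).2⟩
  -- the homeomorphism
  let θ : X → ↥(A \ Z) := fun ξ => ⟨L (ι ξ), hAZ ξ⟩
  have hθinj : Function.Injective θ := by
    intro ξ ξ' h
    exact hinj (hLinj (congrArg Subtype.val h))
  have hθsurj : Function.Surjective θ := by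
    rintro ⟨_, ⟨x, hx, rfl⟩, hz⟩
    have h1 : x ∈ {x | x ∈ Xh ∧ k x ≠ 0} := ⟨hx, fun h => hz ((hmemZ _).mpr ⟨hx, h⟩)⟩
    rw [← hι] at h1
    obtain ⟨ξ, rfl⟩ := h1
    exact ⟨ξ, rfl⟩
  have hθind : IsInducing θ := by
    have h1 : IsInducing (fun ξ => L (ι ξ)) := L.toHomeomorph.isInducing.comp hind
    exact IsInducing.of_comp (h1.continuous.subtype_mk _) continuous_subtype_val h1
  let e : X ≃ ↥(A \ Z) := Equiv.ofBijective θ ⟨hθinj, hθsurj⟩
  let eh : X ≃ₜ ↥(A \ Z) := e.toHomeomorphOfIsInducing hθind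
  have heh : ∀ ξ, (eh ξ : EuclideanSpace ℝ (Fin n)) = L (ι ξ) := fun ξ => rfl
  letI act : MulAction Γ ↥(A \ Z) := eh.symm.toEquiv.mulAction Γ
  have hsm : ∀ (γ : Γ) (a : ↥(A \ Z)), γ • a = eh (γ • eh.symm a) := fun γ a => rfl
  have himg : ∀ (γ : Γ) (C : Set ↥(A \ Z)), (fun x => γ • x) '' C =
      eh '' ((fun x : X => γ • x) '' (eh.symm '' C)) := by
    intro γ C
    rw [Set.image_image, Set.image_image]
    rfl
  obtain ⟨r, hr1, hr2, hr3⟩ := hr
  refine ⟨n, A, Z, hXh.image L.continuous, ?_, ?_, act, ?_⟩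
  · refine ⟨fun y => L (r (L.symm y)), L.continuous.comp (hr1.comp L.symm.continuous),
      fun y => ⟨_, hr2 _, rfl⟩, ?_⟩
    rintro _ ⟨x, hx, rfl⟩
    show L (r (L.symm (L x))) = L x
    rw [L.symm_apply_apply, hr3 x hx]
  · refine ⟨?_, ?_, ?_⟩
    · apply IsCompact.isClosed
      apply IsCompact.image _ L.continuous
      exact hXh.inter_right (isClosed_eq hk continuous_const)
    · rintro _ ⟨x, hx, rfl⟩
      exact ⟨x, hx.1, rfl⟩
    · have hm : ∀ a : A, L.symm a.1 ∈ Xh := by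
        rintro ⟨_, x, hx, rfl⟩
        rw [L.symm_apply_apply]; exact hx
      let toX : A → Xh := fun a => ⟨L.symm a.1, hm a⟩
      have toXc : Continuous toX := (L.symm.continuous.comp continuous_subtype_val).subtype_mk _
      let ofX : Xh → A := fun x => ⟨L x.1, x.1, x.2, rfl⟩
      have ofXc : Continuous ofX := (L.continuous.comp continuous_subtype_val).subtype_mk _
      refine ⟨fun z => ofX (Φ (toX z.1, z.2)), ?_, ?_, ?_⟩
      · exact ofXc.comp (hΦ.comp ((toXc.comp continuous_fst).prodMk continuous_snd))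
      · intro a
        show ofX (Φ (toX a, 0)) = a
        rw [hΦ0]
        exact Subtype.ext (L.apply_symm_apply a.1)
      · intro a s hs h
        have h1 : L (Φ (toX a, s)).1 ∈ Z := h
        exact hΦ1 _ _ hs ((hmemZ _).mp h1).2
  · refine ⟨?_, ?_, ?_, ?_⟩
    · intro γ
      exact eh.continuous.comp ((hact γ).comp eh.symm.continuous)
    · intro C hC
      apply (hprop (eh.symm '' C) (hC.image eh.symm.continuous)).subset
      rintro γ ⟨a, ha1, ha2⟩
      rw [himg] at ha1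
      obtain ⟨ξ, h1, rfl⟩ := ha1
      exact ⟨ξ, h1, eh ξ, ha2, eh.symm_apply_apply ξ⟩
    · obtain ⟨C, hC, h1⟩ := hco
      refine ⟨eh '' C, hC.image eh.continuous, fun a => ?_⟩
      obtain ⟨γ, hγ⟩ := h1 (eh.symm a)
      exact ⟨γ, _, hγ, rfl⟩
    · intro C hC ε hε
      obtain ⟨c, hc0, hc⟩ : ∃ c : ℝ, 0 < c ∧ ∀ x y, dist (L x) (L y) ≤ c * dist x y := by
        refine ⟨‖(L : F →L[ℝ] EuclideanSpace ℝ (Fin n))‖ + 1, by positivity, fun x y => ?_⟩
        have h1 := (L : F →L[ℝ] EuclideanSpace ℝ (Fin n)).le_opNorm (x - y)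
        rw [dist_eq_norm, dist_eq_norm, ← map_sub]
        have h2 := norm_nonneg (x - y)
        calc ‖L (x - y)‖ ≤ ‖(L : F →L[ℝ] EuclideanSpace ℝ (Fin n))‖ * ‖x - y‖ := h1
          _ ≤ (‖(L : F →L[ℝ] EuclideanSpace ℝ (Fin n))‖ + 1) * ‖x - y‖ := by nlinarith
      apply (hnull (eh.symm '' C) (hC.image eh.symm.continuous) (ε / c) (by positivity)).subset
      intro γ hγ
      show ε / c ≤ _
      rw [div_le_iff₀ hc0]
      refine le_trans hγ ?_
      have hcpt : IsCompact (ι '' ((fun x : X => γ • x) '' (eh.symm '' C))) :=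
        ((hC.image eh.symm.continuous).image (hact γ)).image hind.continuous
      rw [himg]
      apply Metric.diam_le_of_forall_dist_le
      · exact mul_nonneg Metric.diam_nonneg hc0.le
      · rintro _ ⟨ξ, h1, rfl⟩ _ ⟨ξ', h2, rfl⟩
        show dist (L (ι ξ)) (L (ι ξ')) ≤ _
        refine (hc _ _).trans ?_
        rw [mul_comm]
        exact mul_le_mul_of_nonneg_right
          (Metric.dist_le_diam_of_mem hcpt.isBounded ⟨ξ, h1, rfl⟩ ⟨ξ', h2, rfl⟩) hc0.le

end Run7.h241
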