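import Mathlib
import Pool.Agent.Run7.h241.ModelD
import Pool.Agent.Run7.h241.ToZ

set_option autoImplicit false

namespace Run7.h241

open Filter Topology H30

/-- A space with a proper cocompact action of `K`, embedded in a normed space with null
translates. -/
structure KSp (K : Type) [Group K] {X0 : Type} [TopologicalSpace X0] [MulAction K X0]
    {E : Type} [NormedAddCommGroup E] (S : Set E) (p : E → ℝ) (ι : X0 → E) : Prop where
  ind : IsInducing ι
  inj : Function.Injective ι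
  rng : Set.range ι = {x | x ∈ S ∧ 0 < p x}
  act : ∀ k : K, Continuous fun x : X0 => k • x
  proper : ∀ C : Set X0, IsCompact C → {k : K | ((fun x => k • x) '' C ∩ C).Nonempty}.Finite
  cocpt : ∃ C : Set X0, IsCompact C ∧ ∀ x : X0, ∃ k : K, k • x ∈ C
  null : ∀ C : Set X0, IsCompact C → ∀ ε : ℝ, 0 < ε →
    {k : K | ε ≤ Metric.diam (ι '' ((fun x => k • x) '' C))}.Finite

/-- The relations. -/
def RK (K : Type) [Group K] {X0 : Type} [MulAction K X0] {E : Type} (ι : X0 → E)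
    (D : ℕ → Set X0) (n : ℕ) (x y : E) : Prop :=
  ∃ (k : K) (a b : X0), a ∈ D n ∧ b ∈ D n ∧ ι (k • a) = x ∧ ι (k • b) = y

section

variable {K : Type} [Group K] {X0 : Type} [TopologicalSpace X0] [MulAction K X0]
    {E : Type} [NormedAddCommGroup E] {S : Set E} {p : E → ℝ} {ι : X0 → E}

theorem KSp.compact_ge (hK : KSp K S p ι) (hS : IsCompact S) (hp : Continuous p) {δ : ℝ}
    (hδ : 0 < δ) : IsCompact {x | δ ≤ p (ι x)} := by
  rw [hK.ind.isCompact_iff]
  have : ι '' {x | δ ≤ p (ι x)} = S ∩ {x | δ ≤ p x} := by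
    ext x
    constructor
    · rintro ⟨y, hy, rfl⟩
      have h1 : ι y ∈ {x | x ∈ S ∧ 0 < p x} := by rw [← hK.rng]; exact ⟨y, rfl⟩
      exact ⟨h1.1, hy⟩
    · rintro ⟨h1, h2⟩
      have h3 : x ∈ Set.range ι := by rw [hK.rng]; exact ⟨h1, hδ.trans_le h2⟩
      obtain ⟨y, rfl⟩ := h3
      exact ⟨y, h2, rfl⟩
  rw [this]
  exact hS.inter_right (isClosed_le continuous_const hp)

theorem KSp.pos (hK : KSp K S p ι) (x : X0) : ι x ∈ S ∧ 0 < p (ι x) := by
  have h1 : ι x ∈ {x | x ∈ S ∧ 0 < p x} := by rw [← hK.rng]; exact ⟨x, rfl⟩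
  exact h1

theorem KSp.lower (hK : KSp K S p ι) (hp : Continuous p) {C : Set X0} (hC : IsCompact C) :
    ∃ δ > 0, ∀ x ∈ C, δ ≤ p (ι x) :=
  exists_pos_lower hC (f := fun x => p (ι x)) (hp.comp hK.ind.continuous).continuousOn
    (fun x _ => (hK.pos x).2)

theorem KSp.compact_bUnion (hK : KSp K S p ι) {F : Set K} (hF : F.Finite) {C : Set X0}
    (hC : IsCompact C) : IsCompact (⋃ k ∈ F, (fun x => k • x) '' C) :=
  hF.isCompact_biUnion (fun k _ => hC.image (hK.act k))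

theorem KSp.ctl (hK : KSp K S p ι) (hS : IsCompact S) (hp : Continuous p) {D : ℕ → Set X0}
    (hD : ∀ n, IsCompact (D n)) (hmono : Monotone D) : Ctl p (RK K ι D) where
  mono := by
    rintro m n hmn x y ⟨k, a, b, ha, hb, h1, h2⟩
    exact ⟨k, a, b, hmono hmn ha, hmono hmn hb, h1, h2⟩
  symm := by
    rintro n x y ⟨k, a, b, ha, hb, h1, h2⟩
    exact ⟨k, b, a, hb, ha, h2, h1⟩
  prop := by
    intro n δ hδ
    have hC : IsCompact (D n ∪ {x | δ ≤ p (ι x)}) := (hD n).union (hK.compact_ge hS hp hδ)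
    obtain ⟨δ', hδ', h1⟩ := hK.lower hp (hK.compact_bUnion (hK.proper _ hC) (hD n))
    refine ⟨δ', hδ', ?_⟩
    rintro x y ⟨k, a, b, ha, hb, rfl, rfl⟩ h2
    apply h1
    refine Set.mem_biUnion (x := k) ?_ ⟨b, hb, rfl⟩
    exact ⟨k • a, ⟨a, Or.inl ha, rfl⟩, Or.inr h2⟩
  small := by
    intro n ε hε
    obtain ⟨δ, hδ, h1⟩ := hK.lower hp (hK.compact_bUnion (hK.null _ (hD n) ε hε) (hD n))
    refine ⟨δ, hδ, ?_⟩
    rintro x y ⟨k, a, b, ha, hb, rfl, rfl⟩ h2
    have hk : k ∉ {k : K | ε ≤ Metric.diam (ι '' ((fun x => k • x) '' (D n)))} := by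
      intro h3
      have h4 := h1 (k • a) (Set.mem_biUnion (x := k) h3 ⟨a, ha, rfl⟩)
      linarith
    have h3 : Metric.diam (ι '' ((fun x => k • x) '' (D n))) < ε := not_le.mp hk
    have hcpt : IsCompact (ι '' ((fun x => k • x) '' (D n))) :=
      ((hD n).image (hK.act k)).image hK.ind.continuous
    exact lt_of_le_of_lt (Metric.dist_le_diam_of_mem hcpt.isBounded ⟨_, ⟨a, ha, rfl⟩, rfl⟩
      ⟨_, ⟨b, hb, rfl⟩, rfl⟩) h3

end

end Run7.h241
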