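import Mathlib
import Pool.Agent.Run7.h241.CoreA

set_option autoImplicit false

namespace Run7.h241

open Filter Topology H30

/-- The geometric data of a space over a tree. -/
structure Dat {Γ : Type} [Group Γ] (K : Subgroup Γ) {V : Type} [MulAction Γ V] (t : RTree V)
    {X0 X : Type} [TopologicalSpace X0] [TopologicalSpace X] [MulAction K X0] [MulAction Γ X]
    (h : X → X0) (π : X → V → ℝ) (g : X0 × (V → ℝ) → X) (J : X × ℝ → X) : Prop where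
  stab : ∀ γ : Γ, γ • t.root = t.root ↔ γ ∈ K
  wk : ∀ (γ : Γ) (u v : V), t.Wk 1 u v → t.Wk 1 (γ • u) (γ • v)
  act : ∀ γ : Γ, Continuous fun x : X => γ • x
  proper : ∀ C : Set X, IsCompact C → {γ : Γ | ((fun x => γ • x) '' C ∩ C).Nonempty}.Finite
  cocpt : ∃ C : Set X, IsCompact C ∧ ∀ x : X, ∃ γ : Γ, γ • x ∈ C
  hcont : Continuous h
  πcont : Continuous π
  πT : ∀ ξ, π ξ ∈ t.T
  πw : ∀ ξ w, π ξ ∈ t.cell w → ∀ γ : Γ, ∃ w', π (γ • ξ) ∈ t.cell w' ∧ t.Wk 1 (γ • w) w'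
  hctl : ∀ C : Set X, IsCompact C → ∃ D : Set X0, IsCompact D ∧
    ∀ (k : K), ∀ ξ ∈ C, ∃ x ∈ D, h ((k : Γ) • ξ) = k • x
  gcont : ContinuousOn g {z | z.2 ∈ t.T}
  gcell : ∀ (x : X0) (y : V → ℝ), y ∈ t.T → ∃ w, y ∈ t.cell w ∧ π (g (x, y)) ∈ t.cell w
  gctl : ∀ C : Set X0, IsCompact C → ∀ n : ℕ, ∃ D : Set X0, IsCompact D ∧
    ∀ (k : K), ∀ x ∈ C, ∀ y ∈ t.T, 1 / t.Q y ≤ n → ∃ x' ∈ D, h (g (k • x, y)) = k • x'
  Jcont : Continuous J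
  J0 : ∀ ξ r, r ≤ 0 → J (ξ, r) = ξ
  J1 : ∀ ξ r, 1 ≤ r → J (ξ, r) = g (h ξ, π ξ)
  Jcell : ∀ ξ r, ∃ w, π ξ ∈ t.cell w ∧ π (J (ξ, r)) ∈ t.cell w
  Jctl : ∀ C : Set X, IsCompact C → ∃ D : Set X0, IsCompact D ∧
    ∀ (k : K), ∀ ξ ∈ C, ∀ r, ∃ x ∈ D, h (J ((k : Γ) • ξ, r)) = k • x
  ae : AE (Set.univ : Set X)

namespace RTree

variable {V : Type} {t : RTree V}

theorem wk_root (v : V) : t.Wk (t.dep v) v t.root := by
  induction hn : t.dep v generalizing v with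
  | zero => rw [t.dep_eq_zero.mp hn]; exact Wk.refl _
  | succ n ih =>
    have hv : v ≠ t.root := by rintro rfl; rw [t.dep_root] at hn; omega
    have h1 := t.dep_par v hv
    exact Wk.step (Or.inr (Or.inr rfl)) (ih (t.par v) (by omega))

theorem wk_act {Γ : Type} [Group Γ] [MulAction Γ V]
    (h : ∀ (γ : Γ) (u v : V), t.Wk 1 u v → t.Wk 1 (γ • u) (γ • v)) (γ : Γ) {n : ℕ} {u v : V}
    (hw : t.Wk n u v) : t.Wk n (γ • u) (γ • v) := by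
  induction hw with
  | refl => exact Wk.refl _
  | @step n u v w h1 _ ih =>
    have h2 := h γ u v (Wk.step h1 (Wk.refl _))
    have h3 := h2.trans ih
    rwa [Nat.add_comm] at h3

end RTree

section

variable {Γ : Type} [Group Γ] {K : Subgroup Γ} {V : Type} [MulAction Γ V] {t : RTree V}
    {X0 X : Type} [TopologicalSpace X0] [TopologicalSpace X] [MulAction K X0] [MulAction Γ X]
    {h : X → X0} {π : X → V → ℝ} {g : X0 × (V → ℝ) → X} {J : X × ℝ → X}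

theorem Dat.cells (hd : Dat K t h π g J) {C : Set X} (hC : IsCompact C) :
    ∃ M : ℕ, ∀ ξ ∈ C, ∃ w, π ξ ∈ t.cell w ∧ t.dep w ≤ M := by
  obtain ⟨δ, hδ, h1⟩ := exists_pos_lower hC (f := fun ξ => t.Q (π ξ))
    (t.Q_cont.comp hd.πcont).continuousOn (fun ξ _ => (hd.πT ξ).2)
  refine ⟨⌊1 / δ⌋₊, fun ξ hξ => ?_⟩
  obtain ⟨w, hw⟩ := RTree.exists_cell (hd.πT ξ).1 (hd.πT ξ).2
  refine ⟨w, hw, Nat.le_floor ?_⟩
  exact (RTree.cell_inv_ge hw).trans (one_div_le_one_div_of_le hδ (h1 ξ hξ))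

theorem Dat.dep_bound (hd : Dat K t h π g J) {ξ : X} {w : V} {M : ℕ} (hw : π ξ ∈ t.cell w)
    (hM : t.dep w ≤ M) (γ : Γ) : (t.dep (γ • t.root) : ℝ) ≤ 1 / t.Q (π (γ • ξ)) + (M + 1) := by
  obtain ⟨w', h1, h2⟩ := hd.πw ξ w hw γ
  have h3 : t.Wk M t.root w := ((RTree.wk_root w).symm).mono hM
  have h4 := RTree.wk_act hd.wk γ h3
  have h5 := (h4.trans h2).symm.dep_le
  have h6 := RTree.cell_inv_ge h1
  have h7 : (t.dep (γ • t.root) : ℝ) ≤ t.dep w' + (M + 1) := by exact_mod_cast h5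
  linarith

theorem Dat.cosets (hd : Dat K t h π g J) (n : ℕ) : ∃ F : Set Γ, F.Finite ∧
    ∀ γ : Γ, t.dep (γ • t.root) ≤ n → ∃ δ ∈ F, ∃ k : K, γ = k * δ := by
  classical
  have hfin : {w : V | t.dep w ≤ n}.Finite := by
    have : {w : V | t.dep w ≤ n} = ⋃ i ∈ Set.Iic n, {w | t.dep w = i} := by
      ext w; simp
    rw [this]
    exact (Set.finite_Iic n).biUnion (fun i _ => t.lev_fin i)
  let s : V → Γ := fun w => if h : ∃ δ : Γ, δ • t.root = w then h.choose else 1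
  have hs : ∀ w, (∃ δ : Γ, δ • t.root = w) → s w • t.root = w := by
    intro w hw
    show (if h : ∃ δ : Γ, δ • t.root = w then h.choose else 1) • t.root = w
    rw [dif_pos hw]
    exact hw.choose_spec
  refine ⟨(fun w => (s w)⁻¹) '' {w | t.dep w ≤ n}, hfin.image _, ?_⟩
  intro γ hγ
  set w := γ⁻¹ • t.root with hw
  have h1 : t.dep w ≤ n := by
    have h2 : t.Wk n (γ • t.root) t.root := (RTree.wk_root (γ • t.root)).mono hγ
    have h3 := RTree.wk_act hd.wk γ⁻¹ h2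
    rw [inv_smul_smul] at h3
    have h4 := h3.dep_le
    rw [t.dep_root, Nat.zero_add] at h4
    exact h4
  have h2 : s w • t.root = w := hs w ⟨γ⁻¹, rfl⟩
  have h3 : γ * s w ∈ K := by
    rw [← hd.stab, mul_smul, h2, hw, smul_inv_smul]
  exact ⟨(s w)⁻¹, ⟨w, h1, rfl⟩, ⟨γ * s w, h3⟩, by simp⟩

/-- the part over a bounded subtree is cocompact -/
theorem Dat.bdd (hd : Dat K t h π g J) (n : ℕ) : ∃ C : Set X, IsCompact C ∧
    ∀ ξ, 1 / t.Q (π ξ) ≤ n → ∃ c ∈ C, ∃ k : K, ξ = (k : Γ) • c := by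
  obtain ⟨C, hC, h1⟩ := hd.cocpt
  obtain ⟨M, hM⟩ := hd.cells hC
  obtain ⟨F, hF, h2⟩ := hd.cosets (n + (M + 1))
  refine ⟨⋃ δ ∈ F, (fun x => δ • x) '' C, hF.isCompact_biUnion (fun δ _ => hC.image (hd.act δ)), ?_⟩
  intro ξ hξ
  obtain ⟨γ, hγ⟩ := h1 ξ
  obtain ⟨w, hw, hwM⟩ := hM _ hγ
  have h3 := hd.dep_bound hw hwM γ⁻¹
  rw [inv_smul_smul] at h3
  have h4 : t.dep (γ⁻¹ • t.root) ≤ n + (M + 1) := by
    have : (t.dep (γ⁻¹ • t.root) : ℝ) ≤ ((n + (M + 1) : ℕ) : ℝ) := by push_cast; linarith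
    exact_mod_cast this
  obtain ⟨δ, hδ, k, hk⟩ := h2 _ h4
  refine ⟨δ • (γ • ξ), Set.mem_biUnion (x := δ) hδ ⟨_, hγ, rfl⟩, k, ?_⟩
  rw [← mul_smul, ← hk, inv_smul_smul]

end

end Run7.h241
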