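import Mathlib
import Pool.Agent.Run7.h241.CoreB
import Pool.Agent.Run7.h241.TreeD

set_option autoImplicit false

namespace Run7.h241

open Filter Topology H30

/-- A space over a discrete set with an action and coordinates. -/
structure FSp (Γ : Type) [Group Γ] {U M E : Type} [MulAction Γ U] [TopologicalSpace M]
    [MulAction Γ M] [NormedAddCommGroup E] (p : M → U) (j : M → E) : Prop where
  popen : ∀ u, IsOpen (p ⁻¹' {u})
  pact : ∀ (γ : Γ) x, p (γ • x) = γ • p x
  act : ∀ γ : Γ, Continuous fun x : M => γ • x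
  jcont : Continuous j
  jinj : ∀ x x', p x = p x' → j x = j x' → x = x'
  jprop : ∀ u (r : ℝ), IsCompact {x | p x = u ∧ ‖j x‖ ≤ r}
  ae : ∀ u, AE (p ⁻¹' {u})
  proper : ∀ C : Set M, IsCompact C → {γ : Γ | ((fun x => γ • x) '' C ∩ C).Nonempty}.Finite
  cocpt : ∃ C : Set M, IsCompact C ∧ ∀ x : M, ∃ γ : Γ, γ • x ∈ C

/-- The data of a tree of spaces. -/
structure TData (V0 V1 M0 M1 E0 E1 : Type) where
  t : RTree (V0 ⊕ V1)
  nb : Bool → V0 → V1
  p0 : M0 → V0
  p1 : M1 → V1
  j0 : M0 → E0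
  j1 : M1 → E1
  f : Bool → M0 → M1

/-- The combinatorial hypotheses. -/
structure TTree {V0 V1 : Type} (t : RTree (V0 ⊕ V1)) (nb : Bool → V0 → V1) : Prop where
  nbne : ∀ v, nb true v ≠ nb false v
  edge : ∀ b v, t.par (Sum.inl v) = Sum.inr (nb b v) ∨ t.par (Sum.inr (nb b v)) = Sum.inl v
  edge' : ∀ w, w ≠ t.root → ∃ b v, (w = Sum.inl v ∧ t.par w = Sum.inr (nb b v)) ∨
    (w = Sum.inr (nb b v) ∧ t.par w = Sum.inl v)
  root : ∃ r, t.root = Sum.inl r

/-- The action on the set of vertices. -/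
instance sumAct (Γ : Type) [Group Γ] (V0 V1 : Type) [MulAction Γ V0] [MulAction Γ V1] :
    MulAction Γ (V0 ⊕ V1) where
  smul γ w := Sum.map (fun v => γ • v) (fun v => γ • v) w
  one_smul w := by
    cases w with
    | inl v => exact congrArg Sum.inl (one_smul Γ v)
    | inr v => exact congrArg Sum.inr (one_smul Γ v)
  mul_smul γ γ' w := by
    cases w with
    | inl v => exact congrArg Sum.inl (mul_smul γ γ' v)
    | inr v => exact congrArg Sum.inr (mul_smul γ γ' v)

theorem smul_inl {Γ : Type} [Group Γ] {V0 V1 : Type} [MulAction Γ V0] [MulAction Γ V1]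
    (γ : Γ) (v : V0) : γ • (Sum.inl v : V0 ⊕ V1) = Sum.inl (γ • v) := rfl

theorem smul_inr {Γ : Type} [Group Γ] {V0 V1 : Type} [MulAction Γ V0] [MulAction Γ V1]
    (γ : Γ) (v : V1) : γ • (Sum.inr v : V0 ⊕ V1) = Sum.inr (γ • v) := rfl

namespace TTree

variable {V0 V1 : Type} {t : RTree (V0 ⊕ V1)} {nb : Bool → V0 → V1}

open Classical in
/-- the child end of an edge -/
noncomputable def child (t : RTree (V0 ⊕ V1)) (nb : Bool → V0 → V1) (b : Bool) (v : V0) :
    V0 ⊕ V1 :=
  if t.par (Sum.inl v) = Sum.inr (nb b v) then Sum.inl v else Sum.inr (nb b v)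

open Classical in
/-- the weight at the child -/
noncomputable def wgt (t : RTree (V0 ⊕ V1)) (nb : Bool → V0 → V1) (b : Bool) (v : V0) (s : ℝ) :
    ℝ :=
  if t.par (Sum.inl v) = Sum.inr (nb b v) then s else 1 - s

open Classical in
/-- the point of an edge -/
noncomputable def ept (t : RTree (V0 ⊕ V1)) (nb : Bool → V0 → V1) (b : Bool) (v : V0) (s : ℝ) :
    V0 ⊕ V1 → ℝ :=
  Function.update (t.vt (t.par (child t nb b v))) (child t nb b v) (wgt t nb b v s)

theorem par_ne {w : V0 ⊕ V1} (hw : w ≠ t.root) : t.par w ≠ w := by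
  intro h
  have := t.dep_par w hw
  rw [h] at this; omega

section

variable (h : TTree t nb)
include h

theorem inr_ne_root (u : V1) : (Sum.inr u : V0 ⊕ V1) ≠ t.root := by
  obtain ⟨r, hr⟩ := h.root
  rw [hr]; exact Sum.inr_ne_inl

/-- the two shapes of an edge -/
theorem shape (b : Bool) (v : V0) :
    (child t nb b v = Sum.inl v ∧ t.par (child t nb b v) = Sum.inr (nb b v) ∧
      (Sum.inl v : V0 ⊕ V1) ≠ t.root ∧ ∀ s, wgt t nb b v s = s) ∨
    (child t nb b v = Sum.inr (nb b v) ∧ t.par (child t nb b v) = Sum.inl v ∧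
      (Sum.inr (nb b v) : V0 ⊕ V1) ≠ t.root ∧ ∀ s, wgt t nb b v s = 1 - s) := by
  classical
  by_cases hp : t.par (Sum.inl v) = Sum.inr (nb b v)
  · left
    have hc : child t nb b v = Sum.inl v := if_pos hp
    refine ⟨hc, by rw [hc, hp], ?_, fun s => if_pos hp⟩
    intro hr
    rw [hr, t.par_root] at hp
    exact h.inr_ne_root _ hp.symm
  · right
    have hc : child t nb b v = Sum.inr (nb b v) := if_neg hp
    refine ⟨hc, ?_, h.inr_ne_root _, fun s => if_neg hp⟩
    rw [hc]
    exact (h.edge b v).resolve_left hp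

theorem child_ne_root (b : Bool) (v : V0) : child t nb b v ≠ t.root := by
  rcases h.shape b v with ⟨h1, _, h3, _⟩ | ⟨h1, _, h3, _⟩
  · rw [h1]; exact h3
  · rw [h1]; exact h3

theorem child_inj {b b' : Bool} {v v' : V0} (he : child t nb b v = child t nb b' v') :
    b = b' ∧ v = v' := by
  have hb : ∀ b b' : Bool, ∀ v, nb b v = nb b' v → b = b' := by
    intro b b' v hnb
    cases b <;> cases b'
    · rfl
    · exact absurd hnb.symm (h.nbne v)
    · exact absurd hnb (h.nbne v)
    · rfl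
  rcases h.shape b v with ⟨h1, h2, _, _⟩ | ⟨h1, h2, _, _⟩ <;>
    rcases h.shape b' v' with ⟨h1', h2', _, _⟩ | ⟨h1', h2', _, _⟩
  · rw [h1, h1'] at he
    have hv := Sum.inl_injective he
    subst hv
    rw [h1] at h2
    rw [h1'] at h2'
    rw [h2] at h2'
    exact ⟨hb _ _ _ (Sum.inr_injective h2'), rfl⟩
  · rw [h1, h1'] at he; exact absurd he Sum.inl_ne_inr
  · rw [h1, h1'] at he; exact absurd he Sum.inr_ne_inl
  · rw [h1, h1'] at he
    rw [h1] at h2
    rw [h1'] at h2'
    rw [he, h2'] at h2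
    have hv := Sum.inl_injective h2
    subst hv
    exact ⟨hb _ _ _ (Sum.inr_injective he), rfl⟩

theorem wgt_mem {b : Bool} {v : V0} {s : ℝ} (h0 : 0 ≤ s) (h1 : s ≤ 1) :
    0 ≤ wgt t nb b v s ∧ wgt t nb b v s ≤ 1 := by
  rcases h.shape b v with ⟨_, _, _, h4⟩ | ⟨_, _, _, h4⟩
  · rw [h4]; exact ⟨h0, h1⟩
  · rw [h4]; constructor <;> linarith

theorem wgt_Ioo {b : Bool} {v : V0} {s : ℝ} (h0 : 0 < s) (h1 : s < 1) :
    0 < wgt t nb b v s ∧ wgt t nb b v s < 1 := by
  rcases h.shape b v with ⟨_, _, _, h4⟩ | ⟨_, _, _, h4⟩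
  · rw [h4]; exact ⟨h0, h1⟩
  · rw [h4]; constructor <;> linarith

theorem wgt_inj {b : Bool} {v : V0} {s s' : ℝ} (he : wgt t nb b v s = wgt t nb b v s') :
    s = s' := by
  rcases h.shape b v with ⟨_, _, _, h4⟩ | ⟨_, _, _, h4⟩
  · rwa [h4, h4] at he
  · rw [h4, h4] at he; linarith

theorem ept_mem {b : Bool} {v : V0} {s : ℝ} (h0 : 0 ≤ s) (h1 : s ≤ 1) :
    ept t nb b v s ∈ t.cell (child t nb b v) := by
  classical
  obtain ⟨h2, h3⟩ := h.wgt_mem (b := b) (v := v) h0 h1
  have := RTree.update_mem (t := t) (h.child_ne_root b v) h2 h3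
  unfold ept
  convert this

omit h in
theorem ept_child (b : Bool) (v : V0) (s : ℝ) :
    ept t nb b v s (child t nb b v) = wgt t nb b v s := by
  classical
  unfold ept
  rw [Function.update_self]

theorem ept_one (b : Bool) (v : V0) : ept t nb b v 1 = t.vt (Sum.inl v) := by
  have hm := h.ept_mem (b := b) (v := v) zero_le_one le_rfl
  have hc := ept_child (t := t) (nb := nb) b v 1
  rcases h.shape b v with ⟨h1, h2, h3, h4⟩ | ⟨h1, h2, h3, h4⟩
  · rw [h4] at hc
    rw [RTree.cell_eq_vt hm hc, h1]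
  · rw [h4, sub_self] at hc
    rw [RTree.cell_eq_vt_par (h.child_ne_root b v) hm hc, h2]

theorem ept_zero (b : Bool) (v : V0) : ept t nb b v 0 = t.vt (Sum.inr (nb b v)) := by
  have hm := h.ept_mem (b := b) (v := v) le_rfl zero_le_one
  have hc := ept_child (t := t) (nb := nb) b v 0
  rcases h.shape b v with ⟨h1, h2, h3, h4⟩ | ⟨h1, h2, h3, h4⟩
  · rw [h4] at hc
    rw [RTree.cell_eq_vt_par (h.child_ne_root b v) hm hc, h2]
  · rw [h4, sub_zero] at hc
    rw [RTree.cell_eq_vt hm hc, h1]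

omit h in
theorem ept_cont (b : Bool) (v : V0) : Continuous (ept t nb b v) := by
  classical
  unfold ept
  apply Continuous.update continuous_const _
  unfold wgt
  split_ifs
  · exact continuous_id
  · exact continuous_const.sub continuous_id

end

end TTree

namespace RTree

variable {V : Type} {t : RTree V}

theorem vt_inj {v v' : V} (h : t.vt v = t.vt v') : v = v' := by
  rcases le_total (t.dep v) (t.dep v') with hd | hd
  · rcases eq_or_lt_of_le hd with h1 | h1
    · by_contra hne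
      have h2 : t.vt v' v = 0 := vt_ne h1.symm hne
      rw [← h, vt_self] at h2
      exact one_ne_zero h2
    · have h2 : t.vt v v' = 0 := vt_deep h1
      rw [h, vt_self] at h2
      exact absurd h2 one_ne_zero
  · rcases eq_or_lt_of_le hd with h1 | h1
    · by_contra hne
      have h2 : t.vt v' v = 0 := vt_ne h1 hne
      rw [← h, vt_self] at h2
      exact one_ne_zero h2
    · have h2 : t.vt v' v = 0 := vt_deep h1
      rw [← h, vt_self] at h2
      exact absurd h2 one_ne_zero

theorem vt_mem_cell_iff {v w : V} (h : t.vt v ∈ t.cell w) : w = v ∨ t.par w = v := by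
  by_cases hw : w = t.root
  · subst hw
    left
    exact (vt_inj (cell_root h)).symm
  · have h0 := (h.1.1 w)
    by_cases h1 : ∃ k, t.par^[k] v = w
    · have h2 : t.vt v w = 1 := if_pos h1
      exact Or.inl (vt_inj (cell_eq_vt h h2)).symm
    · have h2 : t.vt v w = 0 := if_neg h1
      exact Or.inr (vt_inj (cell_eq_vt_par hw h h2)).symm

/-- interior points lie in one cell only -/
theorem cell_unique {c : V → ℝ} {v w : V} (hv : c ∈ t.cell v) (hw : c ∈ t.cell w)
    (h0 : 0 < c v) (h1 : c v < 1) : w = v := by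
  by_contra hne
  have h2 := cell_apply hw (u := v) (fun h => hne h.symm)
  unfold vt at h2
  split_ifs at h2
  · linarith
  · linarith

theorem wk_one_iff {u v : V} : t.Wk 1 u v ↔ (u = v ∨ t.par v = u ∨ t.par u = v) := by
  constructor
  · intro h
    cases h with
    | step h1 h2 =>
      cases h2
      exact h1
  · intro h
    exact Wk.step h (Wk.refl _)

end RTree

end Run7.h241
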