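import Mathlib
import Pool.Agent.Helper270.HNN
import Pool.Agent.Run7.h241.TSpA

set_option autoImplicit false

namespace Run7.h241

open Pool.Agent.Helper270

/-- rooting a tree -/
theorem exists_rtree {W : Type} {T : SimpleGraph W} (hT : T.IsTree)
    (hfin : ∀ w, {w' | T.Adj w w'}.Finite) (r : W) :
    ∃ t : RTree W, t.root = r ∧ (∀ v, v ≠ r → T.Adj v (t.par v)) ∧
      ∀ u v, T.Adj u v → t.par u = v ∨ t.par v = u := by
  classical
  have hex : ∀ v, v ≠ r → ∃ u, T.Adj v u ∧ T.dist r v = T.dist r u + 1 := by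
    intro v hv
    obtain ⟨q, hq0, hqn, hadj, hd, _⟩ := Tree.exists_geod hT r v
    have hpos : 0 < T.dist r v := by
      rcases Nat.eq_zero_or_pos (T.dist r v) with h0 | h0
      · exact absurd (hT.connected.dist_eq_zero_iff.mp h0).symm hv
      · exact h0
    have h1 := hadj (T.dist r v - 1) (by omega)
    rw [show T.dist r v - 1 + 1 = T.dist r v from by omega, hqn] at h1
    have h2 := (hd (T.dist r v - 1) (by omega)).1
    exact ⟨_, h1.symm, by omega⟩
  let par : W → W := fun v => if h : v ≠ r then (hex v h).choose else r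
  have hpar : ∀ v, v ≠ r → T.Adj v (par v) ∧ T.dist r v = T.dist r (par v) + 1 := by
    intro v hv
    have e : par v = (hex v hv).choose := dif_pos hv
    rw [e]
    exact (hex v hv).choose_spec
  have hparr : par r = r := dif_neg (by simp)
  have hlev : ∀ n, {v | T.dist r v = n}.Finite := by
    intro n
    induction n with
    | zero =>
      apply (Set.finite_singleton r).subset
      intro v hv
      exact (hT.connected.dist_eq_zero_iff.mp hv).symm
    | succ n ih =>
      apply (ih.biUnion (fun w _ => hfin w)).subset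
      intro v hv
      have hv' : T.dist r v = n + 1 := hv
      have hvr : v ≠ r := by
        rintro rfl
        rw [SimpleGraph.dist_self] at hv'
        omega
      obtain ⟨h1, h2⟩ := hpar v hvr
      refine Set.mem_biUnion (x := par v) ?_ h1.symm
      show T.dist r (par v) = n
      omega
  refine ⟨⟨r, par, fun v => T.dist r v, SimpleGraph.dist_self, hparr,
    fun v hv => (hpar v hv).2.symm, hlev⟩, rfl, fun v hv => (hpar v hv).1, ?_⟩
  intro u v huv
  show par u = v ∨ par v = u
  rcases hT.dist_eq_dist_add_one_of_adj r huv with h1 | h1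
  · left
    have hur : u ≠ r := by
      rintro rfl
      rw [SimpleGraph.dist_self] at h1
      omega
    obtain ⟨h2, h3⟩ := hpar u hur
    exact Tree.parent_unique hT h2.symm huv.symm h3 h1
  · right
    have hvr : v ≠ r := by
      rintro rfl
      rw [SimpleGraph.dist_self] at h1
      omega
    obtain ⟨h2, h3⟩ := hpar v hvr
    exact Tree.parent_unique hT h2.symm huv h3 h1

/-- The bipartite graph. -/
def bip {V0 V1 : Type} (nb : Bool → V0 → V1) : SimpleGraph (V0 ⊕ V1) where
  Adj x y := ∃ b v, (x = Sum.inl v ∧ y = Sum.inr (nb b v)) ∨ (y = Sum.inl v ∧ x = Sum.inr (nb b v))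
  symm := ⟨fun x y h => by obtain ⟨b, v, h⟩ := h; exact ⟨b, v, h.symm⟩⟩
  loopless := ⟨fun x h => by
    obtain ⟨b, v, ⟨h1, h2⟩ | ⟨h1, h2⟩⟩ := h
    · rw [h1] at h2; exact Sum.inl_ne_inr h2
    · rw [h1] at h2; exact Sum.inl_ne_inr h2⟩

theorem bip_adj {V0 V1 : Type} (nb : Bool → V0 → V1) (b : Bool) (v : V0) :
    (bip nb).Adj (Sum.inl v) (Sum.inr (nb b v)) := ⟨b, v, Or.inl ⟨rfl, rfl⟩⟩

theorem exists_ttree {V0 V1 : Type} {nb : Bool → V0 → V1} (hT : (bip nb).IsTree)
    (hne : ∀ v, nb true v ≠ nb false v) (hfin : ∀ u, {v | ∃ b, nb b v = u}.Finite) (r : V0) :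
    ∃ t : RTree (V0 ⊕ V1), t.root = Sum.inl r ∧ TTree t nb := by
  obtain ⟨t, h1, h2, h3⟩ := exists_rtree hT (by
    rintro (v | u)
    · have : {w' | (bip nb).Adj (Sum.inl v) w'} ⊆ Set.range (fun b : Bool =>
          (Sum.inr (nb b v) : V0 ⊕ V1)) := by
        rintro w' ⟨b, v', ⟨h1, h2⟩ | ⟨h1, h2⟩⟩
        · rw [← Sum.inl_injective h1] at h2
          exact ⟨b, h2.symm⟩
        · exact absurd h2 Sum.inl_ne_inr
      exact (Set.finite_range _).subset this
    · have : {w' | (bip nb).Adj (Sum.inr u) w'} ⊆ (fun v => (Sum.inl v : V0 ⊕ V1)) ''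
          {v | ∃ b, nb b v = u} := by
        rintro w' ⟨b, v', ⟨h1, h2⟩ | ⟨h1, h2⟩⟩
        · exact absurd h1 Sum.inr_ne_inl
        · exact ⟨v', ⟨b, (Sum.inr_injective h2).symm⟩, h1.symm⟩
      exact ((hfin u).image _).subset this) (Sum.inl r)
  refine ⟨t, h1, hne, ?_, ?_, ⟨r, h1⟩⟩
  · intro b v
    exact h3 _ _ (bip_adj nb b v)
  · intro w hw
    rw [h1] at hw
    obtain ⟨b, v, h4 | h4⟩ := h2 w hw
    · exact ⟨b, v, Or.inl h4⟩
    · exact ⟨b, v, Or.inr ⟨h4.2, h4.1⟩⟩

/-- subdividing a tree -/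
theorem bip_tree {V0 V1 : Type} {nb : Bool → V0 → V1} {T : SimpleGraph V1} (hT : T.IsTree)
    (o : V1) (hadj : ∀ v, T.Adj (nb true v) (nb false v))
    (hsurj : ∀ u u', T.Adj u u' → ∃ v, (u = nb true v ∧ u' = nb false v) ∨
      (u' = nb true v ∧ u = nb false v))
    (hinj : ∀ v v', (nb true v = nb true v' ∧ nb false v = nb false v') ∨
      (nb true v = nb false v' ∧ nb false v = nb true v') → v = v') : (bip nb).IsTree := by
  classical
  -- the parent in T
  have hex : ∀ u, u ≠ o → ∃ u', T.Adj u u' ∧ T.dist o u = T.dist o u' + 1 := by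
    intro v hv
    obtain ⟨q, hq0, hqn, hadj, hd, _⟩ := Tree.exists_geod hT o v
    have hpos : 0 < T.dist o v := by
      rcases Nat.eq_zero_or_pos (T.dist o v) with h0 | h0
      · exact absurd (hT.connected.dist_eq_zero_iff.mp h0).symm hv
      · exact h0
    have h1 := hadj (T.dist o v - 1) (by omega)
    rw [show T.dist o v - 1 + 1 = T.dist o v from by omega, hqn] at h1
    have h2 := (hd (T.dist o v - 1) (by omega)).1
    exact ⟨_, h1.symm, by omega⟩
  have hex2 : ∀ u, u ≠ o → ∃ v u', ((u = nb true v ∧ u' = nb false v) ∨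
      (u' = nb true v ∧ u = nb false v)) ∧ T.dist o u = T.dist o u' + 1 := by
    intro u hu
    obtain ⟨u', h1, h2⟩ := hex u hu
    obtain ⟨v, hv⟩ := hsurj u u' h1
    exact ⟨v, u', hv, h2⟩
  let up : V0 → V1 := fun v => if T.dist o (nb true v) < T.dist o (nb false v) then nb true v
    else nb false v
  let low : V0 → V1 := fun v => if T.dist o (nb true v) < T.dist o (nb false v) then nb false v
    else nb true v
  have hul : ∀ v, ((up v = nb true v ∧ low v = nb false v) ∨
      (up v = nb false v ∧ low v = nb true v)) ∧ T.dist o (low v) = T.dist o (up v) + 1 := by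
    intro v
    by_cases h : T.dist o (nb true v) < T.dist o (nb false v)
    · have e1 : up v = nb true v := if_pos h
      have e2 : low v = nb false v := if_pos h
      refine ⟨Or.inl ⟨e1, e2⟩, ?_⟩
      rw [e1, e2]
      rcases hT.dist_eq_dist_add_one_of_adj o (hadj v) with h1 | h1 <;> omega
    · have e1 : up v = nb false v := if_neg h
      have e2 : low v = nb true v := if_neg h
      refine ⟨Or.inr ⟨e1, e2⟩, ?_⟩
      rw [e1, e2]
      rcases hT.dist_eq_dist_add_one_of_adj o (hadj v) with h1 | h1 <;> omega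
  have hadjul : ∀ v, T.Adj (up v) (low v) := by
    intro v
    rcases (hul v).1 with ⟨e1, e2⟩ | ⟨e1, e2⟩
    · rw [e1, e2]; exact hadj v
    · rw [e1, e2]; exact (hadj v).symm
  let Ed : V1 → V0 ⊕ V1 := fun u => if h : u ≠ o then Sum.inl (hex2 u h).choose else Sum.inr u
  have hEd : ∀ u, u ≠ o → ∃ v, Ed u = Sum.inl v ∧ low v = u := by
    intro u hu
    have e : Ed u = Sum.inl (hex2 u hu).choose := dif_pos hu
    refine ⟨_, e, ?_⟩
    obtain ⟨u', h1, h2⟩ := (hex2 u hu).choose_spec
    set v := (hex2 u hu).choose with hv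
    obtain ⟨h3, h4⟩ := hul v
    rcases h1 with ⟨k1, k2⟩ | ⟨k1, k2⟩ <;> rcases h3 with ⟨l1, l2⟩ | ⟨l1, l2⟩
    · rw [l1, l2, ← k1, ← k2] at h4; omega
    · rw [l2, ← k1]
    · rw [l2, ← k2]
    · rw [l1, l2, ← k1, ← k2] at h4; omega
  have hlowinj : ∀ v v', low v = low v' → v = v' := by
    intro v v' h
    have h1 := (hul v).2
    have h2 := (hul v').2
    have h3 : up v = up v' := by
      apply Tree.parent_unique hT (hadjul v) (v := low v) _ h1
      · rw [h]; exact h2
      · rw [h]; exact hadjul v'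
    apply hinj
    rcases (hul v).1 with ⟨e1, e2⟩ | ⟨e1, e2⟩ <;> rcases (hul v').1 with ⟨e3, e4⟩ | ⟨e3, e4⟩
    · left; exact ⟨by rw [← e1, ← e3, h3], by rw [← e2, ← e4, h]⟩
    · right; exact ⟨by rw [← e1, ← e3, h3], by rw [← e2, ← e4, h]⟩
    · right; exact ⟨by rw [← e2, ← e4, h], by rw [← e1, ← e3, h3]⟩
    · left; exact ⟨by rw [← e2, ← e4, h], by rw [← e1, ← e3, h3]⟩
  let par : V0 ⊕ V1 → V0 ⊕ V1 := fun w => match w with
    | Sum.inl v => Sum.inr (up v)
    | Sum.inr u => Ed u
  let lev : V0 ⊕ V1 → ℕ := fun w => match w with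
    | Sum.inl v => 2 * T.dist o (up v) + 1
    | Sum.inr u => 2 * T.dist o u
  refine HNN.isTree_of_parent (par := par) (o := Sum.inr o) lev ?_ ?_ ?_
  · rintro (v | u) hw
    · rcases (hul v).1 with ⟨e1, e2⟩ | ⟨e1, e2⟩
      · exact ⟨true, v, Or.inl ⟨rfl, by show Sum.inr (up v) = _; rw [e1]⟩⟩
      · exact ⟨false, v, Or.inl ⟨rfl, by show Sum.inr (up v) = _; rw [e1]⟩⟩
    · have hu : u ≠ o := fun h => hw (by rw [h])
      obtain ⟨v, h1, h2⟩ := hEd u hu
      show (bip nb).Adj (Sum.inr u) (Ed u)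
      rw [h1]
      rcases (hul v).1 with ⟨e1, e2⟩ | ⟨e1, e2⟩
      · exact ⟨false, v, Or.inr ⟨rfl, by rw [← h2, e2]⟩⟩
      · exact ⟨true, v, Or.inr ⟨rfl, by rw [← h2, e2]⟩⟩
  · rintro (v | u) hw
    · show 2 * T.dist o (up v) < 2 * T.dist o (up v) + 1
      omega
    · have hu : u ≠ o := fun h => hw (by rw [h])
      obtain ⟨v, h1, h2⟩ := hEd u hu
      show lev (Ed u) < 2 * T.dist o u
      rw [h1]
      show 2 * T.dist o (up v) + 1 < 2 * T.dist o u
      have := (hul v).2
      rw [h2] at this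
      omega
  · have key : ∀ b v, ((Sum.inl v : V0 ⊕ V1) ≠ Sum.inr o ∧ par (Sum.inl v) = Sum.inr (nb b v)) ∨
        ((Sum.inr (nb b v) : V0 ⊕ V1) ≠ Sum.inr o ∧ par (Sum.inr (nb b v)) = Sum.inl v) := by
      intro b v
      by_cases hb : up v = nb b v
      · left
        exact ⟨Sum.inl_ne_inr, by show Sum.inr (up v) = _; rw [hb]⟩
      · right
        have hl : low v = nb b v := by
          rcases (hul v).1 with ⟨e1, e2⟩ | ⟨e1, e2⟩
          · cases b
            · exact e2
            · exact absurd e1 hb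
          · cases b
            · exact absurd e1 hb
            · exact e2
        have hne : nb b v ≠ o := by
          intro h
          have := (hul v).2
          rw [hl, h, SimpleGraph.dist_self] at this
          omega
        refine ⟨fun h => hne (Sum.inr_injective h), ?_⟩
        obtain ⟨v', h1, h2⟩ := hEd _ hne
        show Ed (nb b v) = _
        rw [h1, hlowinj v' v (by rw [h2, hl])]
    rintro x y ⟨b, v, ⟨rfl, rfl⟩ | ⟨rfl, rfl⟩⟩
    · exact key b v
    · exact (key b v).symm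

end Run7.h241
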