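import Mathlib
import Pool.Agent.Run7.h241.CoreB

set_option autoImplicit false

namespace Run7.h241

open Filter Topology H30

theorem core_main {Γ : Type} [Group Γ] {K : Subgroup Γ} {V : Type} [MulAction Γ V] {t : RTree V}
    {X0 X : Type} [TopologicalSpace X0] [TopologicalSpace X] [MulAction K X0] [MulAction Γ X]
    {E : Type} [NormedAddCommGroup E] [NormedSpace ℝ E] [FiniteDimensional ℝ E]
    {E' : Type} [NormedAddCommGroup E'] [NormedSpace ℝ E'] [FiniteDimensional ℝ E']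
    {S : Set E} {p : E → ℝ} {H : E × ℝ → E} {x0 : E} {ι : X0 → E}
    {h : X → X0} {π : X → V → ℝ} {g : X0 × (V → ℝ) → X} {J : X × ℝ → X} {e : X → E'}
    [WeaklyLocallyCompactSpace X] [SigmaCompactSpace X]
    (hP : Push S p H x0) (hK : KSp K S p ι) (hd : Dat K t h π g J)
    (he : Continuous e) (he1 : ∀ ξ, ‖e ξ‖ ≤ 1)
    (hinj : ∀ ξ ξ', h ξ = h ξ' → π ξ = π ξ' → e ξ = e ξ' → ξ = ξ') : HasZStructure Γ := by
  classical
  have hS := hP.cpt
  have hpc := hP.pcont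
  -- exhaustions
  let Cx : CompactExhaustion X := CompactExhaustion.choice X
  obtain ⟨B0, hB0, hB0'⟩ := hK.cocpt
  choose Dg hDg hDg' using hd.gctl B0 hB0
  choose Cb hCb hCb' using hd.bdd
  choose Dh1 hDh1 hDh1' using fun n => hd.hctl (Cb n) (hCb n)
  choose DJ hDJ hDJ' using fun n => hd.Jctl (Cb n) (hCb n)
  choose F hF hF' using hd.cosets
  choose Dh2 hDh2 hDh2' using fun n => hd.hctl (⋃ δ ∈ F n, (fun x => δ • x) '' Cx n)
    ((hF n).isCompact_biUnion (fun δ _ => (Cx.isCompact n).image (hd.act δ)))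
  let D' : ℕ → Set X0 := fun j => B0 ∪ Dg j ∪ Dh1 j ∪ DJ j ∪ Dh2 j
  let D : ℕ → Set X0 := fun n => ⋃ j ∈ Set.Iic n, D' j
  have hDc : ∀ n, IsCompact (D n) := fun n => (Set.finite_Iic n).isCompact_biUnion
    (fun j _ => ((((hB0.union (hDg j)).union (hDh1 j)).union (hDJ j)).union (hDh2 j)))
  have hDm : Monotone D := by
    intro m n hmn
    exact Set.biUnion_subset_biUnion_left (Set.Iic_subset_Iic.mpr hmn)
  have hD'D : ∀ n, D' n ⊆ D n := fun n x hx => Set.mem_biUnion (x := n) (Set.mem_Iic.mpr le_rfl) hx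
  have sB0 : ∀ n, B0 ⊆ D n := fun n x hx => hD'D n (Or.inl (Or.inl (Or.inl (Or.inl hx))))
  have sDg : ∀ n, Dg n ⊆ D n := fun n x hx => hD'D n (Or.inl (Or.inl (Or.inl (Or.inr hx))))
  have sDh1 : ∀ n, Dh1 n ⊆ D n := fun n x hx => hD'D n (Or.inl (Or.inl (Or.inr hx)))
  have sDJ : ∀ n, DJ n ⊆ D n := fun n x hx => hD'D n (Or.inl (Or.inr hx))
  have sDh2 : ∀ n, Dh2 n ⊆ D n := fun n x hx => hD'D n (Or.inr hx)
  set R := RK K ι D with hRdef
  have hR : Ctl p R := hK.ctl hS hpc hDc hDm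
  -- the inverse of ι
  haveI : Nonempty X0 := by
    have h1 : H (x0, 1) ∈ Set.range ι := by
      rw [hK.rng]; exact ⟨hP.mem _, hP.pos _ 1 one_pos⟩
    obtain ⟨y, _⟩ := h1
    exact ⟨y⟩
  have hinv := Function.leftInverse_invFun hK.inj
  have hinvc : ContinuousOn (Function.invFun ι) {x | x ∈ S ∧ 0 < p x} := by
    rw [hK.ind.continuousOn_iff]
    refine continuousOn_id.congr ?_
    intro x hx
    rw [← hK.rng] at hx
    obtain ⟨y, rfl⟩ := hx
    show ι (Function.invFun ι (ι y)) = ι y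
    rw [hinv y]
  have hfloor : ∀ y ∈ t.T, 1 / t.Q y ≤ (⌊1 / t.Q y + (1 : ℕ)⌋₊ : ℝ) := by
    intro y _
    have := Nat.lt_floor_add_one (1 / t.Q y + (1 : ℕ))
    push_cast at this ⊢
    linarith
  have hM : Model t S p R (fun ξ => ι (h ξ)) π e (fun z => g (Function.invFun ι z.1, z.2)) J 1 := by
    constructor
    · exact hK.ind.continuous.comp hd.hcont
    · exact hd.πcont
    · exact he
    · exact fun ξ => (hK.pos _).1
    · exact fun ξ => (hK.pos _).2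
    · exact hd.πT
    · exact he1
    · exact fun ξ ξ' h1 h2 h3 => hinj ξ ξ' (hK.inj h1) h2 h3
    · -- properness
      intro δ hδ
      set n := ⌈1 / δ⌉₊ with hn
      have hCd := hK.compact_ge hS hpc hδ
      have hfin := hK.proper _ ((hDh1 n).union hCd)
      have hc2 : IsCompact (⋃ k ∈ {k : K | ((fun x => k • x) '' (Dh1 n ∪ {x | δ ≤ p (ι x)}) ∩
          (Dh1 n ∪ {x | δ ≤ p (ι x)})).Nonempty}, (fun x => (k : Γ) • x) '' (Cb n)) :=
        hfin.isCompact_biUnion (fun k _ => (hCb n).image (hd.act k))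
      apply hc2.of_isClosed_subset
      · exact (isClosed_le continuous_const (hpc.comp (hK.ind.continuous.comp hd.hcont))).inter
          (isClosed_le continuous_const (t.Q_cont.comp hd.πcont))
      · rintro ξ ⟨h1, h2⟩
        have h3 : 1 / t.Q (π ξ) ≤ n :=
          (one_div_le_one_div_of_le hδ h2).trans (Nat.le_ceil _)
        obtain ⟨c, hc, k, rfl⟩ := hCb' n ξ h3
        obtain ⟨x, hx, hx'⟩ := hDh1' n k c hc
        refine Set.mem_biUnion (x := k) ?_ ⟨c, hc, rfl⟩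
        refine ⟨k • x, ⟨x, Or.inl hx, rfl⟩, Or.inr ?_⟩
        show δ ≤ p (ι (k • x))
        rw [← hx']
        exact h1
    · apply hd.gcont.comp
      · exact (hinvc.comp continuous_fst.continuousOn (fun z hz => ⟨hz.1, hz.2.1⟩)).prodMk
          continuous_snd.continuousOn
      · exact fun z hz => hz.2.2
    · exact hd.Jcont
    · exact hd.J0
    · intro ξ r hr
      show J (ξ, r) = g (Function.invFun ι (ι (h ξ)), π ξ)
      rw [hinv (h ξ)]
      exact hd.J1 ξ r hr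
    · intro x hx hpx y hy
      have h1 : x ∈ Set.range ι := by rw [hK.rng]; exact ⟨hx, hpx⟩
      obtain ⟨x', rfl⟩ := h1
      obtain ⟨k, hk⟩ := hB0' x'
      obtain ⟨x'', hx'', hx3⟩ := hDg' ⌊1 / t.Q y + (1 : ℕ)⌋₊ k⁻¹ (k • x') hk y hy (hfloor y hy)
      rw [inv_smul_smul] at hx3
      refine ⟨k⁻¹, k • x', x'', sB0 _ hk, sDg _ hx'', ?_, ?_⟩
      · rw [inv_smul_smul]
      · show ι (k⁻¹ • x'') = ι (h (g (Function.invFun ι (ι x'), y)))
        rw [hinv x', hx3]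
    · intro x hx hpx y hy
      obtain ⟨w, h1, h2⟩ := hd.gcell (Function.invFun ι x) y hy
      exact ⟨w, w, h1, h2, (RTree.Wk.refl w).mono (Nat.zero_le 1)⟩
    · intro ξ r
      obtain ⟨c, hc, k, hk⟩ := hCb' ⌊1 / t.Q (π ξ) + (1 : ℕ)⌋₊ ξ (hfloor _ (hd.πT ξ))
      obtain ⟨x, hx, hx'⟩ := hDh1' _ k c hc
      obtain ⟨x2, hx2, hx2'⟩ := hDJ' _ k c hc r
      refine ⟨k, x, x2, sDh1 _ hx, sDJ _ hx2, ?_, ?_⟩
      · rw [← hx', ← hk]
      · rw [← hx2', ← hk]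
    · intro ξ r
      obtain ⟨w, h1, h2⟩ := hd.Jcell ξ r
      exact ⟨w, w, h1, h2, (RTree.Wk.refl w).mono (Nat.zero_le 1)⟩
    · exact hd.ae
  obtain ⟨Xh, k, ι', Φ, hXh, hk, hr, hrng, hkpos, hind, hinj', hΦ, hΦ0, hΦ1, hclose⟩ :=
    model_main hM hP hR
  refine toZ Xh k ι' Φ hXh hk hr hrng hind hinj' hΦ hΦ0 hΦ1 hd.act hd.proper hd.cocpt ?_
  intro C hC ε hε
  obtain ⟨M, hMM⟩ := hd.cells hC
  obtain ⟨n0, hn0⟩ := Cx.exists_superset_of_isCompact hC
  set nC : ℕ := 2 * M + 2 + n0 with hnC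
  obtain ⟨δ, hδ, hcl⟩ := hclose (ε / 2) (half_pos hε) nC
  -- pairs in a translate
  have hpair : ∀ γ : Γ, ∀ ξ ∈ C, ∀ ξ' ∈ C, k (ι' (γ • ξ)) < δ →
      dist (ι' (γ • ξ)) (ι' (γ • ξ')) < ε / 2 := by
    intro γ ξ hξ ξ' hξ' hkδ
    obtain ⟨w, hw, hwM⟩ := hMM ξ hξ
    obtain ⟨w', hw', hwM'⟩ := hMM ξ' hξ'
    apply hcl _ _ _ _ hkδ
    · set N := ⌊1 / t.Q (π (γ • ξ)) + (nC : ℕ)⌋₊ with hN
      have h1 := hd.dep_bound hw hwM γ
      have hQ : 0 < 1 / t.Q (π (γ • ξ)) := one_div_pos.mpr (hd.πT _).2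
      have h2 : t.dep (γ • t.root) ≤ N := by
        apply Nat.le_floor
        refine h1.trans ?_
        have : (M : ℝ) + 1 ≤ (nC : ℝ) := by
          rw [hnC]; push_cast
          have := Nat.cast_nonneg (α := ℝ) M
          have := Nat.cast_nonneg (α := ℝ) n0
          linarith
        linarith
      have h3 : n0 ≤ N := by
        apply Nat.le_floor
        have : (n0 : ℝ) ≤ (nC : ℝ) := by
          rw [hnC]; push_cast
          have := Nat.cast_nonneg (α := ℝ) M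
          linarith
        linarith
      obtain ⟨δ', hδ', k', hk'⟩ := hF' N γ h2
      have h4 : ∀ ζ ∈ C, ∃ x ∈ D N, h (γ • ζ) = k' • x := by
        intro ζ hζ
        obtain ⟨x, hx, hx'⟩ := hDh2' N k' (δ' • ζ)
          (Set.mem_biUnion (x := δ') hδ' ⟨ζ, Cx.subset h3 (hn0 hζ), rfl⟩)
        refine ⟨x, sDh2 _ hx, ?_⟩
        rw [hk', mul_smul]; exact hx'
      obtain ⟨x, hx, hx'⟩ := h4 ξ hξ
      obtain ⟨x2, hx2, hx2'⟩ := h4 ξ' hξ'
      exact ⟨k', x, x2, hx, hx2, by rw [hx'], by rw [hx2']⟩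
    · obtain ⟨v, hv, hv'⟩ := hd.πw ξ w hw γ
      obtain ⟨v', hv1, hv1'⟩ := hd.πw ξ' w' hw' γ
      refine ⟨v, v', hv, hv1, ?_⟩
      have h1 : t.Wk (M + M) w w' := (((RTree.wk_root w).mono hwM)).trans
        (((RTree.wk_root w').mono hwM').symm)
      have h2 := RTree.wk_act hd.wk γ h1
      have h3 := (hv'.symm.trans h2).trans hv1'
      exact h3.mono (by omega)
  -- the compact part
  have hcpt : IsCompact {ξ : X | δ ≤ k (ι' ξ)} := by
    rw [hind.isCompact_iff]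
    have : ι' '' {ξ : X | δ ≤ k (ι' ξ)} = Xh ∩ {x | δ ≤ k x} := by
      ext x
      constructor
      · rintro ⟨ξ, hξ, rfl⟩
        have h1 : ι' ξ ∈ {x | x ∈ Xh ∧ k x ≠ 0} := by rw [← hrng]; exact ⟨ξ, rfl⟩
        exact ⟨h1.1, hξ⟩
      · rintro ⟨h1, h2⟩
        have h3 : x ∈ Set.range ι' := by
          rw [hrng]; exact ⟨h1, ne_of_gt (hδ.trans_le h2)⟩
        obtain ⟨ξ, rfl⟩ := h3
        exact ⟨ξ, h2, rfl⟩
    rw [this]
    exact hXh.inter_right (isClosed_le continuous_const hk)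
  apply (hd.proper _ (hC.union hcpt)).subset
  intro γ hγ
  by_contra hcon
  have hsmall : ∀ ξ ∈ C, k (ι' (γ • ξ)) < δ := by
    intro ξ hξ
    by_contra h1
    exact hcon ⟨γ • ξ, ⟨ξ, Or.inl hξ, rfl⟩, Or.inr (not_lt.mp h1)⟩
  have hdiam : Metric.diam (ι' '' ((fun x => γ • x) '' C)) ≤ ε / 2 := by
    apply Metric.diam_le_of_forall_dist_le (half_pos hε).le
    rintro _ ⟨_, ⟨ξ, hξ, rfl⟩, rfl⟩ _ ⟨_, ⟨ξ', hξ', rfl⟩, rfl⟩
    exact (hpair γ ξ hξ ξ' hξ' (hsmall ξ hξ)).le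
  have : ε ≤ Metric.diam (ι' '' ((fun x => γ • x) '' C)) := hγ
  linarith

end Run7.h241
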