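import Mathlib
import Pool.Agent.Run7.h241.AEx

set_option autoImplicit false

namespace Run7.h241

open Filter Topology H30

/-- Hypotheses on spaces with an action and families of subsets. -/
structure ESet (K : Type) [Group K] {Y W I : Type} [TopologicalSpace Y] [TopologicalSpace W]
    [MulAction K Y] [MulAction K W] [MulAction K I] (Y' : Set Y) (Yc : I → Set Y)
    (Wc : I → Set W) : Prop where
  actY : ∀ k : K, Continuous fun y : Y => k • y
  actW : ∀ k : K, Continuous fun w : W => k • w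
  proper : ∀ C : Set Y, IsCompact C → {k : K | ((fun x => k • x) '' C ∩ C).Nonempty}.Finite
  Ya : ∀ (k : K) i y, y ∈ Yc i → k • y ∈ Yc (k • i)
  Wa : ∀ (k : K) i w, w ∈ Wc i → k • w ∈ Wc (k • i)
  ae : ∀ i, AE (Wc i)
  Yclosed : ∀ i, IsClosed (Yc i)
  disj : ∀ i j, i ≠ j → Yc i ∩ Yc j ⊆ Y'

/-- An equivariant map on a closed invariant set. -/
structure EMap (K : Type) [Group K] {Y W I : Type} [TopologicalSpace Y] [TopologicalSpace W]
    [MulAction K Y] [MulAction K W] (Y' : Set Y) (Yc : I → Set Y)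
    (Wc : I → Set W) (N : Set Y) (F : Y → W) : Prop where
  closed : IsClosed N
  sub : Y' ⊆ N
  inv : ∀ (k : K), ∀ y ∈ N, k • y ∈ N
  cont : ContinuousOn F N
  con : ∀ y ∈ N, ∀ i, y ∈ Yc i → F y ∈ Wc i
  eq : ∀ (k : K), ∀ y ∈ N, F (k • y) = k • F y

section

variable {K : Type} [Group K] {Y W I : Type} [TopologicalSpace Y] [TopologicalSpace W]
    [MulAction K Y] [MulAction K W] [MulAction K I] {Y' : Set Y} {Yc : I → Set Y}
    {Wc : I → Set W}

/-- translates of a compact set are locally finite -/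
theorem locFin [WeaklyLocallyCompactSpace Y]
    (hprop : ∀ C : Set Y, IsCompact C → {k : K | ((fun x => k • x) '' C ∩ C).Nonempty}.Finite)
    {B : Set Y} (hB : IsCompact B) : LocallyFinite (fun k : K => (fun x => k • x) '' B) := by
  intro y
  obtain ⟨C, hC, hCy⟩ := exists_compact_mem_nhds y
  refine ⟨C, hCy, (hprop _ (hB.union hC)).subset ?_⟩
  rintro k ⟨_, ⟨b, hb, rfl⟩, hc⟩
  exact ⟨k • b, ⟨b, Or.inl hb, rfl⟩, Or.inr hc⟩

theorem ext_step [WeaklyLocallyCompactSpace Y] [T2Space Y] [TopologicalSpace.MetrizableSpace Y]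
    (hE : ESet K Y' Yc Wc) {N : Set Y} {F : Y → W} (hF : EMap K Y' Yc Wc N F)
    {B : Set Y} (hB : IsCompact B) {i : I} (hBi : B ⊆ Yc i)
    (hfree : ∀ k : K, k ≠ 1 → ∀ b ∈ B, k • b ∉ B) :
    ∃ F' : Y → W, EMap K Y' Yc Wc (N ∪ ⋃ k : K, (fun x => k • x) '' B) F' ∧ Set.EqOn F' F N := by
  classical
  letI := TopologicalSpace.metrizableSpaceMetric Y
  -- the extension over B
  obtain ⟨G, hG, hG1, hG2⟩ := hE.ae i B (Subtype.val ⁻¹' N) (hF.closed.preimage
    continuous_subtype_val) (fun b => F b.1) (hF.cont.comp continuous_subtype_val.continuousOn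
      (fun b hb => hb)) (fun b hb => hF.con _ hb _ (hBi b.2))
  have hfree' : ∀ (k k' : K) (b b' : Y), b ∈ B → b' ∈ B → k • b = k' • b' → k = k' ∧ b = b' := by
    intro k k' b b' hb hb' h
    have h1 : (k'⁻¹ * k) • b = b' := by rw [mul_smul, h, inv_smul_smul]
    by_cases h2 : k'⁻¹ * k = 1
    · rw [h2, one_smul] at h1
      exact ⟨(inv_mul_eq_one.mp h2).symm, h1⟩
    · exact absurd (by rw [h1]; exact hb') (hfree _ h2 b hb)
  let F' : Y → W := fun y => if y ∈ N then F y else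
    if h : ∃ (k : K) (b : Y), b ∈ B ∧ k • b = y then
      h.choose • G ⟨h.choose_spec.choose, h.choose_spec.choose_spec.1⟩ else F y
  have e1 : ∀ y ∈ N, F' y = F y := fun y hy => if_pos hy
  have e2 : ∀ (k : K) (b : Y) (hb : b ∈ B), F' (k • b) = k • G ⟨b, hb⟩ := by
    intro k b hb
    by_cases hN : k • b ∈ N
    · have hbN : b ∈ N := by
        have := hF.inv k⁻¹ _ hN
        rwa [inv_smul_smul] at this
      rw [e1 _ hN, hF.eq k b hbN]
      have := hG2 (x := ⟨b, hb⟩) hbN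
      rw [this]
    · have h : ∃ (k' : K) (b' : Y), b' ∈ B ∧ k' • b' = k • b := ⟨k, b, hb, rfl⟩
      have h1 : F' (k • b) = h.choose • G ⟨h.choose_spec.choose,
          h.choose_spec.choose_spec.1⟩ := by
        show (if k • b ∈ N then F (k • b) else _) = _
        rw [if_neg hN, dif_pos h]
      rw [h1]
      obtain ⟨h2, h3⟩ := hfree' _ _ _ _ h.choose_spec.choose_spec.1 hb
        h.choose_spec.choose_spec.2
      congr 1
      congr 1
      exact Subtype.ext h3
  have hlf := locFin hE.proper hB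
  have hcl : ∀ k : K, IsClosed ((fun x : Y => k • x) '' B) :=
    fun k => (hB.image (hE.actY k)).isClosed
  have hcU : IsClosed (⋃ k : K, (fun x : Y => k • x) '' B) := hlf.isClosed_iUnion hcl
  refine ⟨F', ⟨hF.closed.union hcU, fun y hy => Or.inl (hF.sub hy), ?_, ?_, ?_, ?_⟩, e1⟩
  · rintro k y (hy | hy)
    · exact Or.inl (hF.inv k y hy)
    · obtain ⟨k', b, hb, rfl⟩ := Set.mem_iUnion.mp hy
      exact Or.inr (Set.mem_iUnion.mpr ⟨k * k', b, hb, mul_smul k k' b⟩)
  · apply ContinuousOn.union_of_isClosed _ _ hF.closed hcU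
    · exact hF.cont.congr e1
    · apply hlf.continuousOn_iUnion hcl
      intro k
      have h1 : ContinuousOn (fun y : Y => if h : k⁻¹ • y ∈ B then k • G ⟨k⁻¹ • y, h⟩ else F' y)
          ((fun x : Y => k • x) '' B) := by
        rw [continuousOn_iff_continuous_domRestrict]
        have hm : ∀ z : ((fun x : Y => k • x) '' B), k⁻¹ • z.1 ∈ B := by
          rintro ⟨_, b, hb, rfl⟩
          show k⁻¹ • k • b ∈ B
          rw [inv_smul_smul]; exact hb
        have h2 : Continuous (fun z : ((fun x : Y => k • x) '' B) => k • G ⟨k⁻¹ • z.1, hm z⟩) :=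
          (hE.actW k).comp (hG.comp (((hE.actY k⁻¹).comp continuous_subtype_val).subtype_mk _))
        refine h2.congr (fun z => ?_)
        show _ = (if h : k⁻¹ • z.1 ∈ B then k • G ⟨k⁻¹ • z.1, h⟩ else F' z.1)
        rw [dif_pos (hm z)]
      refine h1.congr ?_
      rintro _ ⟨b, hb, rfl⟩
      show F' (k • b) = (if h : k⁻¹ • (k • b) ∈ B then k • G ⟨k⁻¹ • (k • b), h⟩ else F' (k • b))
      have hm : k⁻¹ • (k • b) ∈ B := by rw [inv_smul_smul]; exact hb
      rw [dif_pos hm, e2 k b hb]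
      congr 2
      exact Subtype.ext (inv_smul_smul k b).symm
  · rintro y hy j hj
    by_cases hN : y ∈ N
    · rw [e1 y hN]; exact hF.con y hN j hj
    · rcases hy with hy | hy
      · exact absurd hy hN
      · obtain ⟨k, b, hb, rfl⟩ := Set.mem_iUnion.mp hy
        show F' (k • b) ∈ Wc j
        rw [e2 k b hb]
        have hb' : k • b ∈ Yc (k • i) := hE.Ya k i b (hBi hb)
        have hij : j = k • i := by
          by_contra hne
          exact hN (hF.sub (hE.disj j (k • i) hne ⟨hj, hb'⟩))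
        rw [hij]
        exact hE.Wa k i _ (hG1 _)
  · rintro k y (hy | hy)
    · rw [e1 _ (hF.inv k y hy), e1 y hy, hF.eq k y hy]
    · obtain ⟨k', b, hb, rfl⟩ := Set.mem_iUnion.mp hy
      show F' (k • k' • b) = k • F' (k' • b)
      rw [e2 k' b hb, ← mul_smul, e2 (k * k') b hb, mul_smul]

/-- extension over a sequence of pieces -/
theorem ext_seq [WeaklyLocallyCompactSpace Y] [T2Space Y] [TopologicalSpace.MetrizableSpace Y]
    (hE : ESet K Y' Yc Wc) {f : Y → W} (hf : EMap K Y' Yc Wc Y' f)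
    (B : ℕ → Set Y) (hB : ∀ n, IsCompact (B n)) (i : ℕ → I) (hBi : ∀ n, B n ⊆ Yc (i n))
    (hfree : ∀ n, ∀ k : K, k ≠ 1 → ∀ b ∈ B n, k • b ∉ B n)
    {Y'' : Set Y} (hYc : IsClosed Y'') (hYs : Y' ⊆ Y'') (hYi : ∀ (k : K), ∀ y ∈ Y'', k • y ∈ Y'')
    (hBY : ∀ n, B n ⊆ Y'')
    (hcov : ∀ y ∈ Y'', ∃ M : ℕ,
      (Y' ∪ ⋃ n ∈ Set.Iio M, ⋃ k : K, (fun x => k • x) '' B n) ∈ 𝓝[Y''] y) :
    ∃ F : Y → W, EMap K Y' Yc Wc Y'' F ∧ Set.EqOn F f Y' := by
  classical
  let N : ℕ → Set Y := fun M => Y' ∪ ⋃ n ∈ Set.Iio M, ⋃ k : K, (fun x => k • x) '' B n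
  have hN0 : N 0 = Y' := by
    show Y' ∪ ⋃ n ∈ Set.Iio 0, _ = Y'
    simp
  have hNs : ∀ M, N (M + 1) = N M ∪ ⋃ k : K, (fun x => k • x) '' B M := by
    intro M
    show Y' ∪ ⋃ n ∈ Set.Iio (M + 1), ⋃ k : K, (fun x => k • x) '' B n =
      (Y' ∪ ⋃ n ∈ Set.Iio M, ⋃ k : K, (fun x => k • x) '' B n) ∪ _
    rw [Set.union_assoc]
    congr 1
    ext y
    simp only [Set.mem_iUnion, Set.mem_Iio, Set.mem_union]
    constructor
    · rintro ⟨n, hn, k, hk⟩
      rcases Nat.lt_succ_iff_lt_or_eq.mp hn with h | h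
      · exact Or.inl ⟨n, h, k, hk⟩
      · subst h; exact Or.inr ⟨k, hk⟩
    · rintro (⟨n, hn, k, hk⟩ | ⟨k, hk⟩)
      · exact ⟨n, Nat.lt_succ_of_lt hn, k, hk⟩
      · exact ⟨M, Nat.lt_succ_self M, k, hk⟩
  have step : ∀ (M : ℕ) (F : {F : Y → W // EMap K Y' Yc Wc (N M) F}),
      ∃ F' : {F : Y → W // EMap K Y' Yc Wc (N (M + 1)) F}, Set.EqOn F'.1 F.1 (N M) := by
    rintro M ⟨F, hF⟩
    obtain ⟨F', hF', h1⟩ := ext_step hE hF (hB M) (hBi M) (hfree M)
    refine ⟨⟨F', ?_⟩, h1⟩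
    rw [hNs]; exact hF'
  choose nxt hnxt using step
  let seq : ∀ M : ℕ, {F : Y → W // EMap K Y' Yc Wc (N M) F} := fun M =>
    Nat.rec ⟨f, by rw [hN0]; exact hf⟩ (fun n F => nxt n F) M
  have hseq : ∀ M, Set.EqOn (seq (M + 1)).1 (seq M).1 (N M) := fun M => hnxt M (seq M)
  have hNm : Monotone N := monotone_nat_of_le_succ (fun M => by
    rw [hNs]; exact Set.subset_union_left)
  have hmono : ∀ m n, m ≤ n → Set.EqOn (seq n).1 (seq m).1 (N m) := by
    intro m n hmn
    induction hmn with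
    | refl => intro y _; rfl
    | @step n hmn' ih =>
      intro y hy
      rw [hseq n (hNm hmn' hy), ih hy]
  have hex : ∀ y ∈ Y'', ∃ M, y ∈ N M := by
    intro y hy
    obtain ⟨M, hM⟩ := hcov y hy
    exact ⟨M, mem_of_mem_nhdsWithin hy hM⟩
  have hNY : ∀ M, N M ⊆ Y'' := by
    rintro M y (hy | hy)
    · exact hYs hy
    · obtain ⟨n, _, hn⟩ := Set.mem_iUnion₂.mp hy
      obtain ⟨k, b, hb, rfl⟩ := Set.mem_iUnion.mp hn
      exact hYi k b (hBY n hb)
  let F : Y → W := fun y => if h : ∃ M, y ∈ N M then (seq (Nat.find h)).1 y else f y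
  have hFe : ∀ M, Set.EqOn F (seq M).1 (N M) := by
    intro M y hy
    have h : ∃ M, y ∈ N M := ⟨M, hy⟩
    have e : F y = (seq (Nat.find h)).1 y := dif_pos h
    rw [e]
    exact (hmono _ _ (Nat.find_min' h hy) (Nat.find_spec h)).symm
  refine ⟨F, ⟨hYc, hYs, hYi, ?_, ?_, ?_⟩, ?_⟩
  · intro y hy
    obtain ⟨M, hM⟩ := hcov y hy
    have h1 : ContinuousOn F (N M) := (seq M).2.cont.congr (hFe M)
    have h2 : ContinuousWithinAt F (N M) y := h1 y (mem_of_mem_nhdsWithin hy hM)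
    exact h2.mono_of_mem_nhdsWithin hM
  · intro y hy j hj
    obtain ⟨M, hM⟩ := hex y hy
    rw [hFe M hM]
    exact (seq M).2.con y hM j hj
  · intro k y hy
    obtain ⟨M, hM⟩ := hex y hy
    rw [hFe M hM, hFe M ((seq M).2.inv k y hM)]
    exact (seq M).2.eq k y hM
  · intro y hy
    have h1 : y ∈ N 0 := by rw [hN0]; exact hy
    exact hFe 0 h1

/-- a small compact neighbourhood -/
theorem small_nhd [WeaklyLocallyCompactSpace Y] [T2Space Y]
    (hact : ∀ k : K, Continuous fun y : Y => k • y)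
    (hprop : ∀ C : Set Y, IsCompact C → {k : K | ((fun x => k • x) '' C ∩ C).Nonempty}.Finite)
    (hfr : ∀ (k : K) (y : Y), k • y = y → k = 1) (y : Y) :
    ∃ C : Set Y, IsCompact C ∧ C ∈ 𝓝 y ∧ ∀ k : K, k ≠ 1 → ∀ c ∈ C, k • c ∉ C := by
  classical
  obtain ⟨C, hC, hCy⟩ := exists_compact_mem_nhds y
  have hfin := hprop C hC
  -- for each nontrivial k in the finite set, shrink
  have h1 : ∀ k : K, k ≠ 1 → ∃ U : Set Y, IsClosed U ∧ U ∈ 𝓝 y ∧ ∀ c ∈ U, k • c ∉ U := by
    intro k hk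
    have hne : k • y ≠ y := fun h => hk (hfr k y h)
    obtain ⟨U, V, hU, hV, hUy, hVy, hUV⟩ := t2_separation hne
    have hW : V ∩ (fun z : Y => k • z) ⁻¹' U ∈ 𝓝 y :=
      (hV.inter (hU.preimage (hact k))).mem_nhds ⟨hVy, hUy⟩
    obtain ⟨C', hC', hC'y, hsub⟩ : ∃ C' : Set Y, IsClosed C' ∧ C' ∈ 𝓝 y ∧
        C' ⊆ V ∩ (fun z : Y => k • z) ⁻¹' U := by
      haveI : RegularSpace Y := by
        haveI : LocallyCompactSpace Y := inferInstance
        infer_instance
      obtain ⟨t, ht, htc, hts⟩ := exists_mem_nhds_isClosed_subset hW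
      exact ⟨t, htc, ht, hts⟩
    refine ⟨C', hC', hC'y, fun c hc hkc => ?_⟩
    exact Set.disjoint_left.mp hUV (hsub hc).2 (hsub hkc).1
  choose! U hUc hUy hU using h1
  set S : Set K := {k : K | ((fun x => k • x) '' C ∩ C).Nonempty} \ {1} with hS
  have hSf : S.Finite := hfin.subset Set.diff_subset
  refine ⟨C ∩ ⋂ k ∈ S, U k, hC.inter_right (isClosed_biInter fun k hk => hUc k hk.2),
    inter_mem hCy ((biInter_mem hSf).mpr fun k hk => hUy k hk.2), ?_⟩
  intro k hk c hc hkc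
  have hkS : k ∈ S := ⟨⟨k • c, ⟨c, hc.1, rfl⟩, hkc.1⟩, hk⟩
  exact hU k hk c (Set.mem_iInter₂.mp hc.2 k hkS) (Set.mem_iInter₂.mp hkc.2 k hkS)

/-- The equivariant extension theorem. -/
theorem equiv_ext [WeaklyLocallyCompactSpace Y] [T2Space Y] [TopologicalSpace.MetrizableSpace Y]
    [SigmaCompactSpace Y] [Nonempty I]
    (hE : ESet K Y' Yc Wc) (hfr : ∀ (k : K) (y : Y), k • y = y → k = 1)
    {Y'' : Set Y} (hYc : IsClosed Y'') (hYs : Y' ⊆ Y'') (hYi : ∀ (k : K), ∀ y ∈ Y'', k • y ∈ Y'')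
    (hYI : ∀ i, Yc i ⊆ Y'')
    (hloc : ∀ C : Set Y, IsCompact C → ∃ s : Set I, s.Finite ∧ C ∩ Y'' ⊆ Y' ∪ ⋃ i ∈ s, Yc i)
    {f : Y → W} (hf : EMap K Y' Yc Wc Y' f) :
    ∃ F : Y → W, EMap K Y' Yc Wc Y'' F ∧ Set.EqOn F f Y' := by
  classical
  obtain ⟨i0⟩ := ‹Nonempty I›
  choose C hC hCy hCf using small_nhd hE.actY hE.proper hfr
  -- a countable cover
  obtain ⟨s, hs, hs'⟩ := countable_cover_nhds_of_sigmaCompact
    (f := fun y => interior (C y)) (fun y => interior_mem_nhds.mpr (hCy y))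
  choose T hT hT' using fun y => hloc (C y) (hC y)
  -- the pieces
  have : Countable s := hs.to_subtype
  have : ∀ y, Finite (T y) := fun y => (hT y).to_subtype
  let P := Option (Σ y : s, T y.1)
  obtain ⟨e, he⟩ := exists_surjective_nat P
  let B : P → Set Y := fun q => match q with
    | none => ∅
    | some z => C z.1.1 ∩ Yc z.2.1
  let ii : P → I := fun q => match q with
    | none => i0
    | some z => z.2.1
  refine ext_seq hE hf (fun n => B (e n)) ?_ (fun n => ii (e n)) ?_ ?_ hYc hYs hYi ?_ ?_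
  · intro n
    show IsCompact (B (e n))
    cases h : e n with
    | none => exact isCompact_empty
    | some z => exact (hC _).inter_right (hE.Yclosed _)
  · intro n
    show B (e n) ⊆ Yc (ii (e n))
    cases h : e n with
    | none => exact Set.empty_subset _
    | some z => exact Set.inter_subset_right
  · intro n k hk b
    show b ∈ B (e n) → k • b ∉ B (e n)
    cases h : e n with
    | none => exact fun hb => absurd hb (Set.notMem_empty _)
    | some z => exact fun hb hkb => hCf _ k hk b hb.1 hkb.1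
  · intro n
    show B (e n) ⊆ Y''
    cases h : e n with
    | none => exact Set.empty_subset _
    | some z => exact Set.inter_subset_right.trans (hYI _)
  · intro y hy
    -- a finite number of pieces
    have h1 : y ∈ ⋃ x ∈ s, interior (C x) := by rw [hs']; trivial
    obtain ⟨x, hx, hxy⟩ := Set.mem_iUnion₂.mp h1
    have hxy' : C x ∈ 𝓝 y := mem_interior_iff_mem_nhds.mp hxy
    choose ν hν using fun i : T x => he (some ⟨⟨x, hx⟩, i⟩)
    obtain ⟨M, hM⟩ := (Set.finite_range ν).bddAbove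
    refine ⟨M + 1, ?_⟩
    have h3 : C x ∩ Y'' ∈ 𝓝[Y''] y :=
      inter_mem (mem_nhdsWithin_of_mem_nhds hxy') self_mem_nhdsWithin
    refine mem_of_superset h3 ?_
    intro c hc
    rcases hT' x hc with h2 | h2
    · exact Or.inl h2
    · obtain ⟨i, hi, hci⟩ := Set.mem_iUnion₂.mp h2
      refine Or.inr (Set.mem_biUnion (x := ν ⟨i, hi⟩) ?_ (Set.mem_iUnion.mpr ⟨1, c, ?_, one_smul _ _⟩))
      · exact Nat.lt_succ_of_le (hM ⟨_, rfl⟩)
      · show c ∈ B (e (ν ⟨i, hi⟩))
        rw [hν]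
        exact ⟨hc.1, hci⟩

/-- An index set with one element. -/
def One1 : Type := Unit

instance (K : Type) [Group K] : MulAction K One1 where
  smul _ i := i
  one_smul _ := rfl
  mul_smul _ _ _ := rfl

instance : Nonempty One1 := ⟨()⟩

/-- Every free proper action on `Y` maps equivariantly to an absolute extensor. -/
theorem equiv_map [WeaklyLocallyCompactSpace Y] [T2Space Y] [TopologicalSpace.MetrizableSpace Y]
    [SigmaCompactSpace Y] (hfr : ∀ (k : K) (y : Y), k • y = y → k = 1)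
    (actY : ∀ k : K, Continuous fun y : Y => k • y)
    (actW : ∀ k : K, Continuous fun w : W => k • w)
    (proper : ∀ C : Set Y, IsCompact C → {k : K | ((fun x => k • x) '' C ∩ C).Nonempty}.Finite)
    (ae : AE (Set.univ : Set W)) [Nonempty W] :
    ∃ F : Y → W, Continuous F ∧ ∀ (k : K) y, F (k • y) = k • F y := by
  obtain ⟨w0⟩ := ‹Nonempty W›
  have hE : ESet K (∅ : Set Y) (fun _ : One1 => (Set.univ : Set Y))
      (fun _ : One1 => (Set.univ : Set W)) :=
    ⟨actY, actW, proper, fun _ _ _ _ => trivial, fun _ _ _ _ => trivial, fun _ => ae,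
      fun _ => isClosed_univ, fun i j hij => absurd (Subsingleton.elim (α := Unit) i j) hij⟩
  obtain ⟨F, hF, _⟩ := equiv_ext hE hfr (Y'' := Set.univ) isClosed_univ (Set.empty_subset _)
    (fun _ _ _ => trivial) (fun _ => Set.subset_univ _)
    (fun C _ => ⟨Set.univ, Set.toFinite (α := Unit) _, fun y _ => Or.inr
      (Set.mem_biUnion (x := ()) trivial trivial)⟩)
    (f := fun _ => w0) ⟨isClosed_empty, le_rfl, fun _ _ h => h, continuousOn_empty _,
      fun _ h => absurd h (Set.notMem_empty _), fun _ _ h => absurd h (Set.notMem_empty _)⟩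
  exact ⟨F, continuousOn_univ.mp hF.cont, fun k y => hF.eq k y trivial⟩

end

/-- proper actions of torsion free groups are free -/
theorem free_of_proper {K : Type} [Group K] {Y : Type} [TopologicalSpace Y] [MulAction K Y]
    (htf : ∀ k : K, IsOfFinOrder k → k = 1)
    (proper : ∀ C : Set Y, IsCompact C → {k : K | ((fun x => k • x) '' C ∩ C).Nonempty}.Finite)
    (k : K) (y : Y) (h : k • y = y) : k = 1 := by
  apply htf
  have hfin := proper {y} isCompact_singleton
  have h1 : ∀ n : ℕ, k ^ n • y = y := by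
    intro n
    induction n with
    | zero => rw [pow_zero, one_smul]
    | succ n ih => rw [pow_succ, mul_smul, h, ih]
  have h2 : Set.range (fun n : ℕ => k ^ n) ⊆
      {k : K | ((fun x => k • x) '' ({y} : Set Y) ∩ {y}).Nonempty} := by
    rintro _ ⟨n, rfl⟩
    exact ⟨y, ⟨y, rfl, h1 n⟩, rfl⟩
  have h3 : (Set.range (fun n : ℕ => k ^ n)).Finite := hfin.subset h2
  by_contra h4
  exact Set.infinite_range_of_injective (injective_pow_iff_not_isOfFinOrder.mpr h4) h3

end Run7.h241
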