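import Mathlib
import Pool.Agent.Run7.h241.AEx
import Pool.Agent.Run7.h241.Interp

set_option autoImplicit false

namespace Run7.h241

open Filter Topology H30

variable {E0 : Type} [NormedAddCommGroup E0] [NormedSpace ℝ E0] [FiniteDimensional ℝ E0]
  {E1 : Type} [NormedAddCommGroup E1] [NormedSpace ℝ E1] [FiniteDimensional ℝ E1]

/-- the mapping cylinder in coordinates -/
def Cyl (A : Set E0) (B : Set E1) (f : E0 → E1) : Set (ℝ × E0 × E1) :=
  {z | (0 < z.1 ∧ z.1 ≤ 1 ∧ ∃ a ∈ A, z.2.1 = z.1 • a ∧ z.2.2 = (1 - z.1) • f a) ∨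
    (z.1 = 0 ∧ z.2.1 = 0 ∧ z.2.2 ∈ B)}

theorem exists_retraction {A : Set E0} (hA : IsClosed A) (hAE : AE A) :
    ∃ ρ : E0 → E0, Continuous ρ ∧ (∀ x, ρ x ∈ A) ∧ ∀ x ∈ A, ρ x = x := by
  obtain ⟨ρ, h1, h2, h3⟩ := hAE E0 A hA (fun x => x) continuousOn_id (fun x hx => hx)
  exact ⟨ρ, h1, h2, fun x hx => h3 hx⟩

theorem exists_equiconn {B : Set E1} (hB : IsClosed B) (hAE : AE B) :
    ∃ θ : E1 × E1 × ℝ → E1, Continuous θ ∧ (∀ z, θ z ∈ B) ∧
      (∀ x ∈ B, ∀ y ∈ B, θ (x, y, 0) = x) ∧ (∀ x ∈ B, ∀ y ∈ B, θ (x, y, 1) = y) ∧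
      ∀ x ∈ B, ∀ s, θ (x, x, s) = x := by
  classical
  have hBB : IsClosed {z : E1 × E1 × ℝ | z.1 ∈ B ∧ z.2.1 ∈ B} :=
    (hB.preimage continuous_fst).inter (hB.preimage (continuous_fst.comp continuous_snd))
  have h0 : IsClosed {z : E1 × E1 × ℝ | z.2.2 ≤ 0 ∨ z.1 = z.2.1} :=
    (isClosed_le (continuous_snd.comp continuous_snd) continuous_const).union
      (isClosed_eq continuous_fst (continuous_fst.comp continuous_snd))
  have h1 : IsClosed {z : E1 × E1 × ℝ | 1 ≤ z.2.2 ∨ z.1 = z.2.1} :=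
    (isClosed_le continuous_const (continuous_snd.comp continuous_snd)).union
      (isClosed_eq continuous_fst (continuous_fst.comp continuous_snd))
  let F : E1 × E1 × ℝ → E1 := fun z => if z.2.2 ≤ 0 then z.1 else z.2.1
  obtain ⟨θ, hθ, hθ1, hθ2⟩ := hAE (E1 × E1 × ℝ)
    (({z : E1 × E1 × ℝ | z.1 ∈ B ∧ z.2.1 ∈ B} ∩ {z | z.2.2 ≤ 0 ∨ z.1 = z.2.1}) ∪
      ({z : E1 × E1 × ℝ | z.1 ∈ B ∧ z.2.1 ∈ B} ∩ {z | 1 ≤ z.2.2 ∨ z.1 = z.2.1}))
    ((hBB.inter h0).union (hBB.inter h1)) F (by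
      apply ContinuousOn.union_of_isClosed _ _ (hBB.inter h0) (hBB.inter h1)
      · refine continuous_fst.continuousOn.congr ?_
        rintro z ⟨_, hz | hz⟩
        · exact if_pos hz
        · show (if z.2.2 ≤ 0 then z.1 else z.2.1) = z.1
          rw [← hz]; exact ite_self _
      · refine (continuous_fst.comp continuous_snd).continuousOn.congr ?_
        rintro z ⟨_, hz | hz⟩
        · have hz' : (1 : ℝ) ≤ z.2.2 := hz
          exact if_neg (by linarith)
        · show (if z.2.2 ≤ 0 then z.1 else z.2.1) = z.2.1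
          rw [← hz]; exact ite_self _) (by
      rintro z (⟨⟨h2, h3⟩, _⟩ | ⟨⟨h2, h3⟩, _⟩)
      all_goals
        show (if z.2.2 ≤ 0 then z.1 else z.2.1) ∈ B
        split_ifs
        · exact h2
        · exact h3)
  refine ⟨θ, hθ, hθ1, ?_, ?_, ?_⟩
  · intro x hx y hy
    rw [hθ2 (Or.inl ⟨⟨hx, hy⟩, Or.inl le_rfl⟩)]
    exact if_pos le_rfl
  · intro x hx y hy
    rw [hθ2 (Or.inr ⟨⟨hx, hy⟩, Or.inl le_rfl⟩)]
    exact if_neg (by norm_num)
  · intro x hx s
    rw [hθ2 (Or.inl ⟨⟨hx, hx⟩, Or.inr rfl⟩)]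
    exact ite_self _

theorem cyl_ae {A : Set E0} {B : Set E1} {f : E0 → E1} (hA : IsClosed A) (hAE : AE A)
    (hB : IsClosed B) (hBE : AE B) (hf : ContinuousOn f A) (hfB : Set.MapsTo f A B)
    (hprop : ∀ r : ℝ, ∃ R : ℝ, ∀ a ∈ A, ‖f a‖ ≤ r → ‖a‖ ≤ R) : AE (Cyl A B f) := by
  classical
  intro Z _ C hC φ hφ hφm
  obtain ⟨ρ, hρ, hρA, hρ1⟩ := exists_retraction hA hAE
  obtain ⟨θ, hθ, hθB, hθ0, hθ1, hθx⟩ := exists_equiconn hB hBE
  have hl : ContinuousOn (fun z => (φ z).1) C := continuous_fst.comp_continuousOn hφ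
  have hc : ContinuousOn (fun z => (φ z).2.1) C :=
    (continuous_fst.comp continuous_snd).comp_continuousOn hφ
  have hd : ContinuousOn (fun z => (φ z).2.2) C :=
    (continuous_snd.comp continuous_snd).comp_continuousOn hφ
  have hlI : ∀ z ∈ C, 0 ≤ (φ z).1 ∧ (φ z).1 ≤ 1 := by
    intro z hz
    rcases hφm hz with ⟨h1, h2, _⟩ | ⟨h1, _⟩
    · exact ⟨h1.le, h2⟩
    · rw [h1]; exact ⟨le_rfl, zero_le_one⟩
  -- the projection to B
  let b : Z → E1 := fun z => if (φ z).1 ≤ 1 / 2 then (1 - (φ z).1)⁻¹ • (φ z).2.2 else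
    f ((φ z).1⁻¹ • (φ z).2.1)
  have hbpos : ∀ z ∈ C, 0 < (φ z).1 → (φ z).1⁻¹ • (φ z).2.1 ∈ A ∧
      b z = f ((φ z).1⁻¹ • (φ z).2.1) := by
    intro z hz hpos
    rcases hφm hz with ⟨h1, h2, a, ha, h3, h4⟩ | ⟨h1, _⟩
    · have h5 : (φ z).1⁻¹ • (φ z).2.1 = a := by rw [h3, inv_smul_smul₀ (ne_of_gt h1)]
      rw [h5]
      refine ⟨ha, ?_⟩
      show (if (φ z).1 ≤ 1 / 2 then (1 - (φ z).1)⁻¹ • (φ z).2.2 else
        f ((φ z).1⁻¹ • (φ z).2.1)) = f a
      split_ifs with h6
      · rw [h4, inv_smul_smul₀ (by linarith)]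
      · rw [h5]
    · rw [h1] at hpos; exact absurd hpos (lt_irrefl _)
  have hb0 : ∀ z ∈ C, (φ z).1 = 0 → b z = (φ z).2.2 := by
    intro z hz h0
    show (if (φ z).1 ≤ 1 / 2 then (1 - (φ z).1)⁻¹ • (φ z).2.2 else
        f ((φ z).1⁻¹ • (φ z).2.1)) = (φ z).2.2
    rw [if_pos (by rw [h0]; norm_num), h0, sub_zero, inv_one, one_smul]
  have hbB : Set.MapsTo b C B := by
    intro z hz
    rcases hφm hz with ⟨h1, _⟩ | ⟨h1, _, h2⟩
    · obtain ⟨h3, h4⟩ := hbpos z hz h1
      rw [h4]; exact hfB h3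
    · rw [hb0 z hz h1]; exact h2
  have hbc : ContinuousOn b C := by
    have c1 : IsClosed {z : Z | z ∈ C ∧ (φ z).1 ≤ 1 / 2} := by
      have := hl.preimage_isClosed_of_isClosed hC (isClosed_Iic (a := (1 / 2 : ℝ)))
      exact this
    have c2 : IsClosed {z : Z | z ∈ C ∧ 1 / 2 ≤ (φ z).1} := by
      have := hl.preimage_isClosed_of_isClosed hC (isClosed_Ici (a := (1 / 2 : ℝ)))
      exact this
    have hU : C = {z : Z | z ∈ C ∧ (φ z).1 ≤ 1 / 2} ∪ {z : Z | z ∈ C ∧ 1 / 2 ≤ (φ z).1} := by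
      ext z
      constructor
      · intro hz
        rcases le_total (φ z).1 (1 / 2) with h | h
        · exact Or.inl ⟨hz, h⟩
        · exact Or.inr ⟨hz, h⟩
      · rintro (h | h)
        · exact h.1
        · exact h.1
    rw [hU]
    apply ContinuousOn.union_of_isClosed _ _ c1 c2
    · have h1 : ContinuousOn (fun z => (1 - (φ z).1)⁻¹ • (φ z).2.2)
          {z : Z | z ∈ C ∧ (φ z).1 ≤ 1 / 2} := by
        apply ContinuousOn.smul
        · apply ContinuousOn.inv₀
          · exact continuousOn_const.sub (hl.mono (fun z hz => hz.1))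
          · intro z hz
            have := hz.2
            linarith
        · exact hd.mono (fun z hz => hz.1)
      exact h1.congr (fun z hz => if_pos hz.2)
    · have h1 : ContinuousOn (fun z => f ((φ z).1⁻¹ • (φ z).2.1))
          {z : Z | z ∈ C ∧ 1 / 2 ≤ (φ z).1} := by
        apply hf.comp
        · apply ContinuousOn.smul
          · apply ContinuousOn.inv₀
            · exact hl.mono (fun z hz => hz.1)
            · intro z hz
              have := hz.2
              linarith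
          · exact hc.mono (fun z hz => hz.1)
        · intro z hz
          have := hz.2
          exact (hbpos z hz.1 (by linarith)).1
      exact h1.congr (fun z hz => (hbpos z hz.1 (by have := hz.2; linarith)).2)
  -- extensions
  have : TietzeExtension.{0, 0} ℝ := TietzeExtension.of_tvs ℝ
  have : TietzeExtension.{0, 0} E0 := TietzeExtension.of_tvs ℝ
  obtain ⟨Λ0, hΛ0⟩ := ContinuousMap.exists_restrict_eq hC
    (⟨fun z : C => (φ z).1, hl.domRestrict⟩ : C(C, ℝ))
  obtain ⟨c, hcc⟩ := ContinuousMap.exists_restrict_eq hC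
    (⟨fun z : C => (φ z).2.1, hc.domRestrict⟩ : C(C, E0))
  obtain ⟨b', hb'c, hb'B, hb'1⟩ := hBE Z C hC b hbc hbB
  let Λ : Z → ℝ := fun z => cl (Λ0 z)
  have hΛc : Continuous Λ := cl_cont.comp Λ0.continuous
  have hΛC : ∀ z ∈ C, Λ z = (φ z).1 := by
    intro z hz
    have h1 : Λ0 z = (φ z).1 := congrArg (fun g : C(C, ℝ) => g ⟨z, hz⟩) hΛ0
    show cl (Λ0 z) = _
    rw [h1]
    exact cl_eq (hlI z hz).1 (hlI z hz).2
  have hcC : ∀ z ∈ C, c z = (φ z).2.1 := fun z hz =>
    congrArg (fun g : C(C, E0) => g ⟨z, hz⟩) hcc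
  have hΛ0' : ∀ z, 0 ≤ Λ z := fun z => cl_nonneg _
  have hΛ1' : ∀ z, Λ z ≤ 1 := fun z => cl_le_one _
  let a : Z → E0 := fun z => ρ ((Λ z)⁻¹ • c z)
  have haA : ∀ z, a z ∈ A := fun z => hρA _
  let fa : Z → E1 := fun z => f (a z)
  have hfaB : ∀ z, fa z ∈ B := fun z => hfB (haA z)
  let d : Z → ℝ := fun z => ‖b' z - fa z‖
  have hd0 : ∀ z, 0 ≤ d z := fun z => norm_nonneg _
  let l : Z → ℝ := fun z => max 0 (Λ z - d z)
  have hl0 : ∀ z, 0 ≤ l z := fun z => le_max_left _ _
  have hlΛ : ∀ z, l z ≤ Λ z := fun z => max_le (hΛ0' z) (by have := hd0 z; linarith)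
  let s : Z → ℝ := fun z => cl ((2 * Λ z - d z) / Λ z)
  let q : Z → E1 := fun z => θ (b' z, fa z, s z)
  have hac : ContinuousOn a {z | 0 < Λ z} := by
    apply hρ.comp_continuousOn
    apply ContinuousOn.smul
    · exact hΛc.continuousOn.inv₀ (fun z hz => ne_of_gt hz)
    · exact c.continuous.continuousOn
  have hfac : ContinuousOn fa {z | 0 < Λ z} := hf.comp hac (fun z _ => haA z)
  have hdc : ContinuousOn d {z | 0 < Λ z} := (hb'c.continuousOn.sub hfac).norm
  have hlc' : ContinuousOn l {z | 0 < Λ z} :=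
    (continuous_const.max continuous_id).comp_continuousOn (hΛc.continuousOn.sub hdc)
  have hsc : ContinuousOn s {z | 0 < Λ z} := by
    apply cl_cont.comp_continuousOn
    apply ContinuousOn.div _ hΛc.continuousOn (fun z hz => ne_of_gt hz)
    exact (continuousOn_const.mul hΛc.continuousOn).sub hdc
  have hqc : ContinuousOn q {z | 0 < Λ z} :=
    hθ.comp_continuousOn (hb'c.continuousOn.prodMk (hfac.prodMk hsc))
  have hO : IsOpen {z | 0 < Λ z} := isOpen_lt continuous_const hΛc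
  -- behaviour near the zero set
  have hl_cont : Continuous l := by
    rw [continuous_iff_continuousAt]
    intro z0
    by_cases hz0 : 0 < Λ z0
    · exact hlc'.continuousAt (hO.mem_nhds hz0)
    · have h0 : Λ z0 = 0 := le_antisymm (not_lt.mp hz0) (hΛ0' z0)
      have h1 : l z0 = 0 := le_antisymm (by rw [← h0]; exact hlΛ z0) (hl0 z0)
      show Tendsto l (𝓝 z0) (𝓝 (l z0))
      rw [h1]
      have h2 : Tendsto Λ (𝓝 z0) (𝓝 0) := by rw [← h0]; exact hΛc.tendsto z0
      exact squeeze_zero hl0 hlΛ h2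
  have hq_cont : Continuous q := by
    rw [continuous_iff_continuousAt]
    intro z0
    by_cases hz0 : 0 < Λ z0
    · exact hqc.continuousAt (hO.mem_nhds hz0)
    · have h0 : Λ z0 = 0 := le_antisymm (not_lt.mp hz0) (hΛ0' z0)
      set β := b' z0 with hβ
      have hβB : β ∈ B := hb'B z0
      have h1 : q z0 = β := by
        show θ (b' z0, fa z0, cl ((2 * Λ z0 - d z0) / Λ z0)) = β
        rw [h0, div_zero, cl_of_nonpos le_rfl]
        exact hθ0 _ hβB _ (hfaB z0)
      rw [Metric.continuousAt_iff]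
      intro ε hε
      rw [h1]
      -- tube lemma
      have htube : ∃ δ > 0, ∀ x y : E1, dist x β < δ → dist y β < δ → ∀ r ∈ Set.Icc (0 : ℝ) 1,
          dist (θ (x, y, r)) β < ε := by
        have hopen : IsOpen {w : (E1 × E1) × ℝ | dist (θ (w.1.1, w.1.2, w.2)) β < ε} := by
          apply isOpen_lt _ continuous_const
          exact (hθ.comp ((continuous_fst.comp continuous_fst).prodMk
            ((continuous_snd.comp continuous_fst).prodMk continuous_snd))).dist continuous_const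
        have hsub : ({(β, β)} : Set (E1 × E1)) ×ˢ Set.Icc (0 : ℝ) 1 ⊆
            {w : (E1 × E1) × ℝ | dist (θ (w.1.1, w.1.2, w.2)) β < ε} := by
          rintro ⟨w, r⟩ ⟨hw, _⟩
          have hw' : w = (β, β) := hw
          subst hw'
          show dist (θ (β, β, r)) β < ε
          rw [hθx β hβB r, dist_self]
          exact hε
        obtain ⟨u, v, hu, hv, hu1, hv1, huv⟩ := generalized_tube_lemma isCompact_singleton
          isCompact_Icc hopen hsub
        obtain ⟨δ, hδ, hball⟩ := Metric.isOpen_iff.mp hu (β, β) (hu1 rfl)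
        refine ⟨δ, hδ, fun x y hx hy r hr => ?_⟩
        have : ((x, y), r) ∈ u ×ˢ v := ⟨hball (by
          rw [Metric.mem_ball, Prod.dist_eq]; exact max_lt hx hy), hv1 hr⟩
        exact huv this
      obtain ⟨δ, hδ, htube⟩ := htube
      have e1 : ∀ᶠ z in 𝓝 z0, dist (b' z) β < min (δ / 2) ε :=
        (Metric.tendsto_nhds.mp (hb'c.tendsto z0)) _ (lt_min (half_pos hδ) hε)
      have e2 : ∀ᶠ z in 𝓝 z0, Λ z < δ / 4 :=
        hΛc.continuousAt.eventually_lt_const (by rw [h0]; positivity)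
      obtain ⟨η, hη, hη'⟩ := Metric.eventually_nhds_iff.mp (e1.and e2)
      refine ⟨η, hη, fun z hz => ?_⟩
      obtain ⟨h2, h3⟩ := hη' hz
      have h4 : dist (b' z) β < δ / 2 := h2.trans_le (min_le_left _ _)
      show dist (θ (b' z, fa z, cl ((2 * Λ z - d z) / Λ z))) β < ε
      by_cases h5 : 2 * Λ z ≤ d z
      · have h6 : (2 * Λ z - d z) / Λ z ≤ 0 :=
          div_nonpos_of_nonpos_of_nonneg (by linarith) (hΛ0' z)
        rw [cl_of_nonpos h6, hθ0 _ (hb'B z) _ (hfaB z)]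
        exact h2.trans_le (min_le_right _ _)
      · push Not at h5
        apply htube _ _ (by linarith) _ _ ⟨cl_nonneg _, cl_le_one _⟩
        have h7 : dist (fa z) (b' z) = d z := by
          rw [dist_comm, dist_eq_norm]
        calc dist (fa z) β ≤ dist (fa z) (b' z) + dist (b' z) β := dist_triangle _ _ _
          _ < δ := by rw [h7]; linarith
  have hla_cont : Continuous (fun z => l z • a z) := by
    rw [continuous_iff_continuousAt]
    intro z0
    by_cases hz0 : 0 < Λ z0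
    · exact (hlc'.smul hac).continuousAt (hO.mem_nhds hz0)
    · have h0 : Λ z0 = 0 := le_antisymm (not_lt.mp hz0) (hΛ0' z0)
      have h1 : l z0 = 0 := le_antisymm (by rw [← h0]; exact hlΛ z0) (hl0 z0)
      show Tendsto (fun z => l z • a z) (𝓝 z0) (𝓝 (l z0 • a z0))
      rw [h1, zero_smul]
      obtain ⟨R, hR⟩ := hprop (‖b' z0‖ + 2)
      have e1 : ∀ᶠ z in 𝓝 z0, dist (b' z) (b' z0) < 1 :=
        (Metric.tendsto_nhds.mp (hb'c.tendsto z0)) _ one_pos
      have h2 : ∀ᶠ z in 𝓝 z0, ‖l z • a z‖ ≤ Λ z * max R 0 := by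
        filter_upwards [e1] with z hz
        rw [norm_smul, Real.norm_of_nonneg (hl0 z)]
        rcases eq_or_lt_of_le (hl0 z) with h3 | h3
        · rw [← h3, zero_mul]
          exact mul_nonneg (hΛ0' z) (le_max_right _ _)
        · have h4 : d z < Λ z := by
            by_contra h5
            have h6 : l z = 0 := max_eq_left (by linarith)
            rw [h6] at h3; exact absurd h3 (lt_irrefl _)
          have h5 : ‖fa z‖ ≤ ‖b' z0‖ + 2 := by
            have h6 : ‖fa z - b' z‖ ≤ 1 := by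
              rw [norm_sub_rev]
              exact h4.le.trans (hΛ1' z)
            have h7 : ‖b' z - b' z0‖ ≤ 1 := by rw [← dist_eq_norm]; exact hz.le
            have h8 : fa z = (fa z - b' z) + (b' z - b' z0) + b' z0 := by abel
            calc ‖fa z‖ = ‖(fa z - b' z) + (b' z - b' z0) + b' z0‖ := by rw [← h8]
              _ ≤ ‖(fa z - b' z) + (b' z - b' z0)‖ + ‖b' z0‖ := norm_add_le _ _
              _ ≤ ‖fa z - b' z‖ + ‖b' z - b' z0‖ + ‖b' z0‖ := by
                gcongr; exact norm_add_le _ _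
              _ ≤ ‖b' z0‖ + 2 := by linarith
          have h6 := hR (a z) (haA z) h5
          exact mul_le_mul (hlΛ z) (h6.trans (le_max_left _ _)) (norm_nonneg _) (hΛ0' z)
      have h3 : Tendsto (fun z => Λ z * max R 0) (𝓝 z0) (𝓝 0) := by
        have : Tendsto (fun z => Λ z * max R 0) (𝓝 z0) (𝓝 (Λ z0 * max R 0)) :=
          (hΛc.tendsto z0).mul_const _
        rwa [h0, zero_mul] at this
      exact squeeze_zero_norm' h2 h3
  refine ⟨fun z => (l z, l z • a z, (1 - l z) • q z),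
    hl_cont.prodMk (hla_cont.prodMk ((continuous_const.sub hl_cont).smul hq_cont)), ?_, ?_⟩
  · intro z
    rcases eq_or_lt_of_le (hl0 z) with h3 | h3
    · refine Or.inr ⟨h3.symm, ?_, ?_⟩
      · show l z • a z = 0
        rw [← h3, zero_smul]
      · show (1 - l z) • q z ∈ B
        rw [← h3, sub_zero, one_smul]
        exact hθB _
    · refine Or.inl ⟨h3, (hlΛ z).trans (hΛ1' z), a z, haA z, rfl, ?_⟩
      show (1 - l z) • q z = (1 - l z) • f (a z)
      have h4 : d z < Λ z := by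
        by_contra h5
        have h6 : l z = 0 := max_eq_left (by linarith)
        rw [h6] at h3; exact absurd h3 (lt_irrefl _)
      have h5 : 1 ≤ (2 * Λ z - d z) / Λ z := by
        rw [le_div_iff₀ ((hd0 z).trans_lt h4)]; linarith
      have h6 : q z = fa z := by
        show θ (b' z, fa z, cl ((2 * Λ z - d z) / Λ z)) = fa z
        rw [cl_of_one_le h5]
        exact hθ1 _ (hb'B z) _ (hfaB z)
      rw [h6]
  · intro z hz
    show (l z, l z • a z, (1 - l z) • q z) = φ z
    have hb'z : b' z = b z := hb'1 hz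
    rcases hφm hz with ⟨h1, h2, a0, ha0, h3, h4⟩ | ⟨h1, h2, h3⟩
    · have e1 : (Λ z)⁻¹ • c z = a0 := by
        rw [hΛC z hz, hcC z hz, h3, inv_smul_smul₀ (ne_of_gt h1)]
      have e2 : a z = a0 := by
        show ρ ((Λ z)⁻¹ • c z) = a0
        rw [e1, hρ1 a0 ha0]
      have e3 : b z = f a0 := by
        rw [(hbpos z hz h1).2, h3, inv_smul_smul₀ (ne_of_gt h1)]
      have e4 : fa z = f a0 := by show f (a z) = _; rw [e2]
      have e5 : d z = 0 := by
        show ‖b' z - fa z‖ = 0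
        rw [hb'z, e3, e4, sub_self, norm_zero]
      have e6 : l z = (φ z).1 := by
        show max 0 (Λ z - d z) = _
        rw [e5, sub_zero, hΛC z hz, max_eq_right h1.le]
      have e7 : q z = f a0 := by
        show θ (b' z, fa z, s z) = _
        rw [hb'z, e3, e4, hθx _ (hfB ha0)]
      rw [e6, e2, e7]
      exact Prod.ext rfl (Prod.ext h3.symm h4.symm)
    · have e0 : Λ z = 0 := by rw [hΛC z hz, h1]
      have e1 : l z = 0 := le_antisymm (by rw [← e0]; exact hlΛ z) (hl0 z)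
      have e2 : q z = (φ z).2.2 := by
        show θ (b' z, fa z, cl ((2 * Λ z - d z) / Λ z)) = _
        rw [e0, div_zero, cl_of_nonpos le_rfl, hθ0 _ (hb'B z) _ (hfaB z), hb'z, hb0 z hz h1]
      rw [e1, e2, zero_smul, sub_zero, one_smul]
      exact Prod.ext h1.symm (Prod.ext h2.symm rfl)

end Run7.h241
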