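import Mathlib
import Pool.Agent.Run7.h241.TSpA

set_option autoImplicit false

namespace Run7.h241

open Filter Topology H30

theorem RTree.finite_le {V : Type} (t : RTree V) (n : ℕ) : {w : V | t.dep w ≤ n}.Finite := by
  have : {w : V | t.dep w ≤ n} = ⋃ i ∈ Set.Iic n, {w | t.dep w = i} := by
    ext w; simp
  rw [this]
  exact (Set.finite_Iic n).biUnion (fun i _ => t.lev_fin i)

section FSp

variable {Γ : Type} [Group Γ] {U M E : Type} [MulAction Γ U] [TopologicalSpace M]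
    [MulAction Γ M] [NormedAddCommGroup E] {p : M → U} {j : M → E}

theorem FSp.locConst (h : FSp Γ p j) : IsLocallyConstant p :=
  (IsLocallyConstant.iff_isOpen_fiber).mpr h.popen

theorem FSp.ev (h : FSp Γ p j) (x : M) : ∀ᶠ y in 𝓝 x, p y = p x :=
  h.locConst.eventually_eq x

theorem FSp.fclosed (h : FSp Γ p j) (u : U) : IsClosed (p ⁻¹' {u}) :=
  h.locConst.isClosed_fiber u

theorem FSp.t2 (h : FSp Γ p j) : T2Space M := by
  constructor
  intro x y hxy
  by_cases hp : p x = p y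
  · have hj : j x ≠ j y := fun hj => hxy (h.jinj x y hp hj)
    obtain ⟨u, v, hu, hv, hxu, hyv, huv⟩ := t2_separation hj
    exact ⟨j ⁻¹' u, j ⁻¹' v, hu.preimage h.jcont, hv.preimage h.jcont, hxu, hyv,
      huv.preimage j⟩
  · refine ⟨p ⁻¹' {p x}, p ⁻¹' {p y}, h.popen _, h.popen _, rfl, rfl, ?_⟩
    rw [Set.disjoint_left]
    intro z hz hz'
    exact hp (hz.symm.trans hz')

/-- the fibres embed -/
theorem FSp.inducing (h : FSp Γ p j) (u : U) : IsInducing (fun x : p ⁻¹' {u} => j x.1) := by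
  refine inducing_of_proper (h.jcont.comp continuous_subtype_val) ?_
    (k := fun y => 1 / (1 + ‖y‖)) ?_ ?_ ?_
  · intro x y hxy
    exact Subtype.ext (h.jinj _ _ ((x.2 : p x.1 = u).trans (y.2 : p y.1 = u).symm) hxy)
  · exact continuous_const.div (continuous_const.add continuous_norm) (fun y => by positivity)
  · intro x; positivity
  · intro δ hδ
    rw [Subtype.isCompact_iff]
    have : (Subtype.val '' {x : p ⁻¹' {u} | δ ≤ 1 / (1 + ‖j x.1‖)}) =
        {x | p x = u ∧ ‖j x‖ ≤ 1 / δ - 1} := by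
      ext x
      have key : δ ≤ 1 / (1 + ‖j x‖) ↔ ‖j x‖ ≤ 1 / δ - 1 := by
        rw [le_div_iff₀ (by positivity)]
        constructor
        · intro h1
          rw [le_sub_iff_add_le, le_div_iff₀ hδ]; linarith
        · intro h1
          rw [le_sub_iff_add_le, le_div_iff₀ hδ] at h1; linarith
      constructor
      · rintro ⟨y, hy, rfl⟩
        exact ⟨y.2, key.mp hy⟩
      · rintro ⟨h1, h2⟩
        exact ⟨⟨x, h1⟩, key.mpr h2, rfl⟩
    rw [this]
    exact h.jprop u _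

theorem FSp.img_closed [NormedSpace ℝ E] [FiniteDimensional ℝ E] (h : FSp Γ p j) (u : U) :
    IsClosed (j '' (p ⁻¹' {u})) := by
  apply isClosed_of_closure_subset
  intro y hy
  have h1 : y ∈ closure (j '' {x | p x = u ∧ ‖j x‖ ≤ ‖y‖ + 1}) := by
    rw [Metric.mem_closure_iff] at hy ⊢
    intro ε hε
    obtain ⟨_, ⟨x, hx, rfl⟩, hd⟩ := hy (min ε 1) (lt_min hε one_pos)
    refine ⟨j x, ⟨x, ⟨hx, ?_⟩, rfl⟩, hd.trans_le (min_le_left _ _)⟩
    have h2 : dist y (j x) < 1 := hd.trans_le (min_le_right _ _)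
    rw [dist_comm, dist_eq_norm] at h2
    have h3 : j x = (j x - y) + y := by abel
    calc ‖j x‖ = ‖(j x - y) + y‖ := by rw [← h3]
      _ ≤ ‖j x - y‖ + ‖y‖ := norm_add_le _ _
      _ ≤ ‖y‖ + 1 := by linarith
  rw [((h.jprop u _).image h.jcont).isClosed.closure_eq] at h1
  obtain ⟨x, hx, rfl⟩ := h1
  exact ⟨x, hx.1, rfl⟩

end FSp

namespace TData

variable {V0 V1 M0 M1 E0 E1 : Type}

/-- The total space, as a set. -/
def Tot (_D : TData V0 V1 M0 M1 E0 E1) : Type := M0 ⊕ (M1 ⊕ (M0 × Bool × Set.Ioo (0 : ℝ) 1))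

variable (D : TData V0 V1 M0 M1 E0 E1)

/-- the projection to the tree -/
noncomputable def pi : D.Tot → (V0 ⊕ V1) → ℝ
  | Sum.inl x => D.t.vt (Sum.inl (D.p0 x))
  | Sum.inr (Sum.inl w) => D.t.vt (Sum.inr (D.p1 w))
  | Sum.inr (Sum.inr z) => TTree.ept D.t D.nb z.2.1 (D.p0 z.1) z.2.2

section

variable [NormedAddCommGroup E0] [NormedSpace ℝ E0] [NormedAddCommGroup E1] [NormedSpace ℝ E1]

/-- first coordinate -/
noncomputable def ca : D.Tot → E0
  | Sum.inl x => D.j0 x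
  | Sum.inr (Sum.inl _) => 0
  | Sum.inr (Sum.inr z) => (z.2.2 : ℝ) • D.j0 z.1

/-- second coordinate -/
noncomputable def cb : D.Tot → E1
  | Sum.inl _ => 0
  | Sum.inr (Sum.inl w) => D.j1 w
  | Sum.inr (Sum.inr z) => (1 - (z.2.2 : ℝ)) • D.j1 (D.f z.2.1 z.1)

/-- all coordinates -/
noncomputable def Xi (ξ : D.Tot) : ((V0 ⊕ V1) → ℝ) × E0 × E1 := (D.pi ξ, D.ca ξ, D.cb ξ)

noncomputable instance : TopologicalSpace D.Tot := TopologicalSpace.induced D.Xi inferInstance

theorem Xi_inducing : IsInducing D.Xi := ⟨rfl⟩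

theorem pi_cont : Continuous D.pi := continuous_fst.comp D.Xi_inducing.continuous

theorem ca_cont : Continuous D.ca :=
  (continuous_fst.comp continuous_snd).comp D.Xi_inducing.continuous

theorem cb_cont : Continuous D.cb :=
  (continuous_snd.comp continuous_snd).comp D.Xi_inducing.continuous

end

open Classical in
/-- normal forms -/
noncomputable def nf : (M0 × Bool × unitInterval) ⊕ M1 → D.Tot
  | Sum.inl z => if h1 : (z.2.2 : ℝ) < 1 then
      if h0 : 0 < (z.2.2 : ℝ) then Sum.inr (Sum.inr (z.1, z.2.1, ⟨z.2.2, h0, h1⟩)) else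
        Sum.inr (Sum.inl (D.f z.2.1 z.1)) else Sum.inl z.1
  | Sum.inr w => Sum.inr (Sum.inl w)

theorem nf_surj : Function.Surjective D.nf := by
  rintro (x | w | ⟨x, b, s⟩)
  · refine ⟨Sum.inl (x, true, 1), ?_⟩
    show (if h1 : ((1 : unitInterval) : ℝ) < 1 then _ else Sum.inl x) = _
    rw [dif_neg (by norm_num)]
  · exact ⟨Sum.inr w, rfl⟩
  · refine ⟨Sum.inl (x, b, ⟨s.1, s.2.1.le, s.2.2.le⟩), ?_⟩
    show (if h1 : (s.1 : ℝ) < 1 then if h0 : 0 < (s.1 : ℝ) then
      Sum.inr (Sum.inr (x, b, ⟨s.1, h0, h1⟩)) else Sum.inr (Sum.inl (D.f b x)) else Sum.inl x) =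
        Sum.inr (Sum.inr (x, b, s))
    rw [dif_pos s.2.2, dif_pos s.2.1]

theorem nf_one (x : M0) (b : Bool) : D.nf (Sum.inl (x, b, 1)) = (Sum.inl x : D.Tot) := by
  show (if h1 : ((1 : unitInterval) : ℝ) < 1 then _ else Sum.inl x) = _
  rw [dif_neg (by norm_num)]

theorem nf_zero (x : M0) (b : Bool) :
    D.nf (Sum.inl (x, b, 0)) = (Sum.inr (Sum.inl (D.f b x)) : D.Tot) := by
  show (if h1 : ((0 : unitInterval) : ℝ) < 1 then if h0 : 0 < ((0 : unitInterval) : ℝ) then _ else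
    Sum.inr (Sum.inl (D.f b x)) else _) = _
  rw [dif_pos (by norm_num), dif_neg (by norm_num)]

/-- The action on the total space. -/
instance (Γ : Type) [Group Γ] [MulAction Γ M0] [MulAction Γ M1] : MulAction Γ D.Tot where
  smul γ ξ := Sum.map (fun x => γ • x) (Sum.map (fun w => γ • w) (fun z => (γ • z.1, z.2))) ξ
  one_smul ξ := by
    rcases ξ with x | w | ⟨x, z⟩
    · exact congrArg Sum.inl (one_smul Γ x)
    · exact congrArg (fun w => Sum.inr (Sum.inl w)) (one_smul Γ w)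
    · exact congrArg (fun x => Sum.inr (Sum.inr (x, z))) (one_smul Γ x)
  mul_smul γ γ' ξ := by
    rcases ξ with x | w | ⟨x, z⟩
    · exact congrArg Sum.inl (mul_smul γ γ' x)
    · exact congrArg (fun w => Sum.inr (Sum.inl w)) (mul_smul γ γ' w)
    · exact congrArg (fun x => Sum.inr (Sum.inr (x, z))) (mul_smul γ γ' x)

/-- the action on parameters -/
def pact {Γ : Type} [Group Γ] [MulAction Γ M0] [MulAction Γ M1] (γ : Γ) :
    (M0 × Bool × unitInterval) ⊕ M1 → (M0 × Bool × unitInterval) ⊕ M1 :=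
  Sum.map (fun z => (γ • z.1, z.2)) (fun w => γ • w)

end TData

/-- The hypotheses on a tree of spaces. -/
structure TSp (Γ : Type) [Group Γ] {V0 V1 M0 M1 E0 E1 : Type} [MulAction Γ V0] [MulAction Γ V1]
    [TopologicalSpace M0] [TopologicalSpace M1] [MulAction Γ M0] [MulAction Γ M1]
    [NormedAddCommGroup E0] [NormedAddCommGroup E1] (D : TData V0 V1 M0 M1 E0 E1) : Prop where
  tt : TTree D.t D.nb
  F0 : FSp Γ D.p0 D.j0
  F1 : FSp Γ D.p1 D.j1
  nbact : ∀ (γ : Γ) b v, D.nb b (γ • v) = γ • D.nb b v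
  fcont : ∀ b, Continuous (D.f b)
  fact : ∀ b (γ : Γ) x, D.f b (γ • x) = γ • D.f b x
  fp : ∀ b x, D.p1 (D.f b x) = D.nb b (D.p0 x)

section

variable {Γ : Type} [Group Γ] {V0 V1 M0 M1 E0 E1 : Type} [MulAction Γ V0] [MulAction Γ V1]
    [TopologicalSpace M0] [TopologicalSpace M1] [MulAction Γ M0] [MulAction Γ M1]
    [NormedAddCommGroup E0] [NormedAddCommGroup E1] [NormedSpace ℝ E0] [NormedSpace ℝ E1]
    {D : TData V0 V1 M0 M1 E0 E1}

theorem TSp.Xi_nf_inl (h : TSp Γ D) (x : M0) (b : Bool) (s : unitInterval) :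
    D.Xi (D.nf (Sum.inl (x, b, s))) = (TTree.ept D.t D.nb b (D.p0 x) s, (s : ℝ) • D.j0 x,
      (1 - (s : ℝ)) • D.j1 (D.f b x)) := by
  classical
  have hs0 := s.2.1
  have hs1 := s.2.2
  by_cases h1 : (s : ℝ) < 1
  · by_cases h0 : 0 < (s : ℝ)
    · have e : D.nf (Sum.inl (x, b, s)) =
          Sum.inr (Sum.inr (x, b, (⟨(s : ℝ), h0, h1⟩ : Set.Ioo (0 : ℝ) 1))) := by
        show (if h1 : (s : ℝ) < 1 then if h0 : 0 < (s : ℝ) then
          Sum.inr (Sum.inr (x, b, (⟨(s : ℝ), h0, h1⟩ : Set.Ioo (0 : ℝ) 1))) else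
            Sum.inr (Sum.inl (D.f b x)) else
            Sum.inl x) = Sum.inr (Sum.inr (x, b, (⟨(s : ℝ), h0, h1⟩ : Set.Ioo (0 : ℝ) 1)))
        rw [dif_pos h1, dif_pos h0]
      rw [e]; rfl
    · have e0 : s = 0 := Subtype.ext (le_antisymm (not_lt.mp h0) hs0)
      subst e0
      rw [D.nf_zero]
      show (D.t.vt (Sum.inr (D.p1 (D.f b x))), (0 : E0), D.j1 (D.f b x)) = _
      have e2 : ((0 : unitInterval) : ℝ) = 0 := rfl
      rw [e2, h.tt.ept_zero, h.fp, zero_smul, sub_zero, one_smul]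
  · have e1 : s = 1 := Subtype.ext (le_antisymm hs1 (not_lt.mp h1))
    subst e1
    rw [D.nf_one]
    show (D.t.vt (Sum.inl (D.p0 x)), D.j0 x, (0 : E1)) = _
    have e2 : ((1 : unitInterval) : ℝ) = 1 := rfl
    rw [e2, h.tt.ept_one, one_smul, sub_self, zero_smul]

theorem TSp.nf_cont (h : TSp Γ D) : Continuous D.nf := by
  rw [D.Xi_inducing.continuous_iff]
  apply continuous_sum_dom.mpr
  constructor
  · have e : (D.Xi ∘ D.nf) ∘ Sum.inl = fun z : M0 × Bool × unitInterval =>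
        (TTree.ept D.t D.nb z.2.1 (D.p0 z.1) z.2.2, (z.2.2 : ℝ) • D.j0 z.1,
          (1 - (z.2.2 : ℝ)) • D.j1 (D.f z.2.1 z.1)) := by
      funext z
      exact h.Xi_nf_inl z.1 z.2.1 z.2.2
    rw [e]
    have hs : Continuous (fun z : M0 × Bool × unitInterval => (z.2.2 : ℝ)) :=
      continuous_subtype_val.comp (continuous_snd.comp continuous_snd)
    have hb : ∀ z : M0 × Bool × unitInterval, ∀ᶠ z' in 𝓝 z, z'.2.1 = z.2.1 := by
      intro z
      have : Continuous (fun z : M0 × Bool × unitInterval => z.2.1) :=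
        continuous_fst.comp continuous_snd
      have h1 : ∀ᶠ c in 𝓝 z.2.1, c = z.2.1 := by
        rw [nhds_discrete]; exact Filter.eventually_pure.mpr rfl
      exact this.continuousAt.eventually h1
    refine Continuous.prodMk ?_ (Continuous.prodMk ?_ ?_)
    · rw [continuous_iff_continuousAt]
      intro z
      have h1 : ∀ᶠ z' in 𝓝 z, D.p0 z'.1 = D.p0 z.1 :=
        continuous_fst.continuousAt.eventually (h.F0.ev z.1)
      have h2 : (fun z' : M0 × Bool × unitInterval =>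
          TTree.ept D.t D.nb z.2.1 (D.p0 z.1) z'.2.2) =ᶠ[𝓝 z]
          (fun z' => TTree.ept D.t D.nb z'.2.1 (D.p0 z'.1) z'.2.2) := by
        filter_upwards [h1, hb z] with z' e1 e2
        rw [e1, e2]
      exact (((TTree.ept_cont _ _).comp hs).continuousAt).congr h2
    · exact hs.smul (h.F0.jcont.comp continuous_fst)
    · apply (continuous_const.sub hs).smul
      apply h.F1.jcont.comp
      rw [continuous_iff_continuousAt]
      intro z
      have h2 : (fun z' : M0 × Bool × unitInterval => D.f z.2.1 z'.1) =ᶠ[𝓝 z]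
          (fun z' => D.f z'.2.1 z'.1) := by
        filter_upwards [hb z] with z' e2
        rw [e2]
      exact (((h.fcont _).comp continuous_fst).continuousAt).congr h2
  · rw [continuous_iff_continuousAt]
    intro w
    have h2 : (fun w' : M1 => ((D.t.vt (Sum.inr (D.p1 w)), (0 : E0), D.j1 w') :
        ((V0 ⊕ V1) → ℝ) × E0 × E1)) =ᶠ[𝓝 w] ((D.Xi ∘ D.nf) ∘ Sum.inr) := by
      filter_upwards [h.F1.ev w] with w' e2
      show _ = (D.t.vt (Sum.inr (D.p1 w')), (0 : E0), D.j1 w')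
      rw [e2]
    exact (continuous_const.prodMk (continuous_const.prodMk h.F1.jcont)).continuousAt.congr h2

theorem TSp.pi_cell (h : TSp Γ D) (ξ : D.Tot) : ∃ w, D.pi ξ ∈ D.t.cell w := by
  rcases ξ with x | w | ⟨x, b, s⟩
  · exact ⟨_, RTree.vt_mem_cell _⟩
  · exact ⟨_, RTree.vt_mem_cell _⟩
  · exact ⟨_, h.tt.ept_mem s.2.1.le s.2.2.le⟩

theorem TSp.pi_T (h : TSp Γ D) (ξ : D.Tot) : D.pi ξ ∈ D.t.T := by
  obtain ⟨w, hw⟩ := h.pi_cell ξ
  exact ⟨hw.1, RTree.cell_Q_pos hw⟩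

theorem TSp.Xi_inj (h : TSp Γ D) : Function.Injective D.Xi := by
  -- vertices and interior points are different
  have hne : ∀ (w : V0 ⊕ V1) (b : Bool) (v : V0) (s : Set.Ioo (0 : ℝ) 1),
      D.t.vt w ≠ TTree.ept D.t D.nb b v s := by
    intro w b v s he
    have h1 := congrFun he (TTree.child D.t D.nb b v)
    rw [TTree.ept_child] at h1
    obtain ⟨h2, h3⟩ := h.tt.wgt_Ioo (b := b) (v := v) s.2.1 s.2.2
    unfold RTree.vt at h1
    split_ifs at h1
    · linarith
    · linarith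
  rintro (x | w | ⟨x, b, s⟩) (x' | w' | ⟨x', b', s'⟩) he
  · have h1 : D.t.vt (Sum.inl (D.p0 x)) = D.t.vt (Sum.inl (D.p0 x')) := congrArg Prod.fst he
    have h2 : D.j0 x = D.j0 x' := congrArg (fun z => z.2.1) he
    exact congrArg Sum.inl (h.F0.jinj _ _ (Sum.inl_injective (RTree.vt_inj h1)) h2)
  · have h1 : D.t.vt (Sum.inl (D.p0 x)) = D.t.vt (Sum.inr (D.p1 w')) := congrArg Prod.fst he
    exact absurd (RTree.vt_inj h1) Sum.inl_ne_inr
  · have h1 : D.t.vt (Sum.inl (D.p0 x)) = TTree.ept D.t D.nb b' (D.p0 x') s' :=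
      congrArg Prod.fst he
    exact absurd h1 (hne _ _ _ _)
  · have h1 : D.t.vt (Sum.inr (D.p1 w)) = D.t.vt (Sum.inl (D.p0 x')) := congrArg Prod.fst he
    exact absurd (RTree.vt_inj h1) Sum.inr_ne_inl
  · have h1 : D.t.vt (Sum.inr (D.p1 w)) = D.t.vt (Sum.inr (D.p1 w')) := congrArg Prod.fst he
    have h2 : D.j1 w = D.j1 w' := congrArg (fun z => z.2.2) he
    exact congrArg (fun w => Sum.inr (Sum.inl w))
      (h.F1.jinj _ _ (Sum.inr_injective (RTree.vt_inj h1)) h2)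
  · have h1 : D.t.vt (Sum.inr (D.p1 w)) = TTree.ept D.t D.nb b' (D.p0 x') s' :=
      congrArg Prod.fst he
    exact absurd h1 (hne _ _ _ _)
  · have h1 : TTree.ept D.t D.nb b (D.p0 x) s = D.t.vt (Sum.inl (D.p0 x')) :=
      congrArg Prod.fst he
    exact absurd h1.symm (hne _ _ _ _)
  · have h1 : TTree.ept D.t D.nb b (D.p0 x) s = D.t.vt (Sum.inr (D.p1 w')) :=
      congrArg Prod.fst he
    exact absurd h1.symm (hne _ _ _ _)
  · have h1 : TTree.ept D.t D.nb b (D.p0 x) s = TTree.ept D.t D.nb b' (D.p0 x') s' :=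
      congrArg Prod.fst he
    have m1 := h.tt.ept_mem (b := b) (v := D.p0 x) s.2.1.le s.2.2.le
    have m2 := h.tt.ept_mem (b := b') (v := D.p0 x') s'.2.1.le s'.2.2.le
    rw [← h1] at m2
    obtain ⟨k1, k2⟩ := h.tt.wgt_Ioo (b := b) (v := D.p0 x) s.2.1 s.2.2
    have hc := RTree.cell_unique m1 m2 (by rw [TTree.ept_child]; exact k1)
      (by rw [TTree.ept_child]; exact k2)
    obtain ⟨hb, hv⟩ := h.tt.child_inj hc
    subst hb
    rw [hv] at h1
    have h2 := congrFun h1 (TTree.child D.t D.nb b' (D.p0 x))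
    rw [TTree.ept_child, TTree.ept_child] at h2
    have hs := h.tt.wgt_inj h2
    have h3 : (s : ℝ) • D.j0 x = (s' : ℝ) • D.j0 x' := congrArg (fun z => z.2.1) he
    rw [← hs] at h3
    have h4 : D.j0 x = D.j0 x' := smul_right_injective _ (ne_of_gt s.2.1) h3
    have h5 : x = x' := h.F0.jinj _ _ hv.symm h4
    subst h5
    have h6 : s = s' := Subtype.ext hs
    rw [h6]

end

end Run7.h241
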