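import Mathlib
import Pool.Agent.Run7.h241.TSpB

set_option autoImplicit false

namespace Run7.h241

open Filter Topology H30

section

variable {Γ : Type} [Group Γ] {V0 V1 M0 M1 E0 E1 : Type} [MulAction Γ V0] [MulAction Γ V1]
    [TopologicalSpace M0] [TopologicalSpace M1] [MulAction Γ M0] [MulAction Γ M1]
    [NormedAddCommGroup E0] [NormedAddCommGroup E1] [NormedSpace ℝ E0] [NormedSpace ℝ E1]
    {D : TData V0 V1 M0 M1 E0 E1}

theorem TSp.t2 (h : TSp Γ D) : T2Space D.Tot :=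
  T2Space.of_injective_continuous h.Xi_inj D.Xi_inducing.continuous

theorem TSp.metr (h : TSp Γ D) : TopologicalSpace.MetrizableSpace D.Tot := by
  have : Countable (V0 ⊕ V1) := D.t.countable
  exact (IsEmbedding.mk D.Xi_inducing h.Xi_inj).metrizableSpace

/-- preimages of compact sets under the attaching maps -/
theorem TSp.f_proper (h : TSp Γ D) (b : Bool) {C : Set M1} (hC : IsCompact C) :
    IsCompact {x | D.f b x ∈ C} := by
  haveI := h.F1.t2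
  obtain ⟨C0, hC0, h0⟩ := h.F0.cocpt
  have hC1 : IsCompact (C ∪ D.f b '' C0) := hC.union (hC0.image (h.fcont b))
  have hfin := h.F1.proper _ hC1
  have hc : IsCompact (⋃ γ ∈ {γ : Γ | ((fun x => γ • x) '' (C ∪ D.f b '' C0) ∩
      (C ∪ D.f b '' C0)).Nonempty}, (fun x : M0 => γ⁻¹ • x) '' C0) :=
    hfin.isCompact_biUnion (fun γ _ => hC0.image (h.F0.act γ⁻¹))
  apply hc.of_isClosed_subset (hC.isClosed.preimage (h.fcont b))
  intro x hx
  obtain ⟨γ, hγ⟩ := h0 x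
  refine Set.mem_biUnion (x := γ) ?_ ⟨γ • x, hγ, inv_smul_smul γ x⟩
  refine ⟨γ • D.f b x, ⟨D.f b x, Or.inl hx, rfl⟩, Or.inr ⟨γ • x, hγ, h.fact b γ x⟩⟩

/-- an exhaustion -/
def TData.Kset (D : TData V0 V1 M0 M1 E0 E1) (R : ℕ) : Set D.Tot :=
  {ξ | 1 / ((R : ℝ) + 1) ≤ D.t.Q (D.pi ξ) ∧ ‖D.ca ξ‖ ≤ R ∧ ‖D.cb ξ‖ ≤ R}

theorem TSp.Kset_closed (_h : TSp Γ D) (R : ℕ) : IsClosed (D.Kset R) :=
  (isClosed_le continuous_const (D.t.Q_cont.comp D.pi_cont)).inter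
    ((isClosed_le D.ca_cont.norm continuous_const).inter
      (isClosed_le D.cb_cont.norm continuous_const))

theorem TSp.Kset_pre (h : TSp Γ D) (R : ℕ) : IsCompact (D.nf ⁻¹' (D.Kset R)) := by
  classical
  have hF : {v : V0 | D.t.dep (Sum.inl v) ≤ R + 1}.Finite :=
    (D.t.finite_le (R + 1)).preimage Sum.inl_injective.injOn
  have hF' : {u : V1 | D.t.dep (Sum.inr u) ≤ R + 1}.Finite :=
    (D.t.finite_le (R + 1)).preimage Sum.inr_injective.injOn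
  set A : Set M0 := ⋃ v ∈ {v : V0 | D.t.dep (Sum.inl v) ≤ R + 1},
    ({x | D.p0 x = v ∧ ‖D.j0 x‖ ≤ 2 * R} ∪ ⋃ b : Bool,
      {x | D.f b x ∈ {w | D.p1 w = D.nb b v ∧ ‖D.j1 w‖ ≤ 2 * R}}) with hA
  have hAc : IsCompact A := hF.isCompact_biUnion (fun v _ =>
    (h.F0.jprop v _).union (isCompact_iUnion fun b => h.f_proper b (h.F1.jprop _ _)))
  set B : Set M1 := ⋃ u ∈ {u : V1 | D.t.dep (Sum.inr u) ≤ R + 1},
    {w | D.p1 w = u ∧ ‖D.j1 w‖ ≤ R} with hB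
  have hBc : IsCompact B := hF'.isCompact_biUnion (fun u _ => h.F1.jprop u _)
  have hc : IsCompact ((Sum.inl '' (A ×ˢ (Set.univ : Set (Bool × unitInterval)))) ∪
      (Sum.inr '' B) : Set ((M0 × Bool × unitInterval) ⊕ M1)) :=
    ((hAc.prod isCompact_univ).image continuous_inl).union (hBc.image continuous_inr)
  apply hc.of_isClosed_subset ((h.Kset_closed R).preimage h.nf_cont)
  rintro (⟨x, b, s⟩ | w) hq
  · left
    refine ⟨(x, b, s), ⟨?_, trivial⟩, rfl⟩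
    have hX := h.Xi_nf_inl x b s
    have hpi : D.pi (D.nf (Sum.inl (x, b, s))) = TTree.ept D.t D.nb b (D.p0 x) s :=
      congrArg Prod.fst hX
    have hca : D.ca (D.nf (Sum.inl (x, b, s))) = (s : ℝ) • D.j0 x :=
      congrArg (fun z => z.2.1) hX
    have hcb : D.cb (D.nf (Sum.inl (x, b, s))) = (1 - (s : ℝ)) • D.j1 (D.f b x) :=
      congrArg (fun z => z.2.2) hX
    obtain ⟨h1, h2, h3⟩ := hq
    rw [hpi] at h1
    rw [hca, norm_smul, Real.norm_of_nonneg s.2.1] at h2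
    rw [hcb, norm_smul, Real.norm_of_nonneg (sub_nonneg.mpr s.2.2)] at h3
    have hcell := h.tt.ept_mem (b := b) (v := D.p0 x) s.2.1 s.2.2
    have hd : D.t.dep (TTree.child D.t D.nb b (D.p0 x)) ≤ R + 1 := by
      have e1 := RTree.cell_inv_ge hcell
      have e2 : 1 / D.t.Q (TTree.ept D.t D.nb b (D.p0 x) s) ≤ (R : ℝ) + 1 := by
        have := one_div_le_one_div_of_le (by positivity) h1
        rwa [one_div_one_div] at this
      have e3 : (D.t.dep (TTree.child D.t D.nb b (D.p0 x)) : ℝ) ≤ ((R + 1 : ℕ) : ℝ) := by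
        push_cast; linarith
      exact_mod_cast e3
    have hd' : D.t.dep (Sum.inl (D.p0 x)) ≤ R + 1 := by
      rcases h.tt.shape b (D.p0 x) with ⟨e1, e2, e3, _⟩ | ⟨e1, e2, e3, _⟩
      · rw [e1] at hd; exact hd
      · have e4 := D.t.dep_par' (TTree.child D.t D.nb b (D.p0 x))
        rw [e2] at e4
        omega
    refine Set.mem_biUnion (x := D.p0 x) hd' ?_
    rcases le_total (1 / 2 : ℝ) s with hs | hs
    · left
      refine ⟨rfl, ?_⟩
      have := norm_nonneg (D.j0 x)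
      nlinarith
    · right
      refine Set.mem_iUnion.mpr ⟨b, h.fp b x, ?_⟩
      have := norm_nonneg (D.j1 (D.f b x))
      nlinarith
  · right
    obtain ⟨h1, h2, h3⟩ := hq
    refine ⟨w, ?_, rfl⟩
    have h1' : 1 / ((R : ℝ) + 1) ≤ D.t.Q (D.t.vt (Sum.inr (D.p1 w))) := h1
    have h3' : ‖D.j1 w‖ ≤ R := h3
    refine Set.mem_biUnion (x := D.p1 w) ?_ ⟨rfl, h3'⟩
    have e1 := RTree.cell_inv_ge (RTree.vt_mem_cell (t := D.t) (Sum.inr (D.p1 w)))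
    have e2 : 1 / D.t.Q (D.t.vt (Sum.inr (D.p1 w))) ≤ (R : ℝ) + 1 := by
      have := one_div_le_one_div_of_le (by positivity) h1'
      rwa [one_div_one_div] at this
    have e3 : (D.t.dep (Sum.inr (D.p1 w) : V0 ⊕ V1) : ℝ) ≤ ((R + 1 : ℕ) : ℝ) := by
      push_cast; linarith
    exact_mod_cast e3

theorem TSp.Kset_compact (h : TSp Γ D) (R : ℕ) : IsCompact (D.Kset R) := by
  have : D.Kset R = D.nf '' (D.nf ⁻¹' (D.Kset R)) :=
    (Set.image_preimage_eq _ D.nf_surj).symm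
  rw [this]
  exact (h.Kset_pre R).image h.nf_cont

theorem TSp.Kset_nhd (h : TSp Γ D) (ξ : D.Tot) : ∃ R, D.Kset R ∈ 𝓝 ξ := by
  have hQ : 0 < D.t.Q (D.pi ξ) := (h.pi_T ξ).2
  obtain ⟨R, hR⟩ := exists_nat_gt (max (1 / D.t.Q (D.pi ξ)) (max ‖D.ca ξ‖ ‖D.cb ξ‖))
  have h1 : 1 / D.t.Q (D.pi ξ) < R := (le_max_left _ _).trans_lt hR
  have h2 : ‖D.ca ξ‖ < R := ((le_max_left _ _).trans (le_max_right _ _)).trans_lt hR
  have h3 : ‖D.cb ξ‖ < R := ((le_max_right _ _).trans (le_max_right _ _)).trans_lt hR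
  have h4 : 1 / ((R : ℝ) + 1) < D.t.Q (D.pi ξ) := by
    rw [div_lt_iff₀ hQ] at h1
    rw [div_lt_iff₀ (by positivity)]
    nlinarith
  refine ⟨R, ?_⟩
  filter_upwards [(D.t.Q_cont.comp D.pi_cont).continuousAt.eventually_const_lt h4,
    D.ca_cont.norm.continuousAt.eventually_lt_const h2,
    D.cb_cont.norm.continuousAt.eventually_lt_const h3] with ζ e1 e2 e3
  exact ⟨le_of_lt e1, e2.le, e3.le⟩

theorem TSp.wlc (h : TSp Γ D) : WeaklyLocallyCompactSpace D.Tot :=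
  ⟨fun ξ => by
    obtain ⟨R, hR⟩ := h.Kset_nhd ξ
    exact ⟨_, h.Kset_compact R, hR⟩⟩

theorem TSp.sigma (h : TSp Γ D) : SigmaCompactSpace D.Tot :=
  ⟨⟨D.Kset, h.Kset_compact, by
    rw [Set.eq_univ_iff_forall]
    intro ξ
    obtain ⟨R, hR⟩ := h.Kset_nhd ξ
    exact Set.mem_iUnion.mpr ⟨R, mem_of_mem_nhds hR⟩⟩⟩

theorem TSp.nf_pre (h : TSp Γ D) {C : Set D.Tot} (hC : IsCompact C) :
    IsCompact (D.nf ⁻¹' C) := by
  haveI := h.t2
  -- C lies in some Kset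
  obtain ⟨s, hs⟩ := hC.elim_nhds_subcover (fun ξ => D.Kset (h.Kset_nhd ξ).choose)
    (fun ξ _ => (h.Kset_nhd ξ).choose_spec)
  have hc : IsCompact (⋃ ξ ∈ (s : Set D.Tot), D.nf ⁻¹' (D.Kset (h.Kset_nhd ξ).choose)) :=
    s.finite_toSet.isCompact_biUnion (fun ξ _ => h.Kset_pre _)
  apply hc.of_isClosed_subset (hC.isClosed.preimage h.nf_cont)
  intro q hq
  obtain ⟨ξ, hξ, hξ'⟩ := Set.mem_iUnion₂.mp (hs.2 hq)
  exact Set.mem_biUnion hξ hξ'

theorem TSp.nf_quot (h : TSp Γ D) : IsQuotientMap D.nf := by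
  haveI := h.t2
  haveI := h.wlc
  have hp : IsProperMap D.nf := isProperMap_iff_isCompact_preimage.mpr
    ⟨h.nf_cont, fun _ hK => h.nf_pre hK⟩
  exact hp.isClosedMap.isQuotientMap h.nf_cont D.nf_surj

theorem TSp.nf_equiv (h : TSp Γ D) (γ : Γ) (q : (M0 × Bool × unitInterval) ⊕ M1) :
    D.nf (TData.pact γ q) = γ • D.nf q := by
  classical
  rcases q with ⟨x, b, s⟩ | w
  · by_cases h1 : (s : ℝ) < 1
    · by_cases h0 : 0 < (s : ℝ)
      · show (if h1 : (s : ℝ) < 1 then if h0 : 0 < (s : ℝ) then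
          Sum.inr (Sum.inr (γ • x, b, (⟨(s : ℝ), h0, h1⟩ : Set.Ioo (0 : ℝ) 1))) else
            Sum.inr (Sum.inl (D.f b (γ • x))) else
            Sum.inl (γ • x)) = γ • (if h1 : (s : ℝ) < 1 then if h0 : 0 < (s : ℝ) then
          Sum.inr (Sum.inr (x, b, (⟨(s : ℝ), h0, h1⟩ : Set.Ioo (0 : ℝ) 1))) else
            Sum.inr (Sum.inl (D.f b x)) else
            Sum.inl x : D.Tot)
        rw [dif_pos h1, dif_pos h0, dif_pos h1, dif_pos h0]
        rfl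
      · show (if h1 : (s : ℝ) < 1 then if h0 : 0 < (s : ℝ) then
          Sum.inr (Sum.inr (γ • x, b, (⟨(s : ℝ), h0, h1⟩ : Set.Ioo (0 : ℝ) 1))) else
            Sum.inr (Sum.inl (D.f b (γ • x))) else
            Sum.inl (γ • x)) = γ • (if h1 : (s : ℝ) < 1 then if h0 : 0 < (s : ℝ) then
          Sum.inr (Sum.inr (x, b, (⟨(s : ℝ), h0, h1⟩ : Set.Ioo (0 : ℝ) 1))) else
            Sum.inr (Sum.inl (D.f b x)) else
            Sum.inl x : D.Tot)
        rw [dif_pos h1, dif_neg h0, dif_pos h1, dif_neg h0, h.fact]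
        rfl
    · show (if h1 : (s : ℝ) < 1 then if h0 : 0 < (s : ℝ) then
          Sum.inr (Sum.inr (γ • x, b, (⟨(s : ℝ), h0, h1⟩ : Set.Ioo (0 : ℝ) 1))) else
            Sum.inr (Sum.inl (D.f b (γ • x))) else
            Sum.inl (γ • x)) = γ • (if h1 : (s : ℝ) < 1 then if h0 : 0 < (s : ℝ) then
          Sum.inr (Sum.inr (x, b, (⟨(s : ℝ), h0, h1⟩ : Set.Ioo (0 : ℝ) 1))) else
            Sum.inr (Sum.inl (D.f b x)) else
            Sum.inl x : D.Tot)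
      rw [dif_neg h1, dif_neg h1]
      rfl
  · rfl

theorem TSp.act (h : TSp Γ D) (γ : Γ) : Continuous (fun ξ : D.Tot => γ • ξ) := by
  rw [h.nf_quot.continuous_iff]
  have h1 : Continuous (TData.pact (M0 := M0) (M1 := M1) γ) := by
    apply Continuous.sumMap
    · exact ((h.F0.act γ).comp continuous_fst).prodMk continuous_snd
    · exact h.F1.act γ
  refine (h.nf_cont.comp h1).congr ?_
  intro q
  exact h.nf_equiv γ q

theorem TSp.proper (h : TSp Γ D) (C : Set D.Tot) (hC : IsCompact C) :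
    {γ : Γ | ((fun x => γ • x) '' C ∩ C).Nonempty}.Finite := by
  have hC' := h.nf_pre hC
  -- the two parts
  have hA : IsCompact (Prod.fst '' (Sum.inl ⁻¹' (D.nf ⁻¹' C) : Set (M0 × Bool × unitInterval))) :=
    (IsClosedEmbedding.inl.isCompact_preimage hC').image continuous_fst
  have hB : IsCompact (Sum.inr ⁻¹' (D.nf ⁻¹' C) : Set M1) :=
    IsClosedEmbedding.inr.isCompact_preimage hC'
  have hA' : IsCompact ((Prod.fst '' (Sum.inl ⁻¹' (D.nf ⁻¹' C) :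
      Set (M0 × Bool × unitInterval)))) := hA
  apply ((h.F0.proper _ hA).union (h.F1.proper _ hB)).subset
  rintro γ ⟨_, ⟨ξ, hξ, rfl⟩, hγξ⟩
  obtain ⟨q, rfl⟩ := D.nf_surj ξ
  replace hγξ : γ • D.nf q ∈ C := hγξ
  rw [← h.nf_equiv] at hγξ
  rcases q with ⟨x, b, s⟩ | w
  · left
    exact ⟨γ • x, ⟨x, ⟨(x, b, s), hξ, rfl⟩, rfl⟩, ⟨(γ • x, b, s), hγξ, rfl⟩⟩
  · right
    exact ⟨γ • w, ⟨w, hξ, rfl⟩, hγξ⟩

theorem TSp.cocpt (h : TSp Γ D) :
    ∃ C : Set D.Tot, IsCompact C ∧ ∀ x : D.Tot, ∃ γ : Γ, γ • x ∈ C := by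
  obtain ⟨C0, hC0, h0⟩ := h.F0.cocpt
  obtain ⟨C1, hC1, h1⟩ := h.F1.cocpt
  refine ⟨D.nf '' ((Sum.inl '' (C0 ×ˢ (Set.univ : Set (Bool × unitInterval)))) ∪
      (Sum.inr '' C1)), (((hC0.prod isCompact_univ).image continuous_inl).union
      (hC1.image continuous_inr)).image h.nf_cont, ?_⟩
  intro ξ
  obtain ⟨q, rfl⟩ := D.nf_surj ξ
  rcases q with ⟨x, b, s⟩ | w
  · obtain ⟨γ, hγ⟩ := h0 x
    refine ⟨γ, _, ?_, h.nf_equiv γ _⟩
    exact Or.inl ⟨(γ • x, b, s), ⟨hγ, trivial⟩, rfl⟩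
  · obtain ⟨γ, hγ⟩ := h1 w
    exact ⟨γ, _, Or.inr ⟨γ • w, hγ, rfl⟩, h.nf_equiv γ (Sum.inr w)⟩

end

end Run7.h241
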