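import Mathlib
import Pool.Agent.Run7.h241.TSpC
import Pool.Agent.Run7.h241.Cyl

set_option autoImplicit false

namespace Run7.h241

open Filter Topology H30

theorem FSp.contOn {Γ : Type} [Group Γ] {U M E : Type} [MulAction Γ U] [TopologicalSpace M]
    [MulAction Γ M] [NormedAddCommGroup E] {p : M → U} {j : M → E} (h : FSp Γ p j) {u : U}
    {Y : Type} [TopologicalSpace Y] {r : Y → M} {C : Set Y} (h1 : ∀ y ∈ C, p (r y) = u)
    (h2 : ContinuousOn (fun y => j (r y)) C) : ContinuousOn r C := by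
  rw [continuousOn_iff_continuous_domRestrict] at h2 ⊢
  let r' : C → p ⁻¹' {u} := fun y => ⟨r y.1, h1 _ y.2⟩
  have h3 : Continuous r' := by
    rw [(h.inducing u).continuous_iff]
    exact h2
  exact continuous_subtype_val.comp h3

/-- squeezing a normed space into its unit ball -/
noncomputable def sq {F : Type} [NormedAddCommGroup F] [NormedSpace ℝ F] (x : F) : F :=
  (1 + ‖x‖)⁻¹ • x

theorem sq_cont {F : Type} [NormedAddCommGroup F] [NormedSpace ℝ F] :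
    Continuous (sq : F → F) := by
  unfold sq
  exact ((continuous_const.add continuous_norm).inv₀ (fun x => ne_of_gt (by
    have := norm_nonneg x
    show (0 : ℝ) < 1 + ‖x‖
    linarith))).smul continuous_id

theorem sq_norm {F : Type} [NormedAddCommGroup F] [NormedSpace ℝ F] (x : F) :
    ‖sq x‖ = ‖x‖ / (1 + ‖x‖) := by
  unfold sq
  rw [norm_smul, norm_inv, Real.norm_of_nonneg (by positivity)]
  field_simp

theorem sq_le {F : Type} [NormedAddCommGroup F] [NormedSpace ℝ F] (x : F) : ‖sq x‖ ≤ 1 := by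
  rw [sq_norm, div_le_one (by positivity)]
  linarith

theorem sq_inj {F : Type} [NormedAddCommGroup F] [NormedSpace ℝ F] {x y : F}
    (h : sq x = sq y) : x = y := by
  have h1 := congrArg norm h
  rw [sq_norm, sq_norm, div_eq_div_iff (by positivity) (by positivity)] at h1
  have h2 : ‖x‖ = ‖y‖ := by linarith
  unfold sq at h
  rw [h2] at h
  exact smul_right_injective _ (by positivity : (1 + ‖y‖)⁻¹ ≠ 0) h

theorem TTree.wgt_wgt {V0 V1 : Type} {t : RTree (V0 ⊕ V1)} {nb : Bool → V0 → V1}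
    (h : TTree t nb) (b : Bool) (v : V0) (s : ℝ) : wgt t nb b v (wgt t nb b v s) = s := by
  rcases h.shape b v with ⟨_, _, _, h4⟩ | ⟨_, _, _, h4⟩
  · rw [h4, h4]
  · rw [h4, h4]; ring

section

variable {Γ : Type} [Group Γ] {V0 V1 M0 M1 E0 E1 : Type} [MulAction Γ V0] [MulAction Γ V1]
    [TopologicalSpace M0] [TopologicalSpace M1] [MulAction Γ M0] [MulAction Γ M1]
    [NormedAddCommGroup E0] [NormedAddCommGroup E1] [NormedSpace ℝ E0] [NormedSpace ℝ E1]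
    {D : TData V0 V1 M0 M1 E0 E1}

theorem TSp.wk (h : TSp Γ D) (γ : Γ) (u v : V0 ⊕ V1) (huv : D.t.Wk 1 u v) :
    D.t.Wk 1 (γ • u) (γ • v) := by
  have key : ∀ w : V0 ⊕ V1, w ≠ D.t.root → D.t.Wk 1 (γ • D.t.par w) (γ • w) := by
    intro w hw
    rw [RTree.wk_one_iff]
    obtain ⟨b, v, ⟨h1, h2⟩ | ⟨h1, h2⟩⟩ := h.tt.edge' w hw
    · rw [h2, h1, smul_inl, smul_inr, ← h.nbact]
      rcases h.tt.edge b (γ • v) with h3 | h3
      · exact Or.inr (Or.inl h3)
      · exact Or.inr (Or.inr h3)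
    · rw [h2, h1, smul_inl, smul_inr, ← h.nbact]
      rcases h.tt.edge b (γ • v) with h3 | h3
      · exact Or.inr (Or.inr h3)
      · exact Or.inr (Or.inl h3)
  rw [RTree.wk_one_iff] at huv
  rcases huv with h1 | h1 | h1
  · rw [h1]; exact (RTree.Wk.refl _).mono (Nat.zero_le 1)
  · subst h1
    by_cases hv : v = D.t.root
    · rw [hv, D.t.par_root]; exact (RTree.Wk.refl _).mono (Nat.zero_le 1)
    · exact key v hv
  · subst h1
    by_cases hv : u = D.t.root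
    · rw [hv, D.t.par_root]; exact (RTree.Wk.refl _).mono (Nat.zero_le 1)
    · exact (key u hv).symm

theorem TSp.piw (h : TSp Γ D) (ξ : D.Tot) (w : V0 ⊕ V1) (hw : D.pi ξ ∈ D.t.cell w) (γ : Γ) :
    ∃ w', D.pi (γ • ξ) ∈ D.t.cell w' ∧ D.t.Wk 1 (γ • w) w' := by
  have hvert : ∀ z : V0 ⊕ V1, D.pi ξ = D.t.vt z → D.t.Wk 1 (γ • w) (γ • z) := by
    intro z hz
    rw [hz] at hw
    apply h.wk
    rw [RTree.wk_one_iff]
    rcases RTree.vt_mem_cell_iff hw with h1 | h1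
    · exact Or.inl h1
    · exact Or.inr (Or.inr h1)
  rcases ξ with x | y | ⟨x, b, s⟩
  · refine ⟨γ • (Sum.inl (D.p0 x)), ?_, hvert _ rfl⟩
    show D.t.vt (Sum.inl (D.p0 (γ • x))) ∈ D.t.cell (Sum.inl (γ • D.p0 x))
    rw [h.F0.pact]
    exact RTree.vt_mem_cell _
  · refine ⟨γ • (Sum.inr (D.p1 y)), ?_, hvert _ rfl⟩
    show D.t.vt (Sum.inr (D.p1 (γ • y))) ∈ D.t.cell (Sum.inr (γ • D.p1 y))
    rw [h.F1.pact]
    exact RTree.vt_mem_cell _
  · refine ⟨TTree.child D.t D.nb b (D.p0 (γ • x)), h.tt.ept_mem s.2.1.le s.2.2.le, ?_⟩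
    have hcell := h.tt.ept_mem (b := b) (v := D.p0 x) s.2.1.le s.2.2.le
    obtain ⟨k1, k2⟩ := h.tt.wgt_Ioo (b := b) (v := D.p0 x) s.2.1 s.2.2
    have hc : w = TTree.child D.t D.nb b (D.p0 x) :=
      RTree.cell_unique hcell hw (by rw [TTree.ept_child]; exact k1)
        (by rw [TTree.ept_child]; exact k2)
    rw [hc, h.F0.pact, RTree.wk_one_iff]
    rcases h.tt.shape b (D.p0 x) with ⟨e1, _⟩ | ⟨e1, _⟩ <;>
      rcases h.tt.shape b (γ • D.p0 x) with ⟨e1', e2', _⟩ | ⟨e1', e2', _⟩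
    · rw [e1, e1']; exact Or.inl rfl
    · rw [e2'] 
      rw [e1]
      exact Or.inr (Or.inl rfl)
    · rw [e2', e1, smul_inr, h.nbact]
      exact Or.inr (Or.inl rfl)
    · rw [e1, e1', smul_inr, h.nbact]; exact Or.inl rfl

/-- the points over a vertex of the first kind -/
theorem TSp.over_inl (h : TSp Γ D) {ξ : D.Tot} {v : V0} (hξ : D.pi ξ = D.t.vt (Sum.inl v)) :
    ∃ x, ξ = Sum.inl x ∧ D.p0 x = v := by
  rcases ξ with x | y | ⟨x, b, s⟩
  · exact ⟨x, rfl, Sum.inl_injective (RTree.vt_inj hξ)⟩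
  · have h1 : D.t.vt (Sum.inr (D.p1 y)) = D.t.vt (Sum.inl v) := hξ
    exact absurd (RTree.vt_inj h1) Sum.inr_ne_inl
  · have h1 : TTree.ept D.t D.nb b (D.p0 x) s = D.t.vt (Sum.inl v) := hξ
    obtain ⟨k1, k2⟩ := h.tt.wgt_Ioo (b := b) (v := D.p0 x) s.2.1 s.2.2
    have h2 := congrFun h1 (TTree.child D.t D.nb b (D.p0 x))
    rw [TTree.ept_child] at h2
    unfold RTree.vt at h2
    split_ifs at h2
    · linarith
    · linarith

theorem TSp.over_inr (h : TSp Γ D) {ξ : D.Tot} {u : V1} (hξ : D.pi ξ = D.t.vt (Sum.inr u)) :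
    ∃ y, ξ = Sum.inr (Sum.inl y) ∧ D.p1 y = u := by
  rcases ξ with x | y | ⟨x, b, s⟩
  · have h1 : D.t.vt (Sum.inl (D.p0 x)) = D.t.vt (Sum.inr u) := hξ
    exact absurd (RTree.vt_inj h1) Sum.inl_ne_inr
  · exact ⟨y, rfl, Sum.inr_injective (RTree.vt_inj hξ)⟩
  · have h1 : TTree.ept D.t D.nb b (D.p0 x) s = D.t.vt (Sum.inr u) := hξ
    obtain ⟨k1, k2⟩ := h.tt.wgt_Ioo (b := b) (v := D.p0 x) s.2.1 s.2.2
    have h2 := congrFun h1 (TTree.child D.t D.nb b (D.p0 x))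
    rw [TTree.ept_child] at h2
    unfold RTree.vt at h2
    split_ifs at h2
    · linarith
    · linarith

theorem TSp.ae_inl (h : TSp Γ D) [Nonempty M0] (v : V0) :
    AE (D.pi ⁻¹' {D.t.vt (Sum.inl v)}) := by
  obtain ⟨x0⟩ := ‹Nonempty M0›
  let r : D.Tot → M0 := fun ξ => match ξ with
    | Sum.inl x => x
    | Sum.inr _ => x0
  refine ae_transport (h.F0.ae v) (fun x => (Sum.inl x : D.Tot)) r ?_ ?_ ?_ ?_ ?_
  · have h1 : Continuous (fun x : M0 => D.nf (Sum.inl (x, true, 1))) :=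
      h.nf_cont.comp (continuous_inl.comp (continuous_id.prodMk continuous_const))
    refine (h1.congr ?_).continuousOn
    intro x
    exact D.nf_one x true
  · apply h.F0.contOn (u := v)
    · intro ξ hξ
      obtain ⟨x, rfl, hx⟩ := h.over_inl hξ
      exact hx
    · refine D.ca_cont.continuousOn.congr ?_
      intro ξ hξ
      obtain ⟨x, rfl, hx⟩ := h.over_inl hξ
      rfl
  · intro x hx
    show D.t.vt (Sum.inl (D.p0 x)) = D.t.vt (Sum.inl v)
    rw [show D.p0 x = v from hx]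
  · intro ξ hξ
    obtain ⟨x, rfl, hx⟩ := h.over_inl hξ
    exact hx
  · intro ξ hξ
    obtain ⟨x, rfl, hx⟩ := h.over_inl hξ
    rfl

theorem TSp.ae_inr (h : TSp Γ D) [Nonempty M0] (u : V1) :
    AE (D.pi ⁻¹' {D.t.vt (Sum.inr u)}) := by
  obtain ⟨x0⟩ := ‹Nonempty M0›
  let r : D.Tot → M1 := fun ξ => match ξ with
    | Sum.inr (Sum.inl y) => y
    | Sum.inl _ => D.f true x0
    | Sum.inr (Sum.inr _) => D.f true x0
  refine ae_transport (h.F1.ae u) (fun y => (Sum.inr (Sum.inl y) : D.Tot)) r ?_ ?_ ?_ ?_ ?_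
  · exact (h.nf_cont.comp continuous_inr).continuousOn
  · apply h.F1.contOn (u := u)
    · intro ξ hξ
      obtain ⟨x, rfl, hx⟩ := h.over_inr hξ
      exact hx
    · refine D.cb_cont.continuousOn.congr ?_
      intro ξ hξ
      obtain ⟨x, rfl, hx⟩ := h.over_inr hξ
      rfl
  · intro x hx
    show D.t.vt (Sum.inr (D.p1 x)) = D.t.vt (Sum.inr u)
    rw [show D.p1 x = u from hx]
  · intro ξ hξ
    obtain ⟨x, rfl, hx⟩ := h.over_inr hξ
    exact hx
  · intro ξ hξ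
    obtain ⟨x, rfl, hx⟩ := h.over_inr hξ
    rfl

/-- shape of the points over a cell -/
theorem TSp.over_cell (h : TSp Γ D) {ξ : D.Tot} {b : Bool} {v : V0}
    (hξ : D.pi ξ ∈ D.t.cell (TTree.child D.t D.nb b v)) :
    ∃ s : ℝ, 0 ≤ s ∧ s ≤ 1 ∧ D.pi ξ = TTree.ept D.t D.nb b v s ∧
      ((0 < s ∧ ∃ x, D.p0 x = v ∧ D.ca ξ = s • D.j0 x ∧ D.cb ξ = (1 - s) • D.j1 (D.f b x)) ∨
        (s = 0 ∧ ∃ y, D.p1 y = D.nb b v ∧ D.ca ξ = 0 ∧ D.cb ξ = D.j1 y)) := by
  rcases ξ with x | y | ⟨x, b', s⟩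
  · have hξ' : D.t.vt (Sum.inl (D.p0 x)) ∈ D.t.cell (TTree.child D.t D.nb b v) := hξ
    have hx : D.p0 x = v := by
      rcases RTree.vt_mem_cell_iff hξ' with h1 | h1 <;>
        rcases h.tt.shape b v with ⟨e1, e2, _⟩ | ⟨e1, e2, _⟩
      · rw [e1] at h1; exact (Sum.inl_injective h1).symm
      · rw [e1] at h1; exact absurd h1 Sum.inr_ne_inl
      · rw [e2] at h1; exact absurd h1 Sum.inr_ne_inl
      · rw [e2] at h1; exact (Sum.inl_injective h1).symm
    refine ⟨1, zero_le_one, le_rfl, ?_, Or.inl ⟨one_pos, x, hx, ?_, ?_⟩⟩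
    · rw [h.tt.ept_one, ← hx]; rfl
    · rw [one_smul]; rfl
    · rw [sub_self, zero_smul]; rfl
  · have hξ' : D.t.vt (Sum.inr (D.p1 y)) ∈ D.t.cell (TTree.child D.t D.nb b v) := hξ
    have hx : D.p1 y = D.nb b v := by
      rcases RTree.vt_mem_cell_iff hξ' with h1 | h1 <;>
        rcases h.tt.shape b v with ⟨e1, e2, _⟩ | ⟨e1, e2, _⟩
      · rw [e1] at h1; exact absurd h1 Sum.inl_ne_inr
      · rw [e1] at h1; exact (Sum.inr_injective h1).symm
      · rw [e2] at h1; exact (Sum.inr_injective h1).symm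
      · rw [e2] at h1; exact absurd h1 Sum.inl_ne_inr
    refine ⟨0, le_rfl, zero_le_one, ?_, Or.inr ⟨rfl, y, hx, rfl, rfl⟩⟩
    rw [h.tt.ept_zero, ← hx]; rfl
  · have hcell := h.tt.ept_mem (b := b') (v := D.p0 x) s.2.1.le s.2.2.le
    obtain ⟨k1, k2⟩ := h.tt.wgt_Ioo (b := b') (v := D.p0 x) s.2.1 s.2.2
    have hc := RTree.cell_unique hcell hξ (by rw [TTree.ept_child]; exact k1)
        (by rw [TTree.ept_child]; exact k2)
    obtain ⟨hb, hv⟩ := h.tt.child_inj hc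
    subst hb
    subst hv
    exact ⟨s, s.2.1.le, s.2.2.le, rfl, Or.inl ⟨s.2.1, x, rfl, rfl, rfl⟩⟩

theorem TSp.ae_cell [FiniteDimensional ℝ E0] [FiniteDimensional ℝ E1] (h : TSp Γ D) [Nonempty M0]
    (b : Bool) (v : V0) : AE (D.pi ⁻¹' (D.t.cell (TTree.child D.t D.nb b v))) := by
  classical
  obtain ⟨x0⟩ := ‹Nonempty M0›
  set A : Set E0 := D.j0 '' (D.p0 ⁻¹' {v}) with hA
  set B : Set E1 := D.j1 '' (D.p1 ⁻¹' {D.nb b v}) with hB
  let σ : E0 → M0 := fun a => if ha : a ∈ A then ha.choose else x0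
  let σ1 : E1 → M1 := fun a => if ha : a ∈ B then ha.choose else D.f true x0
  have hσ : ∀ a ∈ A, D.p0 (σ a) = v ∧ D.j0 (σ a) = a := by
    intro a ha
    have : σ a = ha.choose := dif_pos ha
    rw [this]
    exact ha.choose_spec
  have hσ1 : ∀ a ∈ B, D.p1 (σ1 a) = D.nb b v ∧ D.j1 (σ1 a) = a := by
    intro a ha
    have : σ1 a = ha.choose := dif_pos ha
    rw [this]
    exact ha.choose_spec
  have hσj : ∀ x, D.p0 x = v → σ (D.j0 x) = x := by
    intro x hx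
    obtain ⟨h1, h2⟩ := hσ (D.j0 x) ⟨x, hx, rfl⟩
    exact h.F0.jinj _ _ (h1.trans hx.symm) h2
  have hσc : ContinuousOn σ A := h.F0.contOn (u := v) (fun a ha => (hσ a ha).1)
    (continuousOn_id.congr (fun a ha => (hσ a ha).2))
  have hσ1c : ContinuousOn σ1 B := h.F1.contOn (u := D.nb b v) (fun a ha => (hσ1 a ha).1)
    (continuousOn_id.congr (fun a ha => (hσ1 a ha).2))
  have hAE : AE A := by
    refine ae_transport (h.F0.ae v) D.j0 σ h.F0.jcont.continuousOn hσc ?_ ?_ ?_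
    · exact fun x hx => ⟨x, hx, rfl⟩
    · exact fun a ha => (hσ a ha).1
    · exact fun a ha => (hσ a ha).2
  have hBE : AE B := by
    refine ae_transport (h.F1.ae (D.nb b v)) D.j1 σ1 h.F1.jcont.continuousOn hσ1c ?_ ?_ ?_
    · exact fun x hx => ⟨x, hx, rfl⟩
    · exact fun a ha => (hσ1 a ha).1
    · exact fun a ha => (hσ1 a ha).2
  let f' : E0 → E1 := fun a => D.j1 (D.f b (σ a))
  have hf' : ContinuousOn f' A :=
    (h.F1.jcont.comp (h.fcont b)).comp_continuousOn hσc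
  have hf'B : Set.MapsTo f' A B := fun a ha =>
    ⟨D.f b (σ a), by show D.p1 (D.f b (σ a)) = _; rw [h.fp, (hσ a ha).1], rfl⟩
  have hprop : ∀ r : ℝ, ∃ R : ℝ, ∀ a ∈ A, ‖f' a‖ ≤ r → ‖a‖ ≤ R := by
    intro r
    have hc := (h.f_proper b (h.F1.jprop (D.nb b v) r)).image h.F0.jcont
    obtain ⟨R, hR⟩ := hc.isBounded.exists_norm_le
    refine ⟨R, fun a ha hr => ?_⟩
    apply hR
    refine ⟨σ a, ⟨?_, hr⟩, (hσ a ha).2⟩
    rw [h.fp, (hσ a ha).1]
  have hcyl := cyl_ae (h.F0.img_closed v) hAE (h.F1.img_closed (D.nb b v)) hBE hf' hf'B hprop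
  -- the transport
  have hcI : Continuous (fun s : ℝ => (⟨cl s, cl_nonneg s, cl_le_one s⟩ : unitInterval)) :=
    cl_cont.subtype_mk _
  let ee : ℝ × E0 × E1 → D.Tot := fun z => if 0 < z.1 then
    D.nf (Sum.inl (σ (z.1⁻¹ • z.2.1), b, ⟨cl z.1, cl_nonneg _, cl_le_one _⟩)) else
      D.nf (Sum.inr (σ1 z.2.2))
  have hXi : ∀ z ∈ Cyl A B f', D.Xi (ee z) = (TTree.ept D.t D.nb b v z.1, z.2.1, z.2.2) := by
    rintro ⟨s, a, d⟩ (⟨h1, h2, a', ha', h3, h4⟩ | ⟨h1, h2, h3⟩)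
    · have h1' : 0 < s := h1
      have h2' : s ≤ 1 := h2
      have h3' : a = s • a' := h3
      have h4' : d = (1 - s) • f' a' := h4
      have e1 : ee (s, a, d) = D.nf (Sum.inl (σ (s⁻¹ • a), b, ⟨cl s, cl_nonneg _, cl_le_one _⟩)) :=
        if_pos h1'
      rw [e1, h.Xi_nf_inl, h3', inv_smul_smul₀ (ne_of_gt h1'), (hσ a' ha').1, (hσ a' ha').2]
      have e2 : ((⟨cl s, cl_nonneg _, cl_le_one _⟩ : unitInterval) : ℝ) = s := cl_eq h1'.le h2'
      rw [e2, h4']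
    · have h1' : s = 0 := h1
      have h2' : a = 0 := h2
      have h3' : d ∈ B := h3
      subst h1'
      have e1 : ee (0, a, d) = D.nf (Sum.inr (σ1 d)) := if_neg (lt_irrefl _)
      rw [e1, h.tt.ept_zero, h2']
      show (D.t.vt (Sum.inr (D.p1 (σ1 d))), (0 : E0), D.j1 (σ1 d)) = _
      rw [(hσ1 d h3').1, (hσ1 d h3').2]
  refine ae_transport hcyl ee (fun ξ => (TTree.wgt D.t D.nb b v
    (D.pi ξ (TTree.child D.t D.nb b v)), D.ca ξ, D.cb ξ)) ?_ ?_ ?_ ?_ ?_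
  · rw [D.Xi_inducing.continuousOn_iff]
    have h1 : Continuous (fun z : ℝ × E0 × E1 => (TTree.ept D.t D.nb b v z.1, z.2.1, z.2.2)) :=
      ((TTree.ept_cont b v).comp continuous_fst).prodMk continuous_snd
    exact h1.continuousOn.congr hXi
  · have h1 : Continuous (TTree.wgt D.t D.nb b v) := by
      unfold TTree.wgt
      split_ifs
      · exact continuous_id
      · exact continuous_const.sub continuous_id
    exact ((h1.comp ((continuous_apply _).comp D.pi_cont)).prodMk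
      (D.ca_cont.prodMk D.cb_cont)).continuousOn
  · intro z hz
    show (D.Xi (ee z)).1 ∈ D.t.cell (TTree.child D.t D.nb b v)
    rw [hXi z hz]
    rcases hz with ⟨h1, h2, _⟩ | ⟨h1, _⟩
    · exact h.tt.ept_mem h1.le h2
    · exact h.tt.ept_mem h1.symm.le (by rw [h1]; exact zero_le_one)
  · intro ξ hξ
    obtain ⟨s, hs0, hs1, hpi, hcase⟩ := h.over_cell hξ
    have e1 : TTree.wgt D.t D.nb b v (D.pi ξ (TTree.child D.t D.nb b v)) = s := by
      rw [hpi, TTree.ept_child, h.tt.wgt_wgt]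
    rcases hcase with ⟨h1, x, hx, h2, h3⟩ | ⟨h1, y, hy, h2, h3⟩
    · refine Or.inl ⟨?_, ?_, D.j0 x, ⟨x, hx, rfl⟩, ?_, ?_⟩
      · show 0 < TTree.wgt D.t D.nb b v (D.pi ξ (TTree.child D.t D.nb b v))
        rw [e1]; exact h1
      · show TTree.wgt D.t D.nb b v (D.pi ξ (TTree.child D.t D.nb b v)) ≤ 1
        rw [e1]; exact hs1
      · show D.ca ξ = TTree.wgt D.t D.nb b v (D.pi ξ (TTree.child D.t D.nb b v)) • D.j0 x
        rw [e1]; exact h2
      · show D.cb ξ = (1 - TTree.wgt D.t D.nb b v (D.pi ξ (TTree.child D.t D.nb b v))) •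
          D.j1 (D.f b (σ (D.j0 x)))
        rw [e1, hσj x hx]; exact h3
    · refine Or.inr ⟨?_, h2, ?_⟩
      · show TTree.wgt D.t D.nb b v (D.pi ξ (TTree.child D.t D.nb b v)) = 0
        rw [e1]; exact h1
      · show D.cb ξ ∈ B
        rw [h3]; exact ⟨y, hy, rfl⟩
  · intro ξ hξ
    obtain ⟨s, hs0, hs1, hpi, hcase⟩ := h.over_cell hξ
    have e1 : TTree.wgt D.t D.nb b v (D.pi ξ (TTree.child D.t D.nb b v)) = s := by
      rw [hpi, TTree.ept_child, h.tt.wgt_wgt]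
    have hz : (TTree.wgt D.t D.nb b v (D.pi ξ (TTree.child D.t D.nb b v)), D.ca ξ, D.cb ξ) ∈
        Cyl A B f' := by
      rw [e1]
      rcases hcase with ⟨h1, x, hx, h2, h3⟩ | ⟨h1, y, hy, h2, h3⟩
      · refine Or.inl ⟨h1, hs1, D.j0 x, ⟨x, hx, rfl⟩, h2, ?_⟩
        show D.cb ξ = (1 - s) • D.j1 (D.f b (σ (D.j0 x)))
        rw [hσj x hx]; exact h3
      · refine Or.inr ⟨h1, h2, ?_⟩
        show D.cb ξ ∈ B
        rw [h3]; exact ⟨y, hy, rfl⟩
    apply h.Xi_inj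
    rw [hXi _ hz, e1]
    show (TTree.ept D.t D.nb b v s, D.ca ξ, D.cb ξ) = (D.pi ξ, D.ca ξ, D.cb ξ)
    rw [hpi]

theorem TSp.ae_vt (h : TSp Γ D) [Nonempty M0] (w : V0 ⊕ V1) : AE (D.pi ⁻¹' {D.t.vt w}) := by
  rcases w with v | u
  · exact h.ae_inl v
  · exact h.ae_inr u

theorem TSp.ae_cell' [FiniteDimensional ℝ E0] [FiniteDimensional ℝ E1] (h : TSp Γ D)
    [Nonempty M0] (w : V0 ⊕ V1) (hw : w ≠ D.t.root) : AE (D.pi ⁻¹' (D.t.cell w)) := by
  obtain ⟨b, v, hbv⟩ := h.tt.edge' w hw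
  have : w = TTree.child D.t D.nb b v := by
    rcases h.tt.shape b v with ⟨e1, e2, e3, _⟩ | ⟨e1, e2, e3, _⟩
    · rcases hbv with ⟨h1, h2⟩ | ⟨h1, h2⟩
      · rw [h1, e1]
      · rw [e1] at e2
        rw [h1] at h2
        -- par (inl v) = inr, par (inr) = inl v : impossible
        exfalso
        have d1 := D.t.dep_par _ (by rw [← h1]; exact hw : (Sum.inr (D.nb b v) : V0 ⊕ V1) ≠ D.t.root)
        have d2 := D.t.dep_par _ e3
        rw [h2] at d1
        rw [e2] at d2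
        omega
    · rcases hbv with ⟨h1, h2⟩ | ⟨h1, h2⟩
      · rw [e1] at e2
        rw [h1] at h2
        exfalso
        have d1 := D.t.dep_par _ (by rw [← h1]; exact hw : (Sum.inl v : V0 ⊕ V1) ≠ D.t.root)
        have d2 := D.t.dep_par _ e3
        rw [h2] at d1
        rw [e2] at d2
        omega
      · rw [h1, e1]
  rw [this]
  exact h.ae_cell b v

theorem TSp.ae_univ [FiniteDimensional ℝ E0] [FiniteDimensional ℝ E1] (h : TSp Γ D)
    [Nonempty M0] : AE (Set.univ : Set D.Tot) :=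
  RTree.ae_univ D.pi_cont (fun ξ => (h.pi_T ξ).1) (fun ξ => (h.pi_T ξ).2) h.ae_vt h.ae_cell'

/-- bounded coordinates -/
noncomputable def TData.ec (D : TData V0 V1 M0 M1 E0 E1) (ξ : D.Tot) : E0 × E1 :=
  sq (D.ca ξ, D.cb ξ)

theorem TData.ec_cont (D : TData V0 V1 M0 M1 E0 E1) : Continuous D.ec :=
  sq_cont.comp (D.ca_cont.prodMk D.cb_cont)

theorem TSp.ec_inj (h : TSp Γ D) {ξ ξ' : D.Tot} (h1 : D.pi ξ = D.pi ξ') (h2 : D.ec ξ = D.ec ξ') :
    ξ = ξ' := by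
  have h3 := sq_inj h2
  apply h.Xi_inj
  show (D.pi ξ, D.ca ξ, D.cb ξ) = (D.pi ξ', D.ca ξ', D.cb ξ')
  rw [h1]
  simp only [Prod.mk.injEq] at h3
  rw [h3.1, h3.2]

end

end Run7.h241
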