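import Mathlib
import Pool.Agent.Run7.h241.TSpD
import Pool.Agent.Run7.h241.Ext

set_option autoImplicit false

namespace Run7.h241

open Filter Topology H30

section

variable {Γ : Type} [Group Γ] {V0 V1 M0 M1 E0 E1 : Type} [MulAction Γ V0] [MulAction Γ V1]
    [TopologicalSpace M0] [TopologicalSpace M1] [MulAction Γ M0] [MulAction Γ M1]
    [NormedAddCommGroup E0] [NormedAddCommGroup E1] [NormedSpace ℝ E0] [NormedSpace ℝ E1]
    {D : TData V0 V1 M0 M1 E0 E1} {K : Subgroup Γ}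

section

variable (h : TSp Γ D) (hstab : ∀ γ : Γ, γ • D.t.root = D.t.root ↔ γ ∈ K)
include h hstab

theorem TSp.kdep (k : K) (w : V0 ⊕ V1) : D.t.dep ((k : Γ) • w) = D.t.dep w := by
  have key : ∀ (k : K) (w : V0 ⊕ V1), D.t.dep ((k : Γ) • w) ≤ D.t.dep w := by
    intro k w
    have h1 := RTree.wk_act h.wk (k : Γ) (RTree.wk_root (t := D.t) w)
    rw [(hstab (k : Γ)).mpr k.2] at h1
    have h2 := h1.symm.dep_le
    rw [D.t.dep_root, Nat.zero_add] at h2
    exact h2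
  apply le_antisymm (key k w)
  have h1 := key k⁻¹ ((k : Γ) • w)
  have h2 : ((k⁻¹ : K) : Γ) • ((k : Γ) • w) = w := by
    rw [Subgroup.coe_inv, inv_smul_smul]
  rw [h2] at h1
  exact h1

theorem TSp.kpar (k : K) (w : V0 ⊕ V1) : D.t.par ((k : Γ) • w) = (k : Γ) • D.t.par w := by
  by_cases hw : w = D.t.root
  · subst hw
    rw [(hstab (k : Γ)).mpr k.2, D.t.par_root, (hstab (k : Γ)).mpr k.2]
  · have h1 : D.t.Wk 1 (D.t.par w) w := RTree.wk_one_iff.mpr (Or.inr (Or.inl rfl))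
    have h2 := h.wk (k : Γ) _ _ h1
    have d1 := D.t.dep_par w hw
    have d2 := h.kdep hstab k w
    have d3 := h.kdep hstab k (D.t.par w)
    rcases RTree.wk_one_iff.mp h2 with h3 | h3 | h3
    · rw [h3] at d3; omega
    · exact h3
    · have d4 := D.t.dep_par' ((k : Γ) • D.t.par w)
      rw [h3] at d4
      omega

theorem TSp.kparn (k : K) (w : V0 ⊕ V1) (n : ℕ) :
    D.t.par^[n] ((k : Γ) • w) = (k : Γ) • D.t.par^[n] w := by
  induction n generalizing w with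
  | zero => rfl
  | succ n ih =>
    rw [Function.iterate_succ_apply, Function.iterate_succ_apply, h.kpar hstab, ih]

theorem TSp.vt_k (k : K) (w u : V0 ⊕ V1) : D.t.vt ((k : Γ) • w) ((k : Γ) • u) = D.t.vt w u := by
  unfold RTree.vt
  congr 1
  apply propext
  constructor
  · rintro ⟨n, hn⟩
    rw [h.kparn hstab] at hn
    exact ⟨n, smul_left_cancel _ hn⟩
  · rintro ⟨n, hn⟩
    exact ⟨n, by rw [h.kparn hstab, hn]⟩

theorem TSp.shape_k (k : K) (b : Bool) (v : V0) :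
    D.t.par (Sum.inl ((k : Γ) • v)) = Sum.inr (D.nb b ((k : Γ) • v)) ↔
      D.t.par (Sum.inl v) = Sum.inr (D.nb b v) := by
  have h1 := h.kpar hstab k (Sum.inl v)
  rw [smul_inl] at h1
  rw [h1, h.nbact, ← smul_inr]
  exact ⟨fun h => smul_left_cancel _ h, fun h => by rw [h]⟩

theorem TSp.child_k (k : K) (b : Bool) (v : V0) :
    TTree.child D.t D.nb b ((k : Γ) • v) = (k : Γ) • TTree.child D.t D.nb b v := by
  classical
  unfold TTree.child
  by_cases hc : D.t.par (Sum.inl v) = Sum.inr (D.nb b v)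
  · rw [if_pos hc, if_pos ((h.shape_k hstab k b v).mpr hc), smul_inl]
  · rw [if_neg hc, if_neg (fun hh => hc ((h.shape_k hstab k b v).mp hh)), smul_inr, h.nbact]

theorem TSp.wgt_k (k : K) (b : Bool) (v : V0) (s : ℝ) :
    TTree.wgt D.t D.nb b ((k : Γ) • v) s = TTree.wgt D.t D.nb b v s := by
  classical
  unfold TTree.wgt
  by_cases hc : D.t.par (Sum.inl v) = Sum.inr (D.nb b v)
  · rw [if_pos hc, if_pos ((h.shape_k hstab k b v).mpr hc)]
  · rw [if_neg hc, if_neg (fun hh => hc ((h.shape_k hstab k b v).mp hh))]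

theorem TSp.pi_k (k : K) (ξ : D.Tot) (u : V0 ⊕ V1) :
    D.pi ((k : Γ) • ξ) ((k : Γ) • u) = D.pi ξ u := by
  classical
  rcases ξ with x | y | ⟨x, b, s⟩
  · show D.t.vt (Sum.inl (D.p0 ((k : Γ) • x))) ((k : Γ) • u) = D.t.vt (Sum.inl (D.p0 x)) u
    rw [h.F0.pact, ← smul_inl, h.vt_k hstab]
  · show D.t.vt (Sum.inr (D.p1 ((k : Γ) • y))) ((k : Γ) • u) = D.t.vt (Sum.inr (D.p1 y)) u
    rw [h.F1.pact, ← smul_inr, h.vt_k hstab]
  · show TTree.ept D.t D.nb b (D.p0 ((k : Γ) • x)) s ((k : Γ) • u) =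
      TTree.ept D.t D.nb b (D.p0 x) s u
    unfold TTree.ept
    rw [h.F0.pact, h.child_k hstab, h.wgt_k hstab, h.kpar hstab]
    by_cases hu : u = TTree.child D.t D.nb b (D.p0 x)
    · rw [hu, Function.update_self, Function.update_self]
    · rw [Function.update_of_ne hu, Function.update_of_ne (fun hh => hu (smul_left_cancel _ hh)),
        h.vt_k hstab]

theorem TSp.That_k (k : K) {c c' : V0 ⊕ V1 → ℝ} (hc : c ∈ D.t.That)
    (hcc : ∀ u, c' ((k : Γ) • u) = c u) : c' ∈ D.t.That := by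
  have hsurj : ∀ u : V0 ⊕ V1, ∃ u', u = (k : Γ) • u' := fun u => ⟨(k : Γ)⁻¹ • u, by
    rw [smul_inv_smul]⟩
  refine ⟨?_, ?_, ?_, ?_⟩
  · intro v
    obtain ⟨v', rfl⟩ := hsurj v
    rw [hcc]; exact hc.1 v'
  · have := hcc D.t.root
    rw [(hstab (k : Γ)).mpr k.2] at this
    rw [this]; exact hc.2.1
  · intro v hv
    obtain ⟨v', rfl⟩ := hsurj v
    rw [h.kpar hstab, hcc, hcc]
    apply hc.2.2.1 v'
    intro hr
    exact hv (by rw [hr]; exact (hstab (k : Γ)).mpr k.2)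
  · intro u w huw hne
    obtain ⟨u', rfl⟩ := hsurj u
    obtain ⟨w', rfl⟩ := hsurj w
    rw [h.kdep hstab, h.kdep hstab] at huw
    rw [hcc, hcc]
    exact hc.2.2.2 u' w' huw (fun hh => hne (by rw [hh]))

theorem TSp.cell_k (k : K) {c c' : V0 ⊕ V1 → ℝ} {w : V0 ⊕ V1} (hc : c ∈ D.t.cell w)
    (hcc : ∀ u, c' ((k : Γ) • u) = c u) : c' ∈ D.t.cell ((k : Γ) • w) := by
  refine ⟨h.That_k hstab k hc.1 hcc, ?_, ?_⟩
  · rw [h.kpar hstab, hcc]; exact hc.2.1
  · intro u hu hne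
    have e : u = (k : Γ) • ((k : Γ)⁻¹ • u) := by rw [smul_inv_smul]
    rw [e, h.kdep hstab, h.kdep hstab] at hu
    rw [e, hcc]
    apply hc.2.2 _ hu
    intro hh
    exact hne (by rw [e, hh])

end

theorem TSp.ext_tree [FiniteDimensional ℝ E0] [FiniteDimensional ℝ E1] (h : TSp Γ D)
    [Nonempty M0] (hstab : ∀ γ : Γ, γ • D.t.root = D.t.root ↔ γ ∈ K)
    {Y : Type} [TopologicalSpace Y] [MulAction K Y] [WeaklyLocallyCompactSpace Y] [T2Space Y]
    [TopologicalSpace.MetrizableSpace Y] [SigmaCompactSpace Y]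
    (hfr : ∀ (k : K) (y : Y), k • y = y → k = 1)
    (actY : ∀ k : K, Continuous fun y : Y => k • y)
    (proper : ∀ C : Set Y, IsCompact C → {k : K | ((fun x => k • x) '' C ∩ C).Nonempty}.Finite)
    {ρ : Y → V0 ⊕ V1 → ℝ} (hρ : Continuous ρ) (hρT : ∀ y, ρ y ∈ D.t.T)
    (hρK : ∀ (k : K) y w, ρ (k • y) ((k : Γ) • w) = ρ y w)
    {Y' : Set Y} (hY' : IsClosed Y') (hY'i : ∀ (k : K), ∀ y ∈ Y', k • y ∈ Y')
    {f : Y → D.Tot} (hf : ContinuousOn f Y')
    (hfe : ∀ (k : K), ∀ y ∈ Y', f (k • y) = k • f y)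
    (hf1 : ∀ y ∈ Y', ∀ w, ρ y ∈ D.t.cell w → D.pi (f y) ∈ D.t.cell w)
    (hf2 : ∀ y ∈ Y', ∀ w, ρ y = D.t.vt w → D.pi (f y) = D.t.vt w) :
    ∃ F : Y → D.Tot, Continuous F ∧ Set.EqOn F f Y' ∧ (∀ (k : K) y, F (k • y) = k • F y) ∧
      (∀ y w, ρ y ∈ D.t.cell w → D.pi (F y) ∈ D.t.cell w) ∧
      (∀ y w, ρ y = D.t.vt w → D.pi (F y) = D.t.vt w) := by
  have hne : Nonempty (V0 ⊕ V1) := ⟨D.t.root⟩
  -- vertices and their translates
  have hvk : ∀ (k : K) (y : Y) w, ρ y = D.t.vt w → ρ (k • y) = D.t.vt ((k : Γ) • w) := by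
    intro k y w hy
    funext u
    have e : u = (k : Γ) • ((k : Γ)⁻¹ • u) := by rw [smul_inv_smul]
    rw [e, hρK, h.vt_k hstab, hy]
  have hpk : ∀ (k : K) (ξ : D.Tot) w, D.pi ξ = D.t.vt w →
      D.pi ((k : Γ) • ξ) = D.t.vt ((k : Γ) • w) := by
    intro k ξ w hy
    funext u
    have e : u = (k : Γ) • ((k : Γ)⁻¹ • u) := by rw [smul_inv_smul]
    rw [e, h.pi_k hstab, h.vt_k hstab, hy]
  -- local finiteness
  have hbound : ∀ C : Set Y, IsCompact C → ∃ n : ℕ, ∀ y ∈ C, ∀ w, ρ y ∈ D.t.cell w →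
      D.t.dep w ≤ n := by
    intro C hC
    obtain ⟨δ, hδ, h1⟩ := exists_pos_lower hC (f := fun y => D.t.Q (ρ y))
      (D.t.Q_cont.comp hρ).continuousOn (fun y _ => (hρT y).2)
    refine ⟨⌊1 / δ⌋₊, fun y hy w hw => Nat.le_floor ?_⟩
    exact (RTree.cell_inv_ge hw).trans (one_div_le_one_div_of_le hδ (h1 y hy))
  have hlf : LocallyFinite (fun w : V0 ⊕ V1 => {y | ρ y = D.t.vt w}) := by
    intro y0
    obtain ⟨C, hC, hCy⟩ := exists_compact_mem_nhds y0
    obtain ⟨n, hn⟩ := hbound C hC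
    refine ⟨C, hCy, (D.t.finite_le n).subset ?_⟩
    rintro w ⟨y, hy, hyC⟩
    have hy' : ρ y = D.t.vt w := hy
    exact hn y hyC w (by rw [hy']; exact RTree.vt_mem_cell w)
  have hva : IsClosed {y | ∃ w, ρ y = D.t.vt w} := by
    have : {y | ∃ w, ρ y = D.t.vt w} = ⋃ w, {y | ρ y = D.t.vt w} := by
      ext y; simp
    rw [this]
    exact hlf.isClosed_iUnion (fun w => isClosed_eq hρ continuous_const)
  -- first stage
  have hE1 : ESet K Y' (fun w : V0 ⊕ V1 => {y | ρ y = D.t.vt w})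
      (fun w => D.pi ⁻¹' {D.t.vt w}) := by
    refine ⟨actY, fun k => h.act (k : Γ), proper, ?_, ?_, h.ae_vt, ?_, ?_⟩
    · intro k w y hy
      exact hvk k y w hy
    · intro k w ξ hξ
      exact hpk k ξ w hξ
    · exact fun w => isClosed_eq hρ continuous_const
    · rintro i j hij y ⟨h1, h2⟩
      have h1' : ρ y = D.t.vt i := h1
      have h2' : ρ y = D.t.vt j := h2
      exact absurd (RTree.vt_inj (h1'.symm.trans h2')) hij
  obtain ⟨F1, hF1, hF1e⟩ := equiv_ext hE1 hfr (Y'' := Y' ∪ {y | ∃ w, ρ y = D.t.vt w})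
    (hY'.union hva) Set.subset_union_left (by
      rintro k y (hy | ⟨w, hy⟩)
      · exact Or.inl (hY'i k y hy)
      · exact Or.inr ⟨_, hvk k y w hy⟩) (fun w y hy => Or.inr ⟨w, hy⟩) (by
      intro C hC
      obtain ⟨n, hn⟩ := hbound C hC
      refine ⟨{w | D.t.dep w ≤ n}, D.t.finite_le n, ?_⟩
      rintro y ⟨hyC, hy | ⟨w, hw⟩⟩
      · exact Or.inl hy
      · exact Or.inr (Set.mem_biUnion (x := w)
          (hn y hyC w (by rw [hw]; exact RTree.vt_mem_cell w)) hw))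
    (f := f) ⟨hY', le_rfl, hY'i, hf, fun y hy w hw => hf2 y hy w hw, hfe⟩
  have hF1v : ∀ y w, ρ y = D.t.vt w → D.pi (F1 y) = D.t.vt w :=
    fun y w hy => hF1.con y (Or.inr ⟨w, hy⟩) w hy
  -- second stage
  have hcell_closed : ∀ w, IsClosed {y | ρ y ∈ D.t.cell w} :=
    fun w => (D.t.cell_closed w).preimage hρ
  have haec : ∀ w, AE (D.pi ⁻¹' (D.t.cell w)) := by
    intro w
    by_cases hw : w = D.t.root
    · subst hw
      have : D.t.cell D.t.root = {D.t.vt D.t.root} := by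
        ext c
        constructor
        · exact fun hc => RTree.cell_root hc
        · intro hc
          rw [show c = D.t.vt D.t.root from hc]
          exact RTree.vt_mem_cell _
      rw [this]
      exact h.ae_vt _
    · exact h.ae_cell' w hw
  have hE2 : ESet K (Y' ∪ {y | ∃ w, ρ y = D.t.vt w}) (fun w : V0 ⊕ V1 => {y | ρ y ∈ D.t.cell w})
      (fun w => D.pi ⁻¹' (D.t.cell w)) := by
    refine ⟨actY, fun k => h.act (k : Γ), proper, ?_, ?_, haec, hcell_closed, ?_⟩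
    · intro k w y hy
      exact h.cell_k hstab k hy (hρK k y)
    · intro k w ξ hξ
      exact h.cell_k hstab k hξ (h.pi_k hstab k ξ)
    · rintro i j hij y ⟨h1, h2⟩
      right
      have h1' : ρ y ∈ D.t.cell i := h1
      have h2' : ρ y ∈ D.t.cell j := h2
      by_cases hi : i = D.t.root
      · exact ⟨i, by rw [hi]; rw [hi] at h1'; exact RTree.cell_root h1'⟩
      · rcases eq_or_lt_of_le (h1'.1.1 i).1 with h0 | h0
        · exact ⟨_, RTree.cell_eq_vt_par hi h1' h0.symm⟩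
        · rcases eq_or_lt_of_le (h1'.1.1 i).2 with h3 | h3
          · exact ⟨_, RTree.cell_eq_vt h1' h3⟩
          · exact absurd (RTree.cell_unique h1' h2' h0 h3).symm hij
  obtain ⟨F2, hF2, hF2e⟩ := equiv_ext hE2 hfr (Y'' := Set.univ) isClosed_univ
    (Set.subset_univ _) (fun _ _ _ => trivial) (fun _ => Set.subset_univ _) (by
      intro C hC
      obtain ⟨n, hn⟩ := hbound C hC
      refine ⟨{w | D.t.dep w ≤ n}, D.t.finite_le n, ?_⟩
      rintro y ⟨hyC, _⟩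
      obtain ⟨w, hw⟩ := RTree.exists_cell (hρT y).1 (hρT y).2
      exact Or.inr (Set.mem_biUnion (x := w) (hn y hyC w hw) hw))
    (f := F1) ⟨hF1.closed, le_rfl, hF1.inv, hF1.cont, by
      rintro y hy w hw
      rcases hy with hy | ⟨z, hz⟩
      · show D.pi (F1 y) ∈ D.t.cell w
        rw [hF1e hy]
        exact hf1 y hy w hw
      · show D.pi (F1 y) ∈ D.t.cell w
        rw [hF1v y z hz, ← hz]
        exact hw, hF1.eq⟩
  refine ⟨F2, continuousOn_univ.mp hF2.cont, ?_, fun k y => hF2.eq k y trivial,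
    fun y w hw => hF2.con y trivial w hw, ?_⟩
  · intro y hy
    rw [hF2e (Or.inl hy), hF1e hy]
  · intro y w hw
    rw [hF2e (Or.inr ⟨w, hw⟩)]
    exact hF1v y w hw

end

end Run7.h241
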