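import Mathlib
import Pool.Agent.Run7.h241.TSpE
import Pool.Agent.Run7.h241.CoreC

set_option autoImplicit false

namespace Run7.h241

open Filter Topology H30

section

variable {K : Type} [Group K] {X0 : Type} [TopologicalSpace X0] [MulAction K X0]
    {E : Type} [NormedAddCommGroup E] {S : Set E} {p : E → ℝ} {ι : X0 → E}

theorem KSp.t2 (hK : KSp K S p ι) : T2Space X0 :=
  T2Space.of_injective_continuous hK.inj hK.ind.continuous

theorem KSp.metr (hK : KSp K S p ι) : TopologicalSpace.MetrizableSpace X0 :=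
  (IsEmbedding.mk hK.ind hK.inj).metrizableSpace

theorem KSp.wlc (hK : KSp K S p ι) (hS : IsCompact S) (hp : Continuous p) :
    WeaklyLocallyCompactSpace X0 :=
  ⟨fun x => by
    have h1 : 0 < p (ι x) := (hK.pos x).2
    refine ⟨{y | p (ι x) / 2 ≤ p (ι y)}, hK.compact_ge hS hp (half_pos h1), ?_⟩
    filter_upwards [(hp.comp hK.ind.continuous).continuousAt.eventually_const_lt
      (show p (ι x) / 2 < (p ∘ ι) x from half_lt_self h1)] with y hy
    exact le_of_lt hy⟩

theorem KSp.sigma (hK : KSp K S p ι) (hS : IsCompact S) (hp : Continuous p) :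
    SigmaCompactSpace X0 :=
  ⟨⟨fun n : ℕ => {y | 1 / ((n : ℝ) + 1) ≤ p (ι y)}, fun n => hK.compact_ge hS hp (by positivity), by
    rw [Set.eq_univ_iff_forall]
    intro x
    obtain ⟨n, hn⟩ := exists_nat_one_div_lt (hK.pos x).2
    exact Set.mem_iUnion.mpr ⟨n, hn.le⟩⟩⟩

theorem KSp.nonempty (hK : KSp K S p ι) {H : E × ℝ → E} {x0 : E} (hP : Push S p H x0) :
    Nonempty X0 := by
  have h1 : H (x0, 1) ∈ Set.range ι := by
    rw [hK.rng]; exact ⟨hP.mem _, hP.pos _ 1 one_pos⟩
  obtain ⟨y, _⟩ := h1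
  exact ⟨y⟩

end

namespace RTree

variable {V : Type} (t : RTree V)

theorem T_compact {δ : ℝ} (hδ : 0 < δ) : IsCompact {c : t.T | δ ≤ t.Q c.1} := by
  rw [Subtype.isCompact_iff]
  have : (Subtype.val '' {c : t.T | δ ≤ t.Q c.1}) = t.That ∩ {c | δ ≤ t.Q c} := by
    ext c
    constructor
    · rintro ⟨c, hc, rfl⟩; exact ⟨c.2.1, hc⟩
    · rintro ⟨h1, h2⟩; exact ⟨⟨c, h1, lt_of_lt_of_le hδ h2⟩, h2, rfl⟩
  rw [this]
  exact t.That_compact.inter_right (isClosed_le continuous_const t.Q_cont)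

theorem T_wlc : WeaklyLocallyCompactSpace t.T :=
  ⟨fun c => by
    refine ⟨{c' | t.Q c.1 / 2 ≤ t.Q c'.1}, t.T_compact (half_pos c.2.2), ?_⟩
    filter_upwards [(t.Q_cont.comp continuous_subtype_val).continuousAt.eventually_const_lt
      (show t.Q c.1 / 2 < (t.Q ∘ Subtype.val) c from half_lt_self c.2.2)] with y hy
    exact le_of_lt hy⟩

theorem T_sigma : SigmaCompactSpace t.T :=
  ⟨⟨fun n : ℕ => {c | 1 / ((n : ℝ) + 1) ≤ t.Q c.1}, fun n => t.T_compact (by positivity), by
    rw [Set.eq_univ_iff_forall]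
    intro c
    obtain ⟨n, hn⟩ := exists_nat_one_div_lt c.2.2
    exact Set.mem_iUnion.mpr ⟨n, hn.le⟩⟩⟩

theorem T_metr : TopologicalSpace.MetrizableSpace t.T := by
  have : Countable V := t.countable
  infer_instance

end RTree

/-- The main construction. -/
theorem tree_main {Γ : Type} [Group Γ] {V0 V1 M0 M1 E0 E1 : Type} [MulAction Γ V0]
    [MulAction Γ V1] [TopologicalSpace M0] [TopologicalSpace M1] [MulAction Γ M0]
    [MulAction Γ M1] [NormedAddCommGroup E0] [NormedAddCommGroup E1] [NormedSpace ℝ E0]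
    [NormedSpace ℝ E1] [FiniteDimensional ℝ E0] [FiniteDimensional ℝ E1]
    {D : TData V0 V1 M0 M1 E0 E1} {K : Subgroup Γ} [Nonempty M0]
    (h : TSp Γ D) (hstab : ∀ γ : Γ, γ • D.t.root = D.t.root ↔ γ ∈ K)
    (htf : ∀ k : K, IsOfFinOrder k → k = 1)
    {X0 : Type} [TopologicalSpace X0] [MulAction K X0]
    {E : Type} [NormedAddCommGroup E] [NormedSpace ℝ E] [FiniteDimensional ℝ E]
    {S : Set E} {p : E → ℝ} {H : E × ℝ → E} {x0 : E} {ι : X0 → E}
    (hP : Push S p H x0) (hK : KSp K S p ι) (hAE : AE (Set.univ : Set X0)) :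
    HasZStructure Γ := by
  classical
  have hS := hP.cpt
  have hpc := hP.pcont
  -- instances
  haveI := h.t2
  haveI := h.metr
  haveI := h.wlc
  haveI := h.sigma
  haveI := hK.t2
  haveI := hK.metr
  haveI := hK.wlc hS hpc
  haveI := hK.sigma hS hpc
  haveI : Nonempty X0 := hK.nonempty hP
  haveI := D.t.T_wlc
  haveI := D.t.T_sigma
  haveI := D.t.T_metr
  haveI : Countable (V0 ⊕ V1) := D.t.countable
  -- the action of K on the total space
  have hKact : ∀ k : K, Continuous fun ξ : D.Tot => k • ξ := fun k => h.act (k : Γ)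
  have hKprop : ∀ C : Set D.Tot, IsCompact C →
      {k : K | ((fun x => k • x) '' C ∩ C).Nonempty}.Finite := by
    intro C hC
    have h1 := Set.Finite.preimage (f := (Subtype.val : K → Γ)) Subtype.val_injective.injOn
      (h.proper C hC)
    exact h1
  have hKfree := free_of_proper htf hKprop
  have hXfree := free_of_proper htf hK.proper
  -- the map to X0
  obtain ⟨hm, hmc, hme⟩ := equiv_map (W := X0) hKfree hKact hK.act hKprop hAE
  -- the action on the tree
  have hTk : ∀ (k : K) (c : D.t.T), (fun u => c.1 ((k : Γ)⁻¹ • u)) ∈ D.t.T := by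
    intro k c
    obtain ⟨w, hw⟩ := RTree.exists_cell c.2.1 c.2.2
    have h1 := h.cell_k hstab k hw (c' := fun u => c.1 ((k : Γ)⁻¹ • u))
      (fun u => by show c.1 ((k : Γ)⁻¹ • ((k : Γ) • u)) = c.1 u; rw [inv_smul_smul])
    exact ⟨h1.1, RTree.cell_Q_pos h1⟩
  letI actT : MulAction K D.t.T :=
    { smul := fun k c => ⟨fun u => c.1 ((k : Γ)⁻¹ • u), hTk k c⟩
      one_smul := by
        intro c
        apply Subtype.ext
        funext u
        show c.1 (((1 : K) : Γ)⁻¹ • u) = c.1 u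
        rw [Subgroup.coe_one, inv_one, one_smul]
      mul_smul := by
        intro k k' c
        apply Subtype.ext
        funext u
        show c.1 (((k * k' : K) : Γ)⁻¹ • u) = c.1 ((k' : Γ)⁻¹ • ((k : Γ)⁻¹ • u))
        rw [Subgroup.coe_mul, mul_inv_rev, mul_smul] }
  have hTv : ∀ (k : K) (c : D.t.T) u, (k • c).1 ((k : Γ) • u) = c.1 u := by
    intro k c u
    show c.1 ((k : Γ)⁻¹ • ((k : Γ) • u)) = c.1 u
    rw [inv_smul_smul]
  have hTact : ∀ k : K, Continuous fun c : D.t.T => k • c := by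
    intro k
    apply Continuous.subtype_mk
    exact continuous_pi (fun u => (continuous_apply _).comp continuous_subtype_val)
  -- the map g
  obtain ⟨g', hg'c, -, hg'e, hg'cell, hg'vt⟩ := h.ext_tree hstab (Y := X0 × D.t.T)
    (fun k y hy => hXfree k y.1 (congrArg Prod.fst hy))
    (fun k => ((hK.act k).comp continuous_fst).prodMk ((hTact k).comp continuous_snd))
    (by
      intro C hC
      apply (hK.proper _ (hC.image continuous_fst)).subset
      rintro k ⟨_, ⟨y, hy, rfl⟩, hy'⟩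
      exact ⟨k • y.1, ⟨y.1, ⟨y, hy, rfl⟩, rfl⟩, ⟨k • y, hy', rfl⟩⟩)
    (ρ := fun y => y.2.1) (continuous_subtype_val.comp continuous_snd) (fun y => y.2.2)
    (fun k y w => hTv k y.2 w) (Y' := ∅) isClosed_empty (fun _ _ h => h)
    (f := fun _ => Sum.inl (Classical.arbitrary M0)) (continuousOn_empty _)
    (fun _ _ h => absurd h (Set.notMem_empty _)) (fun _ h => absurd h (Set.notMem_empty _))
    (fun _ h => absurd h (Set.notMem_empty _))
  let g : X0 × (V0 ⊕ V1 → ℝ) → D.Tot := fun z =>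
    if hz : z.2 ∈ D.t.T then g' (z.1, ⟨z.2, hz⟩) else Sum.inl (Classical.arbitrary M0)
  have hgT : ∀ x (y : V0 ⊕ V1 → ℝ) (hy : y ∈ D.t.T), g (x, y) = g' (x, ⟨y, hy⟩) :=
    fun x y hy => dif_pos hy
  have hgc : ContinuousOn g {z | z.2 ∈ D.t.T} := by
    rw [continuousOn_iff_continuous_domRestrict]
    have h1 : Continuous (fun z : {z : X0 × (V0 ⊕ V1 → ℝ) | z.2 ∈ D.t.T} =>
        g' (z.1.1, ⟨z.1.2, z.2⟩)) :=
      hg'c.comp ((continuous_fst.comp continuous_subtype_val).prodMk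
        ((continuous_snd.comp continuous_subtype_val).subtype_mk _))
    exact h1.congr (fun z => (hgT _ _ z.2).symm)
  have hge : ∀ (k : K) x (c : D.t.T), g (k • x, (k • c).1) = k • g (x, c.1) := by
    intro k x c
    rw [hgT _ _ (k • c).2, hgT _ _ c.2]
    exact hg'e k (x, c)
  -- the homotopy J
  letI actJ : MulAction K (D.Tot × unitInterval) :=
    { smul := fun k z => (k • z.1, z.2)
      one_smul := fun z => Prod.ext (one_smul K z.1) rfl
      mul_smul := fun k k' z => Prod.ext (mul_smul k k' z.1) rfl }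
  have hJs : ∀ (k : K) (z : D.Tot × unitInterval), k • z = (k • z.1, z.2) := fun _ _ => rfl
  let f0 : D.Tot × unitInterval → D.Tot := fun z =>
    if z.2 = 0 then z.1 else g (hm z.1, D.pi z.1)
  have hπe : ∀ (k : K) (ξ : D.Tot), (k • (⟨D.pi ξ, h.pi_T ξ⟩ : D.t.T)).1 = D.pi (k • ξ) := by
    intro k ξ
    funext u
    have e : u = (k : Γ) • ((k : Γ)⁻¹ • u) := by rw [smul_inv_smul]
    rw [e, hTv]
    exact (h.pi_k hstab k ξ _).symm
  have hghe : ∀ (k : K) (ξ : D.Tot), g (hm (k • ξ), D.pi (k • ξ)) = k • g (hm ξ, D.pi ξ) := by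
    intro k ξ
    rw [hme, ← hπe]
    exact hge k (hm ξ) ⟨D.pi ξ, h.pi_T ξ⟩
  have hghc : Continuous (fun ξ : D.Tot => g (hm ξ, D.pi ξ)) :=
    hgc.comp_continuous (hmc.prodMk D.pi_cont) (fun ξ => h.pi_T ξ)
  have h0c : IsClosed {z : D.Tot × unitInterval | z.2 = 0} :=
    isClosed_eq continuous_snd continuous_const
  have h1c : IsClosed {z : D.Tot × unitInterval | z.2 = 1} :=
    isClosed_eq continuous_snd continuous_const
  obtain ⟨J', hJ'c, hJ'f, hJ'e, hJ'cell, -⟩ := h.ext_tree hstab (Y := D.Tot × unitInterval)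
    (fun k y hy => hKfree k y.1 (congrArg Prod.fst hy))
    (fun k => ((hKact k).comp continuous_fst).prodMk continuous_snd)
    (by
      intro C hC
      apply (hKprop _ (hC.image continuous_fst)).subset
      rintro k ⟨_, ⟨y, hy, rfl⟩, hy'⟩
      exact ⟨k • y.1, ⟨y.1, ⟨y, hy, rfl⟩, rfl⟩, ⟨k • y, hy', rfl⟩⟩)
    (ρ := fun y => D.pi y.1) (D.pi_cont.comp continuous_fst) (fun y => h.pi_T y.1)
    (fun k y w => h.pi_k hstab k y.1 w) (Y' := {z | z.2 = 0} ∪ {z | z.2 = 1})
    (h0c.union h1c) (by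
      rintro k y (hy | hy)
      · exact Or.inl hy
      · exact Or.inr hy)
    (f := f0) (by
      apply ContinuousOn.union_of_isClosed _ _ h0c h1c
      · refine continuous_fst.continuousOn.congr ?_
        intro z hz
        exact if_pos hz
      · refine (hghc.comp continuous_fst).continuousOn.congr ?_
        intro z hz
        have hz' : z.2 = 1 := hz
        exact if_neg (by rw [hz']; exact one_ne_zero))
    (by
      intro k z _
      show (if z.2 = 0 then k • z.1 else g (hm (k • z.1), D.pi (k • z.1))) =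
        k • (if z.2 = 0 then z.1 else g (hm z.1, D.pi z.1))
      split_ifs
      · rfl
      · exact hghe k z.1)
    (by
      intro z _ w hw
      show D.pi (if z.2 = 0 then z.1 else g (hm z.1, D.pi z.1)) ∈ D.t.cell w
      split_ifs
      · exact hw
      · rw [hgT _ _ (h.pi_T z.1)]
        exact hg'cell _ w hw)
    (by
      intro z _ w hw
      show D.pi (if z.2 = 0 then z.1 else g (hm z.1, D.pi z.1)) = D.t.vt w
      split_ifs
      · exact hw
      · rw [hgT _ _ (h.pi_T z.1)]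
        exact hg'vt _ w hw)
  let cI : ℝ → unitInterval := fun s => ⟨cl s, cl_nonneg s, cl_le_one s⟩
  have hcI : Continuous cI := cl_cont.subtype_mk _
  let J : D.Tot × ℝ → D.Tot := fun z => J' (z.1, cI z.2)
  have hd : Dat K D.t hm D.pi g J := by
    constructor
    · exact hstab
    · exact h.wk
    · exact h.act
    · exact h.proper
    · exact h.cocpt
    · exact hmc
    · exact D.pi_cont
    · exact h.pi_T
    · exact h.piw
    · intro C hC
      refine ⟨hm '' C, hC.image hmc, fun k ξ hξ => ⟨hm ξ, ⟨ξ, hξ, rfl⟩, hme k ξ⟩⟩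
    · exact hgc
    · intro x y hy
      obtain ⟨w, hw⟩ := RTree.exists_cell hy.1 hy.2
      exact ⟨w, hw, by rw [hgT x y hy]; exact hg'cell _ w hw⟩
    · intro C hC n
      have hTn : IsCompact (⋃ w ∈ {w | D.t.dep w ≤ n}, D.t.cell w) :=
        (D.t.finite_le n).isCompact_biUnion (fun w _ =>
          D.t.That_compact.of_isClosed_subset (D.t.cell_closed w) (fun c hc => hc.1))
      have hTnT : (⋃ w ∈ {w | D.t.dep w ≤ n}, D.t.cell w) ⊆ D.t.T := by
        intro c hc
        obtain ⟨w, _, hw⟩ := Set.mem_iUnion₂.mp hc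
        exact ⟨hw.1, RTree.cell_Q_pos hw⟩
      refine ⟨hm '' (g '' (C ×ˢ (⋃ w ∈ {w | D.t.dep w ≤ n}, D.t.cell w))),
        ((hC.prod hTn).image_of_continuousOn (hgc.mono (fun z hz => hTnT hz.2))).image hmc, ?_⟩
      intro k x hx y hy hQ
      obtain ⟨w, hw⟩ := RTree.exists_cell hy.1 hy.2
      have hdw : D.t.dep w ≤ n := by
        have h1 := (RTree.cell_inv_ge hw).trans hQ
        exact_mod_cast h1
      set c' : D.t.T := k⁻¹ • (⟨y, hy⟩ : D.t.T) with hc'
      have hc'cell : c'.1 ∈ D.t.cell (((k⁻¹ : K) : Γ) • w) :=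
        h.cell_k hstab k⁻¹ hw (hTv k⁻¹ ⟨y, hy⟩)
      have hyc : y = (k • c').1 := by rw [hc', smul_inv_smul]
      refine ⟨hm (g (x, c'.1)), ⟨_, ⟨(x, c'.1), ⟨hx, Set.mem_biUnion
        (x := ((k⁻¹ : K) : Γ) • w) ?_ hc'cell⟩, rfl⟩, rfl⟩, ?_⟩
      · show D.t.dep (((k⁻¹ : K) : Γ) • w) ≤ n
        rw [h.kdep hstab]; exact hdw
      · rw [hyc, hge, hme]
    · exact hJ'c.comp (continuous_fst.prodMk (hcI.comp continuous_snd))
    · intro ξ r hr
      show J' (ξ, cI r) = ξ
      have e : cI r = 0 := Subtype.ext (cl_of_nonpos hr)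
      rw [e, hJ'f (Or.inl rfl)]
      exact if_pos rfl
    · intro ξ r hr
      show J' (ξ, cI r) = g (hm ξ, D.pi ξ)
      have e : cI r = 1 := Subtype.ext (cl_of_one_le hr)
      rw [e, hJ'f (Or.inr rfl)]
      exact if_neg one_ne_zero
    · intro ξ r
      obtain ⟨w, hw⟩ := RTree.exists_cell (h.pi_T ξ).1 (h.pi_T ξ).2
      exact ⟨w, hw, hJ'cell (ξ, cI r) w hw⟩
    · intro C hC
      refine ⟨hm '' (J' '' (C ×ˢ Set.univ)), ((hC.prod isCompact_univ).image hJ'c).image hmc, ?_⟩
      intro k ξ hξ r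
      refine ⟨hm (J' (ξ, cI r)), ⟨_, ⟨(ξ, cI r), ⟨hξ, trivial⟩, rfl⟩, rfl⟩, ?_⟩
      show hm (J' ((k : Γ) • ξ, cI r)) = k • hm (J' (ξ, cI r))
      have e : J' ((k : Γ) • ξ, cI r) = k • J' (ξ, cI r) := hJ'e k (ξ, cI r)
      rw [e, hme]
    · exact h.ae_univ
  exact core_main hP hK hd D.ec_cont (fun ξ => sq_le _) (fun ξ ξ' _ h2 h3 => h.ec_inj h2 h3)

end Run7.h241
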