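import Mathlib
import Pool.Agent.Run7.h241.TSpB

set_option autoImplicit false

namespace Run7.h241

open Filter Topology H30

/-- A space with a proper cocompact action and a proper embedding in a normed space. -/
structure ASp (L : Type) [Group L] {Y E : Type} [TopologicalSpace Y] [MulAction L Y]
    [NormedAddCommGroup E] (j : Y → E) : Prop where
  act : ∀ l : L, Continuous fun x : Y => l • x
  proper : ∀ C : Set Y, IsCompact C → {l : L | ((fun x => l • x) '' C ∩ C).Nonempty}.Finite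
  cocpt : ∃ C : Set Y, IsCompact C ∧ ∀ x : Y, ∃ l : L, l • x ∈ C
  jcont : Continuous j
  jinj : Function.Injective j
  jprop : ∀ r : ℝ, IsCompact {x | ‖j x‖ ≤ r}
  ae : AE (Set.univ : Set Y)

section

variable {Γ L : Type} [Group Γ] [Group L]

/-- The induced space. -/
def Ind (i : L →* Γ) (Y : Type) : Type := (Γ ⧸ i.range) × Y

variable {i : L →* Γ} {Y : Type}

instance [TopologicalSpace Y] : TopologicalSpace (Ind i Y) :=
  @instTopologicalSpaceProd (Γ ⧸ i.range) Y ⊥ _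

/-- a pair, as a point of the induced space -/
def Ind.pr (c : Γ ⧸ i.range) (y : Y) : Ind i Y := (c, y)

/-- the projection -/
def Ind.p (x : Ind i Y) : Γ ⧸ i.range := x.1

/-- the cocycle -/
noncomputable def coc (i : L →* Γ) (γ : Γ) (c : Γ ⧸ i.range) : L :=
  Function.invFun i ((γ • c).out⁻¹ * γ * c.out)

theorem coc_spec (γ : Γ) (c : Γ ⧸ i.range) :
    i (coc i γ c) = (γ • c).out⁻¹ * γ * c.out := by
  have h : ∃ l, i l = (γ • c).out⁻¹ * γ * c.out := by
    have h1 : (((γ • c).out : Γ) : Γ ⧸ i.range) = ((γ * c.out : Γ) : Γ ⧸ i.range) := by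
      rw [QuotientGroup.out_eq']
      conv_lhs => rw [← QuotientGroup.out_eq' c]
      rfl
    rw [QuotientGroup.eq] at h1
    obtain ⟨l, hl⟩ := h1
    exact ⟨l, by rw [hl, mul_assoc]⟩
  exact Function.invFun_eq h

section act

variable [MulAction L Y]

/-- a general element -/
noncomputable def Ind.mk (i : L →* Γ) (γ : Γ) (y : Y) : Ind i Y :=
  ((γ : Γ ⧸ i.range), (Function.invFun i ((γ : Γ ⧸ i.range).out⁻¹ * γ)) • y)

/-- the action, as a family of maps -/
noncomputable def Ind.smul (γ : Γ) (x : Ind i Y) : Ind i Y := (γ • x.1, coc i γ x.1 • x.2)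

end act

variable (hi : Function.Injective i)

theorem mk_spec (γ : Γ) : i (Function.invFun i ((γ : Γ ⧸ i.range).out⁻¹ * γ)) =
    (γ : Γ ⧸ i.range).out⁻¹ * γ := by
  have h : ∃ l, i l = (γ : Γ ⧸ i.range).out⁻¹ * γ := by
    have h1 : (((γ : Γ ⧸ i.range).out : Γ) : Γ ⧸ i.range) = ((γ : Γ) : Γ ⧸ i.range) :=
      QuotientGroup.out_eq' _
    rw [QuotientGroup.eq] at h1
    obtain ⟨l, hl⟩ := h1
    exact ⟨l, hl⟩
  exact Function.invFun_eq h

variable [MulAction L Y]

theorem coc_mul (hi : Function.Injective i) (γ γ' : Γ) (c : Γ ⧸ i.range) :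
    coc i (γ * γ') c = coc i γ (γ' • c) * coc i γ' c := by
  apply hi
  rw [map_mul, coc_spec, coc_spec, coc_spec, mul_smul]
  group

theorem coc_one (hi : Function.Injective i) (c : Γ ⧸ i.range) : coc i 1 c = 1 := by
  apply hi
  rw [coc_spec, one_smul, map_one]
  group

/-- the action on the induced space -/
noncomputable def Ind.act (hi : Function.Injective i) : MulAction Γ (Ind i Y) where
  smul γ x := Ind.smul γ x
  one_smul x := by
    show ((1 : Γ) • x.1, coc i 1 x.1 • x.2) = x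
    rw [one_smul, coc_one hi, one_smul]
    rfl
  mul_smul γ γ' x := by
    show ((γ * γ') • x.1, coc i (γ * γ') x.1 • x.2) =
      (γ • (γ' • x.1), coc i γ (γ' • x.1) • (coc i γ' x.1 • x.2))
    rw [mul_smul, coc_mul hi, mul_smul]

theorem Ind.smul_mk (hi : Function.Injective i) (γ γ' : Γ) (y : Y) :
    Ind.smul γ (Ind.mk i γ' y) = Ind.mk i (γ * γ') y := by
  unfold Ind.smul Ind.mk
  apply Prod.ext
  · rfl
  · show coc i γ (γ' : Γ ⧸ i.range) • (Function.invFun i ((γ' : Γ ⧸ i.range).out⁻¹ * γ')) • y =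
      (Function.invFun i (((γ * γ' : Γ) : Γ ⧸ i.range).out⁻¹ * (γ * γ'))) • y
    rw [← mul_smul]
    congr 1
    apply hi
    rw [map_mul, coc_spec, mk_spec, mk_spec]
    have : γ • (γ' : Γ ⧸ i.range) = ((γ * γ' : Γ) : Γ ⧸ i.range) := rfl
    rw [this]
    group

theorem Ind.mk_mul (hi : Function.Injective i) (γ : Γ) (l : L) (y : Y) :
    Ind.mk i (γ * i l) y = Ind.mk i γ (l • y) := by
  unfold Ind.mk
  have e : ((γ * i l : Γ) : Γ ⧸ i.range) = (γ : Γ ⧸ i.range) := by
    rw [eq_comm, QuotientGroup.eq]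
    exact ⟨l, by group⟩
  apply Prod.ext
  · exact e
  · show (Function.invFun i (((γ * i l : Γ) : Γ ⧸ i.range).out⁻¹ * (γ * i l))) • y =
      (Function.invFun i ((γ : Γ ⧸ i.range).out⁻¹ * γ)) • l • y
    rw [← mul_smul]
    congr 1
    apply hi
    rw [map_mul, mk_spec, mk_spec, e]
    group

theorem Ind.mk_out (hi : Function.Injective i) (x : Ind i Y) : Ind.mk i x.1.out x.2 = x := by
  unfold Ind.mk
  have e : ((x.1.out : Γ) : Γ ⧸ i.range) = x.1 := QuotientGroup.out_eq' _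
  apply Prod.ext
  · exact e
  · show (Function.invFun i (((x.1.out : Γ) : Γ ⧸ i.range).out⁻¹ * x.1.out)) • x.2 = x.2
    have : Function.invFun i (((x.1.out : Γ) : Γ ⧸ i.range).out⁻¹ * x.1.out) = 1 := by
      apply hi
      rw [mk_spec, e, map_one]
      group
    rw [this, one_smul]

theorem Ind.exists_mk (hi : Function.Injective i) (x : Ind i Y) : ∃ γ y, x = Ind.mk i γ y :=
  ⟨x.1.out, x.2, (Ind.mk_out hi x).symm⟩

theorem Ind.p_mk (γ : Γ) (y : Y) : (Ind.mk i γ y).p = (γ : Γ ⧸ i.range) := rfl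

/-- the extension of an equivariant map -/
noncomputable def Ind.ext {N : Type} [MulAction Γ N] (F : Y → N) (x : Ind i Y) : N :=
  x.1.out • F x.2

theorem Ind.ext_mk {N : Type} [MulAction Γ N] {F : Y → N}
    (hF : ∀ (l : L) y, F (l • y) = i l • F y) (γ : Γ) (y : Y) :
    Ind.ext F (Ind.mk i γ y) = γ • F y := by
  unfold Ind.ext Ind.mk
  show (γ : Γ ⧸ i.range).out • F ((Function.invFun i ((γ : Γ ⧸ i.range).out⁻¹ * γ)) • y) = γ • F y
  rw [hF, mk_spec, ← mul_smul]
  congr 1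
  group

variable [TopologicalSpace Y]

theorem Ind.cont_iff {N : Type} [TopologicalSpace N] {F : Ind i Y → N} :
    Continuous F ↔ ∀ c : Γ ⧸ i.range, Continuous (fun y : Y => F (Ind.pr c y)) := by
  letI : TopologicalSpace (Γ ⧸ i.range) := ⊥
  haveI : DiscreteTopology (Γ ⧸ i.range) := ⟨rfl⟩
  exact continuous_prod_of_discrete_left (α := Γ ⧸ i.range) (β := Y) (f := F)

theorem Ind.mk_cont' (c : Γ ⧸ i.range) : Continuous (fun y : Y => Ind.pr c y) := by
  letI : TopologicalSpace (Γ ⧸ i.range) := ⊥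
  have h : Continuous (fun y : Y => (c, y)) := continuous_const.prodMk continuous_id
  exact h

theorem Ind.snd_cont : Continuous (fun x : Ind i Y => x.2) := by
  letI : TopologicalSpace (Γ ⧸ i.range) := ⊥
  exact continuous_snd

theorem Ind.p_open (c : Γ ⧸ i.range) : IsOpen ((Ind.p : Ind i Y → Γ ⧸ i.range) ⁻¹' {c}) := by
  letI : TopologicalSpace (Γ ⧸ i.range) := ⊥
  haveI : DiscreteTopology (Γ ⧸ i.range) := ⟨rfl⟩
  have h : Continuous (Ind.p : Ind i Y → Γ ⧸ i.range) := continuous_fst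
  exact (isOpen_discrete _).preimage h

theorem Ind.p_fin {C : Set (Ind i Y)} (hC : IsCompact C) : ((Ind.p) '' C).Finite := by
  letI : TopologicalSpace (Γ ⧸ i.range) := ⊥
  haveI : DiscreteTopology (Γ ⧸ i.range) := ⟨rfl⟩
  have h : Continuous (Ind.p : Ind i Y → Γ ⧸ i.range) := continuous_fst
  exact (hC.image h).finite_of_discrete

theorem Ind.mk_cont (hact : ∀ l : L, Continuous fun x : Y => l • x) (γ : Γ) :
    Continuous (fun y : Y => Ind.mk i γ y) :=
  (Ind.mk_cont' (γ : Γ ⧸ i.range)).comp (hact _)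

theorem Ind.smul_cont (hact : ∀ l : L, Continuous fun x : Y => l • x) (γ : Γ) :
    Continuous (fun x : Ind i Y => Ind.smul γ x) := by
  rw [Ind.cont_iff]
  intro c
  exact (Ind.mk_cont' (γ • c)).comp (hact (coc i γ c))

theorem Ind.ext_cont {N : Type} [MulAction Γ N] [TopologicalSpace N]
    (hN : ∀ γ : Γ, Continuous fun x : N => γ • x) {F : Y → N} (hF : Continuous F) :
    Continuous (Ind.ext F : Ind i Y → N) := by
  rw [Ind.cont_iff]
  intro c
  exact (hN c.out).comp hF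

/-- The induced space is a fibred space. -/
theorem Ind.fsp {E : Type} [NormedAddCommGroup E] {j : Y → E} (hi : Function.Injective i)
    (hA : ASp L j) : letI := Ind.act (Y := Y) hi; FSp Γ (Ind.p : Ind i Y → Γ ⧸ i.range)
      (fun x => j x.2) := by
  letI := Ind.act (Y := Y) hi
  have hsm : ∀ (γ : Γ) (x : Ind i Y), γ • x = Ind.smul γ x := fun _ _ => rfl
  refine ⟨Ind.p_open, fun _ _ => rfl, fun γ => Ind.smul_cont hA.act γ,
    hA.jcont.comp Ind.snd_cont, ?_, ?_, ?_, ?_, ?_⟩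
  · intro x x' h1 h2
    exact Prod.ext h1 (hA.jinj h2)
  · intro u r
    have : {x : Ind i Y | x.p = u ∧ ‖j x.2‖ ≤ r} = (fun y : Y => Ind.pr u y) ''
        {y | ‖j y‖ ≤ r} := by
      ext x
      constructor
      · rintro ⟨h1, h2⟩
        exact ⟨x.2, h2, Prod.ext h1.symm rfl⟩
      · rintro ⟨y, hy, rfl⟩
        exact ⟨rfl, hy⟩
    rw [this]
    exact (hA.jprop r).image (Ind.mk_cont' u)
  · intro u
    refine ae_transport hA.ae (fun y : Y => Ind.pr u y) (fun x => x.2)
      (Ind.mk_cont' u).continuousOn Ind.snd_cont.continuousOn ?_ ?_ ?_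
    · exact fun y _ => rfl
    · exact fun _ _ => trivial
    · exact fun x hx => Prod.ext (show u = x.1 from (show x.1 = u from hx).symm) rfl
  · intro C hC
    have h1 := Ind.p_fin hC
    have h2 : IsCompact ((fun x : Ind i Y => x.2) '' C) := hC.image Ind.snd_cont
    have h3 := hA.proper _ h2
    apply (((h1.prod h1).prod h3).image (fun z : ((Γ ⧸ i.range) × (Γ ⧸ i.range)) × L =>
      z.1.1.out * i z.2 * z.1.2.out⁻¹)).subset
    rintro γ ⟨_, ⟨x, hx, rfl⟩, hγ⟩
    have hγ' : Ind.smul γ x ∈ C := hγ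
    refine ⟨((γ • x.1, x.1), coc i γ x.1), ⟨⟨⟨_, hγ', rfl⟩, ⟨x, hx, rfl⟩⟩, ?_⟩, ?_⟩
    · exact ⟨coc i γ x.1 • x.2, ⟨x.2, ⟨x, hx, rfl⟩, rfl⟩, ⟨_, hγ', rfl⟩⟩
    · show (γ • x.1).out * i (coc i γ x.1) * x.1.out⁻¹ = γ
      rw [coc_spec]; group
  · obtain ⟨C, hC, h1⟩ := hA.cocpt
    refine ⟨(fun y => Ind.mk i 1 y) '' C, hC.image (Ind.mk_cont hA.act 1), ?_⟩
    intro x
    obtain ⟨γ, y, rfl⟩ := Ind.exists_mk hi x
    obtain ⟨l, hl⟩ := h1 y
    refine ⟨i l * γ⁻¹, l • y, hl, ?_⟩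
    show Ind.mk i 1 (l • y) = Ind.smul (i l * γ⁻¹) (Ind.mk i γ y)
    rw [Ind.smul_mk hi, ← Ind.mk_mul hi]
    congr 1
    group

end

end Run7.h241
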