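import Mathlib
import Pool.Agent.Run7.h241.Level
import Pool.Agent.Run7.h241.AEx
import Pool.Agent.Run7.h241.Interp

set_option autoImplicit false

namespace Run7.h241

open Filter Topology H30

variable {E : Type} [NormedAddCommGroup E] [NormedSpace ℝ E] [FiniteDimensional ℝ E]

theorem exists_push {A Z : Set E} (hA : IsCompact A) (r : E → E) (hr : Continuous r)
    (hrA : ∀ x, r x ∈ A) (hr1 : ∀ x ∈ A, r x = x) (hZ : IsClosed Z)
    (H0 : A × unitInterval → A) (hH0 : Continuous H0) (h0 : ∀ x, H0 (x, 0) = x)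
    (h1 : ∀ x s, 0 < s → (H0 (x, s) : E) ∉ Z) :
    ∃ (p : E → ℝ) (H : E × ℝ → E) (x0 : E), Push A p H x0 ∧ (∀ x ∈ A, 0 < p x ↔ x ∉ Z) ∧
      AE (A \ Z) := by
  classical
  let p : E → ℝ := fun x => if Z = ∅ then 1 else min 1 (Metric.infDist (r x) Z)
  have hp : ∀ x, 0 < p x ↔ r x ∉ Z := by
    intro x
    show 0 < (if Z = ∅ then 1 else min 1 (Metric.infDist (r x) Z)) ↔ _
    split_ifs with hZe
    · rw [hZe]; simp
    · have hne : Z.Nonempty := Set.nonempty_iff_ne_empty.mpr hZe
      rw [hZ.notMem_iff_infDist_pos hne]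
      constructor
      · intro h; exact lt_of_lt_of_le h (min_le_right _ _)
      · intro h; exact lt_min one_pos h
  have hpc : Continuous p := by
    by_cases hZe : Z = ∅
    · have : p = fun _ => 1 := by funext x; exact if_pos hZe
      rw [this]; exact continuous_const
    · have : p = fun x => min 1 (Metric.infDist (r x) Z) := by funext x; exact if_neg hZe
      rw [this]
      exact continuous_const.min ((Metric.continuous_infDist_pt Z).comp hr)
  have hp0 : ∀ x, 0 ≤ p x := by
    intro x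
    show 0 ≤ (if Z = ∅ then 1 else min 1 (Metric.infDist (r x) Z))
    split_ifs
    · exact zero_le_one
    · exact le_min zero_le_one Metric.infDist_nonneg
  have hp1 : ∀ x, p x ≤ 1 := by
    intro x
    show (if Z = ∅ then 1 else min 1 (Metric.infDist (r x) Z)) ≤ 1
    split_ifs
    · exact le_rfl
    · exact min_le_left _ _
  -- the homotopy as a total function
  let cI : ℝ → unitInterval := fun s => ⟨cl s, cl_nonneg s, cl_le_one s⟩
  have hcI : Continuous cI := cl_cont.subtype_mk _
  let H1 : E × ℝ → E := fun z => H0 (⟨r z.1, hrA z.1⟩, cI z.2)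
  have hH1c : Continuous H1 := by
    apply continuous_subtype_val.comp
    apply hH0.comp
    exact ((hr.comp continuous_fst).subtype_mk _).prodMk (hcI.comp continuous_snd)
  have hH1m : ∀ z, H1 z ∈ A := fun z => (H0 _).2
  have hH10 : ∀ x ∈ A, ∀ s ≤ 0, H1 (x, s) = x := by
    intro x hx s hs
    have e1 : cI s = 0 := Subtype.ext (cl_of_nonpos hs)
    show ((H0 (⟨r x, hrA x⟩, cI s) : A) : E) = x
    rw [e1, h0]
    exact hr1 x hx
  have hH1p : ∀ x, ∀ s > 0, 0 < p (H1 (x, s)) := by
    intro x s hs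
    rw [hp, hr1 _ (hH1m _)]
    apply h1
    show (0 : ℝ) < cl s
    exact cl_pos_iff.mpr hs
  have hAE : AE {x | x ∈ A ∧ 0 < p x} :=
    ae_push (ae_of_retract r hr hrA hr1) hH1c hH1m (fun x hx => hH10 x hx 0 le_rfl) hH1p
  have hset : {x | x ∈ A ∧ 0 < p x} = A \ Z := by
    ext x
    constructor
    · rintro ⟨h2, h3⟩
      exact ⟨h2, by rw [hp, hr1 x h2] at h3; exact h3⟩
    · rintro ⟨h2, h3⟩
      exact ⟨h2, by rw [hp, hr1 x h2]; exact h3⟩
  -- the contraction
  set x0 : E := H1 (0, 1) with hx0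
  have hB : IsClosed ({z : E × ℝ | z.2 ≤ 1 / 2} ∪ {z | 1 ≤ z.2}) :=
    (isClosed_le continuous_snd continuous_const).union
      (isClosed_le continuous_const continuous_snd)
  let f : E × ℝ → E := fun z => if z.2 ≤ 1 / 2 then H1 (z.1, 1 / 2) else x0
  have hf : ContinuousOn f ({z : E × ℝ | z.2 ≤ 1 / 2} ∪ {z | 1 ≤ z.2}) := by
    apply ContinuousOn.union_of_isClosed
    · refine ContinuousOn.congr (f := fun z : E × ℝ => H1 (z.1, 1 / 2)) ?_ ?_
      · exact (hH1c.comp (continuous_fst.prodMk continuous_const)).continuousOn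
      · intro z hz; exact if_pos hz
    · refine ContinuousOn.congr (f := fun _ => x0) continuousOn_const ?_
      intro z hz
      have h2 : (1 : ℝ) ≤ z.2 := hz
      exact if_neg (by linarith)
    · exact isClosed_le continuous_snd continuous_const
    · exact isClosed_le continuous_const continuous_snd
  obtain ⟨F, hF, hF1, hF2⟩ := hAE (E × ℝ) _ hB f hf (by
    intro z _
    show (if z.2 ≤ 1 / 2 then H1 (z.1, 1 / 2) else x0) ∈ {x | x ∈ A ∧ 0 < p x}
    split_ifs
    · exact ⟨hH1m _, hH1p _ _ (by norm_num)⟩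
    · exact ⟨hH1m _, hH1p _ _ one_pos⟩)
  let H : E × ℝ → E := fun z => if z.2 ≤ 1 / 2 then H1 z else F z
  have hHc : Continuous H := by
    apply continuous_if_le continuous_snd continuous_const hH1c.continuousOn hF.continuousOn
    intro z hz
    have h2 : F z = f z := hF2 (Or.inl (le_of_eq hz))
    rw [h2]
    show H1 z = if z.2 ≤ 1 / 2 then H1 (z.1, 1 / 2) else x0
    rw [if_pos (le_of_eq hz), ← hz]
  refine ⟨p, H, x0, ⟨hA, hpc, hp0, hp1, hHc, ?_, ?_, ?_, ?_⟩, ?_, by rw [← hset]; exact hAE⟩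
  · intro z
    show (if z.2 ≤ 1 / 2 then H1 z else F z) ∈ A
    split_ifs
    · exact hH1m z
    · exact (hF1 z).1
  · intro x hx s hs
    show (if s ≤ 1 / 2 then H1 (x, s) else F (x, s)) = x
    rw [if_pos (by linarith)]
    exact hH10 x hx s hs
  · intro x s hs
    show 0 < p (if s ≤ 1 / 2 then H1 (x, s) else F (x, s))
    split_ifs
    · exact hH1p x s hs
    · exact (hF1 _).2
  · intro x s hs
    show (if s ≤ 1 / 2 then H1 (x, s) else F (x, s)) = x0
    rw [if_neg (by linarith)]
    have h2 : F (x, s) = f (x, s) := hF2 (Or.inr hs)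
    rw [h2]
    exact if_neg (show ¬ (s ≤ 1 / 2) by linarith)
  · intro x hx
    rw [hp, hr1 x hx]

end Run7.h241
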