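import Mathlib
import Pool.Agent.Run7.h241.ZDefs
import Pool.Agent.Run7.h241.ZPush
import Pool.Agent.Run7.h241.CoreA
import Pool.Agent.Run7.h241.Ind
import Pool.Agent.Run7.h241.TreeD

set_option autoImplicit false

namespace Run7.h241

open Filter Topology H30

section

variable {G L : Type} [Group G] [Group L] {X0 : Type} [TopologicalSpace X0] [MulAction G X0]
  [MulAction L X0] {E : Type} [NormedAddCommGroup E]

/-- restriction of cocompactness to a subgroup of finite index -/
theorem cocpt_res (act : ∀ g : G, Continuous fun x : X0 => g • x) (κ : L →* G)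
    [hfi : κ.range.FiniteIndex] (hl : ∀ (l : L) (x : X0), l • x = κ l • x)
    (hco : ∃ C : Set X0, IsCompact C ∧ ∀ x : X0, ∃ g : G, g • x ∈ C) :
    ∃ C : Set X0, IsCompact C ∧ ∀ x : X0, ∃ l : L, l • x ∈ C := by
  obtain ⟨C, hC, h1⟩ := hco
  haveI : Finite (G ⧸ κ.range) := inferInstance
  refine ⟨⋃ c : G ⧸ κ.range, (fun x => c.out⁻¹ • x) '' C,
    isCompact_iUnion (fun c => hC.image (act c.out⁻¹)), ?_⟩
  intro x
  obtain ⟨g, hg⟩ := h1 x
  have h2 : (((g : G ⧸ κ.range).out : G) : G ⧸ κ.range) = (g : G ⧸ κ.range) :=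
    QuotientGroup.out_eq' _
  rw [QuotientGroup.eq] at h2
  obtain ⟨l, hl'⟩ := h2
  refine ⟨l, Set.mem_iUnion.mpr ⟨(g : G ⧸ κ.range), g • x, hg, ?_⟩⟩
  show (g : G ⧸ κ.range).out⁻¹ • g • x = l • x
  rw [hl, hl', mul_smul]

theorem finite_res {P : G → Prop} (κ : L →* G) (hκ : Function.Injective κ)
    (h : {g : G | P g}.Finite) : {l : L | P (κ l)}.Finite :=
  Set.Finite.preimage (f := κ) hκ.injOn h

theorem KSp.res {S : Set E} {p : E → ℝ} {ι : X0 → E} (hK : KSp G S p ι) (κ : L →* G)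
    (hκ : Function.Injective κ) [hfi : κ.range.FiniteIndex]
    (hl : ∀ (l : L) (x : X0), l • x = κ l • x) : KSp L S p ι := by
  have e : ∀ l : L, (fun x : X0 => l • x) = fun x => κ l • x := fun l => funext (hl l)
  refine ⟨hK.ind, hK.inj, hK.rng, ?_, ?_, cocpt_res hK.act κ hl hK.cocpt, ?_⟩
  · intro l
    rw [e]; exact hK.act (κ l)
  · intro C hC
    simp only [e]
    exact finite_res κ hκ (hK.proper C hC)
  · intro C hC ε hε
    simp only [e]
    exact finite_res κ hκ (hK.null C hC ε hε)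

theorem ASp.res {j : X0 → E} (hA : ASp G j) (κ : L →* G)
    (hκ : Function.Injective κ) [hfi : κ.range.FiniteIndex]
    (hl : ∀ (l : L) (x : X0), l • x = κ l • x) : ASp L j := by
  have e : ∀ l : L, (fun x : X0 => l • x) = fun x => κ l • x := fun l => funext (hl l)
  refine ⟨?_, ?_, cocpt_res hA.act κ hl hA.cocpt, hA.jcont, hA.jinj, hA.jprop, hA.ae⟩
  · intro l
    rw [e]; exact hA.act (κ l)
  · intro C hC
    simp only [e]
    exact finite_res κ hκ (hA.proper C hC)

theorem KSp.asp {S : Set E} {p : E → ℝ} {ι : X0 → E} (hK : KSp G S p ι) (hS : IsCompact S)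
    (hp : Continuous p) (hAE : AE (Set.univ : Set X0)) :
    ASp G (fun x => ((ι x, 1 / p (ι x)) : E × ℝ)) := by
  have hc : Continuous (fun x => ((ι x, 1 / p (ι x)) : E × ℝ)) :=
    hK.ind.continuous.prodMk (continuous_const.div (hp.comp hK.ind.continuous)
      (fun x => ne_of_gt (hK.pos x).2))
  refine ⟨hK.act, hK.proper, hK.cocpt, hc, ?_, ?_, hAE⟩
  · intro x y hxy
    exact hK.inj (congrArg Prod.fst hxy)
  · intro r
    apply (hK.compact_ge hS hp (show (0 : ℝ) < 1 / max r 1 by positivity)).of_isClosed_subset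
    · exact isClosed_le hc.norm continuous_const
    · intro x hx
      have h1 : ‖(1 / p (ι x) : ℝ)‖ ≤ r := (norm_snd_le _).trans hx
      have h0 := (hK.pos x).2
      rw [Real.norm_of_nonneg (by positivity)] at h1
      show 1 / max r 1 ≤ p (ι x)
      rw [div_le_iff₀ (by positivity)]
      rw [div_le_iff₀ h0] at h1
      have : r ≤ max r 1 := le_max_left _ _
      nlinarith

end

/-- The data extracted from a Z-structure. -/
theorem HasZStructure.data {G : Type} [Group G] (h : HasZStructure G) :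
    ∃ (n : ℕ) (A : Set (EuclideanSpace ℝ (Fin n))) (X0 : Type) (_ : TopologicalSpace X0)
      (_ : MulAction G X0) (p : EuclideanSpace ℝ (Fin n) → ℝ)
      (H : EuclideanSpace ℝ (Fin n) × ℝ → EuclideanSpace ℝ (Fin n))
      (x0 : EuclideanSpace ℝ (Fin n)) (ι : X0 → EuclideanSpace ℝ (Fin n)),
      Push A p H x0 ∧ KSp G A p ι ∧ AE (Set.univ : Set X0) := by
  obtain ⟨n, A, Z, hA, ⟨r, hr, hrA, hr1⟩, ⟨hZ, hZA, H0, hH0, h0, h1⟩, act, hact⟩ := h
  obtain ⟨p, H, x0, hP, hpZ, hAE⟩ := exists_push hA r hr hrA hr1 hZ H0 hH0 h0 h1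
  refine ⟨n, A, ↥(A \ Z), inferInstance, act, p, H, x0, Subtype.val, hP, ?_, ?_⟩
  · refine ⟨IsInducing.subtypeVal, Subtype.val_injective, ?_, hact.cont, hact.proper,
      hact.cocompact, ?_⟩
    · rw [Subtype.range_coe]
      ext x
      constructor
      · rintro ⟨h2, h3⟩
        exact ⟨h2, (hpZ x h2).mpr h3⟩
      · rintro ⟨h2, h3⟩
        exact ⟨h2, (hpZ x h2).mp h3⟩
    · intro C hC ε hε
      have h2 := hact.null C hC ε hε
      apply h2.subset
      intro g hg
      have hg' : ε ≤ Metric.diam (Subtype.val '' ((fun x : ↥(A \ Z) => g • x) '' C)) := hg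
      rwa [isometry_subtype_coe.diam_image] at hg'
  · have h2 := RTree.ae_subtype (P := A \ Z) (C := A \ Z) le_rfl hAE
    have h3 : (Subtype.val ⁻¹' (A \ Z) : Set ↥(A \ Z)) = Set.univ :=
      Set.eq_univ_of_forall (fun x => x.2)
    rwa [h3] at h2

end Run7.h241
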