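import Mathlib
import Pool.Agent.Run7.h241.TSpB
import Pool.Agent.Run7.h241.AEx

set_option autoImplicit false

namespace Run7.h241

open Filter Topology H30

theorem ae_nonempty {Y : Type} [TopologicalSpace Y] [hY : Nonempty Y] {C : Set Y} (h : AE C) :
    C.Nonempty := by
  obtain ⟨y⟩ := hY
  obtain ⟨F, _, hF, _⟩ := h Unit ∅ isClosed_empty (fun _ => y) (continuousOn_empty _)
    (fun _ hz => absurd hz (Set.notMem_empty _))
  exact ⟨F (), hF ()⟩

section

variable {Γ : Type} [Group Γ] {U U' M M' E E' : Type} [MulAction Γ U] [MulAction Γ U']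
  [TopologicalSpace M] [TopologicalSpace M'] [MulAction Γ M] [MulAction Γ M']
  [NormedAddCommGroup E] [NormedAddCommGroup E'] {p : M → U} {p' : M' → U'} {j : M → E}
  {j' : M' → E'}

/-- the coordinates on a disjoint union -/
def sumJ (j : M → E) (j' : M' → E') : M ⊕ M' → E × E' :=
  Sum.elim (fun x => (j x, 0)) (fun x => (0, j' x))

/-- The disjoint union of two fibred spaces. -/
theorem FSp.sum [Nonempty M] [Nonempty M'] (h : FSp Γ p j) (h' : FSp Γ p' j') :
    FSp Γ (Sum.map p p' : M ⊕ M' → U ⊕ U') (sumJ j j') := by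
  have himg : ∀ u (s : Set M), (∀ x, x ∈ s → p x = u) → ∀ x : M ⊕ M',
      x ∈ (Sum.inl '' s : Set (M ⊕ M')) → Sum.map p p' x = Sum.inl u := by
    rintro u s hs _ ⟨x, hx, rfl⟩
    exact congrArg Sum.inl (hs x hx)
  refine ⟨?_, ?_, ?_, ?_, ?_, ?_, ?_, ?_, ?_⟩
  · rintro (u | u)
    · have : (Sum.map p p' : M ⊕ M' → U ⊕ U') ⁻¹' {Sum.inl u} = Sum.inl '' (p ⁻¹' {u}) := by
        ext x
        rcases x with x | x
        · constructor
          · intro hx
            exact ⟨x, Sum.inl_injective hx, rfl⟩
          · rintro ⟨y, hy, hyx⟩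
            rw [← Sum.inl_injective hyx]
            exact congrArg Sum.inl hy
        · constructor
          · intro hx
            exact absurd hx Sum.inr_ne_inl
          · rintro ⟨y, hy, hyx⟩
            exact absurd hyx Sum.inl_ne_inr
      rw [this]
      exact isOpenMap_inl _ (h.popen u)
    · have : (Sum.map p p' : M ⊕ M' → U ⊕ U') ⁻¹' {Sum.inr u} = Sum.inr '' (p' ⁻¹' {u}) := by
        ext x
        rcases x with x | x
        · constructor
          · intro hx
            exact absurd hx Sum.inl_ne_inr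
          · rintro ⟨y, hy, hyx⟩
            exact absurd hyx Sum.inr_ne_inl
        · constructor
          · intro hx
            exact ⟨x, Sum.inr_injective hx, rfl⟩
          · rintro ⟨y, hy, hyx⟩
            rw [← Sum.inr_injective hyx]
            exact congrArg Sum.inr hy
      rw [this]
      exact isOpenMap_inr _ (h'.popen u)
  · rintro γ (x | x)
    · exact congrArg Sum.inl (h.pact γ x)
    · exact congrArg Sum.inr (h'.pact γ x)
  · intro γ
    exact Continuous.sumMap (h.act γ) (h'.act γ)
  · exact continuous_sum_dom.mpr ⟨h.jcont.prodMk continuous_const,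
      continuous_const.prodMk h'.jcont⟩
  · rintro (x | x) (x' | x') h1 h2
    · exact congrArg Sum.inl (h.jinj x x' (Sum.inl_injective h1) (congrArg Prod.fst h2))
    · exact absurd h1 Sum.inl_ne_inr
    · exact absurd h1 Sum.inr_ne_inl
    · exact congrArg Sum.inr (h'.jinj x x' (Sum.inr_injective h1) (congrArg Prod.snd h2))
  · rintro (u | u) r
    · have : {x : M ⊕ M' | Sum.map p p' x = Sum.inl u ∧ ‖sumJ j j' x‖ ≤ r} =
          Sum.inl '' {x | p x = u ∧ ‖j x‖ ≤ r} := by
        ext x
        rcases x with x | x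
        · have e : ‖sumJ j j' (Sum.inl x : M ⊕ M')‖ = ‖j x‖ := by
            show ‖((j x, 0) : E × E')‖ = _
            rw [Prod.norm_def, norm_zero]
            exact max_eq_left (norm_nonneg _)
          constructor
          · rintro ⟨h1, h2⟩
            rw [e] at h2
            exact ⟨x, ⟨Sum.inl_injective h1, h2⟩, rfl⟩
          · rintro ⟨y, hy, hyx⟩
            rw [Sum.inl_injective hyx] at hy
            refine ⟨congrArg Sum.inl hy.1, ?_⟩
            rw [e]; exact hy.2
        · constructor
          · rintro ⟨h1, _⟩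
            exact absurd h1 Sum.inr_ne_inl
          · rintro ⟨y, hy, hyx⟩
            exact absurd hyx Sum.inl_ne_inr
      rw [this]
      exact (h.jprop u r).image continuous_inl
    · have : {x : M ⊕ M' | Sum.map p p' x = Sum.inr u ∧ ‖sumJ j j' x‖ ≤ r} =
          Sum.inr '' {x | p' x = u ∧ ‖j' x‖ ≤ r} := by
        ext x
        rcases x with x | x
        · constructor
          · rintro ⟨h1, _⟩
            exact absurd h1 Sum.inl_ne_inr
          · rintro ⟨y, hy, hyx⟩
            exact absurd hyx Sum.inr_ne_inl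
        · have e : ‖sumJ j j' (Sum.inr x : M ⊕ M')‖ = ‖j' x‖ := by
            show ‖((0, j' x) : E × E')‖ = _
            rw [Prod.norm_def, norm_zero]
            exact max_eq_right (norm_nonneg _)
          constructor
          · rintro ⟨h1, h2⟩
            rw [e] at h2
            exact ⟨x, ⟨Sum.inr_injective h1, h2⟩, rfl⟩
          · rintro ⟨y, hy, hyx⟩
            rw [Sum.inr_injective hyx] at hy
            refine ⟨congrArg Sum.inr hy.1, ?_⟩
            rw [e]; exact hy.2
      rw [this]
      exact (h'.jprop u r).image continuous_inr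
  · rintro (u | u)
    · obtain ⟨x0, hx0⟩ : (p ⁻¹' {u}).Nonempty := ae_nonempty (h.ae u)
      have hc : Continuous (Sum.elim id (fun _ => x0) : M ⊕ M' → M) :=
        continuous_sum_dom.mpr ⟨continuous_id, continuous_const⟩
      refine ae_transport (h.ae u) Sum.inl (Sum.elim id (fun _ => x0))
        continuous_inl.continuousOn hc.continuousOn ?_ ?_ ?_
      · intro x hx; exact congrArg Sum.inl hx
      · rintro (x | x) hx
        · exact Sum.inl_injective hx
        · exact absurd hx Sum.inr_ne_inl
      · rintro (x | x) hx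
        · rfl
        · exact absurd hx Sum.inr_ne_inl
    · obtain ⟨x0, hx0⟩ : (p' ⁻¹' {u}).Nonempty := ae_nonempty (h'.ae u)
      have hc : Continuous (Sum.elim (fun _ => x0) id : M ⊕ M' → M') :=
        continuous_sum_dom.mpr ⟨continuous_const, continuous_id⟩
      refine ae_transport (h'.ae u) Sum.inr (Sum.elim (fun _ => x0) id)
        continuous_inr.continuousOn hc.continuousOn ?_ ?_ ?_
      · intro x hx; exact congrArg Sum.inr hx
      · rintro (x | x) hx
        · exact absurd hx Sum.inl_ne_inr
        · exact Sum.inr_injective hx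
      · rintro (x | x) hx
        · exact absurd hx Sum.inl_ne_inr
        · rfl
  · intro C hC
    have h1 : IsCompact (Sum.inl ⁻¹' C : Set M) :=
      Topology.IsClosedEmbedding.inl.isCompact_preimage hC
    have h2 : IsCompact (Sum.inr ⁻¹' C : Set M') :=
      Topology.IsClosedEmbedding.inr.isCompact_preimage hC
    apply ((h.proper _ h1).union (h'.proper _ h2)).subset
    rintro γ ⟨_, ⟨x, hx, rfl⟩, hγ⟩
    rcases x with x | x
    · exact Or.inl ⟨γ • x, ⟨x, hx, rfl⟩, hγ⟩
    · exact Or.inr ⟨γ • x, ⟨x, hx, rfl⟩, hγ⟩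
  · obtain ⟨C, hC, h1⟩ := h.cocpt
    obtain ⟨C', hC', h1'⟩ := h'.cocpt
    refine ⟨Sum.inl '' C ∪ Sum.inr '' C', (hC.image continuous_inl).union
      (hC'.image continuous_inr), ?_⟩
    rintro (x | x)
    · obtain ⟨γ, hγ⟩ := h1 x
      exact ⟨γ, Or.inl ⟨_, hγ, rfl⟩⟩
    · obtain ⟨γ, hγ⟩ := h1' x
      exact ⟨γ, Or.inr ⟨_, hγ, rfl⟩⟩

end

end Run7.h241
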