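import Mathlib
import Pool.Agent.Run7.h241.ZSp
import Pool.Agent.Run7.h241.ZSum
import Pool.Agent.Run7.h241.TSpF
import Pool.Agent.Run7.h241.GT

set_option autoImplicit false

namespace Run7.h241

open Filter Topology H30

theorem Ind.ext_smul {Γ L Y N : Type} [Group Γ] [Group L] {i : L →* Γ} [MulAction L Y]
    [MulAction Γ N] (hi : Function.Injective i) {F : Y → N}
    (hF : ∀ (l : L) y, F (l • y) = i l • F y) (γ : Γ) (x : Ind i Y) :
    Ind.ext F (Ind.smul γ x) = γ • Ind.ext F x := by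
  obtain ⟨γ', y, rfl⟩ := Ind.exists_mk hi x
  rw [Ind.smul_mk hi, Ind.ext_mk hF, Ind.ext_mk hF, mul_smul]

/-- Z-structures from a tree of spaces with one orbit of edges, whose edge group is torsion free
and carries the data of a Z-structure. -/
theorem edge_main {Γ L : Type} [Group Γ] [Group L] {i : L →* Γ} (hi : Function.Injective i)
    (htf : ∀ k : L, IsOfFinOrder k → k = 1) {X0 : Type} [TopologicalSpace X0] [MulAction L X0]
    {E : Type} [NormedAddCommGroup E] [NormedSpace ℝ E] [FiniteDimensional ℝ E]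
    {S : Set E} {p : E → ℝ} {H : E × ℝ → E} {x0 : E} {ι : X0 → E}
    (hP : Push S p H x0) (hK : KSp L S p ι) (hAE : AE (Set.univ : Set X0))
    {V1 M1 E1 : Type} [MulAction Γ V1] [TopologicalSpace M1] [MulAction Γ M1]
    [NormedAddCommGroup E1] [NormedSpace ℝ E1] [FiniteDimensional ℝ E1] {q : M1 → V1}
    {j1 : M1 → E1} (F1 : FSp Γ q j1)
    {nb : Bool → Γ ⧸ i.range → V1} (hT : (bip nb).IsTree)
    (hnb : ∀ b (γ : Γ) v, nb b (γ • v) = γ • nb b v) (hne : ∀ v, nb true v ≠ nb false v)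
    (hfin : ∀ u, {v | ∃ b, nb b v = u}.Finite)
    {g : Bool → X0 → M1} (hgc : ∀ b, Continuous (g b))
    (hg : ∀ b (k : L) (y : X0), g b (k • y) = i k • g b y)
    (hgq : ∀ b (y : X0), q (g b y) = nb b ((1 : Γ) : Γ ⧸ i.range)) :
    HasZStructure Γ := by
  classical
  obtain ⟨t, hroot, htt⟩ := exists_ttree hT hne hfin ((1 : Γ) : Γ ⧸ i.range)
  have AA0 := hK.asp hP.cpt hP.pcont hAE
  haveI : Nonempty X0 := hK.nonempty hP
  letI a0 : MulAction Γ (Ind i X0) := Ind.act hi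
  have F0 := Ind.fsp hi AA0
  haveI : Nonempty (Ind i X0) := ⟨Ind.mk _ 1 (Classical.arbitrary X0)⟩
  let D : TData (Γ ⧸ i.range) V1 (Ind i X0) M1 (E × ℝ) E1 :=
    { t := t
      nb := nb
      p0 := Ind.p
      p1 := q
      j0 := fun x => (ι x.2, 1 / p (ι x.2))
      j1 := j1
      f := fun b => Ind.ext (g b) }
  have hD : TSp Γ D := by
    refine ⟨htt, F0, F1, fun γ b v => hnb b γ v, ?_, ?_, ?_⟩
    · intro b
      exact Ind.ext_cont F1.act (hgc b)
    · intro b γ x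
      exact Ind.ext_smul hi (hg b) γ x
    · intro b x
      obtain ⟨γ, y, rfl⟩ := Ind.exists_mk hi x
      show q (Ind.ext (g b) (Ind.mk i γ y)) = nb b (γ : Γ ⧸ i.range)
      rw [Ind.ext_mk (hg b), F1.pact, hgq, ← hnb]
      congr 1
      show ((γ * 1 : Γ) : Γ ⧸ i.range) = _
      rw [mul_one]
  -- the edge group
  let e : i.range ≃* L := (MonoidHom.ofInjective hi).symm
  letI actS : MulAction i.range X0 := MulAction.compHom X0 e.toMonoidHom
  have hr : (e.toMonoidHom : i.range →* L).range = ⊤ :=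
    MonoidHom.range_eq_top.mpr e.surjective
  haveI : (e.toMonoidHom : i.range →* L).range.FiniteIndex := by rw [hr]; infer_instance
  have KKS : KSp i.range S p ι := hK.res e.toMonoidHom e.injective (fun _ _ => rfl)
  refine tree_main (K := i.range) hD ?_ ?_ hP KKS hAE
  · intro γ
    show γ • t.root = t.root ↔ γ ∈ i.range
    rw [hroot, smul_inl]
    constructor
    · intro h
      have h1 : ((γ * 1 : Γ) : Γ ⧸ i.range) = ((1 : Γ) : Γ ⧸ i.range) :=
        Sum.inl_injective h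
      rw [mul_one, QuotientGroup.eq, mul_one] at h1
      exact i.range.inv_mem_iff.mp h1
    · intro h
      apply congrArg Sum.inl
      show ((γ * 1 : Γ) : Γ ⧸ i.range) = ((1 : Γ) : Γ ⧸ i.range)
      rw [mul_one, QuotientGroup.eq, mul_one]
      exact i.range.inv_mem h
  · intro k hk
    apply e.injective
    rw [map_one]
    exact htf _ (e.toMonoidHom.isOfFinOrder hk)

/-- Amalgams, with abstract groups. -/
theorem amalgam_abs {Γ L0 L1 L2 : Type} [Group Γ] [Group L0] [Group L1] [Group L2]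
    {i0 : L0 →* Γ} {i1 : L1 →* Γ} {i2 : L2 →* Γ} {κ1 : L0 →* L1} {κ2 : L0 →* L2}
    (hi0 : Function.Injective i0) (hi1 : Function.Injective i1) (hi2 : Function.Injective i2)
    (hκ1 : Function.Injective κ1) (hκ2 : Function.Injective κ2)
    [hf1 : κ1.range.FiniteIndex] [hf2 : κ2.range.FiniteIndex]
    (h1 : ∀ k, i1 (κ1 k) = i0 k) (h2 : ∀ k, i2 (κ2 k) = i0 k)
    (htf : ∀ k : L0, IsOfFinOrder k → k = 1) (hZ1 : HasZStructure L1) (hZ2 : HasZStructure L2)
    {nb : Bool → Γ ⧸ i0.range → (Γ ⧸ i1.range) ⊕ (Γ ⧸ i2.range)} (hT : (bip nb).IsTree)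
    (hnb : ∀ b (γ : Γ) v, nb b (γ • v) = γ • nb b v) (hne : ∀ v, nb true v ≠ nb false v)
    (hfin : ∀ u, {v | ∃ b, nb b v = u}.Finite)
    (hnbt : nb true ((1 : Γ) : Γ ⧸ i0.range) = Sum.inl ((1 : Γ) : Γ ⧸ i1.range))
    (hnbf : nb false ((1 : Γ) : Γ ⧸ i0.range) = Sum.inr ((1 : Γ) : Γ ⧸ i2.range)) :
    HasZStructure Γ := by
  classical
  obtain ⟨n1, A1, X1, top1, act1, p1, H1, x1, ι1, P1, K1, ae1⟩ := hZ1.data
  obtain ⟨n2, A2, X2, top2, act2, p2, H2, x2, ι2, P2, K2, ae2⟩ := hZ2.data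
  letI actK1 : MulAction L0 X1 := MulAction.compHom X1 κ1
  letI actK2 : MulAction L0 X2 := MulAction.compHom X2 κ2
  have hsm1 : ∀ (k : L0) (x : X1), k • x = κ1 k • x := fun _ _ => rfl
  have hsm2 : ∀ (k : L0) (x : X2), k • x = κ2 k • x := fun _ _ => rfl
  have KK1 : KSp L0 A1 p1 ι1 := K1.res κ1 hκ1 hsm1
  have KK2 : KSp L0 A2 p2 ι2 := K2.res κ2 hκ2 hsm2
  have AA1 := K1.asp P1.cpt P1.pcont ae1
  have AA2 := K2.asp P2.cpt P2.pcont ae2
  haveI : Nonempty X1 := K1.nonempty P1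
  haveI : Nonempty X2 := K2.nonempty P2
  haveI := KK1.t2
  haveI := KK1.metr
  haveI := KK1.wlc P1.cpt P1.pcont
  haveI := KK1.sigma P1.cpt P1.pcont
  obtain ⟨ψ, hψc, hψ⟩ := equiv_map (K := L0) (Y := X1) (W := X2) (free_of_proper htf KK1.proper)
    KK1.act KK2.act KK1.proper ae2
  letI a1 : MulAction Γ (Ind i1 X1) := Ind.act hi1
  letI a2 : MulAction Γ (Ind i2 X2) := Ind.act hi2
  have F1 := Ind.fsp hi1 AA1
  have F2 := Ind.fsp hi2 AA2
  haveI : Nonempty (Ind i1 X1) := ⟨Ind.mk _ 1 (Classical.arbitrary X1)⟩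
  haveI : Nonempty (Ind i2 X2) := ⟨Ind.mk _ 1 (Classical.arbitrary X2)⟩
  have F3 := FSp.sum F1 F2
  let g : Bool → X1 → Ind i1 X1 ⊕ Ind i2 X2 := fun b =>
    match b with
    | true => fun y => Sum.inl (Ind.mk i1 1 y)
    | false => fun y => Sum.inr (Ind.mk i2 1 (ψ y))
  have hg : ∀ (b : Bool) (k : L0) (y : X1), g b (k • y) = i0 k • g b y := by
    intro b k y
    cases b
    · show Sum.inr (Ind.mk i2 1 (ψ (k • y))) = Sum.inr (Ind.smul (i0 k) (Ind.mk i2 1 (ψ y)))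
      rw [hψ, hsm2, ← Ind.mk_mul hi2, Ind.smul_mk hi2, h2, one_mul, mul_one]
    · show Sum.inl (Ind.mk i1 1 (k • y)) = Sum.inl (Ind.smul (i0 k) (Ind.mk i1 1 y))
      rw [hsm1, ← Ind.mk_mul hi1, Ind.smul_mk hi1, h1, one_mul, mul_one]
  have hgc : ∀ b, Continuous (g b) := by
    intro b
    cases b
    · exact continuous_inr.comp ((Ind.mk_cont K2.act 1).comp hψc)
    · exact continuous_inl.comp (Ind.mk_cont K1.act 1)
  refine edge_main hi0 htf P1 KK1 ae1 F3 hT hnb hne hfin hgc hg ?_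
  intro b y
  cases b
  · rw [hnbf]; rfl
  · rw [hnbt]; rfl

end Run7.h241
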