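import Mathlib
import Pool.Agent.Run7.h241.GT

set_option autoImplicit false

namespace Run7.h241

open Monoid Monoid.PushoutI Monoid.PushoutI.NormalWord Pool.Agent.Helper270

/-- right multiplication on cosets -/
def qm {Γ : Type} [Group Γ] (H1 H2 : Subgroup Γ) (δ : Γ) (h : ∀ k ∈ H1, δ⁻¹ * k * δ ∈ H2) :
    Γ ⧸ H1 → Γ ⧸ H2 :=
  Quotient.lift (fun γ : Γ => ((γ * δ : Γ) : Γ ⧸ H2)) (by
    intro a b hab
    have h1 : (a : Γ ⧸ H1) = (b : Γ ⧸ H1) := Quotient.sound hab
    rw [QuotientGroup.eq] at h1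
    show ((a * δ : Γ) : Γ ⧸ H2) = ((b * δ : Γ) : Γ ⧸ H2)
    rw [QuotientGroup.eq]
    have := h _ h1
    rwa [show (a * δ)⁻¹ * (b * δ) = δ⁻¹ * (a⁻¹ * b) * δ from by group])

theorem qm_mk {Γ : Type} [Group Γ] (H1 H2 : Subgroup Γ) (δ : Γ)
    (h : ∀ k ∈ H1, δ⁻¹ * k * δ ∈ H2) (γ : Γ) :
    qm H1 H2 δ h (γ : Γ ⧸ H1) = ((γ * δ : Γ) : Γ ⧸ H2) := rfl

theorem qm_smul {Γ : Type} [Group Γ] (H1 H2 : Subgroup Γ) (δ : Γ)
    (h : ∀ k ∈ H1, δ⁻¹ * k * δ ∈ H2) (γ : Γ) (c : Γ ⧸ H1) :
    qm H1 H2 δ h (γ • c) = γ • qm H1 H2 δ h c := by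
  induction c using QuotientGroup.induction_on with
  | H z =>
    show ((γ * z * δ : Γ) : Γ ⧸ H2) = ((γ * (z * δ) : Γ) : Γ ⧸ H2)
    rw [mul_assoc]

/-- finitely many cosets lie over a coset -/
theorem qm_fin {Γ : Type} [Group Γ] (H1 H2 : Subgroup Γ) (δ : Γ)
    (h : ∀ k ∈ H1, δ⁻¹ * k * δ ∈ H2) {L : Type} [Group L] (i : L →* Γ)
    (hi : ∀ k ∈ H2, ∃ l, i l = k) (M : Subgroup L) [hM : M.FiniteIndex]
    (hM' : ∀ m ∈ M, δ * i m * δ⁻¹ ∈ H1) (d : Γ ⧸ H2) : {c | qm H1 H2 δ h c = d}.Finite := by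
  haveI : Finite (L ⧸ M) := inferInstance
  apply (Set.finite_range (fun q : L ⧸ M => ((d.out * i q.out * δ⁻¹ : Γ) : Γ ⧸ H1))).subset
  intro c hc
  induction c using QuotientGroup.induction_on with
  | H z =>
    have h1 : ((z * δ : Γ) : Γ ⧸ H2) = d := hc
    rw [← QuotientGroup.out_eq' d, eq_comm, QuotientGroup.eq] at h1
    obtain ⟨l, hl⟩ := hi _ h1
    refine ⟨(l : L ⧸ M), ?_⟩
    show ((d.out * i (l : L ⧸ M).out * δ⁻¹ : Γ) : Γ ⧸ H1) = (z : Γ ⧸ H1)
    rw [QuotientGroup.eq]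
    have h2 : ((l : L ⧸ M).out)⁻¹ * l ∈ M := by
      have : (((l : L ⧸ M).out : L) : L ⧸ M) = (l : L ⧸ M) := QuotientGroup.out_eq' _
      rwa [QuotientGroup.eq] at this
    have h3 := hM' _ h2
    rw [map_mul, hl, map_inv] at h3
    rwa [show (d.out * i (l : L ⧸ M).out * δ⁻¹)⁻¹ * z =
      δ * ((i (l : L ⧸ M).out)⁻¹ * (d.out⁻¹ * (z * δ))) * δ⁻¹ from by group]

section

variable {K : Type} [Group K] {G : Bool → Type} [∀ b, Group (G b)] {φ : ∀ b, K →* G b}

/-- The edge group. -/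
abbrev KS (φ : ∀ b, K →* G b) : Subgroup (PushoutI φ) := (base φ).range

/-- The vertex groups. -/
abbrev GS (φ : ∀ b, K →* G b) (b : Bool) : Subgroup (PushoutI φ) := (of (φ := φ) b).range

theorem KS_le (b : Bool) : ∀ k ∈ KS φ, (1 : PushoutI φ)⁻¹ * k * 1 ∈ GS φ b := by
  rintro _ ⟨k, rfl⟩
  exact ⟨φ b k, by rw [of_apply_eq_base, inv_one, one_mul, mul_one]⟩

/-- The neighbours of an edge. -/
def nbP (φ : ∀ b, K →* G b) (b : Bool) (c : PushoutI φ ⧸ KS φ) :
    (PushoutI φ ⧸ GS φ true) ⊕ (PushoutI φ ⧸ GS φ false) :=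
  match b with
  | true => Sum.inl (qm _ _ 1 (KS_le true) c)
  | false => Sum.inr (qm _ _ 1 (KS_le false) c)

/-- a vertex -/
def vP (φ : ∀ b, K →* G b) (b : Bool) (γ : PushoutI φ) :
    (PushoutI φ ⧸ GS φ true) ⊕ (PushoutI φ ⧸ GS φ false) :=
  match b with
  | true => Sum.inl (γ : PushoutI φ ⧸ GS φ true)
  | false => Sum.inr (γ : PushoutI φ ⧸ GS φ false)

theorem nbP_mk (b : Bool) (γ : PushoutI φ) :
    nbP φ b (γ : PushoutI φ ⧸ KS φ) = vP φ b γ := by
  cases b
  · show Sum.inr ((γ * 1 : PushoutI φ) : PushoutI φ ⧸ GS φ false) = _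
    rw [mul_one]; rfl
  · show Sum.inl ((γ * 1 : PushoutI φ) : PushoutI φ ⧸ GS φ true) = _
    rw [mul_one]; rfl

variable (d : Transversal φ)

open Classical in
/-- the normal form of the inverse -/
noncomputable def wn (γ : PushoutI φ) : NormalWord d := γ⁻¹ • (empty : NormalWord d)

open Classical in
/-- the tail with respect to an index -/
noncomputable def tl (b : Bool) (w : NormalWord d) : CoprodI.Word G := (equivPair b w).tail

theorem wn_prod (γ : PushoutI φ) : (wn d γ).prod = γ⁻¹ := by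
  classical
  unfold wn
  rw [prod_smul, prod_empty, mul_one]

theorem wn_list (γ : PushoutI φ) (k : K) :
    (wn d (γ * base φ k)).toWord = (wn d γ).toWord := by
  classical
  unfold wn
  rw [mul_inv_rev, mul_smul, ← map_inv, base_smul_def]

theorem tl_inv (b : Bool) (γ : PushoutI φ) (g : G b) :
    tl d b (wn d (γ * of b g)) = tl d b (wn d γ) := by
  classical
  unfold wn tl
  rw [mul_inv_rev, mul_smul, ← map_inv, summand_smul_def, Equiv.apply_symm_apply]

/-- a normal word is its tail, possibly with one more letter -/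
theorem tl_cases (b : Bool) (w : NormalWord d) :
    ((w.toWord.fstIdx ≠ some b ∧ w.toWord = tl d b w) ∨
      (w.toWord.fstIdx = some b ∧ w.toWord.toList.length = (tl d b w).toList.length + 1)) ∧
    ∃ g : G b, w.prod = of b g * ofCoprodI (tl d b w).prod := by
  classical
  have e : w = (equivPair b).symm (equivPair b w) := (Equiv.symm_apply_apply _ _).symm
  set p := equivPair b w with hp
  have htl : tl d b w = p.tail := rfl
  rw [htl]
  have e' : w = rcons b p := e
  have hw : w.toWord = CoprodI.Word.rcons { p.toPair with head := ((d.compl b).equiv p.head).2.1 } := by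
    rw [e']; rfl
  have hh : w.head = (MonoidHom.ofInjective (d.injective b)).symm ((d.compl b).equiv p.head).1 := by
    rw [e']; rfl
  constructor
  · by_cases h1 : (((d.compl b).equiv p.head).2.1 : G b) = 1
    · left
      have h2 : w.toWord = p.tail := by
        rw [hw, CoprodI.Word.rcons, dif_pos h1]
      exact ⟨by rw [h2]; exact p.fstIdx_ne, h2⟩
    · right
      have h2 : w.toWord = CoprodI.Word.cons ((d.compl b).equiv p.head).2.1 p.tail p.fstIdx_ne
          h1 := by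
        rw [hw, CoprodI.Word.rcons, dif_neg h1]
      refine ⟨by rw [h2]; exact CoprodI.Word.fstIdx_cons _ _ _ _, by rw [h2]; rfl⟩
  · refine ⟨φ b w.head * ((d.compl b).equiv p.head).2.1, ?_⟩
    show base φ w.head * ofCoprodI w.toWord.prod = _
    rw [hw, CoprodI.Word.prod_rcons, map_mul, ofCoprodI_of, map_mul, of_apply_eq_base, mul_assoc]

/-- the element attached to a tail -/
noncomputable def te (b : Bool) (γ : PushoutI φ) : PushoutI φ :=
  (ofCoprodI (tl d b (wn d γ)).prod)⁻¹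

theorem te_inv (b : Bool) (γ : PushoutI φ) (g : G b) : te d b (γ * of b g) = te d b γ := by
  unfold te; rw [tl_inv]

theorem wn_te (b : Bool) (γ : PushoutI φ) : (wn d (te d b γ)).toWord = tl d b (wn d γ) := by
  classical
  let w' : NormalWord d := ⟨tl d b (wn d γ), 1, (equivPair b (wn d γ)).normalized⟩
  have h1 : w'.prod = ofCoprodI (tl d b (wn d γ)).prod := by
    show base φ 1 * ofCoprodI (tl d b (wn d γ)).prod = _
    rw [map_one, one_mul]
  have h2 : wn d (te d b γ) = w' := by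
    unfold wn te
    rw [inv_inv, ← h1]
    exact prod_smul_empty w'
  rw [h2]

theorem te_vP (b : Bool) (γ : PushoutI φ) : vP φ b (te d b γ) = vP φ b γ := by
  obtain ⟨-, g, hg⟩ := tl_cases d b (wn d γ)
  rw [wn_prod] at hg
  have h1 : γ = te d b γ * of b g⁻¹ := by
    unfold te
    rw [map_inv, ← mul_inv_rev, ← hg, inv_inv]
  have h2 : vP φ b (te d b γ * of b g⁻¹) = vP φ b (te d b γ) := by
    cases b
    · show Sum.inr _ = Sum.inr _
      congr 1
      rw [eq_comm, QuotientGroup.eq]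
      exact ⟨g⁻¹, by group⟩
    · show Sum.inl _ = Sum.inl _
      congr 1
      rw [eq_comm, QuotientGroup.eq]
      exact ⟨g⁻¹, by group⟩
  rw [← h2, ← h1]

/-- the edge of a normal word -/
theorem te_edge (b : Bool) (γ : PushoutI φ) (h : (wn d γ).toWord.fstIdx ≠ some b) :
    ((te d b γ : PushoutI φ) : PushoutI φ ⧸ KS φ) = (γ : PushoutI φ ⧸ KS φ) := by
  obtain ⟨h1 | h1, -⟩ := tl_cases d b (wn d γ)
  · have h2 : γ⁻¹ = base φ (wn d γ).head * (te d b γ)⁻¹ := by
      unfold te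
      rw [inv_inv, ← wn_prod d γ, ← h1.2]
      rfl
    rw [QuotientGroup.eq]
    refine ⟨(wn d γ).head⁻¹, ?_⟩
    have h3 : γ = te d b γ * (base φ (wn d γ).head)⁻¹ := by
      rw [← inv_inj, h2]; group
    rw [map_inv, eq_comm, inv_mul_eq_iff_eq_mul]
    exact h3
  · exact absurd h1.1 h

/-- parent function -/
noncomputable def parP : (PushoutI φ ⧸ KS φ) ⊕
    ((PushoutI φ ⧸ GS φ true) ⊕ (PushoutI φ ⧸ GS φ false)) →
    (PushoutI φ ⧸ KS φ) ⊕ ((PushoutI φ ⧸ GS φ true) ⊕ (PushoutI φ ⧸ GS φ false))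
  | Sum.inl c => match (wn d c.out).toWord.fstIdx with
    | none => Sum.inl c
    | some b => Sum.inr (nbP φ b c)
  | Sum.inr (Sum.inl c) => Sum.inl ((te d true c.out : PushoutI φ) : PushoutI φ ⧸ KS φ)
  | Sum.inr (Sum.inr c) => Sum.inl ((te d false c.out : PushoutI φ) : PushoutI φ ⧸ KS φ)

/-- level function -/
noncomputable def levP : (PushoutI φ ⧸ KS φ) ⊕
    ((PushoutI φ ⧸ GS φ true) ⊕ (PushoutI φ ⧸ GS φ false)) → ℕ
  | Sum.inl c => 2 * (wn d c.out).toWord.toList.length
  | Sum.inr (Sum.inl c) => 2 * (tl d true (wn d c.out)).toList.length + 1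
  | Sum.inr (Sum.inr c) => 2 * (tl d false (wn d c.out)).toList.length + 1

theorem out_KS (γ : PushoutI φ) : ∃ k, (γ : PushoutI φ ⧸ KS φ).out = γ * base φ k := by
  have h : (((γ : PushoutI φ ⧸ KS φ).out : PushoutI φ) : PushoutI φ ⧸ KS φ) = (γ : _) :=
    QuotientGroup.out_eq' _
  rw [eq_comm, QuotientGroup.eq] at h
  obtain ⟨k, hk⟩ := h
  exact ⟨k, by rw [hk]; group⟩

theorem out_GS (b : Bool) (γ : PushoutI φ) : ∃ g, (γ : PushoutI φ ⧸ GS φ b).out = γ * of b g := by
  have h : (((γ : PushoutI φ ⧸ GS φ b).out : PushoutI φ) : PushoutI φ ⧸ GS φ b) = (γ : _) :=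
    QuotientGroup.out_eq' _
  rw [eq_comm, QuotientGroup.eq] at h
  obtain ⟨k, hk⟩ := h
  exact ⟨k, by rw [hk]; group⟩

theorem wn_out (γ : PushoutI φ) :
    (wn d (γ : PushoutI φ ⧸ KS φ).out).toWord = (wn d γ).toWord := by
  obtain ⟨k, hk⟩ := out_KS γ
  rw [hk, wn_list]

theorem parP_some {γ : PushoutI φ} {b : Bool} (h : (wn d γ).toWord.fstIdx = some b) :
    parP d (Sum.inl (γ : PushoutI φ ⧸ KS φ)) = Sum.inr (vP φ b γ) := by
  show (match (wn d (γ : PushoutI φ ⧸ KS φ).out).toWord.fstIdx with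
    | none => Sum.inl (γ : PushoutI φ ⧸ KS φ)
    | some b => Sum.inr (nbP φ b (γ : PushoutI φ ⧸ KS φ))) = _
  rw [wn_out, h, ← nbP_mk]

theorem parP_vP (b : Bool) (γ : PushoutI φ) :
    parP d (Sum.inr (vP φ b γ)) = Sum.inl ((te d b γ : PushoutI φ) : PushoutI φ ⧸ KS φ) := by
  cases b
  · show Sum.inl ((te d false (γ : PushoutI φ ⧸ GS φ false).out : PushoutI φ) :
      PushoutI φ ⧸ KS φ) = _
    obtain ⟨g, hg⟩ := out_GS false γ
    rw [hg, te_inv]
  · show Sum.inl ((te d true (γ : PushoutI φ ⧸ GS φ true).out : PushoutI φ) :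
      PushoutI φ ⧸ KS φ) = _
    obtain ⟨g, hg⟩ := out_GS true γ
    rw [hg, te_inv]

theorem levP_inl (γ : PushoutI φ) :
    levP d (Sum.inl (γ : PushoutI φ ⧸ KS φ)) = 2 * (wn d γ).toWord.toList.length := by
  show 2 * (wn d (γ : PushoutI φ ⧸ KS φ).out).toWord.toList.length = _
  rw [wn_out]

theorem levP_vP (b : Bool) (γ : PushoutI φ) :
    levP d (Sum.inr (vP φ b γ)) = 2 * (tl d b (wn d γ)).toList.length + 1 := by
  cases b
  · show 2 * (tl d false (wn d (γ : PushoutI φ ⧸ GS φ false).out)).toList.length + 1 = _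
    obtain ⟨g, hg⟩ := out_GS false γ
    rw [hg, tl_inv]
  · show 2 * (tl d true (wn d (γ : PushoutI φ ⧸ GS φ true).out)).toList.length + 1 = _
    obtain ⟨g, hg⟩ := out_GS true γ
    rw [hg, tl_inv]

theorem exists_vP (u : (PushoutI φ ⧸ GS φ true) ⊕ (PushoutI φ ⧸ GS φ false)) :
    ∃ b γ, u = vP φ b γ := by
  rcases u with c | c
  · exact ⟨true, c.out, by show _ = Sum.inl _; rw [QuotientGroup.out_eq']⟩
  · exact ⟨false, c.out, by show _ = Sum.inr _; rw [QuotientGroup.out_eq']⟩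

theorem wn_one : (wn d (1 : PushoutI φ)).toWord.toList = [] := by
  classical
  unfold wn
  rw [inv_one, one_smul]
  rfl

theorem wn_none {γ : PushoutI φ} (h : (wn d γ).toWord.fstIdx = none) :
    (γ : PushoutI φ ⧸ KS φ) = ((1 : PushoutI φ) : PushoutI φ ⧸ KS φ) := by
  have h1 : (wn d γ).toWord.toList = [] := by
    unfold CoprodI.Word.fstIdx at h
    rw [Option.map_eq_none_iff] at h
    exact List.head?_eq_none_iff.mp h
  have h2 := wn_prod d γ
  have h3 : (wn d γ).prod = base φ (wn d γ).head := by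
    show base φ (wn d γ).head * ofCoprodI (wn d γ).toWord.prod = _
    have : (wn d γ).toWord = CoprodI.Word.empty := CoprodI.Word.ext h1
    rw [this, CoprodI.Word.prod_empty, map_one, mul_one]
  rw [h3] at h2
  rw [QuotientGroup.eq]
  exact ⟨(wn d γ).head, by rw [h2]; group⟩

include d in
theorem bipP_tree : (bip (nbP φ)).IsTree := by
  refine HNN.isTree_of_parent (par := parP d) (o := Sum.inl ((1 : PushoutI φ) : PushoutI φ ⧸ KS φ))
    (levP d) ?_ ?_ ?_
  · rintro (c | u) hc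
    · induction c using QuotientGroup.induction_on with
      | H γ =>
        cases h : (wn d γ).toWord.fstIdx with
        | none => exact absurd (congrArg Sum.inl (wn_none d h)) hc
        | some b =>
          rw [parP_some d h, ← nbP_mk]
          exact bip_adj _ _ _
    · obtain ⟨b, γ, rfl⟩ := exists_vP u
      rw [parP_vP, ← te_vP d b γ, ← nbP_mk]
      exact (bip_adj _ _ _).symm
  · rintro (c | u) hc
    · induction c using QuotientGroup.induction_on with
      | H γ =>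
        cases h : (wn d γ).toWord.fstIdx with
        | none => exact absurd (congrArg Sum.inl (wn_none d h)) hc
        | some b =>
          rw [parP_some d h, levP_vP, levP_inl]
          obtain ⟨h1 | h1, -⟩ := tl_cases d b (wn d γ)
          · exact absurd h h1.1
          · omega
    · obtain ⟨b, γ, rfl⟩ := exists_vP u
      rw [parP_vP, levP_vP, levP_inl, wn_te]
      omega
  · have key : ∀ b (c : PushoutI φ ⧸ KS φ),
        ((Sum.inl c : (PushoutI φ ⧸ KS φ) ⊕
          ((PushoutI φ ⧸ GS φ true) ⊕ (PushoutI φ ⧸ GS φ false))) ≠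
          Sum.inl ((1 : PushoutI φ) : PushoutI φ ⧸ KS φ) ∧
          parP d (Sum.inl c) = Sum.inr (nbP φ b c)) ∨
        ((Sum.inr (nbP φ b c) : (PushoutI φ ⧸ KS φ) ⊕
          ((PushoutI φ ⧸ GS φ true) ⊕ (PushoutI φ ⧸ GS φ false))) ≠
          Sum.inl ((1 : PushoutI φ) : PushoutI φ ⧸ KS φ) ∧
          parP d (Sum.inr (nbP φ b c)) = Sum.inl c) := by
      intro b c
      induction c using QuotientGroup.induction_on with
      | H γ =>
        rw [nbP_mk]
        by_cases h : (wn d γ).toWord.fstIdx = some b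
        · left
          refine ⟨?_, parP_some d h⟩
          intro he
          have he' := Sum.inl_injective he
          have h1 := levP_inl d γ
          have h2 := levP_inl d (1 : PushoutI φ)
          rw [he', h2, wn_one] at h1
          have h3 : (wn d γ).toWord.toList = [] := by
            apply List.eq_nil_of_length_eq_zero
            simp only [List.length_nil, mul_zero] at h1
            omega
          unfold CoprodI.Word.fstIdx at h
          rw [h3] at h
          simp at h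
        · right
          exact ⟨Sum.inr_ne_inl, by rw [parP_vP, te_edge d b γ h]⟩
    rintro x y ⟨b, c, ⟨rfl, rfl⟩ | ⟨rfl, rfl⟩⟩
    · exact key b c
    · exact (key b c).symm

end

end Run7.h241
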