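import Mathlib
import Pool.Agent.Run7.h241.Edge
import Pool.Agent.Run7.h241.PTree

set_option autoImplicit false

namespace Run7.h241

open Filter Topology H30 Monoid Monoid.PushoutI Monoid.PushoutI.NormalWord

section

variable {K : Type} [Group K] {G : Bool → Type} [∀ b, Group (G b)] {φ : ∀ b, K →* G b}

theorem nbP_smul (b : Bool) (γ : PushoutI φ) (v : PushoutI φ ⧸ KS φ) :
    nbP φ b (γ • v) = γ • nbP φ b v := by
  cases b
  · exact congrArg Sum.inr (qm_smul _ _ _ _ γ v)
  · exact congrArg Sum.inl (qm_smul _ _ _ _ γ v)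

theorem nbP_ne (v : PushoutI φ ⧸ KS φ) : nbP φ true v ≠ nbP φ false v :=
  Sum.inl_ne_inr

theorem nbP_fin [∀ b, (φ b).range.FiniteIndex]
    (u : (PushoutI φ ⧸ GS φ true) ⊕ (PushoutI φ ⧸ GS φ false)) :
    {v | ∃ b, nbP φ b v = u}.Finite := by
  have key : ∀ b, ∀ m ∈ (φ b).range, (1 : PushoutI φ) * of b m * 1⁻¹ ∈ KS φ := by
    rintro b _ ⟨k, rfl⟩
    exact ⟨k, by rw [of_apply_eq_base, inv_one, one_mul, mul_one]⟩
  rcases u with u | u
  · apply (qm_fin (KS φ) (GS φ true) 1 (KS_le true) (of true) (fun _ h => h) (φ true).range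
      (key true) u).subset
    rintro v ⟨b, hb⟩
    cases b
    · exact absurd hb Sum.inr_ne_inl
    · exact Sum.inl_injective hb
  · apply (qm_fin (KS φ) (GS φ false) 1 (KS_le false) (of false) (fun _ h => h) (φ false).range
      (key false) u).subset
    rintro v ⟨b, hb⟩
    cases b
    · exact Sum.inr_injective hb
    · exact absurd hb Sum.inl_ne_inr

end

/-- Z-structures on amalgamated products over subgroups of finite index. -/
theorem amalgam {K : Type} [Group K] {G : Bool → Type} [∀ b, Group (G b)] (φ : ∀ b, K →* G b)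
    (hφ : ∀ b, Function.Injective (φ b)) (hfi : ∀ b, (φ b).range.FiniteIndex)
    (htf : ∀ k : K, IsOfFinOrder k → k = 1) (hZ : ∀ b, HasZStructure (G b)) :
    HasZStructure (PushoutI φ) := by
  haveI := hfi
  obtain ⟨d⟩ := transversal_nonempty φ hφ
  exact amalgam_abs (i0 := base φ) (i1 := of (φ := φ) true) (i2 := of (φ := φ) false)
    (κ1 := φ true) (κ2 := φ false)
    (base_injective hφ) (of_injective hφ true) (of_injective hφ false) (hφ true) (hφ false)
    (fun k => of_apply_eq_base φ true k) (fun k => of_apply_eq_base φ false k) htf (hZ true)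
    (hZ false) (nb := nbP φ) (bipP_tree d) (fun b γ v => nbP_smul b γ v) nbP_ne nbP_fin
    (nbP_mk true 1) (nbP_mk false 1)

end Run7.h241
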