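import Mathlib
import Pool.Agent.Run7.h241.Edge
import Pool.Agent.Run7.h241.PTree

set_option autoImplicit false

namespace Run7.h241

open Filter Topology H30

/-- A twisted equivariant map. -/
theorem exists_tw {L G1 G2 : Type} [Group L] [Group G1] [Group G2] {X Y E E' : Type}
    [TopologicalSpace X] [TopologicalSpace Y] [MulAction G1 X] [MulAction G2 Y]
    [NormedAddCommGroup E] [NormedSpace ℝ E] [FiniteDimensional ℝ E]
    [NormedAddCommGroup E'] [NormedSpace ℝ E'] [FiniteDimensional ℝ E']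
    {S : Set E} {p : E → ℝ} {H : E × ℝ → E} {x0 : E} {ι : X → E} (hP : Push S p H x0)
    (hK : KSp G1 S p ι)
    {S' : Set E'} {p' : E' → ℝ} {H' : E' × ℝ → E'} {x0' : E'} {ι' : Y → E'}
    (hP' : Push S' p' H' x0') (hK' : KSp G2 S' p' ι') (ae : AE (Set.univ : Set Y))
    (κ1 : L →* G1) (κ2 : L →* G2) (hκ1 : Function.Injective κ1) (hκ2 : Function.Injective κ2)
    [hf1 : κ1.range.FiniteIndex] [hf2 : κ2.range.FiniteIndex]
    (htf : ∀ k : L, IsOfFinOrder k → k = 1) :
    ∃ ψ : X → Y, Continuous ψ ∧ ∀ l y, ψ (κ1 l • y) = κ2 l • ψ y := by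
  letI actK1 : MulAction L X := MulAction.compHom X κ1
  letI actK2 : MulAction L Y := MulAction.compHom Y κ2
  have KK1 : KSp L S p ι := hK.res κ1 hκ1 (fun _ _ => rfl)
  have KK2 : KSp L S' p' ι' := hK'.res κ2 hκ2 (fun _ _ => rfl)
  haveI : Nonempty X := hK.nonempty hP
  haveI : Nonempty Y := hK'.nonempty hP'
  haveI := KK1.t2
  haveI := KK1.metr
  haveI := KK1.wlc hP.cpt hP.pcont
  haveI := KK1.sigma hP.cpt hP.pcont
  exact equiv_map (K := L) (Y := X) (W := Y) (free_of_proper htf KK1.proper)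
    KK1.act KK2.act KK1.proper ae

/-- HNN extensions, with abstract groups. -/
theorem hnn_abs {Γ L0 L1 : Type} [Group Γ] [Group L0] [Group L1]
    {i0 : L0 →* Γ} {i1 : L1 →* Γ} {κ1 κ2 : L0 →* L1} {τ : Γ}
    (hi0 : Function.Injective i0) (hi1 : Function.Injective i1)
    (hκ1 : Function.Injective κ1) (hκ2 : Function.Injective κ2)
    [hf1 : κ1.range.FiniteIndex] [hf2 : κ2.range.FiniteIndex]
    (h1 : ∀ k, i1 (κ1 k) = i0 k) (h2 : ∀ k, τ * i1 (κ2 k) = i0 k * τ)
    (htf : ∀ k : L0, IsOfFinOrder k → k = 1) (hZ1 : HasZStructure L1)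
    {nb : Bool → Γ ⧸ i0.range → Γ ⧸ i1.range} (hT : (bip nb).IsTree)
    (hnb : ∀ b (γ : Γ) v, nb b (γ • v) = γ • nb b v) (hne : ∀ v, nb true v ≠ nb false v)
    (hfin : ∀ u, {v | ∃ b, nb b v = u}.Finite)
    (hnbt : nb true ((1 : Γ) : Γ ⧸ i0.range) = ((1 : Γ) : Γ ⧸ i1.range))
    (hnbf : nb false ((1 : Γ) : Γ ⧸ i0.range) = ((τ : Γ) : Γ ⧸ i1.range)) :
    HasZStructure Γ := by
  classical
  obtain ⟨n1, A1, X1, top1, act1, p1, H1, x1, ι1, P1, K1, ae1⟩ := hZ1.data
  obtain ⟨ψ, hψc, hψ⟩ := exists_tw P1 K1 P1 K1 ae1 κ1 κ2 hκ1 hκ2 htf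
  letI actK1 : MulAction L0 X1 := MulAction.compHom X1 κ1
  have hsm1 : ∀ (k : L0) (x : X1), k • x = κ1 k • x := fun _ _ => rfl
  have KK1 : KSp L0 A1 p1 ι1 := K1.res κ1 hκ1 hsm1
  have AA1 := K1.asp P1.cpt P1.pcont ae1
  haveI : Nonempty X1 := K1.nonempty P1
  letI a1 : MulAction Γ (Ind i1 X1) := Ind.act hi1
  have F1 := Ind.fsp hi1 AA1
  let g : Bool → X1 → Ind i1 X1 := fun b =>
    match b with
    | true => fun y => Ind.mk i1 1 y
    | false => fun y => Ind.mk i1 τ (ψ y)
  have hg : ∀ (b : Bool) (k : L0) (y : X1), g b (k • y) = i0 k • g b y := by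
    intro b k y
    cases b
    · show Ind.mk i1 τ (ψ (k • y)) = Ind.smul (i0 k) (Ind.mk i1 τ (ψ y))
      rw [hsm1, hψ, ← Ind.mk_mul hi1, Ind.smul_mk hi1, h2]
    · show Ind.mk i1 1 (k • y) = Ind.smul (i0 k) (Ind.mk i1 1 y)
      rw [hsm1, ← Ind.mk_mul hi1, Ind.smul_mk hi1, h1, one_mul, mul_one]
  have hgc : ∀ b, Continuous (g b) := by
    intro b
    cases b
    · exact (Ind.mk_cont K1.act τ).comp hψc
    · exact Ind.mk_cont K1.act 1
  refine edge_main hi0 htf P1 KK1 ae1 F1 hT hnb hne hfin hgc hg ?_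
  intro b y
  cases b
  · rw [hnbf]; rfl
  · rw [hnbt]; rfl

section

open HNNExtension Pool.Agent.Helper270.HNN

variable {G : Type} [Group G] {A B : Subgroup G} {φ : A ≃* B}

/-- the edge group of an HNN extension -/
def eH (φ : A ≃* B) : B →* HNNExtension G A B φ := of.comp B.subtype

theorem eH_le_one : ∀ k ∈ (eH φ).range, (1 : HNNExtension G A B φ)⁻¹ * k * 1 ∈
    (of.range : Subgroup (HNNExtension G A B φ)) := by
  rintro _ ⟨b, rfl⟩
  exact ⟨b, by rw [inv_one, one_mul, mul_one]; rfl⟩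

theorem eH_le_t : ∀ k ∈ (eH φ).range, (t : HNNExtension G A B φ)⁻¹ * k * t ∈
    (of.range : Subgroup (HNNExtension G A B φ)) := by
  rintro _ ⟨b, rfl⟩
  exact ⟨φ.symm b, equiv_symm_eq_conj b⟩

/-- the ends of an edge -/
def nbH (φ : A ≃* B) (b : Bool) (c : HNNExtension G A B φ ⧸ (eH φ).range) : Vert φ :=
  match b with
  | true => qm _ _ 1 eH_le_one c
  | false => qm _ _ t eH_le_t c

theorem nbH_true (γ : HNNExtension G A B φ) :
    nbH φ true (γ : HNNExtension G A B φ ⧸ (eH φ).range) = vt γ := by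
  show vt (γ * 1) = vt γ
  rw [mul_one]

theorem nbH_false (γ : HNNExtension G A B φ) :
    nbH φ false (γ : HNNExtension G A B φ ⧸ (eH φ).range) = vt (γ * t) := rfl

theorem nbH_smul (b : Bool) (γ : HNNExtension G A B φ)
    (v : HNNExtension G A B φ ⧸ (eH φ).range) : nbH φ b (γ • v) = γ • nbH φ b v := by
  cases b
  · exact qm_smul _ _ _ eH_le_t γ v
  · exact qm_smul _ _ _ eH_le_one γ v

theorem nbH_ne (v : HNNExtension G A B φ ⧸ (eH φ).range) : nbH φ true v ≠ nbH φ false v := by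
  induction v using QuotientGroup.induction_on with
  | H γ =>
    rw [nbH_true, nbH_false]
    exact vt_ne γ

theorem nbH_fin [hA : A.FiniteIndex] [hB : B.FiniteIndex] (u : Vert φ) :
    {v | ∃ b, nbH φ b v = u}.Finite := by
  have h1 := qm_fin (eH φ).range (of.range : Subgroup (HNNExtension G A B φ)) 1 eH_le_one of
    (fun _ h => h) B (fun m hm => ⟨⟨m, hm⟩, by rw [inv_one, one_mul, mul_one]; rfl⟩) u
  have h2 := qm_fin (eH φ).range (of.range : Subgroup (HNNExtension G A B φ)) t eH_le_t of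
    (fun _ h => h) A (fun m hm => ⟨φ ⟨m, hm⟩, equiv_eq_conj ⟨m, hm⟩⟩) u
  apply (h1.union h2).subset
  rintro v ⟨b, hb⟩
  cases b
  · exact Or.inr hb
  · exact Or.inl hb

theorem nbH_tree : (bip (nbH φ)).IsTree := by
  refine bip_tree (T := graph φ) Pool.Agent.Helper270.HNN.isTree (vt 1) ?_ ?_ ?_
  · intro v
    induction v using QuotientGroup.induction_on with
    | H γ =>
      rw [nbH_true, nbH_false]
      exact adj_vt γ
  · intro u u' h
    obtain ⟨γ, hγ⟩ := adj_iff.mp h
    refine ⟨(γ : HNNExtension G A B φ ⧸ (eH φ).range), ?_⟩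
    rw [nbH_true, nbH_false]
    exact hγ
  · intro v v' h
    induction v using QuotientGroup.induction_on with
    | H γ =>
      induction v' using QuotientGroup.induction_on with
      | H δ =>
        rw [nbH_true, nbH_false, nbH_true, nbH_false] at h
        rcases h with ⟨h1, h2⟩ | ⟨h1, h2⟩
        · obtain ⟨x, rfl⟩ := vt_eq_iff.mp h1
          obtain ⟨y, hy⟩ := vt_eq_iff.mp h2
          have hx : x ∈ B := by
            rw [← conj_t (φ := φ) x]
            refine ⟨y, ?_⟩
            have h3 : t * of y = of x * (t : HNNExtension G A B φ) := by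
              have h4 : γ * (t * of y) = γ * (of x * t) := by
                rw [← mul_assoc, ← mul_assoc]; exact hy
              exact mul_left_cancel h4
            rw [mul_assoc, ← h3, inv_mul_cancel_left]
          rw [QuotientGroup.eq]
          exact ⟨⟨x, hx⟩, by rw [inv_mul_cancel_left]; rfl⟩
        · exfalso
          have h3 := congrArg lvl h1
          have h4 := congrArg lvl h2
          rw [lvl_vt, lvl_vt, map_mul, expo_t] at h3 h4
          rw [h3, mul_assoc, mul_eq_left] at h4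
          have h5 : (1 : ℤ) + 1 = 0 := congrArg Multiplicative.toAdd h4
          omega

/-- Z-structures on HNN extensions over subgroups of finite index. -/
theorem hnn {G : Type} [Group G] (A B : Subgroup G) (φ : A ≃* B) [A.FiniteIndex] [B.FiniteIndex]
    (htf : ∀ k : A, IsOfFinOrder k → k = 1) (hZ : HasZStructure G) :
    HasZStructure (HNNExtension G A B φ) := by
  have htf' : ∀ k : B, IsOfFinOrder k → k = 1 := by
    intro k hk
    apply φ.symm.injective
    rw [map_one]
    exact htf _ (φ.symm.toMonoidHom.isOfFinOrder hk)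
  have hr1 : B.subtype.range = B := B.range_subtype
  have hr2 : (A.subtype.comp φ.symm.toMonoidHom).range = A := by
    ext x
    constructor
    · rintro ⟨k, rfl⟩; exact (φ.symm k).2
    · intro hx; exact ⟨φ ⟨x, hx⟩, congrArg Subtype.val (φ.symm_apply_apply ⟨x, hx⟩)⟩
  haveI : B.subtype.range.FiniteIndex := by rw [hr1]; infer_instance
  haveI : (A.subtype.comp φ.symm.toMonoidHom).range.FiniteIndex := by rw [hr2]; infer_instance
  have hi1 : Function.Injective (of : G → HNNExtension G A B φ) := of_injective φ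
  exact hnn_abs (i0 := eH φ) (i1 := (of : G →* HNNExtension G A B φ)) (κ1 := B.subtype)
    (κ2 := A.subtype.comp φ.symm.toMonoidHom) (τ := t)
    (hi1.comp Subtype.val_injective) hi1 Subtype.val_injective
    (Subtype.val_injective.comp φ.symm.injective) (fun _ => rfl)
    (fun k => (of_mul_t k).symm) htf' hZ (nb := nbH φ) nbH_tree (fun b γ v => nbH_smul b γ v)
    nbH_ne nbH_fin (nbH_true 1) (by rw [nbH_false, one_mul])

end

end Run7.h241
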