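import Mathlib

/-!
# The words `u_r` and local finiteness

`u_0 = x_0` and `u_{r+1} = [u_r, x_{r+1} u_r x_{r+1}⁻¹]`.  A torsion group satisfying the law `u_s = 1`
has a normal series of length `s` the factors of which are generated by normal abelian subgroups; so
it is locally finite.
-/

set_option autoImplicit false

namespace Run7.h241.Bu

open Subgroup
open scoped commutatorElement

universe u

/-- `u_0 = x_0` and `u_{r+1} = [u_r, x_{r+1} u_r x_{r+1}⁻¹]`. -/
def wd {G : Type*} [Group G] (x : ℕ → G) : ℕ → G
  | 0 => x 0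
  | r + 1 => ⁅wd x r, x (r + 1) * wd x r * (x (r + 1))⁻¹⁆

theorem wd_congr {G : Type*} [Group G] {x y : ℕ → G} {r : ℕ} (h : ∀ i ≤ r, x i = y i) :
    wd x r = wd y r := by
  induction r with
  | zero => exact h 0 le_rfl
  | succ r ih =>
    simp only [wd]
    rw [ih fun i hi => h i (by omega), h (r + 1) le_rfl]

theorem map_wd {G H : Type*} [Group G] [Group H] (f : G →* H) (x : ℕ → G) (r : ℕ) :
    f (wd x r) = wd (fun i => f (x i)) r := by
  induction r with
  | zero => rfl
  | succ r ih =>
    simp only [wd]
    rw [map_commutatorElement, map_mul, map_mul, map_inv, ih]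

section Series

variable {G : Type*} [Group G]

/-- the elements which commute with all their conjugates modulo `M` -/
def comSet (M : Subgroup G) : Set G := {c | ∀ h : G, ⁅c, h * c * h⁻¹⁆ ∈ M}

/-- the subgroup generated by them; modulo `M` it is the subgroup generated by all normal abelian
subgroups -/
def nx (M : Subgroup G) : Subgroup G := closure (comSet M)

theorem comSet_conj {M : Subgroup G} (hM : M.Normal) {c : G} (hc : c ∈ comSet M) (g : G) :
    g * c * g⁻¹ ∈ comSet M := by
  intro h
  have h1 := hM.conj_mem _ (hc (g⁻¹ * h * g)) g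
  have h2 : g * ⁅c, g⁻¹ * h * g * c * (g⁻¹ * h * g)⁻¹⁆ * g⁻¹ =
      ⁅g * c * g⁻¹, h * (g * c * g⁻¹) * h⁻¹⁆ := by
    simp only [commutatorElement_def]
    group
  rwa [h2] at h1

theorem nx_normal {M : Subgroup G} (hM : M.Normal) : (nx M).Normal := by
  have h := Subgroup.normalClosure_normal (s := comSet M)
  have he : normalClosure (comSet M) = nx M := by
    refine le_antisymm ?_ (closure_le_normalClosure)
    rw [normalClosure, nx, closure_le]
    intro x hx
    obtain ⟨a, ha, hax⟩ := Group.mem_conjugatesOfSet_iff.1 hx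
    obtain ⟨g, rfl⟩ := isConj_iff.1 hax
    exact subset_closure (comSet_conj hM ha g)
  rwa [he] at h

theorem le_nx {M : Subgroup G} (hM : M.Normal) : M ≤ nx M := fun c hc =>
  subset_closure fun h => by
    rw [commutatorElement_def]
    exact mul_mem (mul_mem (mul_mem hc (hM.conj_mem c hc h)) (inv_mem hc))
      (inv_mem (hM.conj_mem c hc h))

/-- the series `1 = N_0 ≤ N_1 ≤ …` -/
def ser (G : Type*) [Group G] : ℕ → Subgroup G
  | 0 => ⊥
  | i + 1 => nx (ser G i)

theorem ser_normal (i : ℕ) : (ser G i).Normal := by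
  induction i with
  | zero => exact Subgroup.normal_bot
  | succ i ih => exact nx_normal ih

theorem wd_mem_ser {s : ℕ} {a : G} (h : ∀ x : ℕ → G, x 0 = a → wd x s = 1) (i : ℕ) (hi : i ≤ s)
    (x : ℕ → G) (hx : x 0 = a) : wd x (s - i) ∈ ser G i := by
  induction i generalizing x with
  | zero => exact Subgroup.mem_bot.2 (h x hx)
  | succ i ih =>
    refine subset_closure fun g => ?_
    have h1 := ih (by omega) (Function.update x (s - i) g)
      (by rw [Function.update_of_ne (by omega), hx])
    have h2 : s - i = (s - (i + 1)) + 1 := by omega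
    rw [h2] at h1
    simp only [wd] at h1
    rw [Function.update_self] at h1
    have h3 : wd (Function.update x (s - (i + 1) + 1) g) (s - (i + 1)) = wd x (s - (i + 1)) :=
      wd_congr fun j hj => Function.update_of_ne (by omega) _ _
    rwa [h3] at h1

theorem mem_ser {s : ℕ} {a : G} (h : ∀ x : ℕ → G, x 0 = a → wd x s = 1) : a ∈ ser G s := by
  have h1 := wd_mem_ser h s le_rfl (fun _ => a) rfl
  rwa [Nat.sub_self] at h1

theorem ser_top {s : ℕ} (h : ∀ x : ℕ → G, wd x s = 1) : ser G s = ⊤ := by
  rw [eq_top_iff]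
  intro g _
  exact mem_ser fun x _ => h x

end Series

section LF

variable {G : Type*} [Group G]

/-- all finite subsets of `N` generate finite subgroups -/
def LFin (N : Subgroup G) : Prop :=
  ∀ S : Set G, S.Finite → S ⊆ (N : Set G) → Finite (closure S)

/-- finitely generated abelian torsion -/
theorem finite_of_comm (hT : Monoid.IsTorsion G) {S : Set G} (hS : S.Finite)
    (hc : ∀ x ∈ S, ∀ y ∈ S, x * y = y * x) : Finite (closure S) := by
  letI : CommGroup (closure S) := Subgroup.closureCommGroupOfComm hc
  haveI : Group.FG (closure S) := by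
    haveI := hS.to_subtype
    exact Group.closure_finite_fg S
  refine CommGroup.finite_of_fg_torsion (closure S) fun x => ?_
  have h1 := hT (x : G)
  obtain ⟨n, hn, h2⟩ := isOfFinOrder_iff_pow_eq_one.1 h1
  refine isOfFinOrder_iff_pow_eq_one.2 ⟨n, hn, Subtype.ext ?_⟩
  simpa using h2

/-- Adding an element commuting with its conjugates to a finite subgroup. -/
theorem finite_insert (hT : Monoid.IsTorsion G) {S : Set G} (hS : Finite (closure S))
    {c : G} (hc : ∀ h : G, ⁅c, h * c * h⁻¹⁆ = 1) : Finite (closure (insert c S)) := by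
  classical
  set P := closure S with hP
  -- the conjugates of `c` under `P`
  set T : Set G := Set.range fun p : P => (p : G) * c * (p : G)⁻¹ with hTd
  have hTf : T.Finite := Set.finite_range _
  have hcomm : ∀ x ∈ T, ∀ y ∈ T, x * y = y * x := by
    rintro _ ⟨p, rfl⟩ _ ⟨q, rfl⟩
    have h1 := hc ((p : G)⁻¹ * q)
    have h2 : ⁅(p : G) * c * (p : G)⁻¹, (q : G) * c * (q : G)⁻¹⁆ =
        (p : G) * ⁅c, ((p : G)⁻¹ * q) * c * ((p : G)⁻¹ * q)⁻¹⁆ * (p : G)⁻¹ := by
      simp only [commutatorElement_def]
      group
    rw [h1, mul_one, mul_inv_cancel] at h2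
    exact commutatorElement_eq_one_iff_mul_comm.1 h2
  set A := closure T with hA
  have hAf : Finite A := finite_of_comm hT hTf hcomm
  have hPN : ∀ p ∈ P, ∀ a ∈ A, p * a * p⁻¹ ∈ A := by
    intro p hp a ha
    have : A ≤ A.comap (MulAut.conj p).toMonoidHom := by
      rw [hA, closure_le]
      rintro _ ⟨q, rfl⟩
      refine subset_closure ⟨⟨p, hp⟩ * q, ?_⟩
      simp only [Subgroup.coe_mul, mul_inv_rev, MulEquiv.coe_toMonoidHom, MulAut.conj_apply]
      group
    exact this ha
  -- the product set `A P`
  let K : Subgroup G :=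
    { carrier := {g | ∃ a ∈ A, ∃ p ∈ P, g = a * p}
      one_mem' := ⟨1, one_mem _, 1, one_mem _, by simp⟩
      mul_mem' := by
        rintro _ _ ⟨a, ha, p, hp, rfl⟩ ⟨b, hb, q, hq, rfl⟩
        refine ⟨a * (p * b * p⁻¹), mul_mem ha (hPN p hp b hb), p * q, mul_mem hp hq, by group⟩
      inv_mem' := by
        rintro _ ⟨a, ha, p, hp, rfl⟩
        refine ⟨p⁻¹ * a⁻¹ * p⁻¹⁻¹, hPN _ (inv_mem hp) _ (inv_mem ha), p⁻¹, inv_mem hp, by group⟩ }
  have hKf : Finite K := by
    have hsub : (K : Set G) ⊆ (fun z : A × P => (z.1 : G) * (z.2 : G)) '' Set.univ := by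
      rintro _ ⟨a, ha, p, hp, rfl⟩
      exact ⟨(⟨a, ha⟩, ⟨p, hp⟩), trivial, rfl⟩
    exact ((Set.toFinite (Set.univ : Set (A × P))).image _ |>.subset hsub).to_subtype
  have hle : closure (insert c S) ≤ K := by
    rw [closure_le]
    rintro x (rfl | hx)
    · refine ⟨x, subset_closure ⟨1, by simp⟩, 1, one_mem _, by simp⟩
    · exact ⟨1, one_mem _, x, subset_closure hx, by simp⟩
  exact Finite.of_injective (inclusion hle) (inclusion_injective hle)

theorem finite_closure_of_com (hT : Monoid.IsTorsion G) {S : Set G} (hS : S.Finite)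
    (hc : ∀ c ∈ S, ∀ h : G, ⁅c, h * c * h⁻¹⁆ = 1) : Finite (closure S) := by
  induction S, hS using Set.Finite.induction_on with
  | empty => rw [Subgroup.closure_empty]; infer_instance
  | @insert a S _ _ ih =>
    exact finite_insert hT (ih fun c hcS => hc c (Set.mem_insert_of_mem _ hcS))
      (hc a (Set.mem_insert _ _))

/-- each finite subset of a closure is in the closure of a finite subset -/
theorem exists_finite_sub {C : Set G} {S : Set G} (hS : S.Finite)
    (h : S ⊆ (closure C : Set G)) : ∃ T : Set G, T.Finite ∧ T ⊆ C ∧ S ⊆ (closure T : Set G) := by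
  classical
  have key : ∀ x ∈ closure C, ∃ T : Set G, T.Finite ∧ T ⊆ C ∧ x ∈ closure T := by
    intro x hx
    induction hx using closure_induction with
    | mem x hx => exact ⟨{x}, Set.finite_singleton x, by simpa using hx,
        subset_closure (Set.mem_singleton x)⟩
    | one => exact ⟨∅, Set.finite_empty, Set.empty_subset _, one_mem _⟩
    | mul x y _ _ h1 h2 =>
      obtain ⟨T1, a1, b1, c1⟩ := h1
      obtain ⟨T2, a2, b2, c2⟩ := h2
      exact ⟨T1 ∪ T2, a1.union a2, Set.union_subset b1 b2,
        mul_mem (closure_mono Set.subset_union_left c1) (closure_mono Set.subset_union_right c2)⟩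
    | inv x _ h1 =>
      obtain ⟨T1, a1, b1, c1⟩ := h1
      exact ⟨T1, a1, b1, inv_mem c1⟩
  choose! f hf1 hf2 hf3 using key
  refine ⟨⋃ x ∈ S, f x, hS.biUnion fun x hx => hf1 x (h hx), ?_, fun x hx => ?_⟩
  · exact Set.iUnion₂_subset fun x hx => hf2 x (h hx)
  · exact closure_mono (Set.subset_biUnion_of_mem (u := f) hx) (hf3 x (h hx))

theorem isTorsion_quot (hT : Monoid.IsTorsion G) (N : Subgroup G) [N.Normal] :
    Monoid.IsTorsion (G ⧸ N) := by
  intro x
  obtain ⟨g, rfl⟩ := QuotientGroup.mk_surjective x
  exact (QuotientGroup.mk' N).isOfFinOrder (hT g)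

/-- **extension** -/
theorem finite_of_quot {M : Subgroup G} (hM : M.Normal) (h : LFin M) {T : Set G} (hT1 : T.Finite)
    (h1 : Finite ((closure T).map (QuotientGroup.mk' M))) : Finite (closure T) := by
  set X := closure T with hX
  -- `X ∩ M` has finite index in `X`
  set f : X →* (X.map (QuotientGroup.mk' M)) := (QuotientGroup.mk' M).subgroupMap X with hf
  have hfs : Function.Surjective f := (QuotientGroup.mk' M).subgroupMap_surjective X
  have hfi : f.ker.FiniteIndex := by
    refine ⟨?_⟩
    rw [Subgroup.index_ker]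
    haveI : Finite f.range := Finite.of_injective _ (Subtype.val_injective)
    exact Nat.card_pos.ne'
  haveI : Group.FG X := by
    haveI := hT1.to_subtype
    exact Group.closure_finite_fg T
  have hfg : f.ker.FG := (Group.fg_iff_subgroup_fg _).1 (Subgroup.fg_of_index_ne_zero f.ker)
  obtain ⟨R, hR⟩ := hfg
  -- `X ∩ M` is finite
  have hR2 : Finite (closure ((X.subtype) '' (R : Set X))) := by
    refine h _ (R.finite_toSet.image _) ?_
    rintro _ ⟨r, hr, rfl⟩
    have h5 : r ∈ f.ker := hR ▸ subset_closure hr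
    have h6 : f r = 1 := h5
    have h7 : (QuotientGroup.mk' M) (r : G) = 1 := by
      have := congrArg Subtype.val h6
      simpa [hf] using this
    exact (QuotientGroup.eq_one_iff _).1 h7
  have hk : Finite f.ker := by
    rw [← MonoidHom.map_closure, hR] at hR2
    exact Finite.of_injective
      (fun z : f.ker => (⟨X.subtype z, ⟨z, z.2, rfl⟩⟩ : (f.ker).map X.subtype))
      (fun a b hab => by
        have := congrArg Subtype.val hab
        exact Subtype.ext (Subtype.ext this))
  haveI : Finite (X ⧸ f.ker) :=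
    Finite.of_equiv _ (QuotientGroup.quotientKerEquivOfSurjective f hfs).symm.toEquiv
  exact Finite.of_equiv _ (f.ker).groupEquivQuotientProdSubgroup.symm

/-- **extension step** -/
theorem lfin_nx (hT : Monoid.IsTorsion G) {M : Subgroup G} (hM : M.Normal) (h : LFin M) :
    LFin (nx M) := by
  intro S hS hSM
  obtain ⟨T, hT1, hT2, hT3⟩ := exists_finite_sub hS hSM
  have hXf : Finite (closure T) := by
    refine finite_of_quot hM h hT1 ?_
    rw [MonoidHom.map_closure]
    refine finite_closure_of_com (isTorsion_quot hT M) (hT1.image _) ?_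
    rintro _ ⟨c, hc, rfl⟩ q
    obtain ⟨g, rfl⟩ := QuotientGroup.mk_surjective q
    have h2 := hT2 hc g
    have h3 : (QuotientGroup.mk' M) ⁅c, g * c * g⁻¹⁆ = 1 :=
      (QuotientGroup.eq_one_iff _).2 h2
    rw [map_commutatorElement, map_mul, map_mul, map_inv] at h3
    exact h3
  have hle : closure S ≤ closure T := by rw [closure_le]; exact hT3
  exact Finite.of_injective (inclusion hle) (inclusion_injective hle)

theorem lfin_ser (hT : Monoid.IsTorsion G) (i : ℕ) : LFin (ser G i) := by
  induction i with
  | zero =>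
    intro S _ h
    have h1 : closure S ≤ ⊥ := by rw [closure_le]; exact h
    have h2 : closure S = ⊥ := le_bot_iff.1 h1
    rw [h2]
    infer_instance
  | succ i ih => exact lfin_nx hT (ser_normal i) ih

/-- **Theorem.** A torsion group satisfying the law `u_s = 1` is locally finite. -/
theorem locally_finite {s : ℕ} (hT : Monoid.IsTorsion G) (h : ∀ x : ℕ → G, wd x s = 1)
    (S : Set G) (hS : S.Finite) : Finite (closure S) :=
  lfin_ser hT s S hS (by rw [ser_top h]; exact fun _ _ => trivial)

end LF

end Run7.h241.Bu
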