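import Pool.Agent.Run7.h241.Bu1

/-!
# Free Burnside groups and the words `u_r`
-/

set_option autoImplicit false

namespace Run7.h241.Bu

open Subgroup
open scoped commutatorElement

universe u

/-- `n ∈ 𝓛`: every group satisfying `x ^ n = 1` is locally finite. -/
def InL (n : ℕ) : Prop := ∀ (G : Type u) [Group G], (∀ x : G, x ^ n = 1) →
  ∀ S : Set G, S.Finite → Finite (Subgroup.closure S)

/-- The free Burnside group `B_{m,n}`: the free group of rank `m` modulo the normal closure of all
`n`-th powers. -/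
abbrev B (m n : ℕ) : Type :=
  FreeGroup (Fin m) ⧸ Subgroup.normalClosure (Set.range fun w : FreeGroup (Fin m) => w ^ n)

theorem b_pow {m n : ℕ} (x : B m n) : x ^ n = 1 := by
  obtain ⟨w, rfl⟩ := QuotientGroup.mk_surjective x
  rw [← QuotientGroup.mk_pow, QuotientGroup.eq_one_iff]
  exact subset_normalClosure ⟨w, rfl⟩

/-- the standard generators -/
def gn (m n : ℕ) (i : Fin m) : B m n := QuotientGroup.mk (FreeGroup.of i)

theorem gn_top (m n : ℕ) : closure (Set.range (gn m n)) = ⊤ := by
  have h1 : (closure (Set.range (FreeGroup.of : Fin m → FreeGroup (Fin m)))).map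
      (QuotientGroup.mk' (normalClosure (Set.range fun w : FreeGroup (Fin m) => w ^ n))) =
      closure (Set.range (gn m n)) := by
    rw [MonoidHom.map_closure, ← Set.range_comp]
    rfl
  rw [← h1, FreeGroup.closure_range_of, ← MonoidHom.range_eq_map, MonoidHom.range_eq_top]
  exact QuotientGroup.mk_surjective

/-- the homomorphisms given by the universal property -/
def lf {m n : ℕ} {G : Type u} [Group G] (hG : ∀ x : G, x ^ n = 1) (a : Fin m → G) : B m n →* G :=
  QuotientGroup.lift _ (FreeGroup.lift a) (by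
    intro x hx
    have h1 : normalClosure (Set.range fun w : FreeGroup (Fin m) => w ^ n) ≤
        (FreeGroup.lift a).ker := by
      refine normalClosure_le_normal ?_
      rintro _ ⟨w, rfl⟩
      change FreeGroup.lift a (w ^ n) = 1
      rw [map_pow, hG]
    exact h1 hx)

theorem lf_gn {m n : ℕ} {G : Type u} [Group G] (hG : ∀ x : G, x ^ n = 1) (a : Fin m → G)
    (i : Fin m) : lf hG a (gn m n i) = a i := by
  change FreeGroup.lift a (FreeGroup.of i) = a i
  exact FreeGroup.lift_apply_of

theorem range_lf {m n : ℕ} {G : Type u} [Group G] (hG : ∀ x : G, x ^ n = 1) (a : Fin m → G) :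
    (lf hG a).range = closure (Set.range a) := by
  rw [MonoidHom.range_eq_map, ← gn_top, MonoidHom.map_closure, ← Set.range_comp]
  congr 2
  funext i
  exact lf_gn hG a i

theorem finite_closure_range {m n : ℕ} (h : Finite (B m n)) {G : Type u} [Group G]
    (hG : ∀ x : G, x ^ n = 1) (a : Fin m → G) : Finite (closure (Set.range a)) := by
  rw [← range_lf hG a]
  exact Finite.of_surjective _ (lf hG a).rangeRestrict_surjective

theorem b_finite_dvd {m n n' : ℕ} (h : Finite (B m n)) (hd : n' ∣ n) : Finite (B m n') := by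
  obtain ⟨c, rfl⟩ := hd
  have h1 : ∀ x : B m n', x ^ (n' * c) = 1 := fun x => by rw [pow_mul, b_pow, one_pow]
  have h2 := finite_closure_range h h1 (gn m n')
  rw [gn_top] at h2
  exact Finite.of_equiv _ Subgroup.topEquiv.toEquiv

theorem b_finite_le {m m' n : ℕ} (h : Finite (B m n)) (hm : m' ≤ m) : Finite (B m' n) := by
  rcases Nat.eq_zero_or_pos m' with h0 | h0
  · subst h0
    have h2 := gn_top 0 n
    have h3 : Set.range (gn 0 n) = ∅ := Set.range_eq_empty _
    rw [h3, Subgroup.closure_empty] at h2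
    haveI : Finite (⊤ : Subgroup (B 0 n)) := by rw [← h2]; infer_instance
    exact Finite.of_equiv _ Subgroup.topEquiv.toEquiv
  have : NeZero m' := ⟨by omega⟩
  let a : Fin m → B m' n := fun i => gn m' n (Fin.ofNat m' i)
  have h1 : Set.range (gn m' n) ⊆ Set.range a := by
    rintro _ ⟨i, rfl⟩
    refine ⟨⟨i, by omega⟩, ?_⟩
    simp [a, Nat.mod_eq_of_lt i.2]
  have h2 := finite_closure_range h (b_pow (m := m') (n := n)) a
  have h3 : closure (Set.range a) = ⊤ := by
    rw [eq_top_iff, ← gn_top]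
    exact closure_mono h1
  rw [h3] at h2
  exact Finite.of_equiv _ Subgroup.topEquiv.toEquiv

theorem b_finite_of_inL {n : ℕ} (h : InL.{0} n) (m : ℕ) : Finite (B m n) := by
  have h2 := h (B m n) b_pow (Set.range (gn m n)) (Set.finite_range _)
  rw [gn_top] at h2
  exact Finite.of_equiv _ Subgroup.topEquiv.toEquiv

/-- the generators `x_0, …, x_{m-1}` of `B_{m,n}`, followed by `1`s -/
def gen (m n : ℕ) (i : ℕ) : B m n := if h : i < m then gn m n ⟨i, h⟩ else 1

/-- the sequence `x_0 ^ d, x_1, x_2, …` -/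
def pw {G : Type*} [Group G] (d : ℕ) (x : ℕ → G) (i : ℕ) : G := if i = 0 then x 0 ^ d else x i

theorem map_pw {G H : Type*} [Group G] [Group H] (f : G →* H) (d : ℕ) (x : ℕ → G) :
    (fun i => f (pw d x i)) = pw d fun i => f (x i) := by
  funext i
  by_cases h : i = 0
  · simp [pw, h]
  · simp [pw, h]

theorem pw_congr {G : Type*} [Group G] {d r : ℕ} {x y : ℕ → G} (h : ∀ i ≤ r, x i = y i) :
    ∀ i ≤ r, pw d x i = pw d y i := by
  intro i hi
  by_cases h0 : i = 0
  · simp [pw, h0, h 0 (by omega)]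
  · simp [pw, h0, h i hi]

/-- The element `u_r(x_0 ^ d, x_1, …, x_r)` of `B_{r+1,n}`. -/
def U (d r n : ℕ) : B (r + 1) n := wd (pw d (gen (r + 1) n)) r

theorem law_of_U {d r n : ℕ} (h : U d r n = 1) {G : Type u} [Group G] (hG : ∀ x : G, x ^ n = 1)
    (x : ℕ → G) : wd (pw d x) r = 1 := by
  have h1 := congrArg (lf hG fun i : Fin (r + 1) => x i) h
  rw [U, map_wd, map_one, map_pw] at h1
  rw [← h1]
  refine wd_congr (pw_congr fun i hi => ?_)
  rw [gen, dif_pos (show i < r + 1 by omega), lf_gn]

/-- if the powers `g ^ d` are in a normal locally finite subgroup, and `d ∈ 𝓛` -/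
theorem finite_of_pow {n d : ℕ} (hd : InL.{u} d) {G : Type u} [Group G]
    {M : Subgroup G} (hM : M.Normal) (hL : LFin M) (hp : ∀ g : G, g ^ d ∈ M)
    (S : Set G) (hS : S.Finite) : Finite (closure S) := by
  refine finite_of_quot hM hL hS ?_
  rw [MonoidHom.map_closure]
  refine hd (G ⧸ M) ?_ _ (hS.image _)
  intro x
  obtain ⟨g, rfl⟩ := QuotientGroup.mk_surjective x
  rw [← QuotientGroup.mk_pow, QuotientGroup.eq_one_iff]
  exact hp g

/-- **Criterion.** -/
theorem inL_of_U {d r n : ℕ} (hd : InL.{u} d) (hn : 1 ≤ n) (h : U d r n = 1) : InL.{u} n := by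
  intro G _ hG S hS
  have hT : Monoid.IsTorsion G := fun x => isOfFinOrder_iff_pow_eq_one.2 ⟨n, hn, hG x⟩
  refine finite_of_pow (n := n) hd (ser_normal r) (lfin_ser hT r) (fun g => ?_) S hS
  refine mem_ser fun x hx => ?_
  have h1 := law_of_U h hG (Function.update x 0 g)
  rw [← h1]
  refine wd_congr fun i _ => ?_
  by_cases h0 : i = 0
  · simp [pw, h0, hx]
  · simp [pw, h0]

theorem inL_one : InL.{u} 1 := by
  intro G _ hG S _
  haveI : Subsingleton G := ⟨fun a b => by rw [← pow_one a, ← pow_one b, hG, hG]⟩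
  infer_instance

section Derived

variable {G : Type u} [Group G]

/-- `u_r` is in the `r`-th derived group of a normal subgroup containing `x_0`. -/
theorem wd_mem_derived {K : Subgroup G} (hK : K.Normal) (x : ℕ → G) (hx : x 0 ∈ K) (r : ℕ) :
    wd x r ∈ (derivedSeries K r).map K.subtype := by
  induction r with
  | zero =>
    simpa [wd] using hx
  | succ r ih =>
    have hn : ((derivedSeries K r).map K.subtype).Normal := inferInstance
    rw [derivedSeries_succ, Subgroup.map_commutator]
    exact commutator_mem_commutator ih (hn.conj_mem _ ih _)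

/-- three subgroups lemma modulo a normal subgroup -/
theorem three {A C D N : Subgroup G} (hN : N.Normal) (h1 : ⁅⁅C, D⁆, A⁆ ≤ N)
    (h2 : ⁅⁅D, A⁆, C⁆ ≤ N) : ⁅⁅A, C⁆, D⁆ ≤ N := by
  have key : ∀ P : Subgroup G, P ≤ N ↔ P.map (QuotientGroup.mk' N) = ⊥ := by
    intro P
    rw [← le_bot_iff, Subgroup.map_le_iff_le_comap, MonoidHom.comap_bot, QuotientGroup.ker_mk']
  rw [key, Subgroup.map_commutator, Subgroup.map_commutator] at h1 h2 ⊢
  exact Subgroup.commutator_commutator_eq_bot_of_rotate h1 h2

/-- `γ_i` with the usual numbering shifted by one -/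
abbrev lcs (G : Type u) [Group G] (i : ℕ) : Subgroup G := (⊤ : Subgroup G).lowerCentralSeries i

theorem comm_lcs (i j : ℕ) : ⁅lcs G i, lcs G j⁆ ≤ lcs G (i + j + 1) := by
  induction j generalizing i with
  | zero => exact le_rfl
  | succ j ih =>
    have hN : (lcs G (i + (j + 1) + 1)).Normal := inferInstance
    rw [Subgroup.commutator_comm]
    change ⁅⁅lcs G j, ⊤⁆, lcs G i⁆ ≤ _
    refine three hN ?_ ?_
    · have h1 := ih (i + 1)
      rw [Subgroup.commutator_comm ⊤ (lcs G i)]
      have h2 : i + 1 + j + 1 = i + (j + 1) + 1 := by omega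
      rw [h2] at h1
      exact h1
    · have h1 := Subgroup.commutator_mono (ih i) (le_refl (⊤ : Subgroup G))
      exact h1

theorem wd_mem_lcs (x : ℕ → G) (r : ℕ) : wd x r ∈ lcs G (2 ^ (r + 1) - 2) := by
  induction r with
  | zero => exact mem_top _
  | succ r ih =>
    set c := wd x r with hc
    set g := x (r + 1) with hg
    have h1 : ⁅c, g * c * g⁻¹⁆ = ⁅c, ⁅g, c⁆⁆ := by
      simp only [commutatorElement_def]
      group
    have h2 : ⁅g, c⁆ ∈ lcs G (2 ^ (r + 1) - 2 + 1) := by
      rw [lcs, Subgroup.lowerCentralSeries_succ, Subgroup.commutator_comm]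
      exact commutator_mem_commutator (mem_top _) ih
    have h3 := comm_lcs _ _ (commutator_mem_commutator ih h2)
    have h4 : 2 ^ (r + 1) - 2 + (2 ^ (r + 1) - 2 + 1) + 1 = 2 ^ (r + 1 + 1) - 2 := by
      have : 2 ≤ 2 ^ (r + 1) := by
        calc 2 = 2 ^ 1 := rfl
          _ ≤ 2 ^ (r + 1) := Nat.pow_le_pow_right (by norm_num) (by omega)
      rw [pow_succ 2 (r + 1)]
      omega
    rw [h4] at h3
    change ⁅c, g * c * g⁻¹⁆ ∈ _
    rw [h1]
    exact h3

theorem derived_le_lcs (i : ℕ) : derivedSeries G i ≤ lcs G (2 ^ i - 1) := by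
  induction i with
  | zero => exact le_top
  | succ i ih =>
    have h1 := (commutator_mono ih ih).trans (comm_lcs (G := G) (2 ^ i - 1) (2 ^ i - 1))
    have h4 : 2 ^ i - 1 + (2 ^ i - 1) + 1 = 2 ^ (i + 1) - 1 := by
      have : 1 ≤ 2 ^ i := Nat.one_le_two_pow
      rw [pow_succ]
      omega
    rw [h4] at h1
    exact h1

end Derived

/-- the derived length criterion -/
theorem U_of_derived {d r n : ℕ}
    (h : derivedSeries (normalClosure {gen (r + 1) n 0 ^ d}) r = ⊥) : U d r n = 1 := by
  have h1 := wd_mem_derived (K := normalClosure {gen (r + 1) n 0 ^ d}) inferInstance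
    (pw d (gen (r + 1) n)) (subset_normalClosure rfl) r
  rw [h, Subgroup.map_bot] at h1
  exact h1

/-- the class criterion -/
theorem U_of_class {d r n : ℕ} (h : lcs (B (r + 1) n) (2 ^ (r + 1) - 2) = ⊥) : U d r n = 1 := by
  have h1 := wd_mem_lcs (pw d (gen (r + 1) n)) r
  rw [h] at h1
  exact h1

end Run7.h241.Bu
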