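import Pool.Agent.Run7.h241.Bu2
import Pool.Agent.R669.Wreath

/-!
# Sections of `k`-generator subgroups of wreath products

Let `Q` be a finite group generated by `k` elements and `H` any group. `(k - 1) |Q| + 1` elements of `H`
are the labels of the edges outside a spanning tree of the Cayley graph of `Q`; the labelling gives
`k` elements of the regular wreath product of `H` and `Q`, and the labels are values of elements of the
subgroup generated by them.
-/

set_option autoImplicit false

namespace Run7.h241.Bu

open Subgroup Pool.Agent.R669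
open scoped commutatorElement

section Tree

variable {Q : Type} [Group Q] [Finite Q] {k : ℕ} {x : Fin k → Q}

theorem exists_word (hx : closure (Set.range x) = ⊤) (g : Q) :
    ∃ l : List (Fin k), (l.map x).prod = g := by
  have h1 : g ∈ closure (Set.range x) := hx ▸ mem_top g
  have h2 : (closure (Set.range x)).toSubmonoid = Submonoid.closure (Set.range x) :=
    Subgroup.closure_toSubmonoid_of_finite
  have h3 : g ∈ Submonoid.closure (Set.range x) := by
    rw [← h2]
    exact h1
  obtain ⟨l, hl, rfl⟩ := Submonoid.exists_list_of_mem_closure h3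
  clear h1 h2 h3
  induction l with
  | nil => exact ⟨[], rfl⟩
  | cons a l ih =>
    obtain ⟨l', hl'⟩ := ih fun y hy => hl y (List.mem_cons_of_mem _ hy)
    obtain ⟨i, rfl⟩ := hl a List.mem_cons_self
    exact ⟨i :: l', by rw [List.map_cons, List.prod_cons, List.prod_cons, hl']⟩

open Classical in
/-- the length -/
noncomputable def len (hx : closure (Set.range x) = ⊤) (g : Q) : ℕ :=
  Nat.find (p := fun n => ∃ l : List (Fin k), l.length = n ∧ (l.map x).prod = g)
    (by obtain ⟨l, hl⟩ := exists_word hx g; exact ⟨_, l, rfl, hl⟩)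

theorem exists_parent (hx : closure (Set.range x) = ⊤) (g : Q) (hg : g ≠ 1) :
    ∃ e : Q × Fin k, e.1 * x e.2 = g ∧ len hx e.1 < len hx g := by
  classical
  have h0 : ∃ n, ∃ l : List (Fin k), l.length = n ∧ (l.map x).prod = g := by
    obtain ⟨l, hl⟩ := exists_word hx g
    exact ⟨_, l, rfl, hl⟩
  obtain ⟨l, hl1, hl2⟩ : ∃ l : List (Fin k), l.length = len hx g ∧ (l.map x).prod = g :=
    Nat.find_spec h0
  rcases List.eq_nil_or_concat l with rfl | ⟨l', i, rfl⟩
  · exact absurd hl2.symm (by simpa using hg)
  · refine ⟨((l'.map x).prod, i), ?_, ?_⟩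
    · simpa using hl2
    · have h1 : len hx (l'.map x).prod ≤ l'.length := Nat.find_min' _ ⟨l', rfl, rfl⟩
      have h2 : l'.length + 1 = len hx g := by simpa using hl1
      exact lt_of_le_of_lt h1 (by omega)

end Tree

section Wr

variable {H Q : Type} [Group H] [Group Q] [Finite Q] {k : ℕ}

/-- **The labelling.** -/
theorem wr_tree {R : ℕ} (x : Fin k → Q) (hx : closure (Set.range x) = ⊤) (hk : 1 ≤ k)
    (hR : R ≤ (k - 1) * Nat.card Q + 1) (h : Fin R → H)
    (hfin : ∀ f : Fin k → RegularWreathProduct H Q, Finite (closure (Set.range f))) :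
    Finite (closure (Set.range h)) := by
  classical
  haveI := Fintype.ofFinite Q
  haveI : Nonempty (Q × Fin k) := ⟨(1, ⟨0, hk⟩)⟩
  choose! par hp1 hp2 using exists_parent hx
  let T : Finset (Q × Fin k) := (Finset.univ.filter fun g : Q => g ≠ 1).image par
  have hT : T.card + 1 ≤ Nat.card Q := by
    have h1 : T.card ≤ (Finset.univ.filter fun g : Q => g ≠ 1).card := Finset.card_image_le
    have h2 : (Finset.univ.filter fun g : Q => g ≠ 1).card + 1 = Fintype.card Q := by
      rw [Finset.filter_ne' , Finset.card_erase_of_mem (Finset.mem_univ _), Finset.card_univ]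
      have : 0 < Fintype.card Q := Fintype.card_pos
      omega
    rw [Nat.card_eq_fintype_card]
    omega
  have hc : R ≤ Fintype.card {e : Q × Fin k // e ∉ T} := by
    have h1 : Fintype.card {e : Q × Fin k // e ∉ T} = Fintype.card Q * k - T.card := by
      rw [Fintype.card_subtype_compl, Fintype.card_prod, Fintype.card_fin]
      congr 1
      exact Fintype.card_coe T
    rw [h1]
    rw [Nat.card_eq_fintype_card] at hT hR
    obtain ⟨k', rfl⟩ := Nat.exists_eq_add_of_le hk
    have h2 : Fintype.card Q * (1 + k') = Fintype.card Q + k' * Fintype.card Q := by ring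
    rw [h2]
    have h3 : (1 + k' - 1) = k' := by omega
    rw [h3] at hR
    omega
  obtain ⟨ι, hι⟩ : ∃ ι : Fin R → {e : Q × Fin k // e ∉ T}, Function.Injective ι := by
    have := Function.Embedding.nonempty_of_card_le (α := Fin R)
      (β := {e : Q × Fin k // e ∉ T}) (by simpa using hc)
    obtain ⟨e⟩ := this
    exact ⟨e, e.injective⟩
  -- the labels
  let L : Q × Fin k → H := fun e =>
    if hh : ∃ j, (ι j : Q × Fin k) = e then h hh.choose else 1
  have hL1 : ∀ j, L (ι j) = h j := by
    intro j
    have hh : ∃ j', (ι j' : Q × Fin k) = ι j := ⟨j, rfl⟩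
    have h1 : L (ι j) = h hh.choose := dif_pos hh
    rw [h1]
    congr 1
    exact hι (Subtype.ext hh.choose_spec)
  have hL2 : ∀ e ∈ T, L e = 1 := by
    intro e he
    refine dif_neg ?_
    rintro ⟨j, hj⟩
    exact (ι j).2 (hj ▸ he)
  let f : Fin k → RegularWreathProduct H Q := fun i => ⟨fun y => L (y⁻¹, i), x i⟩
  set A := closure (Set.range f) with hA
  have hfA : ∀ i, f i ∈ A := fun i => subset_closure ⟨i, rfl⟩
  haveI : Finite A := hfin f
  -- the tree
  have htree : ∀ n : ℕ, ∀ g : Q, len hx g = n → ∃ a ∈ A, a.right = g ∧ a.left 1 = 1 := by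
    intro n
    induction n using Nat.strong_induction_on with
    | _ n ih =>
      intro g hg
      by_cases h1 : g = 1
      · exact ⟨1, one_mem _, h1.symm, rfl⟩
      · obtain ⟨a, ha, ha1, ha2⟩ := ih (len hx (par g).1) (hg ▸ hp2 g h1) _ rfl
        refine ⟨a * f (par g).2, mul_mem ha (hfA _), ?_, ?_⟩
        · rw [RegularWreathProduct.mul_right, ha1]
          exact hp1 g h1
        · rw [RegularWreathProduct.mul_left, Pi.mul_apply, ha2, one_mul, ha1]
          change L (((par g).1⁻¹ * 1)⁻¹, (par g).2) = 1
          rw [mul_one, inv_inv]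
          exact hL2 _ (Finset.mem_image.2 ⟨g, by simpa using h1, rfl⟩)
  have hev : ∀ e : Q × Fin k, L e ∈ ev1 A := by
    rintro ⟨g, i⟩
    obtain ⟨a, ha, ha1, ha2⟩ := htree _ g rfl
    obtain ⟨b, hb, hb1, hb2⟩ := htree _ (g * x i) rfl
    refine ⟨a * f i * b⁻¹, mul_mem (mul_mem ha (hfA i)) (inv_mem hb), ?_, ?_⟩
    · rw [RegularWreathProduct.mul_right, RegularWreathProduct.mul_right,
        RegularWreathProduct.inv_right, ha1, hb1]
      exact mul_inv_cancel _
    · rw [RegularWreathProduct.mul_left, RegularWreathProduct.mul_left,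
        RegularWreathProduct.mul_right, RegularWreathProduct.inv_left]
      simp only [Pi.mul_apply, Pi.inv_apply, ha1, ha2, hb1, one_mul]
      have h1 : b.left (g * x i * ((f i).right⁻¹ * g⁻¹)) = 1 := by
        have h2 : g * x i * ((f i).right⁻¹ * g⁻¹) = 1 := by
          change g * x i * ((x i)⁻¹ * g⁻¹) = 1
          group
        rw [h2, hb2]
      have h3 : (f i).left (g⁻¹ * 1) = L (g, i) := by
        change L ((g⁻¹ * 1)⁻¹, i) = L (g, i)
        rw [mul_one, inv_inv]
      rw [h3]
      simp [h1]
  have hle : closure (Set.range h) ≤ ev1 A := by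
    rw [closure_le]
    rintro _ ⟨j, rfl⟩
    rw [← hL1 j]
    exact hev _
  haveI := ev1_finite A
  exact Finite.of_injective (inclusion hle) (inclusion_injective hle)

end Wr

/-- **Theorem.** If `B_{k,qm}` is finite, so is `B_{R,q}` for `R = (k - 1) |B_{k,m}| + 1`. -/
theorem b_finite_wreath {k q m : ℕ} (hk : 1 ≤ k) (h : Finite (B k (q * m))) :
    Finite (B ((k - 1) * Nat.card (B k m) + 1) q) := by
  haveI hQ : Finite (B k m) := b_finite_dvd h (dvd_mul_left m q)
  set R := (k - 1) * Nat.card (B k m) + 1 with hR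
  have h1 := wr_tree (H := B R q) (gn k m) (gn_top k m) hk (le_of_eq hR) (gn R q) (fun f => by
    have hW : ∀ a : RegularWreathProduct (B R q) (B k m), a ^ (q * m) = 1 := fun a => by
      rw [mul_comm]
      exact wr_exp b_pow b_pow a
    exact finite_closure_range h hW f)
  rw [gn_top] at h1
  exact Finite.of_equiv _ Subgroup.topEquiv.toEquiv

end Run7.h241.Bu
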