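import Pool.Agent.N908.FR.Part

/-! Linear algebra for `MP_600e55_nt.SymbolsTrivialOnSubgroup`: partitions of a vector space from a
subspace `I` modulo which there are few relations; the dimension of the exterior square. -/

set_option autoImplicit false

open Module Submodule

namespace Run7.h241.EF

open Pool.Agent.N908.FR

variable {k V : Type*} [Field k] [AddCommGroup V] [Module k V] [FiniteDimensional k V]

/-- **Few relations modulo the exterior square of a subspace give a partition.** -/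
theorem exists_part' (E : V → V → Prop) (I : Submodule k V) (hI : I ≠ ⊥)
    (h : finrank k I + finrank k (Rel (k := k) E ⊤ ⊔ W I : Submodule k (Dual k V →ₗ[k] V)) <
      finrank k V + finrank k (W I)) :
    ∃ P : Set (Submodule k V), (∀ K ∈ P, K ≠ ⊤) ∧ (∀ x, ∃ K ∈ P, x ∈ K) ∧
      (∀ K ∈ P, ∀ K' ∈ P, K ≠ K' → K ⊓ K' = ⊥) ∧
      (∀ K ∈ P, ∀ x y, E x y → x ≠ 0 → x ∈ K → y ∈ K) ∧
      ∀ K ∈ P, finrank k K + finrank k (W I) ≤ finrank k I +
        finrank k (Rel (k := k) E ⊤ ⊔ W I : Submodule k (Dual k V →ₗ[k] V)) := by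
  set G : Submodule k V → Prop := fun K => K ≠ ⊥ ∧ Good K (Rel E K) with hG
  have hline : ∀ x : V, x ≠ 0 → G (span k {x}) := by
    intro x hx
    refine ⟨by rwa [Ne, span_singleton_eq_bot], fun I hI hI0 => ?_⟩
    have h1 : I = span k {x} := by
      apply eq_of_le_of_finrank_le hI
      rw [finrank_span_singleton hx]
      exact fr_pos hI0
    rw [h1]
    exact Nat.add_le_add_left (finrank_mono le_sup_right) _
  have hmax : ∀ x : V, x ≠ 0 → ∃ K, x ∈ K ∧ Maximal G K := by
    intro x hx
    obtain ⟨K, h1, h2⟩ := exists_maximal_ge_of_wellFoundedGT G _ (hline x hx)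
    exact ⟨K, h1 (mem_span_singleton_self x), h2⟩
  have hdisj : ∀ K, Maximal G K → ∀ K', Maximal G K' → K ≠ K' → K ⊓ K' = ⊥ := by
    intro K hK K' hK' hne
    by_contra hcon
    have h1 : G (K ⊔ K') := by
      refine ⟨fun h0 => hK.prop.1 ?_, ?_⟩
      · rw [eq_bot_iff] at h0 ⊢
        exact le_sup_left.trans h0
      · exact (goodB hK.prop.2 hK'.prop.2 (Rel_le E K) (Rel_le E K') hcon).mono
          (sup_le (Rel_mono E le_sup_left) (Rel_mono E le_sup_right))
    have h2 := hK.eq_of_ge h1 le_sup_left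
    have h3 := hK'.eq_of_ge h1 le_sup_right
    exact hne (h2.symm.trans h3)
  have hbd : ∀ K, Maximal G K → finrank k K + finrank k (W I) ≤ finrank k I +
      finrank k (Rel (k := k) E ⊤ ⊔ W I : Submodule k (Dual k V →ₗ[k] V)) := by
    intro K hK
    have hR : finrank k (Rel (k := k) E K ⊔ W I : Submodule k (Dual k V →ₗ[k] V)) ≤
        finrank k (Rel (k := k) E ⊤ ⊔ W I : Submodule k (Dual k V →ₗ[k] V)) :=
      finrank_mono (sup_le_sup_right (Rel_mono E le_top) _)
    by_cases h0 : I ⊓ K = ⊥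
    · have h1 := hK.prop.2.disj (Rel_le E K) hK.prop.1 h0
      have h2 := fr_pos hI
      omega
    · have h1 := hK.prop.2.inter (Rel_le E K) h0
      have h2 : finrank k (I ⊓ K : Submodule k V) ≤ finrank k I := finrank_mono inf_le_left
      omega
  obtain ⟨x₀, hx₀⟩ : ∃ x : V, x ≠ 0 := by
    obtain ⟨x, -, hx⟩ := exists_mem_ne_zero_of_ne_bot hI
    exact ⟨x, hx⟩
  refine ⟨{K | Maximal G K}, ?_, ?_, ?_, ?_, ?_⟩
  · intro K hK h1
    have h2 := hbd K hK
    rw [h1, finrank_top] at h2
    omega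
  · intro x
    by_cases hx : x = 0
    · obtain ⟨K, -, hK⟩ := hmax x₀ hx₀
      exact ⟨K, hK, hx ▸ zero_mem K⟩
    · obtain ⟨K, h1, hK⟩ := hmax x hx
      exact ⟨K, hK, h1⟩
  · exact fun K hK K' hK' hne => hdisj K hK K' hK' hne
  · intro K hK x y hE hx0 hx
    by_cases hy0 : y = 0
    · exact hy0 ▸ zero_mem K
    obtain ⟨K', hy, hK'⟩ := hmax y hy0
    by_cases hne : K = K'
    · rwa [hne]
    exfalso
    have h0 := hdisj K hK K' hK' hne
    have h1 : G (K ⊔ K') := by
      refine ⟨fun h0 => hK.prop.1 ?_, ?_⟩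
      · rw [eq_bot_iff] at h0 ⊢
        exact le_sup_left.trans h0
      · exact goodA hK.prop.2 hK'.prop.2 (Rel_le E K) (Rel_le E K') h0 hx hy hx0 hy0
          (sup_le (Rel_mono E le_sup_left) (Rel_mono E le_sup_right))
          (w_mem_Rel (mem_sup_left hx) (mem_sup_right hy) hE)
    exact hne ((hK.eq_of_ge h1 le_sup_left).symm.trans (hK'.eq_of_ge h1 le_sup_right))
  · exact fun K hK => hbd K hK

/-! ### the exterior square of a subspace -/

/-- the dimension of the exterior square, and generators -/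
theorem W_dim (I : Submodule k V) : 2 * finrank k (W I) + finrank k I = finrank k I * finrank k I ∧
    W I ≤ span k {φ | ∃ x ∈ I, ∃ y ∈ I, φ = w x y} := by
  obtain ⟨J, hJ⟩ := I.exists_isCompl
  set i := finrank k I with hi
  let bI : Basis (Fin i) k I := finBasis k I
  let bJ : Basis (Fin (finrank k J)) k J := finBasis k J
  let b : Basis (Fin i ⊕ Fin (finrank k J)) k V := (bI.prod bJ).map (I.prodEquivOfIsCompl J hJ)
  have hbl : ∀ a, b (Sum.inl a) = (bI a : V) := by
    intro a
    simp [b]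
  have hbr : ∀ x ∈ I, ∀ c, b.coord (Sum.inr c) x = 0 := by
    intro x hx c
    have h1 : x = ∑ a, bI.repr ⟨x, hx⟩ a • b (Sum.inl a) := by
      have h2 := congrArg Subtype.val (bI.sum_repr ⟨x, hx⟩)
      simp only [Submodule.coe_sum, Submodule.coe_smul] at h2
      exact h2.symm.trans (Finset.sum_congr rfl fun a _ => by rw [hbl])
    rw [h1, map_sum]
    refine Finset.sum_eq_zero fun a _ => ?_
    rw [map_smul, Basis.coord_apply, Basis.repr_self, Finsupp.single_apply, if_neg (by simp),
      smul_zero]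
  set ι := {q : Fin i × Fin i // q.1 < q.2} with hι
  -- coordinates
  let cA : (Dual k V →ₗ[k] V) →ₗ[k] (ι → k) :=
    { toFun := fun φ q => b.coord (Sum.inl q.1.2) (φ (b.coord (Sum.inl q.1.1)))
      map_add' := fun φ ψ => by ext q; simp
      map_smul' := fun c φ => by ext q; simp }
  have hcA : ∀ φ ∈ W I, cA φ = 0 → φ = 0 := by
    intro φ hφ h0
    have h1 := (mem_W.1 hφ).1
    have h2 : ∀ l m, b.coord m (φ (b.coord l)) = 0 := by
      intro l m
      rcases m with m | m
      · rcases l with l | l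
        · rcases lt_trichotomy l m with h | h | h
          · exact congrFun h0 ⟨(l, m), h⟩
          · rw [h, h1]
          · rw [skew h1, neg_eq_zero]
            exact congrFun h0 ⟨(m, l), h⟩
        · rw [skew h1, neg_eq_zero]
          exact hbr _ ((mem_W.1 hφ).2 _) _
      · exact hbr _ ((mem_W.1 hφ).2 _) _
    have h3 : ∀ l, φ (b.coord l) = 0 := fun l => by
      rw [← b.forall_coord_eq_zero_iff]
      exact h2 l
    refine LinearMap.ext fun f => ?_
    rw [← b.sum_dual_apply_smul_coord f]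
    simp only [map_sum, map_smul, h3, smul_zero, Finset.sum_const_zero, LinearMap.zero_apply]
  have hcw : ∀ q : ι, cA (w (b (Sum.inl q.1.1)) (b (Sum.inl q.1.2))) = Pi.single q 1 := by
    intro q
    funext q'
    change b.coord (Sum.inl q'.1.2) (w (b (Sum.inl q.1.1)) (b (Sum.inl q.1.2))
      (b.coord (Sum.inl q'.1.1))) = _
    have hc : ∀ a c : Fin i, b.coord (Sum.inl a) (b (Sum.inl c)) = if c = a then 1 else 0 := by
      intro a c
      rw [Basis.coord_apply, Basis.repr_self, Finsupp.single_apply]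
      simp
    rw [w_apply, map_sub, map_smul, map_smul, hc, hc, hc, hc]
    by_cases hq : q = q'
    · subst hq
      have : ¬ q.1.2 = q.1.1 := q.2.ne'
      simp [this]
    · rw [Pi.single_eq_of_ne (Ne.symm hq)]
      have h1 : ¬ (q.1.1 = q'.1.1 ∧ q.1.2 = q'.1.2) := fun h => hq (Subtype.ext (Prod.ext h.1 h.2))
      have h2 : ¬ (q.1.2 = q'.1.1 ∧ q.1.1 = q'.1.2) := fun h => by
        have h3 := q.2
        have h4 := q'.2
        rw [h.1, h.2] at h3
        exact absurd h3 h4.asymm
      by_cases a1 : q.1.1 = q'.1.1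
      · have a2 : ¬ q.1.2 = q'.1.2 := fun h => h1 ⟨a1, h⟩
        by_cases a3 : q.1.2 = q'.1.1
        · have a4 : ¬ q.1.1 = q'.1.2 := fun h => h2 ⟨a3, h⟩
          simp [a1, a2, a3, a4]
        · simp [a1, a2, a3]
      · by_cases a3 : q.1.2 = q'.1.1
        · have a4 : ¬ q.1.1 = q'.1.2 := fun h => h2 ⟨a3, h⟩
          simp [a1, a3, a4]
        · simp [a1, a3]
  have hwI : ∀ q : ι, w (b (Sum.inl q.1.1)) (b (Sum.inl q.1.2)) ∈ W I := fun q =>
    w_mem (by rw [hbl]; exact (bI _).2) (by rw [hbl]; exact (bI _).2)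
  constructor
  · have e1 : finrank k ((W I).map cA) = finrank k (W I) := by
      rw [← LinearMap.range_domRestrict]
      refine LinearMap.finrank_range_of_inj ?_
      rw [injective_iff_map_eq_zero]
      rintro ⟨φ, hφ⟩ h0
      exact Subtype.ext (hcA φ hφ h0)
    have e2 : (W I).map cA = ⊤ := by
      rw [eq_top_iff, ← (Pi.basisFun k ι).span_eq, span_le]
      rintro _ ⟨q, rfl⟩
      rw [Pi.basisFun_apply]
      exact ⟨_, hwI q, hcw q⟩
    rw [e2, finrank_top, finrank_pi] at e1
    have a3 := card_pairs i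
    change 2 * Fintype.card ι + i = i * i at a3
    rw [← e1]
    exact a3
  · intro φ hφ
    set ψ : Dual k V →ₗ[k] V := ∑ q : ι, cA φ q • w (b (Sum.inl q.1.1)) (b (Sum.inl q.1.2))
      with hψ
    have h1 : ψ ∈ W I := sum_mem fun q _ => smul_mem _ _ (hwI q)
    have h2 : cA ψ = cA φ := by
      rw [hψ, map_sum]
      funext q'
      simp only [map_smul, hcw, Finset.sum_apply, Pi.smul_apply, smul_eq_mul]
      rw [Finset.sum_eq_single q' (fun q _ hq => by
        rw [Pi.single_eq_of_ne (Ne.symm hq), mul_zero]) (fun h => absurd (Finset.mem_univ _) h)]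
      simp
    have h3 : φ - ψ = 0 := hcA _ (sub_mem hφ h1) (by rw [map_sub, h2, sub_self])
    rw [sub_eq_zero.1 h3]
    refine sum_mem fun q _ => smul_mem _ _ (subset_span ⟨_, ?_, _, ?_, rfl⟩)
    · rw [hbl]; exact (bI _).2
    · rw [hbl]; exact (bI _).2

end Run7.h241.EF
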