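import Pool.Agent.Run7.h241.EF1

/-! Linear algebra for `MP_600e55_nt.SymbolsTrivialOnSubgroup`: alternating forms which vanish on a
subspace. -/

set_option autoImplicit false

open Module Submodule

namespace Run7.h241.EF

open Pool.Agent.N908.FR

variable {k V : Type*} [Field k] [AddCommGroup V] [Module k V] [FiniteDimensional k V]

/-- the pairs of elements of a subspace -/
def Sq (I : Submodule k V) : V → V → Prop := fun x y => x ∈ I ∧ y ∈ I

/-- there are enough alternating forms -/
theorem forms_ge : finrank k V * finrank k V ≤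
    2 * finrank k (Forms k (fun _ _ : V => False)) + finrank k V := by
  let _ : AddCommGroup (Forms k (fun _ _ : V => False)) := Module.addCommMonoidToAddCommGroup k
  let Θ : W (⊤ : Submodule k (Dual k V)) →ₗ[k] Forms k (fun _ _ : V => False) :=
    { toFun := fun φ => ⟨(φ : Dual k (Dual k V) →ₗ[k] Dual k V) ∘ₗ Dual.eval k V,
        mem_Forms.2 ⟨fun x => by
          have := (mem_W.1 φ.2).1 (Dual.eval k V x)
          simpa using this, fun _ _ h => h.elim⟩⟩
      map_add' := fun φ ψ => rfl
      map_smul' := fun c φ => rfl }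
  have hinj : Function.Injective Θ := by
    intro φ ψ h
    have h1 : (φ : Dual k (Dual k V) →ₗ[k] Dual k V) ∘ₗ Dual.eval k V =
      (ψ : Dual k (Dual k V) →ₗ[k] Dual k V) ∘ₗ Dual.eval k V := congrArg Subtype.val h
    apply Subtype.ext
    refine LinearMap.ext fun f => ?_
    obtain ⟨x, rfl⟩ := (Module.evalEquiv k V).surjective f
    exact LinearMap.congr_fun h1 x
  have h1 := LinearMap.finrank_le_finrank_of_injective hinj
  have h2 := (W_dim (⊤ : Submodule k (Dual k V))).1
  rw [finrank_top, Subspace.dual_finrank_eq] at h2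
  omega

/-- the dimension of the space of the forms which vanish on a subspace -/
theorem forms_sq_ge (I : Submodule k V) : finrank k V * finrank k V + finrank k I ≤
    2 * finrank k (Forms k (Sq I)) + finrank k V + finrank k I * finrank k I := by
  let _ : AddCommGroup (Forms k (fun _ _ : V => False)) := Module.addCommMonoidToAddCommGroup k
  let _ : AddCommGroup (Forms k (fun _ _ : I => False)) := Module.addCommMonoidToAddCommGroup k
  let _ : AddCommGroup (Forms k (Sq I)) := Module.addCommMonoidToAddCommGroup k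
  let res : Forms k (fun _ _ : V => False) →ₗ[k] Forms k (fun _ _ : I => False) :=
    { toFun := fun β => ⟨(β : V →ₗ[k] V →ₗ[k] k).compl₁₂ I.subtype I.subtype,
        mem_Forms.2 ⟨fun x => (mem_Forms.1 β.2).1 x, fun _ _ h => h.elim⟩⟩
      map_add' := fun φ ψ => rfl
      map_smul' := fun c φ => rfl }
  have h1 := LinearMap.finrank_range_add_finrank_ker res
  have h2 : finrank k (LinearMap.range res) ≤ finrank k (Forms k (fun _ _ : I => False)) :=
    Submodule.finrank_le _
  have h3 := forms_le (k := k) (V := I) rfl (fun _ _ => False)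
  have h4 := forms_ge (k := k) (V := V)
  let j : LinearMap.ker res →ₗ[k] Forms k (Sq I) :=
    { toFun := fun β => ⟨(β.1 : V →ₗ[k] V →ₗ[k] k), mem_Forms.2 ⟨(mem_Forms.1 β.1.2).1,
        fun x y h => by
          have h5 : res β.1 = 0 := LinearMap.mem_ker.1 β.2
          have h6 : ((β.1 : V →ₗ[k] V →ₗ[k] k).compl₁₂ I.subtype I.subtype) = 0 :=
            congrArg Subtype.val h5
          exact LinearMap.congr_fun (LinearMap.congr_fun h6 ⟨x, h.1⟩) ⟨y, h.2⟩⟩⟩
      map_add' := fun φ ψ => rfl
      map_smul' := fun c φ => rfl }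
  have hj : Function.Injective j := by
    intro β γ h
    have h5 : ((β.1 : V →ₗ[k] V →ₗ[k] k)) = γ.1 :=
      congrArg (fun z : Forms k (Sq I) => (z : V →ₗ[k] V →ₗ[k] k)) h
    exact Subtype.ext (Subtype.ext h5)
  have h5 := LinearMap.finrank_le_finrank_of_injective hj
  omega

/-- relations modulo the exterior square of `I` and forms which vanish on `I` -/
theorem forms_sup_le (E : V → V → Prop) (I : Submodule k V) :
    2 * (finrank k (Forms k (fun x y => E x y ∨ Sq I x y)) +
      finrank k (Rel (k := k) E ⊤ ⊔ W I : Submodule k (Dual k V →ₗ[k] V))) + finrank k V ≤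
      finrank k V * finrank k V := by
  have h1 := forms_le (k := k) (V := V) rfl (fun x y => E x y ∨ Sq I x y)
  have h2 : (Rel (k := k) E ⊤ ⊔ W I : Submodule k (Dual k V →ₗ[k] V)) ≤
      Rel (k := k) (fun x y => E x y ∨ Sq I x y) ⊤ := by
    refine sup_le ?_ ((W_dim I).2.trans ?_)
    · refine span_mono ?_
      rintro φ ⟨x, hx, y, hy, h, rfl⟩
      exact ⟨x, hx, y, hy, Or.inl h, rfl⟩
    · refine span_mono ?_
      rintro φ ⟨x, hx, y, hy, rfl⟩
      exact ⟨x, mem_top, y, mem_top, Or.inr ⟨hx, hy⟩, rfl⟩
  have h3 := finrank_mono h2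
  omega

end Run7.h241.EF
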