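import Mathlib
import Pool.Agent.H335PN.TMAG1
import Pool.Agent.H335PN.TMAG2
import Pool.Agent.H335PN.TLEM1
import Pool.Agent.H335PN.TLEM2
import Pool.Agent.H335PN.TSHM
import Pool.Agent.H335PN.TRF

/-!
# Free groups: lower central quotients (any universe)

Consequences of the Magnus theorem (`Pool.Agent.H335PN`) for free groups of arbitrary rank in any
universe: `F / γ_n(F)` is residually a finite `p`-group, and a homomorphism of free groups which is
injective on the abelianizations is injective on all lower central quotients.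
-/

set_option autoImplicit false

namespace Run7.h241.PF

open Subgroup

universe u v w

/-- `lc G n = γ_{n+1}(G)` -/
abbrev lc (G : Type u) [Group G] (n : ℕ) : Subgroup G := (⊤ : Subgroup G).lowerCentralSeries n

theorem lcs_eq (G : Type) [Group G] (n : ℕ) :
    Pool.Agent.H335PN.lcs (⊤ : Subgroup G) n = lc G n := by
  induction n with
  | zero => rfl
  | succ n ih => rw [Pool.Agent.H335PN.lcs, ih]; rfl

theorem map_mem_lc {G : Type u} {H : Type v} [Group G] [Group H] (f : G →* H) {n : ℕ} {x : G}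
    (hx : x ∈ lc G n) : f x ∈ lc H n := by
  induction n generalizing x with
  | zero => exact mem_top _
  | succ n ih =>
    have h1 : lc G (n + 1) ≤ (lc H (n + 1)).comap f := by
      change ⁅lc G n, ⊤⁆ ≤ _
      rw [commutator_le]
      intro a ha b _
      rw [mem_comap, map_commutatorElement]
      exact commutator_mem_commutator (ih ha) (mem_top _)
    exact h1 hx

theorem lc_anti (G : Type u) [Group G] {m n : ℕ} (h : m ≤ n) : lc G n ≤ lc G m :=
  Subgroup.lowerCentralSeries_antitone _ h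

section Fin

variable {X : Type u}

open Classical in
/-- the retraction onto the free group on a finite set of letters -/
noncomputable def ret (Y : Finset X) : FreeGroup X →* FreeGroup (Fin Y.card) :=
  FreeGroup.lift fun x => if h : x ∈ Y then FreeGroup.of (Y.equivFin ⟨x, h⟩) else 1

/-- its section -/
noncomputable def sec (Y : Finset X) : FreeGroup (Fin Y.card) →* FreeGroup X :=
  FreeGroup.map fun i => ((Y.equivFin.symm i : Y) : X)

theorem ret_sec (Y : Finset X) (w : FreeGroup (Fin Y.card)) : ret Y (sec Y w) = w := by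
  have h : (ret Y).comp (sec Y) = MonoidHom.id _ := by
    ext i
    simp [ret, sec]
  exact DFunLike.congr_fun h w

theorem sec_ret_of {Y : Finset X} {x : X} (h : x ∈ Y) :
    sec Y (ret Y (FreeGroup.of x)) = FreeGroup.of x := by
  simp [ret, sec, h]

/-- the words in the letters of `Y` -/
def Wd (Y : Finset X) : Subgroup (FreeGroup X) := closure ((fun x => FreeGroup.of x) '' (Y : Set X))

theorem sec_ret {Y : Finset X} {w : FreeGroup X} (hw : w ∈ Wd Y) : sec Y (ret Y w) = w := by
  have h : Wd Y ≤ MonoidHom.eqLocus ((sec Y).comp (ret Y)) (MonoidHom.id _) := by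
    rw [Wd, closure_le]
    rintro _ ⟨x, hx, rfl⟩
    exact sec_ret_of hx
  exact h hw

theorem Wd_mono {Y Z : Finset X} (h : Y ⊆ Z) : Wd Y ≤ Wd Z :=
  closure_mono (Set.image_mono (by exact_mod_cast h))

theorem exists_Wd (w : FreeGroup X) : ∃ Y : Finset X, w ∈ Wd Y := by
  classical
  induction w using FreeGroup.induction_on with
  | C1 => exact ⟨∅, one_mem _⟩
  | of x => exact ⟨{x}, subset_closure ⟨x, by simp, rfl⟩⟩
  | inv_of x h =>
    obtain ⟨Y, hY⟩ := h
    exact ⟨Y, inv_mem hY⟩
  | mul a b ha hb =>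
    obtain ⟨Y, hY⟩ := ha
    obtain ⟨Z, hZ⟩ := hb
    exact ⟨Y ∪ Z, mul_mem (Wd_mono Finset.subset_union_left hY)
      (Wd_mono Finset.subset_union_right hZ)⟩

theorem exists_Wd_finset {ι : Type v} (s : Finset ι) (g : ι → FreeGroup X) :
    ∃ Y : Finset X, ∀ i ∈ s, g i ∈ Wd Y := by
  classical
  induction s using Finset.induction_on with
  | empty => exact ⟨∅, fun i hi => absurd hi (Finset.notMem_empty i)⟩
  | insert a s _ ih =>
    obtain ⟨Y, hY⟩ := ih
    obtain ⟨Z, hZ⟩ := exists_Wd (g a)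
    refine ⟨Y ∪ Z, fun i hi => ?_⟩
    rcases Finset.mem_insert.1 hi with rfl | hi
    · exact Wd_mono Finset.subset_union_right hZ
    · exact Wd_mono Finset.subset_union_left (hY i hi)

end Fin

theorem x_MAG2 : Pool.Agent.H335PN.S_MAG2 := Pool.Agent.H335PN.t_MAG2 Pool.Agent.H335PN.t_MAG1

theorem x_LEM1 : Pool.Agent.H335PN.S_LEM1 := Pool.Agent.H335PN.t_LEM1 x_MAG2

theorem x_RF : Pool.Agent.H335PN.S_RF := Pool.Agent.H335PN.t_RF x_MAG2
  (Pool.Agent.H335PN.t_SHM (Pool.Agent.H335PN.t_LEM2 x_LEM1))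

/-- `F / γ_n(F)` is residually a finite `p`-group. -/
theorem res_p (X : Type u) (p : ℕ) [Fact p.Prime] (n : ℕ) (x : FreeGroup X)
    (hx : x ∉ lc (FreeGroup X) n) : ∃ (G : Type) (_ : Group G) (_ : Finite G)
      (f : FreeGroup X →* G), IsPGroup p G ∧ (∀ y ∈ lc (FreeGroup X) n, f y = 1) ∧ f x ≠ 1 := by
  classical
  obtain ⟨Y, hY⟩ := exists_Wd x
  have h1 : ret Y x ∉ lc (FreeGroup (Fin Y.card)) n := by
    intro h
    have := map_mem_lc (sec Y) h
    rw [sec_ret hY] at this
    exact hx this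
  have h2 := x_RF (Fin Y.card) Unit (1 : FreeGroup (Fin Y.card) →* Unit)
    (fun u => ⟨1, Subsingleton.elim _ _⟩) p (Fact.out)
    (fun g hg => absurd (Subsingleton.elim g 1) hg) n
  have h3 : (1 : FreeGroup (Fin Y.card) →* Unit).ker = ⊤ := by
    rw [eq_top_iff]
    intro g _
    exact Subsingleton.elim _ _
  have h6 : Pool.Agent.H335PN.lcs (1 : FreeGroup (Fin Y.card) →* Unit).ker n =
      lc (FreeGroup (Fin Y.card)) n := by
    rw [h3, lcs_eq]
  have h4 : (QuotientGroup.mk (ret Y x) :
      FreeGroup (Fin Y.card) ⧸ Pool.Agent.H335PN.lcs (1 : FreeGroup (Fin Y.card) →* Unit).ker n) ≠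
      1 := by
    intro h
    have h7 := (QuotientGroup.eq_one_iff _).1 h
    rw [h6] at h7
    exact h1 h7
  obtain ⟨Q, hQ, hQf, f, hpQ, hf⟩ := h2 _ h4
  refine ⟨Q, hQ, hQf, (f.comp (QuotientGroup.mk' _)).comp (ret Y), hpQ, fun y hy => ?_, hf⟩
  have h5 : (QuotientGroup.mk (ret Y y) :
      FreeGroup (Fin Y.card) ⧸ Pool.Agent.H335PN.lcs (1 : FreeGroup (Fin Y.card) →* Unit).ker n) =
      1 := by
    refine (QuotientGroup.eq_one_iff _).2 ?_
    rw [h6]
    exact map_mem_lc _ hy
  change f (QuotientGroup.mk (ret Y y)) = 1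
  rw [h5, map_one]

/-- A homomorphism of free groups which is injective on abelianizations is injective on all lower
central quotients. -/
theorem inj_lc {B : Type u} {X : Type v} (f : FreeGroup B →* FreeGroup X)
    (hf : ∀ w, f w ∈ lc (FreeGroup X) 1 → w ∈ lc (FreeGroup B) 1) (k : ℕ) (w : FreeGroup B)
    (hw : f w ∈ lc (FreeGroup X) k) : w ∈ lc (FreeGroup B) k := by
  classical
  obtain ⟨Y, hY⟩ := exists_Wd w
  obtain ⟨Z, hZ⟩ := exists_Wd_finset Y fun b => f (FreeGroup.of b)
  set f₀ : FreeGroup (Fin Y.card) →* FreeGroup (Fin Z.card) := ((ret Z).comp f).comp (sec Y)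
    with hf₀
  have h1 : ∀ v, sec Z (f₀ v) = f (sec Y v) := by
    intro v
    have h : (sec Z).comp f₀ = f.comp (sec Y) := by
      ext i
      change sec Z (ret Z (f (sec Y (FreeGroup.of i)))) = f (sec Y (FreeGroup.of i))
      have h2 : sec Y (FreeGroup.of i) = FreeGroup.of ((Y.equivFin.symm i : Y) : B) := rfl
      exact sec_ret (by rw [h2]; exact hZ _ (Y.equivFin.symm i).2)
    exact DFunLike.congr_fun h v
  have h2 := x_LEM1 (Fin Y.card) (Fin Z.card) f₀ (fun v hv => by
    have h3 : f₀ v ∈ lc (FreeGroup (Fin Z.card)) 1 := hv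
    have h4 := map_mem_lc (sec Z) h3
    rw [h1] at h4
    have h5 := map_mem_lc (ret Y) (hf _ h4)
    rw [ret_sec] at h5
    exact h5) k (ret Y w)
  rw [lcs_eq, lcs_eq] at h2
  have h3 : f₀ (ret Y w) ∈ lc (FreeGroup (Fin Z.card)) k := by
    change ret Z (f (sec Y (ret Y w))) ∈ _
    rw [sec_ret hY]
    exact map_mem_lc _ hw
  have h4 := map_mem_lc (sec Y) (h2 h3)
  rwa [sec_ret hY] at h4

end Run7.h241.PF
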