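import Pool.Agent.Run7.h241.PF1

/-!
# Parafree groups: homomorphisms into nilpotent groups

Let `P` have the same lower central quotients as the free group on `X`. There is a map `b : X → P` such
that homomorphisms from `P` to nilpotent groups can be prescribed on `b`, uniquely. If `P` is
residually nilpotent, then it is residually a finite `p`-group.
-/

set_option autoImplicit false

namespace Run7.h241.PF

open Subgroup

open scoped commutatorElement

universe u v w

/-- `P` has the same lower central quotients as the free group on `X`. -/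
def SameLCQ (P : Type u) (X : Type v) [Group P] : Prop :=
  ∀ n : ℕ, Nonempty (P ⧸ lc P n ≃* FreeGroup X ⧸ lc (FreeGroup X) n)

/-- three subgroups lemma modulo a normal subgroup -/
theorem three {G : Type u} [Group G] {A C D N : Subgroup G} (hN : N.Normal) (h1 : ⁅⁅C, D⁆, A⁆ ≤ N)
    (h2 : ⁅⁅D, A⁆, C⁆ ≤ N) : ⁅⁅A, C⁆, D⁆ ≤ N := by
  have key : ∀ P : Subgroup G, P ≤ N ↔ P.map (QuotientGroup.mk' N) = ⊥ := by
    intro P
    rw [← le_bot_iff, Subgroup.map_le_iff_le_comap, MonoidHom.comap_bot, QuotientGroup.ker_mk']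
  rw [key, Subgroup.map_commutator, Subgroup.map_commutator] at h1 h2 ⊢
  exact Subgroup.commutator_commutator_eq_bot_of_rotate h1 h2

theorem comm_lc {G : Type u} [Group G] (i j : ℕ) : ⁅lc G i, lc G j⁆ ≤ lc G (i + j + 1) := by
  induction j generalizing i with
  | zero => exact le_rfl
  | succ j ih =>
    have hN : (lc G (i + (j + 1) + 1)).Normal := inferInstance
    rw [Subgroup.commutator_comm]
    change ⁅⁅lc G j, ⊤⁆, lc G i⁆ ≤ _
    refine three hN ?_ ?_
    · have h1 := ih (i + 1)
      rw [Subgroup.commutator_comm ⊤ (lc G i)]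
      have h2 : i + 1 + j + 1 = i + (j + 1) + 1 := by omega
      rw [h2] at h1
      exact h1
    · have h1 := Subgroup.commutator_mono (ih i) (le_refl (⊤ : Subgroup G))
      exact h1

theorem comm_cancel {G : Type u} [Group G] {A A' Y Y' : G} (c1 : A' * A = A * A')
    (c2 : A' * Y = Y * A') (c3 : A' * Y' = Y' * A') (c4 : A * Y' = Y' * A) :
    ⁅A * A', Y * Y'⁆ = ⁅A, Y⁆ := by
  have s1 : A * A' * (Y * Y') = A * (Y * Y') * A' := by
    rw [mul_assoc A A', ← mul_assoc A' Y, c2, mul_assoc Y A', c3, mul_assoc A, mul_assoc Y]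
  have s2 : Y' * A⁻¹ = A⁻¹ * Y' := by
    rw [mul_inv_eq_iff_eq_mul, mul_assoc, ← c4, inv_mul_cancel_left]
  rw [commutatorElement_def, commutatorElement_def, s1]
  have s3 : A * (Y * Y') * A' * (A * A')⁻¹ * (Y * Y')⁻¹ = A * Y * (Y' * A⁻¹) * Y'⁻¹ * Y⁻¹ := by
    group
  rw [s3, s2]
  group

theorem map_lc {G : Type u} {H : Type v} [Group G] [Group H] (f : G →* H)
    (hf : Function.Surjective f) (n : ℕ) : (lc G n).map f = lc H n := by
  induction n with
  | zero => exact Subgroup.map_top_of_surjective f hf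
  | succ n ih =>
    change (⁅lc G n, ⊤⁆ : Subgroup G).map f = ⁅lc H n, ⊤⁆
    rw [Subgroup.map_commutator, ih, Subgroup.map_top_of_surjective f hf]

section

variable {P : Type u} [Group P] {X : Type v}

/-- membership in the lower central series of a quotient by a deeper term -/
theorem mk_mem_lc {G : Type u} [Group G] {m n : ℕ} (h : m ≤ n) (g : G) :
    (QuotientGroup.mk g : G ⧸ lc G n) ∈ lc (G ⧸ lc G n) m ↔ g ∈ lc G m := by
  constructor
  · intro hg
    have h1 : (lc G m).map (QuotientGroup.mk' (lc G n)) = lc (G ⧸ lc G n) m := by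
      rw [← map_lc (QuotientGroup.mk' (lc G n)) (QuotientGroup.mk'_surjective _)]
    rw [← h1] at hg
    obtain ⟨g', hg', h2⟩ := hg
    have h3 : g'⁻¹ * g ∈ lc G n := QuotientGroup.eq.1 h2
    have h4 : g = g' * (g'⁻¹ * g) := by group
    rw [h4]
    exact mul_mem hg' (lc_anti G h h3)
  · intro hg
    exact map_mem_lc (QuotientGroup.mk' (lc G n)) hg

theorem lc_equiv {G : Type u} {H : Type v} [Group G] [Group H] (e : G ≃* H) {n : ℕ} {x : G} :
    e x ∈ lc H n ↔ x ∈ lc G n := by
  constructor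
  · intro h
    have := map_mem_lc e.symm.toMonoidHom h
    simpa using this
  · intro h
    exact map_mem_lc e.toMonoidHom h

/-- the data of a basis: `b` lifts a basis of the abelianization -/
structure Bas (P : Type u) (X : Type v) [Group P] where
  b : X → P
  inj : ∀ (n : ℕ) (w : FreeGroup X), FreeGroup.lift b w ∈ lc P n → w ∈ lc (FreeGroup X) n
  surj : ∀ (n : ℕ) (y : P), ∃ w : FreeGroup X, (FreeGroup.lift b w)⁻¹ * y ∈ lc P n

theorem surj_aux (f : FreeGroup X →* P)
    (h1 : ∀ y : P, ∃ w : FreeGroup X, (f w)⁻¹ * y ∈ lc P 1) (n : ℕ) :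
    ∀ y ∈ lc P n, ∃ w ∈ lc (FreeGroup X) n, (f w)⁻¹ * y ∈ lc P (n + 1) := by
  induction n with
  | zero =>
    intro y _
    obtain ⟨w, hw⟩ := h1 y
    exact ⟨w, mem_top _, hw⟩
  | succ n ih =>
    -- the set of the good elements is a subgroup
    have hN : (lc P (n + 1 + 1)).Normal := inferInstance
    let K : Subgroup P :=
      { carrier := {y | ∃ w ∈ lc (FreeGroup X) (n + 1), (f w)⁻¹ * y ∈ lc P (n + 1 + 1)}
        one_mem' := ⟨1, one_mem _, by simp⟩
        mul_mem' := by
          rintro y z ⟨v, hv, hv'⟩ ⟨w, hw, hw'⟩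
          refine ⟨v * w, mul_mem hv hw, ?_⟩
          have e : (f (v * w))⁻¹ * (y * z) =
              ((f w)⁻¹ * ((f v)⁻¹ * y) * (f w)⁻¹⁻¹) * ((f w)⁻¹ * z) := by
            rw [map_mul]
            group
          rw [e]
          exact mul_mem (hN.conj_mem _ hv' _) hw'
        inv_mem' := by
          rintro y ⟨v, hv, hv'⟩
          refine ⟨v⁻¹, inv_mem hv, ?_⟩
          have e : (f v⁻¹)⁻¹ * y⁻¹ = f v * ((f v)⁻¹ * y)⁻¹ * (f v)⁻¹ := by
            rw [map_inv]
            group
          rw [e]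
          exact hN.conj_mem _ (inv_mem hv') _ }
    have hle : lc P (n + 1) ≤ K := by
      change ⁅lc P n, ⊤⁆ ≤ K
      rw [commutator_le]
      intro a ha y _
      obtain ⟨v, hv, hv'⟩ := ih a ha
      obtain ⟨w, hw⟩ := h1 y
      refine ⟨⁅v, w⁆, commutator_mem_commutator hv (mem_top _), ?_⟩
      rw [map_commutatorElement]
      -- work in the quotient
      rw [← QuotientGroup.eq]
      change (QuotientGroup.mk' (lc P (n + 1 + 1))) ⁅f v, f w⁆ =
        (QuotientGroup.mk' (lc P (n + 1 + 1))) ⁅a, y⁆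
      rw [map_commutatorElement, map_commutatorElement]
      set π := QuotientGroup.mk' (lc P (n + 1 + 1)) with hπ
      obtain ⟨a', ha', ea⟩ : ∃ a' ∈ lc P (n + 1), a = f v * a' := ⟨(f v)⁻¹ * a, hv', by group⟩
      obtain ⟨y', hy', ey⟩ : ∃ y' ∈ lc P 1, y = f w * y' := ⟨(f w)⁻¹ * y, hw, by group⟩
      -- `a'` is central modulo `lc (n+2)`, and `y'` commutes with `f v`
      have hcen : ∀ z : P, π a' * π z = π z * π a' := by
        intro z
        have h2 : ⁅a', z⁆ ∈ lc P (n + 1 + 1) := commutator_mem_commutator ha' (mem_top _)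
        have h3 : π ⁅a', z⁆ = 1 := (QuotientGroup.eq_one_iff _).2 h2
        rw [map_commutatorElement] at h3
        exact commutatorElement_eq_one_iff_mul_comm.1 h3
      have hcom : π (f v) * π y' = π y' * π (f v) := by
        have h2 : f v ∈ lc P n := map_mem_lc f hv
        have h3 : ⁅f v, y'⁆ ∈ lc P (n + 1 + 1) :=
          comm_lc (G := P) n 1 (commutator_mem_commutator h2 hy')
        have h4 : π ⁅f v, y'⁆ = 1 := (QuotientGroup.eq_one_iff _).2 h3
        rw [map_commutatorElement] at h4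
        exact commutatorElement_eq_one_iff_mul_comm.1 h4
      rw [ea, ey, map_mul, map_mul]
      exact (comm_cancel (hcen (f v)) (hcen (f w)) (hcen y') hcom).symm
    exact fun y hy => hle hy

theorem surj_all (f : FreeGroup X →* P)
    (h1 : ∀ y : P, ∃ w : FreeGroup X, (f w)⁻¹ * y ∈ lc P 1) (n : ℕ) (y : P) :
    ∃ w : FreeGroup X, (f w)⁻¹ * y ∈ lc P n := by
  induction n with
  | zero => exact ⟨1, mem_top _⟩
  | succ n ih =>
    obtain ⟨w, hw⟩ := ih
    obtain ⟨v, -, hv⟩ := surj_aux f h1 n _ hw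
    refine ⟨w * v, ?_⟩
    have e : (f (w * v))⁻¹ * y = (f v)⁻¹ * ((f w)⁻¹ * y) := by
      rw [map_mul]
      group
    rw [e]
    exact hv

/-- A group with the lower central quotients of a free group has a basis. -/
theorem exists_bas (h : SameLCQ P X) : Nonempty (Bas P X) := by
  have φ : ∀ n : ℕ, P ⧸ lc P n ≃* FreeGroup X ⧸ lc (FreeGroup X) n := fun n => (h n).some
  have hb : ∀ x : X, ∃ y : P, (QuotientGroup.mk y : P ⧸ lc P 1) =
      (φ 1).symm (QuotientGroup.mk (FreeGroup.of x)) := fun x =>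
    QuotientGroup.mk_surjective _
  choose b hb using hb
  set f : FreeGroup X →* P := FreeGroup.lift b with hf
  have hfo : ∀ x, f (FreeGroup.of x) = b x := fun x => FreeGroup.lift_apply_of
  -- `φ 1 ∘ f` is the projection
  have h1 : ∀ w, φ 1 (QuotientGroup.mk (f w)) = QuotientGroup.mk w := by
    intro w
    have h2 : ((φ 1).toMonoidHom.comp (QuotientGroup.mk' (lc P 1))).comp f =
        QuotientGroup.mk' (lc (FreeGroup X) 1) := by
      ext x
      change φ 1 (QuotientGroup.mk (f (FreeGroup.of x))) = QuotientGroup.mk (FreeGroup.of x)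
      rw [hfo, hb, MulEquiv.apply_symm_apply]
    exact DFunLike.congr_fun h2 w
  have hs1 : ∀ y : P, ∃ w : FreeGroup X, (f w)⁻¹ * y ∈ lc P 1 := by
    intro y
    obtain ⟨w, hw⟩ := QuotientGroup.mk_surjective (φ 1 (QuotientGroup.mk y))
    refine ⟨w, ?_⟩
    rw [← QuotientGroup.eq]
    apply (φ 1).injective
    rw [h1, hw]
  refine ⟨⟨b, ?_, fun n y => surj_all f hs1 n y⟩⟩
  intro n w hw
  rcases Nat.eq_zero_or_pos n with rfl | hn
  · exact mem_top _
  -- the endomorphism of `F` induced by `φ n ∘ f`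
  have hg : ∀ x : X, ∃ v : FreeGroup X, (QuotientGroup.mk v : FreeGroup X ⧸ lc (FreeGroup X) n) =
      φ n (QuotientGroup.mk (f (FreeGroup.of x))) := fun x => QuotientGroup.mk_surjective _
  choose g0 hg0 using hg
  set g : FreeGroup X →* FreeGroup X := FreeGroup.lift g0 with hgd
  have hg : ∀ v, (QuotientGroup.mk (g v) : FreeGroup X ⧸ lc (FreeGroup X) n) =
      φ n (QuotientGroup.mk (f v)) := by
    intro v
    have h2 : (QuotientGroup.mk' (lc (FreeGroup X) n)).comp g =
        ((φ n).toMonoidHom.comp (QuotientGroup.mk' (lc P n))).comp f := by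
      ext x
      change (QuotientGroup.mk (g (FreeGroup.of x)) : FreeGroup X ⧸ lc (FreeGroup X) n) =
        φ n (QuotientGroup.mk (f (FreeGroup.of x)))
      rw [hgd, FreeGroup.lift_apply_of, hg0]
    exact DFunLike.congr_fun h2 v
  refine inj_lc g (fun v hv => ?_) n w ?_
  · have h2 : φ n (QuotientGroup.mk (f v)) ∈ lc (FreeGroup X ⧸ lc (FreeGroup X) n) 1 := by
      rw [← hg, mk_mem_lc hn]
      exact hv
    rw [lc_equiv, mk_mem_lc hn] at h2
    have h3 : (QuotientGroup.mk (f v) : P ⧸ lc P 1) = 1 := (QuotientGroup.eq_one_iff _).2 h2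
    have h4 := h1 v
    rw [h3, map_one] at h4
    exact (QuotientGroup.eq_one_iff _).1 h4.symm
  · have h3 : (QuotientGroup.mk (f w) : P ⧸ lc P n) = 1 := (QuotientGroup.eq_one_iff _).2 hw
    have h4 := hg w
    rw [h3, map_one] at h4
    exact (QuotientGroup.eq_one_iff _).1 h4

/-- Homomorphisms to nilpotent groups can be prescribed on the basis. -/
theorem Bas.prescribe (B : Bas P X) {E : Type w} [Group E] [Group.IsNilpotent E] (e : X → E) :
    ∃ h : P →* E, (∀ x, h (B.b x) = e x) ∧
      ∀ n w y, (FreeGroup.lift B.b w)⁻¹ * y ∈ lc P n → lc E n = ⊥ → h y = FreeGroup.lift e w := by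
  obtain ⟨c, hc⟩ := (Subgroup.nilpotent_iff_lowerCentralSeries (G := E)).1 inferInstance
  set f : FreeGroup X →* P := FreeGroup.lift B.b with hf
  set ē : FreeGroup X →* E := FreeGroup.lift e with hē
  have hkill : ∀ v ∈ lc (FreeGroup X) c, ē v = 1 := by
    intro v hv
    have := map_mem_lc ē hv
    rw [lc, hc] at this
    exact this
  choose W hW using B.surj c
  have hwd : ∀ (v : FreeGroup X) (y : P), (f v)⁻¹ * y ∈ lc P c → ē (W y) = ē v := by
    intro v y hv
    have h1 : f (v⁻¹ * W y) ∈ lc P c := by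
      have e1 : f (v⁻¹ * W y) = ((f v)⁻¹ * y) * ((f (W y))⁻¹ * y)⁻¹ := by
        rw [map_mul, map_inv]
        group
      rw [e1]
      exact mul_mem hv (inv_mem (hW y))
    have h2 := hkill _ (B.inj c _ h1)
    rw [map_mul, map_inv] at h2
    exact (inv_mul_eq_one.1 h2).symm
  have hN : (lc P c).Normal := inferInstance
  let h : P →* E :=
    { toFun := fun y => ē (W y)
      map_one' := by
        rw [hwd 1 1 (by simp), map_one]
      map_mul' := by
        intro y z
        rw [hwd (W y * W z) (y * z) ?_, map_mul]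
        have e1 : (f (W y * W z))⁻¹ * (y * z) =
            ((f (W z))⁻¹ * ((f (W y))⁻¹ * y) * (f (W z))⁻¹⁻¹) * ((f (W z))⁻¹ * z) := by
          rw [map_mul]
          group
        rw [e1]
        exact mul_mem (hN.conj_mem _ (hW y) _) (hW z) }
  have hh : ∀ v y, (f v)⁻¹ * y ∈ lc P c → h y = ē v := hwd
  have hx : ∀ v, h (f v) = ē v := fun v => hh v _ (by rw [inv_mul_cancel]; exact one_mem _)
  refine ⟨h, fun x => ?_, fun n v y hv hn => ?_⟩
  · have h1 := hx (FreeGroup.of x)
    rw [hf, FreeGroup.lift_apply_of, hē, FreeGroup.lift_apply_of] at h1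
    exact h1
  · have h1 := map_mem_lc h hv
    rw [hn] at h1
    have h2 : h ((f v)⁻¹ * y) = 1 := h1
    rw [map_mul, map_inv, hx] at h2
    exact (inv_mul_eq_one.1 h2).symm

/-- Two homomorphisms to a nilpotent group which agree on the basis are equal. -/
theorem Bas.ext (B : Bas P X) {E : Type w} [Group E] [Group.IsNilpotent E] {h h' : P →* E}
    (hh : ∀ x, h (B.b x) = h' (B.b x)) : h = h' := by
  obtain ⟨c, hc⟩ := (Subgroup.nilpotent_iff_lowerCentralSeries (G := E)).1 inferInstance
  ext y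
  obtain ⟨w, hw⟩ := B.surj c y
  have h1 : ∀ k : P →* E, k y = k (FreeGroup.lift B.b w) := by
    intro k
    have h2 := map_mem_lc k hw
    rw [lc, hc] at h2
    have h3 : k ((FreeGroup.lift B.b w)⁻¹ * y) = 1 := h2
    rw [map_mul, map_inv] at h3
    exact (inv_mul_eq_one.1 h3).symm
  rw [h1 h, h1 h']
  have h4 : h.comp (FreeGroup.lift B.b) = h'.comp (FreeGroup.lift B.b) := by
    ext x
    change h (FreeGroup.lift B.b (FreeGroup.of x)) = h' (FreeGroup.lift B.b (FreeGroup.of x))
    rw [FreeGroup.lift_apply_of, hh]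
  exact DFunLike.congr_fun h4 w

/-- `P` is residually nilpotent. -/
def ResNil (P : Type u) [Group P] : Prop := ∀ x : P, (∀ n : ℕ, x ∈ lc P n) → x = 1

/-- Parafree groups are residually finite `p`-groups. -/
theorem res_p_one (B : Bas P X) (hP : ResNil P) (p : ℕ) [Fact p.Prime] (x : P) (hx : x ≠ 1) :
    ∃ (G : Type) (_ : Group G) (_ : Finite G) (q : P →* G), IsPGroup p G ∧ q x ≠ 1 := by
  obtain ⟨n, hn⟩ : ∃ n, x ∉ lc P n := by
    by_contra h
    push Not at h
    exact hx (hP x h)
  obtain ⟨w, hw⟩ := B.surj n x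
  have h1 : w ∉ lc (FreeGroup X) n := by
    intro h
    apply hn
    have h2 := map_mem_lc (FreeGroup.lift B.b) h
    have h3 := mul_mem h2 hw
    rwa [mul_inv_cancel_left] at h3
  obtain ⟨G, _, _, g, hpG, hg1, hg2⟩ := res_p X p n w h1
  haveI : Group.IsNilpotent G := IsPGroup.isNilpotent hpG
  obtain ⟨h, hh, -⟩ := B.prescribe (fun x => g (FreeGroup.of x))
  refine ⟨G, inferInstance, inferInstance, h, hpG, ?_⟩
  have hcomp : ∀ v, h (FreeGroup.lift B.b v) = g v := by
    intro v
    have h4 : h.comp (FreeGroup.lift B.b) = g := by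
      ext x
      change h (FreeGroup.lift B.b (FreeGroup.of x)) = g (FreeGroup.of x)
      rw [FreeGroup.lift_apply_of, hh]
    exact DFunLike.congr_fun h4 v
  -- `h` kills `lc P n`
  have hk : ∀ y ∈ lc P n, h y = 1 := by
    intro y hy
    obtain ⟨c, hc⟩ := (Subgroup.nilpotent_iff_lowerCentralSeries (G := G)).1 inferInstance
    obtain ⟨v, hv⟩ := B.surj (max n c) y
    have h5 : FreeGroup.lift B.b v ∈ lc P n := by
      have h6 := lc_anti P (le_max_left n c) hv
      have h7 := mul_mem hy (inv_mem h6)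
      have e : y * ((FreeGroup.lift B.b v)⁻¹ * y)⁻¹ = FreeGroup.lift B.b v := by group
      rwa [e] at h7
    have h8 := hg1 _ (B.inj n v h5)
    have h9 := map_mem_lc h (lc_anti P (le_max_right n c) hv)
    rw [lc, hc] at h9
    have h10 : h ((FreeGroup.lift B.b v)⁻¹ * y) = 1 := h9
    rw [map_mul, map_inv, hcomp, h8, inv_one, one_mul] at h10
    exact h10
  have h5 := hk _ hw
  rw [map_mul, map_inv, hcomp] at h5
  rw [← inv_mul_eq_one.1 h5]
  exact hg2

theorem isPGroup_prod {p : ℕ} {G H : Type} [Group G] [Group H] (hG : IsPGroup p G)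
    (hH : IsPGroup p H) : IsPGroup p (G × H) := by
  rintro ⟨a, b⟩
  obtain ⟨k, hk⟩ := hG a
  obtain ⟨l, hl⟩ := hH b
  refine ⟨k + l, ?_⟩
  rw [Prod.pow_mk, pow_add, pow_mul, hk, one_pow, mul_comm, pow_mul, hl, one_pow]
  rfl

theorem res_p_finset (B : Bas P X) (hP : ResNil P) (p : ℕ) [Fact p.Prime] (T : Finset P)
    (hT : ∀ x ∈ T, x ≠ 1) :
    ∃ (G : Type) (_ : Group G) (_ : Finite G) (q : P →* G), IsPGroup p G ∧ ∀ x ∈ T, q x ≠ 1 := by
  classical
  induction T using Finset.induction_on with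
  | empty =>
    refine ⟨Unit, inferInstance, inferInstance, 1, fun g => ⟨0, Subsingleton.elim _ _⟩,
      fun x hx => absurd hx (Finset.notMem_empty x)⟩
  | insert a T _ ih =>
    obtain ⟨G, _, _, q, hG, hq⟩ := ih fun x hx => hT x (Finset.mem_insert_of_mem hx)
    obtain ⟨H, _, _, r, hH, hr⟩ := res_p_one B hP p a (hT a (Finset.mem_insert_self _ _))
    refine ⟨G × H, inferInstance, inferInstance, q.prod r, isPGroup_prod hG hH, fun x hx => ?_⟩
    intro h0
    have h1 : q x = 1 := congrArg Prod.fst h0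
    have h2 : r x = 1 := congrArg Prod.snd h0
    rcases Finset.mem_insert.1 hx with rfl | hx
    · exact hr h2
    · exact hq x hx h1

/-- Parafree groups are residually finite `p`-groups: finite subsets are mapped injectively. -/
theorem res_p_inj (B : Bas P X) (hP : ResNil P) (p : ℕ) [Fact p.Prime] (T : Finset P) :
    ∃ (G : Type) (_ : Group G) (_ : Finite G) (q : P →* G), IsPGroup p G ∧ Set.InjOn q T := by
  classical
  obtain ⟨G, _, _, q, hG, hq⟩ := res_p_finset B hP p
    (((T ×ˢ T).image fun z => z.1⁻¹ * z.2).filter fun x => x ≠ 1)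
    (fun x hx => (Finset.mem_filter.1 hx).2)
  refine ⟨G, inferInstance, inferInstance, q, hG, fun s hs t ht hst => ?_⟩
  by_contra hne
  have h1 : s⁻¹ * t ≠ 1 := fun h => hne (inv_mul_eq_one.1 h)
  refine hq (s⁻¹ * t) (Finset.mem_filter.2 ⟨Finset.mem_image.2
    ⟨(s, t), Finset.mem_product.2 ⟨hs, ht⟩, rfl⟩, h1⟩) ?_
  rw [map_mul, map_inv, hst, inv_mul_cancel]

/-- Parafree groups are torsion free. -/
theorem torsion_free (B : Bas P X) (hP : ResNil P) (x : P) (hx : x ≠ 1) : ¬ IsOfFinOrder x := by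
  intro hfin
  have ho : orderOf x ≠ 1 := fun h => hx (orderOf_eq_one_iff.1 h)
  have hpos : 0 < orderOf x := hfin.orderOf_pos
  obtain ⟨l, hl, hdl⟩ := Nat.exists_prime_and_dvd ho
  obtain ⟨m, hm⟩ := hdl
  have hy : x ^ m ≠ 1 := by
    intro h
    have h1 := orderOf_dvd_of_pow_eq_one h
    have h2 : m ≠ 0 := by
      rintro rfl
      omega
    have h3 := Nat.le_of_dvd (Nat.pos_of_ne_zero h2) h1
    have h4 := hl.two_le
    nlinarith
  have hyl : (x ^ m) ^ l = 1 := by rw [← pow_mul, mul_comm, ← hm, pow_orderOf_eq_one]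
  -- a prime different from `l`
  obtain ⟨p, hpl, hp⟩ := Nat.exists_infinite_primes (l + 1)
  haveI := Fact.mk hp
  obtain ⟨G, _, _, q, hG, hq⟩ := res_p_one B hP p _ hy
  obtain ⟨k, hk⟩ := hG (q (x ^ m))
  have h1 : orderOf (q (x ^ m)) ∣ l := orderOf_dvd_of_pow_eq_one (by rw [← map_pow, hyl, map_one])
  have h2 : orderOf (q (x ^ m)) ∣ p ^ k := orderOf_dvd_of_pow_eq_one hk
  have h3 : Nat.Coprime l (p ^ k) :=
    Nat.Coprime.pow_right _ ((Nat.coprime_primes hl hp).2 (by omega))
  have h4 : orderOf (q (x ^ m)) ∣ 1 := by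
    rw [← h3]
    exact Nat.dvd_gcd h1 h2
  exact hq (orderOf_eq_one_iff.1 (Nat.dvd_one.1 h4))

end

end Run7.h241.PF
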