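import Pool.Agent.Run7.h241.PF2

/-!
# Parafree groups: derivations with values in the functions on a finite `p`-group

Let `P` have the lower central quotients of a free group, with basis `b : X → P`, and let
`q : P → G` be a homomorphism to a finite `p`-group. Derivations `P → ℂ[G]` may be prescribed at two
elements of the basis.
-/

set_option autoImplicit false

namespace Run7.h241.PF

open Subgroup

open scoped commutatorElement

universe u v w

section Emb

open Cardinal

theorem card_padic_le (p : ℕ) [Fact p.Prime] : #ℚ_[p] ≤ 𝔠 := by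
  have h1 : #ℚ_[p] ≤ #(CauSeq ℚ (padicNorm p)) := Cardinal.mk_le_of_surjective
    (f := fun x => (Quotient.mk _ x : ℚ_[p])) (by
      intro x
      exact Quotient.exists_rep x)
  refine h1.trans ((Cardinal.mk_subtype_le _).trans ?_)
  have h2 : #(ℕ → ℚ) = 𝔠 := by
    rw [Cardinal.mk_arrow]
    simp
  exact h2.le

theorem exists_emb (p : ℕ) [Fact p.Prime] : Nonempty (ℚ_[p] →+* ℂ) := by
  have hge : 𝔠 ≤ #ℚ_[p] := continuum_le_cardinal_of_nontriviallyNormedField ℚ_[p]
  have h1 : #(AlgebraicClosure ℚ_[p]) ≤ 𝔠 := by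
    refine (Algebra.IsAlgebraic.cardinalMk_le_max ℚ_[p] (AlgebraicClosure ℚ_[p])).trans ?_
    exact max_le (card_padic_le p) Cardinal.aleph0_le_continuum
  have h2 : 𝔠 ≤ #(AlgebraicClosure ℚ_[p]) :=
    hge.trans (Cardinal.mk_le_of_injective (algebraMap ℚ_[p] (AlgebraicClosure ℚ_[p])).injective)
  have h3 : #(AlgebraicClosure ℚ_[p]) = #ℂ := by
    rw [le_antisymm h1 h2, Cardinal.mk_complex]
  obtain ⟨e⟩ := IsAlgClosed.ringEquiv_of_equiv_of_charZero (K := AlgebraicClosure ℚ_[p]) (L := ℂ)
    (by rw [le_antisymm h1 h2]; exact Cardinal.aleph0_lt_continuum) (Cardinal.eq.1 h3)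
  exact ⟨e.toRingHom.comp (algebraMap ℚ_[p] (AlgebraicClosure ℚ_[p]))⟩

end Emb

/-- The semidirect product of `R^G` and `G`. -/
@[ext] structure Af (G R : Type) where
  v : G → R
  g : G

namespace Af

variable {G R : Type} [Group G] [CommRing R]

instance : Mul (Af G R) := ⟨fun a b => ⟨fun x => a.v x + b.v (a.g⁻¹ * x), a.g * b.g⟩⟩

instance : One (Af G R) := ⟨⟨fun _ => 0, 1⟩⟩

instance : Inv (Af G R) := ⟨fun a => ⟨fun x => -a.v (a.g * x), a.g⁻¹⟩⟩

theorem mul_v (a b : Af G R) (x : G) : (a * b).v x = a.v x + b.v (a.g⁻¹ * x) := rfl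
theorem mul_g (a b : Af G R) : (a * b).g = a.g * b.g := rfl
theorem one_v (x : G) : (1 : Af G R).v x = 0 := rfl
theorem one_g : (1 : Af G R).g = 1 := rfl
theorem inv_v (a : Af G R) (x : G) : a⁻¹.v x = -a.v (a.g * x) := rfl
theorem inv_g (a : Af G R) : a⁻¹.g = a.g⁻¹ := rfl

theorem ext' {a b : Af G R} (h : ∀ x, a.v x = b.v x) (h' : a.g = b.g) : a = b :=
  Af.ext (funext h) h'

instance : Group (Af G R) where
  mul_assoc a b c := ext' (fun x => by
    simp only [mul_v, mul_g, mul_inv_rev, mul_assoc, add_assoc]) (mul_assoc _ _ _)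
  one_mul a := ext' (fun x => by simp [mul_v, one_v, one_g]) (one_mul _)
  mul_one a := ext' (fun x => by simp [mul_v, one_v]) (mul_one _)
  inv_mul_cancel a := ext' (fun x => by simp [mul_v, one_v, inv_v, inv_g]) (inv_mul_cancel _)

/-- the projection to `G` -/
def pr : Af G R →* G where
  toFun := Af.g
  map_one' := rfl
  map_mul' _ _ := rfl

theorem pow_v (a : Af G R) (ha : a.g = 1) (n : ℕ) :
    (a ^ n).g = 1 ∧ ∀ x, (a ^ n).v x = n * a.v x := by
  induction n with
  | zero => exact ⟨rfl, fun x => by simp [one_v]⟩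
  | succ n ih =>
    refine ⟨by rw [pow_succ, mul_g, ih.1, ha, one_mul], fun x => ?_⟩
    rw [pow_succ, mul_v, ih.1, ih.2]
    push_cast
    rw [inv_one, one_mul]
    ring

theorem isPGroup {p j : ℕ} (hG : IsPGroup p G) : IsPGroup p (Af G (ZMod (p ^ j))) := by
  intro a
  obtain ⟨k, hk⟩ := hG a.g
  refine ⟨k + j, ?_⟩
  have h1 : (a ^ p ^ k).g = 1 := by
    have h2 : (pr : Af G (ZMod (p ^ j)) →* G) (a ^ p ^ k) = (pr a) ^ p ^ k := map_pow _ _ _
    exact h2.trans hk
  have h2 := pow_v (a ^ p ^ k) h1 (p ^ j)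
  rw [← pow_mul, ← pow_add] at h2
  refine ext' (fun x => ?_) h2.1
  rw [h2.2, one_v, ZMod.natCast_self, zero_mul]

instance [Finite G] [Finite R] : Finite (Af G R) :=
  Finite.of_injective (fun a : Af G R => (a.v, a.g)) fun a b h => by
    have h1 : a.v = b.v := congrArg Prod.fst h
    have h2 : a.g = b.g := congrArg Prod.snd h
    exact Af.ext h1 h2

/-- functoriality in the ring -/
def mp {S : Type} [CommRing S] (f : R →+* S) : Af G R →* Af G S where
  toFun a := ⟨fun x => f (a.v x), a.g⟩
  map_one' := ext' (fun x => map_zero f) rfl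
  map_mul' a b := ext' (fun x => map_add f _ _) rfl

theorem mp_v {S : Type} [CommRing S] (f : R →+* S) (a : Af G R) (x : G) :
    (mp f a).v x = f (a.v x) := rfl

end Af

/-- derivations -/
def Der {P : Type u} {G : Type} {R : Type w} [Group P] [Group G] [Add R] (q : P →* G)
    (c : P → G → R) : Prop :=
  ∀ (g h : P) (x : G), c (g * h) x = c g x + c h ((q g)⁻¹ * x)

section

variable {P : Type u} [Group P] {X : Type v}

/-- Derivations with `p`-adic values are prescribed on the basis. -/
theorem der_padic (B : Bas P X) (p : ℕ) [Fact p.Prime] {G : Type} [Group G] [Finite G]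
    (hG : IsPGroup p G) (q : P →* G) (e : X → G → ℤ_[p]) :
    ∃ c : P → G → ℤ_[p], Der q c ∧ ∀ x, c (B.b x) = e x := by
  have hGn : Group.IsNilpotent G := IsPGroup.isNilpotent hG
  have hne : ∀ j, NeZero (p ^ j) := fun j => ⟨pow_ne_zero _ (Nat.Prime.ne_zero Fact.out)⟩
  have hnil : ∀ j, Group.IsNilpotent (Af G (ZMod (p ^ j))) := fun j =>
    IsPGroup.isNilpotent (Af.isPGroup (j := j) hG)
  have h1 : ∀ j : ℕ, ∃ h : P →* Af G (ZMod (p ^ j)), ∀ x, h (B.b x) =
      ⟨fun y => PadicInt.toZModPow j (e x y), q (B.b x)⟩ := by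
    intro j
    obtain ⟨h, hh, -⟩ := B.prescribe (E := Af G (ZMod (p ^ j)))
      (fun x => ⟨fun y => PadicInt.toZModPow j (e x y), q (B.b x)⟩)
    exact ⟨h, hh⟩
  choose h hh using h1
  have hg : ∀ j y, (h j y).g = q y := by
    intro j y
    have h2 : Af.pr.comp (h j) = q := by
      refine B.ext fun x => ?_
      change (h j (B.b x)).g = q (B.b x)
      rw [hh]
    exact DFunLike.congr_fun h2 y
  have hcomp : ∀ i j (hij : i ≤ j), (Af.mp (ZMod.castHom (pow_dvd_pow p hij) (ZMod (p ^ i)))).comp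
      (h j) = h i := by
    intro i j hij
    refine B.ext fun x => ?_
    change Af.mp _ (h j (B.b x)) = h i (B.b x)
    rw [hh, hh]
    refine Af.ext' (fun y => ?_) rfl
    change (ZMod.castHom (pow_dvd_pow p hij) (ZMod (p ^ i))) (PadicInt.toZModPow j (e x y)) =
      PadicInt.toZModPow i (e x y)
    rw [← PadicInt.zmod_cast_comp_toZModPow i j hij]
    rfl
  let F : ∀ k : ℕ, MvPolynomial (P × G) ℤ →+* ZMod (p ^ k) := fun k =>
    MvPolynomial.eval₂Hom (Int.castRingHom _) fun z => (h k z.1).v z.2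
  have hF : ∀ (k1 k2 : ℕ) (hk : k1 ≤ k2),
      (ZMod.castHom (pow_dvd_pow p hk) (ZMod (p ^ k1))).comp (F k2) = F k1 := by
    intro i j hij
    refine MvPolynomial.ringHom_ext (fun r => ?_) (fun z => ?_)
    · simp [F]
    · change (ZMod.castHom (pow_dvd_pow p hij) (ZMod (p ^ i))) (F j (MvPolynomial.X z)) =
        F i (MvPolynomial.X z)
      have h3 : F j (MvPolynomial.X z) = (h j z.1).v z.2 := by simp [F]
      have h4 : F i (MvPolynomial.X z) = (h i z.1).v z.2 := by simp [F]
      rw [h3, h4, ← hcomp i j hij]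
      rfl
  let c : P → G → ℤ_[p] := fun g x => PadicInt.lift hF (MvPolynomial.X (g, x))
  have hc : ∀ j g x, PadicInt.toZModPow j (c g x) = (h j g).v x := by
    intro j g x
    have h3 := RingHom.congr_fun (PadicInt.lift_spec hF j) (MvPolynomial.X (g, x))
    have h4 : F j (MvPolynomial.X (g, x)) = (h j g).v x := by simp [F]
    rw [h4] at h3
    exact h3
  refine ⟨c, fun g k x => ?_, fun x => funext fun y => ?_⟩
  · rw [← PadicInt.ext_of_toZModPow]
    intro n
    rw [map_add, hc, hc, hc, map_mul, Af.mul_v, hg]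
  · rw [← PadicInt.ext_of_toZModPow]
    intro n
    rw [hc, hh]

/-- Derivations with values in `ℂ[G]`, `G` a finite `p`-group, may be prescribed at finitely many
elements of the basis. -/
theorem der_complex (B : Bas P X) (p : ℕ) [Fact p.Prime] {G : Type} [Group G] [Finite G]
    (hG : IsPGroup p G) (q : P →* G) {Y : Type} [Fintype Y] (b : Y → X)
    (hb : Function.Injective b) (e : Y → G → ℂ) :
    ∃ c : P → G → ℂ, Der q c ∧ ∀ y, c (B.b (b y)) = e y := by
  classical
  haveI := Fintype.ofFinite G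
  obtain ⟨φ⟩ := exists_emb p
  let ψ : ℤ_[p] →+* ℂ := φ.comp (PadicInt.Coe.ringHom (p := p))
  -- elementary derivations
  have h1 : ∀ (x : X) (y : G), ∃ c : P → G → ℂ, Der q c ∧
      ∀ x', c (B.b x') = if x' = x then Pi.single y 1 else 0 := by
    intro x y
    obtain ⟨c, hc, hc'⟩ := der_padic B p hG q (fun x' => if x' = x then Pi.single y 1 else 0)
    refine ⟨fun g z => ψ (c g z), fun g k z => ?_, fun x' => ?_⟩
    · change ψ (c (g * k) z) = ψ (c g z) + ψ (c k ((q g)⁻¹ * z))
      rw [hc g k z, map_add]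
    · funext z
      change ψ (c (B.b x') z) = _
      rw [hc']
      by_cases hxx : x' = x
      · rw [if_pos hxx, if_pos hxx]
        by_cases hz : z = y
        · subst hz
          simp
        · simp [Pi.single_eq_of_ne hz]
      · rw [if_neg hxx, if_neg hxx]
        exact map_zero ψ
  choose c hc hc' using h1
  refine ⟨fun g z => ∑ i, ∑ y, e i y * c (b i) y g z, fun g k z => ?_, fun j => ?_⟩
  · rw [← Finset.sum_add_distrib]
    refine Finset.sum_congr rfl fun i _ => ?_
    rw [← Finset.sum_add_distrib]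
    refine Finset.sum_congr rfl fun y _ => ?_
    rw [hc (b i) y g k z]
    ring
  · funext z
    change ∑ i, ∑ y, e i y * c (b i) y (B.b (b j)) z = e j z
    have h2 : ∀ i y, e i y * c (b i) y (B.b (b j)) z =
        if i = j then (if z = y then e i y else 0) else 0 := by
      intro i y
      rw [hc']
      by_cases hij : i = j
      · subst hij
        rw [if_pos rfl, if_pos rfl, Pi.single_apply]
        by_cases hz : z = y <;> simp [hz]
      · rw [if_neg hij, if_neg fun h => hij (hb h).symm]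
        simp
    rw [Finset.sum_congr rfl fun i _ => Finset.sum_congr rfl fun y _ => h2 i y]
    rw [Finset.sum_eq_single j (fun i _ hij => by simp [hij]) (fun h => absurd (Finset.mem_univ _) h)]
    simp

end

end Run7.h241.PF
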