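import Pool.Agent.R372.VG.LIMG
import Pool.Agent.R372.VG.TR
import Pool.Agent.R787.PNOP
import Pool.Agent.R928.PNCLO
import Pool.Agent.R684.PN.Injc
import Pool.Agent.Run7.h241.PF3

/-!
# Cocycles in `ℓ²`: finite level, and comparison of dimensions for a subgroup
-/

set_option autoImplicit false

open scoped InnerProductSpace InnerProduct ENNReal

namespace Run7.h241.PF

open Pool.Agent.W649.ZL
open Pool.Agent.R684.PN (Coc DD DD_add DD_smul DD_zero UU mem_UU)

section Pull

variable {A X : Type}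

theorem mem_pl (e : X → A) (he : Function.Injective e) (f : lp (fun _ : A => ℂ) 2) :
    Memℓp (fun x : X => f (e x)) 2 := by
  rw [memlp_two_iff]
  exact ((memlp_two_iff _).1 f.2).comp_injective he

/-- the pull back -/
noncomputable def plFun (e : X → A) (he : Function.Injective e) (f : lp (fun _ : A => ℂ) 2) :
    lp (fun _ : X => ℂ) 2 := ⟨fun x => f (e x), mem_pl e he f⟩

theorem norm_plFun_le (e : X → A) (he : Function.Injective e) (f : lp (fun _ : A => ℂ) 2) :
    ‖plFun e he f‖ ≤ ‖f‖ := by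
  have key : ‖plFun e he f‖ ^ 2 ≤ ‖f‖ ^ 2 := by
    rw [Pool.Agent.R787.PNOP.nsq, Pool.Agent.R787.PNOP.nsq]
    exact tsum_comp_le_tsum_of_inj ((memlp_two_iff _).1 f.2) (fun _ => by positivity) he
  exact (sq_le_sq₀ (norm_nonneg _) (norm_nonneg _)).1 key

/-- the pull back as a bounded operator -/
noncomputable def pl (e : X → A) (he : Function.Injective e) :
    lp (fun _ : A => ℂ) 2 →L[ℂ] lp (fun _ : X => ℂ) 2 :=
  LinearMap.mkContinuous
    { toFun := plFun e he
      map_add' := fun f g => by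
        ext x
        rfl
      map_smul' := fun c f => by
        ext x
        rfl } 1
    (fun h => by rw [one_mul]; exact norm_plFun_le e he h)

theorem pl_apply (e : X → A) (he : Function.Injective e) (f : lp (fun _ : A => ℂ) 2) (x : X) :
    pl e he f x = f (e x) := rfl

theorem norm_pl_le (e : X → A) (he : Function.Injective e) : ‖pl e he‖ ≤ 1 :=
  LinearMap.mkContinuous_norm_le _ zero_le_one _

theorem norm_pa_le (e : X → A) (he : Function.Injective e) (f : lp (fun _ : X => ℂ) 2) :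
    ‖ContinuousLinearMap.adjoint (pl e he) f‖ ≤ ‖f‖ := by
  have h1 : ‖ContinuousLinearMap.adjoint (pl e he)‖ ≤ 1 := by
    rw [LinearIsometryEquiv.norm_map]
    exact norm_pl_le e he
  refine (ContinuousLinearMap.le_opNorm _ _).trans ?_
  calc _ ≤ 1 * ‖f‖ := by gcongr
    _ = ‖f‖ := one_mul _

end Pull

section Cmp

variable {Γ H S J : Type} [Group Γ] [Group H] [Fintype S] [Fintype J]

theorem vd_split {K : Submodule ℂ (EE H J)} (hK : IsClosed (K : Set (EE H J)))
    {I : Type} [Group I] [Fintype S] (T : EE H J →L[ℂ] EE I S) (hT : ∀ f, ‖T f‖ ≤ ‖f‖)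
    (hTK : ∀ f ∈ K, T f = 0) :
    ∑ j, ‖T (dl ((1 : H), j))‖ ^ 2 ≤ Fintype.card J - vd K := by
  have h1 := vd_sub hK (Q := ⊤) isClosed_univ le_top
  rw [vd_top] at h1
  rw [← h1]
  have hcl : IsClosed ((⊤ ⊓ Kᗮ : Submodule ℂ (EE H J)) : Set (EE H J)) := by
    rw [top_inf_eq]
    exact Submodule.isClosed_orthogonal K
  haveI : CompleteSpace K := hK.completeSpace_coe
  haveI : K.HasOrthogonalProjection := inferInstance
  have h2 : (⊤ ⊓ Kᗮ : Submodule ℂ (EE H J)).topologicalClosure = Kᗮ := by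
    rw [topcl_eq hcl, top_inf_eq]
  rw [vd_eq _ _ h2]
  refine Finset.sum_le_sum fun j _ => ?_
  set x : EE H J := dl ((1 : H), j)
  have h3 : T x = T (Kᗮ.starProjection x) := by
    have h4 : x - Kᗮ.starProjection x ∈ K := by
      have h5 : x - Kᗮ.starProjection x = K.starProjection x := by
        have := K.starProjection_add_starProjection_orthogonal x
        rw [← this]
        abel_nf
        simp
      rw [h5]
      exact Submodule.starProjection_apply_mem _ _
    have h6 := hTK _ h4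
    rw [map_sub, sub_eq_zero] at h6
    exact h6
  rw [h3]
  gcongr
  exact hT _

/-- Comparison of the dimensions for a subgroup. -/
theorem t_CMP (ι : H →* Γ) (hι : Function.Injective ι) (U : Submodule ℂ (EE Γ S))
    (hU : IsClosed (U : Set (EE Γ S))) (hI : Pool.Agent.W649.ZL.Inv U)
    (B : EE Γ S →L[ℂ] EE H J) (hB : ∀ (k : H) (f : EE Γ S), B (tr (ι k) f) = tr k (B f))
    (hinj : ∀ f ∈ U, B f = 0 → f = 0) (m : ℕ) (g : Fin m → Γ)
    (hg : ∀ (t t' : Fin m) (h : H), g t * ι h = g t' → t = t') :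
    (m : ℝ) * vd U ≤ Fintype.card J := by
  classical
  haveI : CompleteSpace U := hU.completeSpace_coe
  -- the embedding
  let e : H × (Fin m × S) → Γ × S := fun x => (g x.2.1 * ι x.1, x.2.2)
  have he : Function.Injective e := by
    rintro ⟨h, t, s⟩ ⟨h', t', s'⟩ hxy
    simp only [e, Prod.mk.injEq] at hxy
    obtain ⟨h1, rfl⟩ := hxy
    have h2 : g t * ι (h * h'⁻¹) = g t' := by
      rw [map_mul, map_inv, ← mul_assoc, h1, mul_inv_cancel_right]
    obtain rfl := hg t t' _ h2
    have h3 : ι h = ι h' := mul_left_cancel h1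
    rw [hι h3]
  let R : EE H (Fin m × S) →L[ℂ] EE Γ S := ContinuousLinearMap.adjoint (pl e he)
  have hRd : ∀ y : H × (Fin m × S), R (dl y) = dl (e y) := by
    intro y
    apply ext_inner_right ℂ
    intro v
    change ⟪ContinuousLinearMap.adjoint (pl e he) (dl y), v⟫_ℂ = _
    rw [ContinuousLinearMap.adjoint_inner_left, inner_dl_left]
    rw [inner_dl_left]
    rfl
  have hpl : ∀ (k : H) (v : EE Γ S), pl e he (tr (ι k) v) = tr k (pl e he v) := by
    intro k v
    ext ⟨h, t, s⟩
    change v (g t * ι h * ι k, s) = v (g t * ι (h * k), s)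
    rw [map_mul, mul_assoc]
  have hRe : ∀ (k : H) (f : EE H (Fin m × S)), R (tr k f) = tr (ι k) (R f) := by
    intro k f
    apply ext_inner_right ℂ
    intro v
    change ⟪ContinuousLinearMap.adjoint (pl e he) (tr k f), v⟫_ℂ =
      ⟪tr (ι k) (ContinuousLinearMap.adjoint (pl e he) f), v⟫_ℂ
    rw [ContinuousLinearMap.adjoint_inner_left, inner_tr_left, inner_tr_left,
      ContinuousLinearMap.adjoint_inner_left, ← map_inv, hpl]
  have hRn : ∀ f, ‖R f‖ ≤ ‖f‖ := fun f => norm_pa_le e he f
  let T : EE H (Fin m × S) →L[ℂ] EE Γ S := U.starProjection.comp R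
  have hTn : ∀ f, ‖T f‖ ≤ ‖f‖ := fun f =>
    (Submodule.norm_starProjection_apply_le _ _).trans (hRn f)
  let C : EE H (Fin m × S) →L[ℂ] EE H J := B.comp T
  have hC : Eqv C := by
    intro k f
    change B (U.starProjection (R (tr k f))) = tr k (B (U.starProjection (R f)))
    rw [hRe, proj_tr hI, hB]
  have h1 := rank_nullity C hC (U := ⊤) (fun k f _ => trivial) isClosed_univ
  rw [vd_top, top_inf_eq] at h1
  set K : Submodule ℂ (EE H (Fin m × S)) :=
    LinearMap.ker (C : EE H (Fin m × S) →ₗ[ℂ] EE H J) with hK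
  have hKc : IsClosed (K : Set (EE H (Fin m × S))) := ContinuousLinearMap.isClosed_ker C
  have h2 : vd ((⊤ : Submodule ℂ (EE H (Fin m × S))).map (C : EE H (Fin m × S) →ₗ[ℂ] EE H J)) ≤
      Fintype.card J := by
    rw [← vd_top (G := H)]
    exact vd_mono le_top
  have h3 := vd_split (I := Γ) (S := S) hKc T hTn (fun f hf => by
    have h4 : B (T f) = 0 := hf
    exact hinj (T f) (Submodule.starProjection_apply_mem _ _) h4)
  have h5 : ∑ j : Fin m × S, ‖T (dl ((1 : H), j))‖ ^ 2 = m * vd U := by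
    have h6 : ∀ j : Fin m × S, ‖T (dl ((1 : H), j))‖ ^ 2 =
        ‖U.starProjection (dl ((1 : Γ), j.2))‖ ^ 2 := by
      rintro ⟨t, s⟩
      change ‖U.starProjection (R (dl ((1 : H), (t, s))))‖ ^ 2 = _
      rw [hRd]
      have h7 : (dl (e ((1 : H), (t, s))) : EE Γ S) = tr (g t)⁻¹ (dl ((1 : Γ), s)) := by
        rw [tr_dl, one_mul, inv_inv]
        simp [e]
      rw [h7, proj_tr hI, norm_tr]
    rw [Finset.sum_congr rfl fun j _ => h6 j, Fintype.sum_prod_type, vd_eq U U (topcl_eq hU)]
    simp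
  rw [h5] at h3
  linarith

end Cmp

end Run7.h241.PF
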