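import Pool.Agent.Run7.h241.PF4

/-!
# Cocycles in `ℓ²`: the finite level, and the `ℓ²` bound on the number of cosets
-/

set_option autoImplicit false

open scoped InnerProductSpace InnerProduct ENNReal

namespace Run7.h241.PF

open Pool.Agent.W649.ZL
open Pool.Agent.R684.PN (Coc DD DD_add DD_smul DD_zero UU mem_UU)

/-- Finite level: if derivations may be prescribed at `r` elements, then the dimension is at least
`r - 1`. -/
theorem t_FIN {Γ G S Y : Type} [Group Γ] [Group G] [Finite G] [Fintype S] [Fintype Y] (σ : S → Γ)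
    (q : Γ →* G) (s : Y → S) (L₀ : List S)
    (hyp : ∀ e : Y → G → ℂ, ∃ c : Γ → G → ℂ, Coc q c ∧ ∀ i, c (σ (s i)) = e i) :
    ((Fintype.card Y - 1 : ℕ) : ℝ) ≤ vd (UU σ q {L₀}) := by
  classical
  haveI := Fintype.ofFinite G
  obtain ⟨hcl, hinv⟩ := Pool.Agent.R928.PNCLO.t_CLO Γ G S σ q {L₀}
  set U : Submodule ℂ (EE G S) := UU σ q {L₀} with hU
  set U₀ : Submodule ℂ (EE G S) := UU σ q ∅ with hU₀
  haveI : CompleteSpace U := hcl.completeSpace_coe
  haveI : FiniteDimensional ℂ (EE G S) := Pool.Agent.R372.VG.TR.fin_dim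
  -- the trace formula
  have h1 : vd U * Fintype.card G = Module.finrank ℂ U := by
    rw [← Pool.Agent.R372.VG.TR.sum_proj U, vd_eq U U (topcl_eq hcl), Fintype.sum_prod_type]
    have h2 : ∀ (x : G) (s : S), ‖U.starProjection (dl (x, s))‖ ^ 2 =
        ‖U.starProjection (dl ((1 : G), s))‖ ^ 2 := by
      intro x s
      have e : (dl (x, s) : EE G S) = tr x⁻¹ (dl ((1 : G), s)) := by
        rw [tr_dl, one_mul, inv_inv]
      rw [e, proj_tr hinv, norm_tr]
    simp only [h2]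
    rw [Finset.sum_const, Finset.card_univ, nsmul_eq_mul, mul_comm]
  -- many cocycles
  let ρ : U₀ →ₗ[ℂ] (Y → G → ℂ) :=
    { toFun := fun f i x => f.1 (x, s i)
      map_add' := fun f g => rfl
      map_smul' := fun a f => rfl }
  have hρ : LinearMap.range ρ = ⊤ := by
    rw [LinearMap.range_eq_top]
    intro e
    obtain ⟨c, hc, hc1⟩ := hyp e
    refine ⟨Pool.Agent.R372.VG.TR.ev σ q ⟨c, hc⟩, ?_⟩
    funext i x
    change (Pool.Agent.R372.VG.TR.ev σ q ⟨c, hc⟩).1 (x, s i) = e i x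
    rw [Pool.Agent.R372.VG.TR.ev_apply]
    exact congrFun (hc1 i) x
  have h3 : Fintype.card Y * Fintype.card G ≤ Module.finrank ℂ U₀ := by
    have h4 := LinearMap.finrank_range_le ρ
    rw [hρ, finrank_top, Module.finrank_pi_fintype] at h4
    simpa using h4
  -- the evaluation
  let E : U₀ →ₗ[ℂ] (G → ℂ) :=
    { toFun := fun f x => DD (fun s => q (σ s)) L₀ f.1 x
      map_add' := fun f g => by
        funext x
        exact DD_add _ _ _ _ _
      map_smul' := fun a f => by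
        funext x
        exact DD_smul _ _ _ _ _ }
  have h5 := LinearMap.finrank_range_add_finrank_ker E
  have h6 : Module.finrank ℂ (LinearMap.range E) ≤ Fintype.card G := by
    refine (Submodule.finrank_le _).trans ?_
    rw [Module.finrank_pi]
  have h7 : Module.finrank ℂ (LinearMap.ker E) ≤ Module.finrank ℂ U := by
    rw [← Submodule.finrank_map_subtype_eq U₀ (LinearMap.ker E)]
    refine Submodule.finrank_mono ?_
    rintro _ ⟨f, hf, rfl⟩
    have hf' : E f = 0 := hf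
    obtain ⟨hf1, -⟩ := (mem_UU _ _ _ _).1 f.2
    rw [hU, mem_UU]
    refine ⟨hf1, ?_⟩
    rintro L rfl x
    exact congrFun hf' x
  have h8 : (Fintype.card Y - 1) * Fintype.card G ≤ Module.finrank ℂ U := by
    rw [Nat.sub_mul, one_mul]
    omega
  have h9 : ((Fintype.card Y - 1 : ℕ) : ℝ) * Fintype.card G ≤ vd U * Fintype.card G := by
    rw [h1]
    exact_mod_cast h8
  have h10 : (0 : ℝ) < Fintype.card G := by exact_mod_cast Fintype.card_pos
  exact le_of_mul_le_mul_right h9 h10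

theorem DD_tr {G S : Type} [Group G] (τ : S → G) (L : List S) (k : G) (f : EE G S) (x : G) :
    DD τ L (tr k f) x = DD τ L f (x * k) := by
  induction L generalizing x with
  | nil => rfl
  | cons s L ih =>
    change tr k f (x, s) + DD τ L (tr k f) ((τ s)⁻¹ * x) = f (x * k, s) + DD τ L f ((τ s)⁻¹ * (x * k))
    rw [ih, tr_apply, mul_assoc]

theorem l2_main {Γ : Type} [Group Γ] [Group.FG Γ] (N : Subgroup Γ)
    (hN : ∀ g : Γ, (N.map (MulAut.conj g).toMonoidHom).relIndex N ≠ 0)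
    {J : Type} [Fintype J] (a : J → Γ) (ha : Subgroup.closure (Set.range a) = N)
    (j₀ : J) (ha0' : ¬ IsOfFinOrder (a j₀)) {Y : Type} [Fintype Y] (y : Y → Γ)
    (APP : ∀ T : Finset Γ, ∃ (G : Type) (_ : Group G) (_ : Finite G) (q : Γ →* G),
      Set.InjOn q T ∧ ∀ e : Y → G → ℂ, ∃ c : Γ → G → ℂ, Coc q c ∧ ∀ i, c (y i) = e i)
    (m : ℕ) (g : Fin m → Γ) (hg : ∀ t t', (g t)⁻¹ * g t' ∈ N → t = t') :
    m * (Fintype.card Y - 1) ≤ Fintype.card J - 1 := by
  classical
  obtain ⟨F, hF⟩ : ∃ F : Finset Γ, Submonoid.closure (F : Set Γ) = ⊤ :=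
    (Monoid.fg_def.1 (Group.fg_iff_monoid_fg.1 inferInstance))
  let σ : Y ⊕ F → Γ := Sum.elim y (fun x => x.1)
  have hσ : ∀ g : Γ, ∃ L : List (Y ⊕ F), (L.map σ).prod = g := by
    intro g
    have h1 : g ∈ Submonoid.closure (F : Set Γ) := by
      rw [hF]
      exact Submonoid.mem_top _
    obtain ⟨l, hl, rfl⟩ := Submonoid.exists_list_of_mem_closure h1
    refine ⟨l.attach.map fun x => Sum.inr ⟨x.1, hl x.1 x.2⟩, ?_⟩
    rw [List.map_map]
    have h2 : (σ ∘ fun x : {x // x ∈ l} => (Sum.inr ⟨x.1, hl x.1 x.2⟩ : Y ⊕ F)) =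
        fun x => x.1 := rfl
    rw [h2, List.attach_map_subtype_val]
  choose L hL using fun j => hσ (a j)
  set U : Submodule ℂ (EE Γ (Y ⊕ F)) := UU σ (MonoidHom.id Γ) {L j₀} with hU
  obtain ⟨hcl, hinv⟩ := Pool.Agent.R928.PNCLO.t_CLO Γ Γ (Y ⊕ F) σ (MonoidHom.id Γ) {L j₀}
  have h1 : ((Fintype.card Y - 1 : ℕ) : ℝ) ≤ vd U := by
    refine Pool.Agent.R372.VG.LIMG.t_LIMG Γ (Y ⊕ F) σ {L j₀} _ fun T => ?_
    obtain ⟨G, _, _, q, hq, hq'⟩ := APP T
    exact ⟨G, inferInstance, q, hq, t_FIN σ q Sum.inl (L j₀) hq'⟩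
  obtain ⟨B, hB⟩ := Pool.Agent.R787.PNOP.t_OP Γ N (Y ⊕ F) {j // j ≠ j₀} σ N.subtype
    N.subtype_injective (fun j => L j.1)
  have h2 := t_CMP N.subtype N.subtype_injective U hcl hinv B (fun k f => by
    ext ⟨h, j⟩
    rw [hB, DD_tr, tr_apply, hB, map_mul]) (fun f hf hf0 => by
    refine Pool.Agent.R684.PN.injc σ hσ N hN L ?_ (L j₀) ?_ ?_ f hf fun n j => ?_
    · simp only [hL]
      exact ha
    · rw [hL, ← ha]
      exact Subgroup.subset_closure ⟨j₀, rfl⟩
    · rw [hL]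
      exact ha0'
    · by_cases hj : j = j₀
      · subst hj
        exact ((mem_UU _ _ _ _).1 hf).2 (L j) rfl (n : Γ)
      · have h3 := hB f n ⟨j, hj⟩
        rw [hf0] at h3
        exact h3.symm) m g (fun t t' h hh => hg t t' (by
        have h3 : (g t)⁻¹ * g t' = h := by
          rw [← hh]
          simp
        rw [h3]
        exact h.2))
  have h4 : Fintype.card {j // j ≠ j₀} = Fintype.card J - 1 := by
    rw [Fintype.card_subtype_compl, Fintype.card_subtype_eq]
  rw [h4] at h2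
  have h3 : ((m * (Fintype.card Y - 1) : ℕ) : ℝ) ≤ m * vd U := by
    have : (0 : ℝ) ≤ m := Nat.cast_nonneg m
    push_cast
    gcongr
  exact_mod_cast h3.trans h2

end Run7.h241.PF
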