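import Pool.Agent.Run7.h241.PF5

/-!
# Finitely generated commensurated subgroups of parafree groups: the main theorem
-/

set_option autoImplicit false

namespace Run7.h241.PF

open Subgroup

open scoped commutatorElement

universe u v

/-- The Schreier type bound. -/
theorem bound {P : Type u} [Group P] {X : Type v} (B : Bas P X) (hP : ResNil P) (N : Subgroup P)
    (hN : ∀ g : P, (N.map (MulAut.conj g).toMonoidHom).relIndex N ≠ 0) (hN1 : N ≠ ⊥)
    (F : Finset P) (hF : closure (F : Set P) = N) (Y : Finset X) (m : ℕ) (g : Fin m → P)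
    (hg : ∀ t t', (g t)⁻¹ * g t' ∈ N → t = t') : m * (Y.card - 1) ≤ F.card - 1 := by
  classical
  let κ : Fin F.card ⊕ (Fin m ⊕ Fin Y.card) → P :=
    Sum.elim (fun i => ((F.equivFin.symm i : F) : P))
      (Sum.elim g (fun i => B.b ((Y.equivFin.symm i : Y) : X)))
  let f : FreeGroup (Fin F.card ⊕ (Fin m ⊕ Fin Y.card)) →* P := FreeGroup.lift κ
  let θ : FreeGroup (Fin F.card ⊕ (Fin m ⊕ Fin Y.card)) ⧸ f.ker →* P := QuotientGroup.kerLift f
  have hθ : Function.Injective θ := QuotientGroup.kerLift_injective f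
  let ε : Fin F.card ⊕ (Fin m ⊕ Fin Y.card) →
      FreeGroup (Fin F.card ⊕ (Fin m ⊕ Fin Y.card)) ⧸ f.ker :=
    fun s => QuotientGroup.mk (FreeGroup.of s)
  have hε : ∀ s, θ (ε s) = κ s := by
    intro s
    change f (FreeGroup.of s) = κ s
    exact FreeGroup.lift_apply_of
  have h1 : (closure (Set.range fun i => ε (Sum.inl i))).map θ = N := by
    rw [MonoidHom.map_closure, ← hF]
    congr 1
    ext x
    constructor
    · rintro ⟨_, ⟨i, rfl⟩, rfl⟩
      rw [hε]
      exact (F.equivFin.symm i).2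
    · intro hx
      refine ⟨_, ⟨F.equivFin ⟨x, hx⟩, rfl⟩, ?_⟩
      rw [hε]
      change ((F.equivFin.symm (F.equivFin ⟨x, hx⟩) : F) : P) = x
      rw [Equiv.symm_apply_apply]
  have h2 : closure (Set.range fun i => ε (Sum.inl i)) = N.comap θ := by
    rw [← h1, comap_map_eq_self_of_injective hθ]
  have h3 : (N.comap θ).map θ = N := by rw [← h2, h1]
  haveI : Group.FG (FreeGroup (Fin F.card ⊕ (Fin m ⊕ Fin Y.card)) ⧸ f.ker) := by
    infer_instance
  obtain ⟨x, hxF, hx1⟩ : ∃ x ∈ F, x ≠ 1 := by
    by_contra h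
    push Not at h
    apply hN1
    rw [← hF, closure_eq_bot_iff]
    intro x hx
    exact h x hx
  have h4 := l2_main (N.comap θ) (fun k => by
    rw [← relIndex_map_map_of_injective _ _ hθ, h3]
    have h5 : ((N.comap θ).map (MulAut.conj k).toMonoidHom).map θ =
        N.map (MulAut.conj (θ k)).toMonoidHom := by
      conv_rhs => rw [← h3]
      rw [Subgroup.map_map, Subgroup.map_map]
      congr 1
      ext z
      simp
    rw [h5]
    exact hN _) (fun i => ε (Sum.inl i)) h2 (F.equivFin ⟨x, hxF⟩) (fun hfin => by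
      have h6 := θ.isOfFinOrder hfin
      rw [hε] at h6
      have h7 : κ (Sum.inl (F.equivFin ⟨x, hxF⟩)) = x := by
        change ((F.equivFin.symm (F.equivFin ⟨x, hxF⟩) : F) : P) = x
        rw [Equiv.symm_apply_apply]
      rw [h7] at h6
      exact torsion_free B hP x hx1 h6) (fun i : Fin Y.card => ε (Sum.inr (Sum.inr i)))
    (fun T => by
      haveI : Fact (Nat.Prime 2) := ⟨Nat.prime_two⟩
      obtain ⟨G, _, _, q, hG, hq⟩ := res_p_inj B hP 2 (T.image θ)
      refine ⟨G, inferInstance, inferInstance, q.comp θ, fun s hs t ht hst => ?_, fun e => ?_⟩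
      · exact hθ (hq (by simpa using ⟨s, hs, rfl⟩) (by simpa using ⟨t, ht, rfl⟩) hst)
      · obtain ⟨c, hc, hc'⟩ := der_complex B 2 hG q (fun i => ((Y.equivFin.symm i : Y) : X))
          (fun i j hij => Y.equivFin.symm.injective (Subtype.ext hij)) e
        refine ⟨fun z => c (θ z), fun z w x => ?_, fun i => ?_⟩
        · change c (θ (z * w)) x = c (θ z) x + c (θ w) ((q (θ z))⁻¹ * x)
          rw [map_mul]
          exact hc _ _ _
        · change c (θ (ε (Sum.inr (Sum.inr i)))) = e i
          rw [hε]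
          exact hc' i) m (fun t => ε (Sum.inr (Sum.inl t))) (fun t t' h => by
      have h5 : θ ((ε (Sum.inr (Sum.inl t)))⁻¹ * ε (Sum.inr (Sum.inl t'))) ∈ N := h
      rw [map_mul, map_inv, hε, hε] at h5
      exact hg t t' h5)
  simpa using h4

/-- Rank at most one. -/
theorem cyc {P : Type u} [Group P] {X : Type v} [Subsingleton X] (B : Bas P X) (hP : ResNil P)
    (N : Subgroup P) (hN1 : N ≠ ⊥) : N.index ≠ 0 := by
  classical
  -- the free group is commutative
  have hF : ∀ v w : FreeGroup X, v * w = w * v := by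
    intro v w
    have h1 : ∀ x : X, ∀ v : FreeGroup X, v * FreeGroup.of x = FreeGroup.of x * v := by
      intro x v
      induction v using FreeGroup.induction_on with
      | C1 => simp
      | of y => rw [Subsingleton.elim y x]
      | inv_of y h => rw [Subsingleton.elim y x]; simp
      | mul a b ha hb => rw [mul_assoc, hb, ← mul_assoc, ha, mul_assoc]
    induction w using FreeGroup.induction_on with
    | C1 => simp
    | of y => exact h1 y v
    | inv_of y h => rw [mul_inv_eq_iff_eq_mul, mul_assoc, h, inv_mul_cancel_left]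
    | mul a b ha hb => rw [← mul_assoc, ha, mul_assoc, hb, mul_assoc]
  -- `P` is commutative
  have hcomm : ∀ y z : P, y * z = z * y := by
    intro y z
    have h1 : ⁅y, z⁆ = 1 := by
      refine hP _ fun n => ?_
      obtain ⟨v, hv⟩ := B.surj n y
      obtain ⟨w, hw⟩ := B.surj n z
      have h2 : (QuotientGroup.mk' (lc P n)) ⁅y, z⁆ = 1 := by
        have h3 : (QuotientGroup.mk' (lc P n)) y = (QuotientGroup.mk' (lc P n)) (FreeGroup.lift B.b v) :=
          (QuotientGroup.eq.2 hv).symm
        have h4 : (QuotientGroup.mk' (lc P n)) z = (QuotientGroup.mk' (lc P n)) (FreeGroup.lift B.b w) :=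
          (QuotientGroup.eq.2 hw).symm
        rw [map_commutatorElement, h3, h4, commutatorElement_eq_one_iff_mul_comm, ← map_mul,
          ← map_mul, ← map_mul, ← map_mul, hF]
      exact (QuotientGroup.eq_one_iff _).1 h2
    exact commutatorElement_eq_one_iff_mul_comm.1 h1
  have hlc : lc P 1 = ⊥ := by
    rw [eq_bot_iff]
    change ⁅(⊤ : Subgroup P), ⊤⁆ ≤ ⊥
    rw [commutator_le]
    intro a _ b _
    rw [mem_bot, commutatorElement_eq_one_iff_mul_comm]
    exact hcomm a b
  have hsurj : ∀ y : P, ∃ w, FreeGroup.lift B.b w = y := by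
    intro y
    obtain ⟨w, hw⟩ := B.surj 1 y
    rw [hlc, mem_bot] at hw
    exact ⟨w, inv_mul_eq_one.1 hw⟩
  obtain ⟨t, ht⟩ : ∃ t : P, ∀ w : FreeGroup X, ∃ n : ℤ, t ^ n = FreeGroup.lift B.b w := by
    rcases isEmpty_or_nonempty X with h | ⟨⟨x⟩⟩
    · exact ⟨1, fun w => ⟨0, by rw [Subsingleton.elim w 1, map_one, zpow_zero]⟩⟩
    · refine ⟨B.b x, fun w => ?_⟩
      induction w using FreeGroup.induction_on with
      | C1 => exact ⟨0, by simp⟩
      | of y => exact ⟨1, by rw [Subsingleton.elim y x, FreeGroup.lift_apply_of, zpow_one]⟩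
      | inv_of y h =>
        obtain ⟨n, hn⟩ := h
        exact ⟨-n, by rw [map_inv, ← hn, zpow_neg]⟩
      | mul a b ha hb =>
        obtain ⟨n, hn⟩ := ha
        obtain ⟨k, hk⟩ := hb
        exact ⟨n + k, by rw [map_mul, ← hn, ← hk, zpow_add]⟩
  have ht' : ∀ y : P, ∃ n : ℤ, t ^ n = y := by
    intro y
    obtain ⟨w, rfl⟩ := hsurj y
    exact ht w
  obtain ⟨a, haN, ha1⟩ : ∃ a ∈ N, a ≠ 1 := by
    by_contra h
    push Not at h
    exact hN1 (eq_bot_iff.2 fun x hx => mem_bot.2 (h x hx))
  obtain ⟨n, rfl⟩ := ht' a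
  have hn : n ≠ 0 := by
    rintro rfl
    exact ha1 (zpow_zero _)
  have hn' : 0 < n.natAbs := Int.natAbs_pos.2 hn
  have hk : t ^ (n.natAbs : ℤ) ∈ N := by
    rcases Int.natAbs_eq n with h | h
    · rw [← h]
      exact haN
    · have h2 : (n.natAbs : ℤ) = -n := by omega
      rw [h2, zpow_neg]
      exact inv_mem haN
  haveI : Finite (P ⧸ N) := by
    refine Finite.of_surjective (fun i : Fin n.natAbs => (QuotientGroup.mk (t ^ (i : ℕ)) : P ⧸ N)) ?_
    intro z
    obtain ⟨y, rfl⟩ := QuotientGroup.mk_surjective z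
    obtain ⟨j, rfl⟩ := ht' y
    have h0 : (0 : ℤ) < n.natAbs := by exact_mod_cast hn'
    have h1 := Int.emod_nonneg j h0.ne'
    have h2 := Int.emod_lt_of_pos j h0
    refine ⟨⟨(j % n.natAbs).toNat, by omega⟩, ?_⟩
    refine QuotientGroup.eq.2 ?_
    have h3 : (t ^ (j % (n.natAbs : ℤ)).toNat)⁻¹ * t ^ j = (t ^ (n.natAbs : ℤ)) ^ (j / n.natAbs) := by
      rw [← zpow_natCast t, Int.toNat_of_nonneg h1, ← zpow_neg, ← zpow_add, ← zpow_mul]
      congr 1
      have := Int.emod_add_mul_ediv j n.natAbs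
      linarith
    change (t ^ (j % (n.natAbs : ℤ)).toNat)⁻¹ * t ^ j ∈ N
    rw [h3]
    exact zpow_mem hk _
  exact index_ne_zero_of_finite

/-- A nontrivial finitely generated commensurated subgroup of a parafree group has finite index;
the Schreier inequality holds. -/
theorem main {P : Type u} [Group P] {X : Type v} (B : Bas P X) (hP : ResNil P) (N : Subgroup P)
    (hN : ∀ g : P, (N.map (MulAut.conj g).toMonoidHom).relIndex N ≠ 0) (hN1 : N ≠ ⊥)
    (F : Finset P) (hF : closure (F : Set P) = N) :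
    N.index ≠ 0 ∧ ∀ Y : Finset X, N.index * (Y.card - 1) ≤ F.card - 1 := by
  classical
  have hfin : N.index ≠ 0 := by
    rcases subsingleton_or_nontrivial X with hX | hX
    · exact cyc B hP N hN1
    · intro h0
      haveI : Infinite (P ⧸ N) := index_eq_zero_iff_infinite.1 h0
      obtain ⟨x₁, x₂, hx⟩ := exists_pair_ne X
      have h1 := bound B hP N hN hN1 F hF {x₁, x₂} (F.card + 1)
        (fun i => (Infinite.natEmbedding (P ⧸ N) i).out) (fun t t' h => by
          have h2 := QuotientGroup.eq.2 h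
          rw [QuotientGroup.out_eq', QuotientGroup.out_eq'] at h2
          exact Fin.ext ((Infinite.natEmbedding (P ⧸ N)).injective h2))
      rw [Finset.card_pair hx] at h1
      omega
  refine ⟨hfin, fun Y => ?_⟩
  haveI : Finite (P ⧸ N) := by
    by_contra h
    rw [not_finite_iff_infinite] at h
    exact hfin (index_eq_zero_iff_infinite.2 h)
  have h1 := bound B hP N hN hN1 F hF Y (Nat.card (P ⧸ N))
    (fun i => ((Finite.equivFin (P ⧸ N)).symm i).out) (fun t t' h => by
      have h2 := QuotientGroup.eq.2 h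
      rw [QuotientGroup.out_eq', QuotientGroup.out_eq'] at h2
      exact (Finite.equivFin (P ⧸ N)).symm.injective h2)
  rw [index_eq_card]
  exact h1

end Run7.h241.PF
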